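import Mathlib

/-!
Arc length reparametrisation for the generating curve of the cubic Klein bottles.
-/

open Real

namespace Pool.Agent.Lib.MP_886b5a_gt

/-- speed of the generating curve. -/
noncomputable def lam (m t : ℝ) : ℝ := m * √(4 * cos t ^ 2 + m ^ 2 * sin t ^ 2)

/-- arc length. -/
noncomputable def arc (m t : ℝ) : ℝ := ∫ s in (0 : ℝ)..t, lam m s

theorem inner_pos {m : ℝ} (hm : 0 < m) (t : ℝ) : 0 < 4 * cos t ^ 2 + m ^ 2 * sin t ^ 2 := by
  have h := sin_sq_add_cos_sq t
  rcases eq_or_ne (cos t) 0 with h0 | h0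
  · have : sin t ^ 2 = 1 := by rw [h0] at h; linarith
    rw [h0, this]; positivity
  · positivity

theorem lam_pos {m : ℝ} (hm : 0 < m) (t : ℝ) : 0 < lam m t :=
  mul_pos hm (sqrt_pos.2 (inner_pos hm t))

theorem lam_sq {m : ℝ} (hm : 0 < m) (t : ℝ) :
    lam m t ^ 2 = m ^ 2 * (4 * cos t ^ 2 + m ^ 2 * sin t ^ 2) := by
  rw [lam, mul_pow, sq_sqrt (inner_pos hm t).le]

theorem continuous_lam (m : ℝ) : Continuous (lam m) := by
  unfold lam; fun_prop

theorem contDiff_lam {m : ℝ} (hm : 0 < m) : ContDiff ℝ ((⊤ : ℕ∞) : WithTop ℕ∞) (lam m) := by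
  unfold lam
  refine contDiff_const.mul (ContDiff.sqrt (by fun_prop) fun t => (inner_pos hm t).ne')

theorem hasDerivAt_arc (m t : ℝ) : HasDerivAt (arc m) (lam m t) t :=
  ((continuous_lam m).integral_hasStrictDerivAt 0 t).hasDerivAt

theorem contDiff_arc {m : ℝ} (hm : 0 < m) : ContDiff ℝ ((⊤ : ℕ∞) : WithTop ℕ∞) (arc m) := by
  refine contDiff_infty_iff_deriv.2 ⟨fun t => (hasDerivAt_arc m t).differentiableAt, ?_⟩
  have : deriv (arc m) = lam m := funext fun t => (hasDerivAt_arc m t).deriv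
  rw [this]
  exact contDiff_lam hm

theorem arc_strictMono {m : ℝ} (hm : 0 < m) : StrictMono (arc m) :=
  strictMono_of_deriv_pos fun t => by rw [(hasDerivAt_arc m t).deriv]; exact lam_pos hm t

theorem arc_neg (m t : ℝ) : arc m (-t) = -arc m t := by
  have h : ∀ s, lam m (-s) = lam m s := fun s => by simp [lam]
  have := intervalIntegral.integral_comp_neg (a := 0) (b := t) (lam m)
  simp only [h, neg_zero] at this
  rw [arc, arc, this, intervalIntegral.integral_symm]

theorem lam_periodic (m : ℝ) : Function.Periodic (lam m) π := fun t => by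
  simp [lam, cos_add_pi, sin_add_pi]

theorem arc_add_int (m t : ℝ) (n : ℤ) : arc m (t + n * π) = arc m t + n * arc m π := by
  have hi : ∀ a b, IntervalIntegrable (lam m) MeasureTheory.volume a b := fun a b =>
    (continuous_lam m).intervalIntegrable a b
  have h1 := (lam_periodic m).intervalIntegral_add_zsmul_eq n t hi
  have h2 := (lam_periodic m).intervalIntegral_add_eq t 0
  rw [h2, zero_add, zsmul_eq_mul, zsmul_eq_mul] at h1
  rw [arc, arc, arc, ← h1, intervalIntegral.integral_add_adjacent_intervals (hi _ _) (hi _ _)]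

theorem arc_zero (m : ℝ) : arc m 0 = 0 := by simp [arc]

theorem arc_pi_pos {m : ℝ} (hm : 0 < m) : 0 < arc m π := by
  have := arc_strictMono hm pi_pos
  rwa [arc_zero] at this

theorem arc_surjective {m : ℝ} (hm : 0 < m) : Function.Surjective (arc m) := by
  intro y
  have hp := arc_pi_pos hm
  have h1 : arc m (0 + (⌊y / arc m π⌋ : ℤ) * π) ≤ y := by
    rw [arc_add_int, arc_zero, zero_add, ← le_div_iff₀ hp]
    exact Int.floor_le _
  have h2 : y ≤ arc m (0 + (⌈y / arc m π⌉ : ℤ) * π) := by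
    rw [arc_add_int, arc_zero, zero_add, ← div_le_iff₀ hp]
    exact Int.le_ceil _
  exact mem_range_of_exists_le_of_exists_ge (contDiff_arc hm).continuous ⟨_, h1⟩ ⟨_, h2⟩

theorem exists_inverse {m : ℝ} (hm : 0 < m) : ∃ τ : ℝ → ℝ,
    ContDiff ℝ ((⊤ : ℕ∞) : WithTop ℕ∞) τ ∧ (∀ y, arc m (τ y) = y) ∧ (∀ t, τ (arc m t) = t) ∧
      ∀ y, HasDerivAt τ (lam m (τ y))⁻¹ y := by
  let e := ((arc_strictMono hm).orderIsoOfSurjective _ (arc_surjective hm)).toHomeomorph
  have he : (e : ℝ → ℝ) = arc m := rfl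
  have hd : ∀ x, HasDerivAt e (lam m x) x := fun x => hasDerivAt_arc m x
  have hc := e.contDiff_symm_deriv (fun x => (lam_pos hm x).ne') hd (contDiff_arc hm)
  refine ⟨e.symm, hc, fun y => e.apply_symm_apply y, fun t => e.symm_apply_apply t, fun y => ?_⟩
  exact HasDerivAt.of_local_left_inverse e.symm.continuous.continuousAt (hd _)
    (lam_pos hm _).ne' (Filter.Eventually.of_forall fun y => e.apply_symm_apply y)

theorem arc_one_two_pi : 2 * arc 1 π = ∫ v in (0 : ℝ)..(2 * π), √(1 + 3 * cos v ^ 2) := by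
  have h := arc_add_int 1 0 2
  rw [arc_zero, zero_add, zero_add] at h
  push_cast at h
  rw [← h, arc]
  refine intervalIntegral.integral_congr fun t _ => ?_
  simp only [lam, one_mul, one_pow]
  congr 1
  nlinarith [sin_sq_add_cos_sq t]

theorem exists_param {D : ℝ} (h0 : 0 < D) (h1 : D ≤ 2 * arc 1 π) :
    ∃ m, 0 < m ∧ m ≤ 1 ∧ 2 * arc m π = D := by
  have hc : Continuous fun m => 2 * arc m π := by
    refine continuous_const.mul ?_
    refine intervalIntegral.continuous_parametric_intervalIntegral_of_continuous' ?_ 0 π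
    unfold lam Function.uncurry
    fun_prop
  have h00 : 2 * arc 0 π = 0 := by simp [arc, lam]
  obtain ⟨m, hm, hm'⟩ := intermediate_value_Icc zero_le_one hc.continuousOn
    (show D ∈ Set.Icc (2 * arc 0 π) (2 * arc 1 π) from ⟨by rw [h00]; exact h0.le, h1⟩)
  refine ⟨m, hm.1.lt_of_ne ?_, hm.2, hm'⟩
  rintro rfl
  simp only [h00] at hm'
  exact h0.ne hm'

end Pool.Agent.Lib.MP_886b5a_gt
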