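import Pool.Agent.Lib.MP_886b5a_gt.Cancel

set_option autoImplicit false
set_option linter.unusedSectionVars false

namespace Pool.Agent.Lib.MP_886b5a_gt

open MvPolynomial Module

variable {K : Type*} {L : Type*} [Field K] [Algebra A K] [IsFractionRing A K] [Field L]
  [Algebra A L] [Algebra K L] [IsScalarTower A K L]
variable {Z : Set Pt} {U V : L} {f₁ f₂ : R} {g₁ g₂ : Fin 4 → ℝ}
variable {ρ : L →ₗ[K] K} {S : Fin 3 → A} {k : ℕ}

lemma BData.rho_lin (hB : BData K U V ρ S k) (b : Fin 3 → A) : ρ (pi U V (lin b)) = 0 :=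
  (hB.ker _).2 (pi_lin_mem_F1 b)

lemma BData.rho_quad (hB : BData K U V ρ S k) (Q : Fin 3 → A) :
    ρ (pi U V (quad Q)) = algebraMap A K (Q 0 * S 0 + Q 1 * S 1 + Q 2 * S 2) := by
  have e : quad Q = C (Q 0) * m2 0 + C (Q 1) * m2 1 + C (Q 2) * m2 2 := by simp [quad, m2]
  rw [e]
  simp only [map_add, map_mul, pi_C, rho_C_mul, hB.val]

lemma BData.nondeg (hG : Geo Z f₁ f₂ g₁ g₂) (hM : Model K Z U V) (hB : BData K U V ρ S k) :
    S 0 * S 2 - S 1 ^ 2 ≠ 0 := by
  intro hΔ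
  have hinj := IsFractionRing.injective A K
  obtain ⟨l, hl⟩ := hB.prim (X 0) (X_prime)
  have hl0 : algebraMap A K (S l) ≠ 0 := fun h => hl (by
    rw [hinj (h.trans (map_zero _).symm)]; exact dvd_zero _)
  obtain ⟨e, he⟩ : ∃ e, ρ e = 1 := ⟨(algebraMap A K (S l))⁻¹ • pi U V (m2 l), by
    rw [map_smul, hB.val, smul_eq_mul, inv_mul_cancel₀ hl0]⟩
  have key : ∀ a b : A, a * S 0 + b * S 1 = 0 → a * S 1 + b * S 2 = 0 → a = 0 ∧ b = 0 := by
    intro a b h1 h2
    set W := algebraMap A L a * U + algebraMap A L b * V with hW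
    have r0 : ρ W = 0 := by simpa [pi_lin, hW] using hB.rho_lin ![0, a, b]
    have r1 : ρ (W * U) = 0 := by
      have := hB.rho_quad ![a, b, 0]
      simp only [pi_quad, Matrix.cons_val_zero, Matrix.cons_val_one, Matrix.cons_val, map_zero,
        zero_mul, add_zero, h1] at this
      rw [← this]; congr 1; ring
    have r2 : ρ (W * V) = 0 := by
      have := hB.rho_quad ![0, a, b]
      simp only [pi_quad, Matrix.cons_val_zero, Matrix.cons_val_one, Matrix.cons_val, map_zero,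
        zero_mul, zero_add, h2] at this
      rw [← this]; congr 1; ring
    have all : ∀ x, ρ ((W - algebraMap K L (ρ (W * e))) * x) = 0 := fun x => by
      obtain ⟨c0, c1, c2, hc⟩ := mem_F1.1 ((hB.ker (x - ρ x • e)).1 (by simp [he]))
      have hx : (W - algebraMap K L (ρ (W * e))) * x = c0 • W + c1 • (W * U) + c2 • (W * V)
          + ρ x • (W * e) - ρ (W * e) • x := by
        simp only [Algebra.smul_def] at hc ⊢
        linear_combination W * hc
      rw [hx]
      simp only [map_add, map_sub, map_smul, r0, r1, r2, smul_eq_mul]; ring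
    have h0 : W - algebraMap K L (ρ (W * e)) = 0 := by
      by_contra h0
      have := all ((W - algebraMap K L (ρ (W * e)))⁻¹ * e)
      rw [mul_inv_cancel_left₀ h0, he] at this
      exact one_ne_zero this
    obtain ⟨-, ha, hb⟩ := ind1 hG hM (a := -ρ (W * e)) (b := algebraMap A K a)
      (c := algebraMap A K b) (by
        simp only [map_neg, ← IsScalarTower.algebraMap_apply]; linear_combination h0)
    exact ⟨hinj (by simpa using ha), hinj (by simpa using hb)⟩
  obtain ⟨h1, h0⟩ := key (S 1) (-S 0) (by ring) (by linear_combination -hΔ)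
  obtain ⟨h2, -⟩ := key (S 2) (-S 1) (by linear_combination hΔ) (by ring)
  apply hl
  fin_cases l <;> simp_all

lemma mem_of_real_mul {W : Submodule A R} {r : ℝ} (hr : r ≠ 0) {x : R} (h : C (C r) * x ∈ W) :
    x ∈ W := by
  have := C_mul_mem (C r⁻¹) h
  rwa [← mul_assoc, ← map_mul, ← map_mul, inv_mul_cancel₀ hr, map_one, map_one, one_mul] at this

theorem caseB0 (hG : Geo Z f₁ f₂ g₁ g₂) (hM : Model K Z U V) (hB : BData K U V ρ S 0) :
    False := by
  have hΔ := hB.nondeg hG hM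
  choose s hs using fun i => HZ.eq_C (a := S i) (by simpa using hB.hom i)
  have hΔ' : s 0 * s 2 - s 1 ^ 2 ≠ 0 := fun h => hΔ (by
    rw [hs, hs, hs, ← map_mul, ← map_pow, ← map_sub, h, map_zero])
  have hN : s 0 ^ 2 + s 1 ^ 2 + s 2 ^ 2 ≠ 0 := fun h => hΔ' (by
    have : s 0 = 0 := by nlinarith [sq_nonneg (s 0), sq_nonneg (s 1), sq_nonneg (s 2)]
    have : s 1 = 0 := by nlinarith [sq_nonneg (s 0), sq_nonneg (s 1), sq_nonneg (s 2)]
    simp [*])
  obtain ⟨b₁, m₁⟩ := hB.sat hG hM (f := quad ![S 1, -S 0, 0]) (by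
    rw [hB.rho_quad]; simp [mul_comm])
  obtain ⟨b₂, m₂⟩ := hB.sat hG hM (f := quad ![0, S 2, -S 1]) (by
    rw [hB.rho_quad]; simp [mul_comm])
  obtain ⟨b₃, m₃⟩ := hB.sat hG hM (f := quad ![S 2, 0, -S 0]) (by
    rw [hB.rho_quad]; simp [mul_comm])
  set q₁ := quad ![S 1, -S 0, 0] - lin b₁ with hq₁
  set q₂ := quad ![0, S 2, -S 1] - lin b₂ with hq₂
  set q₃ := quad ![S 2, 0, -S 0] - lin b₃ with hq₃
  have all : ∀ J : Ideal R, q₁ ∈ J → q₂ ∈ J → q₃ ∈ J → ∀ f, f ∈ spn s6 J := by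
    intro J j₁ j₂ j₃
    have hu : ∀ (q : R) (b : Fin 3 → A) (a : A), q ∈ J → C a * (X 0 * (q + lin b)) ∈ spn s6 J :=
      fun q b a hq => C_mul_mem a (by
        rw [mul_add]
        exact Submodule.add_mem _ (mem_spn_ideal _ (J.mul_mem_left _ hq))
          ((Low.X0_lin b).mem_s6 J))
    have hv : ∀ (q : R) (b : Fin 3 → A) (a : A), q ∈ J → C a * (X 1 * (q + lin b)) ∈ spn s6 J :=
      fun q b a hq => C_mul_mem a (by
        rw [mul_add]
        exact Submodule.add_mem _ (mem_spn_ideal _ (J.mul_mem_left _ hq))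
          ((Low.X1_lin b).mem_s6 J))
    refine span6 (mem_of_real_mul hΔ' ?_) (mem_of_real_mul hΔ' ?_) (mem_of_real_mul hΔ' ?_)
      (mem_of_real_mul hΔ' ?_)
    · convert Submodule.sub_mem _ (Submodule.sub_mem _ (hu _ b₃ (S 0) j₃) (hv _ b₁ (S 0) j₁))
        (hu _ b₁ (S 1) j₁) using 1
      simp [hq₁, hq₃, quad, hs]; ring
    · convert Submodule.sub_mem _ (hu _ b₂ (S 0) j₂) (hv _ b₁ (S 1) j₁) using 1
      simp [hq₁, hq₂, quad, hs]; ring
    · convert Submodule.sub_mem _ (hu _ b₂ (S 1) j₂) (hv _ b₁ (S 2) j₁) using 1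
      simp [hq₁, hq₂, quad, hs]; ring
    · convert Submodule.sub_mem _ (Submodule.add_mem _ (hu _ b₂ (S 2) j₂) (hv _ b₂ (S 1) j₂))
        (hv _ b₃ (S 2) j₃) using 1
      simp [hq₂, hq₃, quad, hs]; ring
  have hsyz : C (S 2) * q₁ + C (S 0) * q₂ + C (-S 1) * q₃ = 0 := by
    have e : C (S 2) * q₁ + C (S 0) * q₂ + C (-S 1) * q₃ =
        lin fun i => -(S 2 * b₁ i + S 0 * b₂ i - S 1 * b₃ i) := by
      simp [hq₁, hq₂, hq₃, quad, lin]; ring
    have := lin_eq_zero_of_mem hG hM (e ▸ (van Z).add_mem ((van Z).add_mem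
      ((van Z).mul_mem_left _ m₁) ((van Z).mul_mem_left _ m₂)) ((van Z).mul_mem_left _ m₃))
    rw [e, this, lin_zero]
  obtain ⟨β, γ, hβγ, t₁, t₂, t₃⟩ := trip hG hM (c0 := s 2) (c1 := s 0) (c2 := -s 1)
    (by by_contra h; push Not at h; apply hN; simp_all) m₁ m₂ m₃ hsyz
    (fun p _ h => hN (by simp [hs] at h; linear_combination h))
    (fun p hp e₁ e₂ e₃ => hG.cut p hp fun f hf _ => by
      obtain ⟨a, ha⟩ := mem_spn_iff.1 (all (RingHom.ker (ev p) ⊓ van Z) ⟨e₁, m₁⟩ ⟨e₂, m₂⟩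
        ⟨e₃, m₃⟩ f)
      have e : ∑ i, C (a i) * s6 i = quad ![a 3, a 4, a 5] + lin ![a 0, a 1, a 2] := by
        simp [Fin.sum_univ_succ, s6, quad, lin]; ring
      rw [e] at ha
      obtain ⟨h1, h2⟩ := ha
      have h3 : quad ![a 3, a 4, a 5] + lin ![a 0, a 1, a 2] ∈ van Z := by
        simpa using (van Z).sub_mem hf h2
      have h4 := congrArg ρ ((hM.ker _).2 h3)
      rw [map_add, map_add, hB.rho_quad, hB.rho_lin, add_zero, map_zero] at h4
      have h5 : a 3 * S 0 + a 4 * S 1 + a 5 * S 2 = 0 :=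
        IsFractionRing.injective A K (by simpa using h4)
      set N : A := S 0 ^ 2 + S 1 ^ 2 + S 2 ^ 2 with hNdef
      have e2 : C N * (quad ![a 3, a 4, a 5] + lin ![a 0, a 1, a 2]) =
          C (a 3 * S 1 - a 4 * S 0) * q₁ + C (a 4 * S 2 - a 5 * S 1) * q₂
          + C (a 3 * S 2 - a 5 * S 0) * q₃ + lin fun i => (a 3 * S 1 - a 4 * S 0) * b₁ i
            + (a 4 * S 2 - a 5 * S 1) * b₂ i + (a 3 * S 2 - a 5 * S 0) * b₃ i
            + N * ![a 0, a 1, a 2] i := by
        have h6 := congrArg (C : A → R) h5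
        simp only [map_add, map_mul, map_zero] at h6
        simp [hq₁, hq₂, hq₃, quad, lin, hNdef]
        linear_combination (C (S 0) * X 0 ^ 2 + C (S 1) * (X 0 * X 1) + C (S 2) * X 1 ^ 2) * h6
      have h7 := (van Z).mul_mem_left (C N) h3
      rw [e2] at h7
      have h8 := lin_eq_zero_of_mem hG hM (((van Z).add_mem_iff_right ((van Z).add_mem
        ((van Z).add_mem ((van Z).mul_mem_left _ m₁) ((van Z).mul_mem_left _ m₂))
        ((van Z).mul_mem_left _ m₃))).1 h7)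
      rw [h8, lin_zero] at e2
      have h9 := congrArg (ev p) e2
      simp only [map_mul, map_add (ev p) (_ * q₁), map_add (ev p) (_ + _ * q₂),
        map_add (ev p) (_ + _ * q₃), e₁, e₂, e₃, mul_zero, add_zero, ev_C, map_zero, hNdef, hs,
        ← map_pow, ← map_add C, eval_C] at h9
      have h10 := (mul_eq_zero.1 h9).resolve_left hN
      have h11 : ev p (f - _) = 0 := h1
      rwa [map_sub, h10, sub_zero] at h11)
  have := tangent_bound hG hM s6 hβγ (all _ t₁ t₂ t₃)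
  rw [hB.dim] at this
  omega

end Pool.Agent.Lib.MP_886b5a_gt
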