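import Pool.Agent.Lib.MP_886b5a_gt.CaseD3
import Pool.Agent.Lib.MP_886b5a_gt.CaseB0

set_option autoImplicit false
set_option linter.unusedSectionVars false

namespace Pool.Agent.Lib.MP_886b5a_gt.B1c

open MvPolynomial Module

lemma cram {E : Type*} [CommRing E] {c0 c1 c2 c3 c4 : Fin 3 → E} {x0 x1 x2 x3 x4 : E}
    (h : ∀ i, c0 i * x0 + c1 i * x1 + c2 i * x2 + c3 i * x3 + c4 i * x4 = 0) (a b : Fin 3 → E) :
    det3 c0 a b * x0 + det3 c1 a b * x1 + det3 c2 a b * x2 + det3 c3 a b * x3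
      + det3 c4 a b * x4 = 0 := by
  unfold det3
  linear_combination (a 1 * b 2 - a 2 * b 1) * h 0 - (a 0 * b 2 - a 2 * b 0) * h 1
    + (a 0 * b 1 - a 1 * b 0) * h 2

lemma rels {E : Type*} [CommRing E] {c0 c1 c2 c3 c4 : Fin 3 → E} {x0 x1 x2 x3 x4 : E}
    (h : ∀ i, c0 i * x0 + c1 i * x1 + c2 i * x2 + c3 i * x3 + c4 i * x4 = 0) :
    (-det3 c1 c2 c4 * x4 - det3 c1 c2 c3 * x3 + -det3 c0 c1 c2 * x0 = 0) ∧
    (det3 c1 c3 c4 * x4 - det3 c1 c2 c3 * x2 + det3 c0 c1 c3 * x0 = 0) ∧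
    (det3 c1 c3 c4 * x3 - -det3 c1 c2 c4 * x2 + -det3 c0 c1 c4 * x0 = 0) ∧
    (-det3 c2 c3 c4 * x3 - -det3 c1 c2 c4 * x1 + det3 c0 c2 c4 * x0 = 0) ∧
    (-det3 c2 c3 c4 * x4 - det3 c1 c2 c3 * x1 + -det3 c0 c2 c3 * x0 = 0) ∧
    (-det3 c2 c3 c4 * x2 - det3 c1 c3 c4 * x1 + -det3 c0 c3 c4 * x0 = 0) := by
  have h1 := cram h c1 c2; have h2 := cram h c1 c3; have h3 := cram h c1 c4
  have h4 := cram h c2 c4; have h5 := cram h c2 c3; have h6 := cram h c3 c4
  unfold det3 at *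
  refine ⟨?_, ?_, ?_, ?_, ?_, ?_⟩
  · linear_combination -h1
  · linear_combination h2
  · linear_combination -h3
  · linear_combination h4
  · linear_combination -h5
  · linear_combination -h6

lemma pluck {E : Type*} [CommRing E] [IsDomain E] {c0 c1 c2 c3 c4 : Fin 3 → E}
    {x0 x1 x2 x3 x4 p0 p1 p2 p3 p4 : E}
    (hx : ∀ i, c0 i * x0 + c1 i * x1 + c2 i * x2 + c3 i * x3 + c4 i * x4 = 0)
    (hp : ∀ i, c0 i * p0 + c1 i * p1 + c2 i * p2 + c3 i * p3 + c4 i * p4 = 0)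
    (n3 : x0 * p3 - x3 * p0 ≠ 0) (n4 : x0 * p4 - x4 * p0 ≠ 0)
    (hc : (-det3 c1 c2 c4 - (x0 * p3 - x3 * p0)) * (x4 * p2 - x2 * p4) =
      (det3 c0 c1 c3 - (x2 * p4 - x4 * p2)) * (x3 * p0 - x0 * p3) →
      -det3 c1 c2 c4 - (x0 * p3 - x3 * p0) = 0 ∧ det3 c0 c1 c3 - (x2 * p4 - x4 * p2) = 0) :
    det3 c2 c3 c4 = -(x0 * p1 - x1 * p0) ∧ det3 c1 c3 c4 = x0 * p2 - x2 * p0 ∧
    det3 c1 c2 c4 = -(x0 * p3 - x3 * p0) ∧ det3 c1 c2 c3 = x0 * p4 - x4 * p0 ∧
    det3 c0 c3 c4 = -(x1 * p2 - x2 * p1) ∧ det3 c0 c2 c4 = x1 * p3 - x3 * p1 ∧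
    det3 c0 c2 c3 = -(x1 * p4 - x4 * p1) ∧ det3 c0 c1 c4 = -(x2 * p3 - x3 * p2) ∧
    det3 c0 c1 c3 = x2 * p4 - x4 * p2 ∧ det3 c0 c1 c2 = -(x3 * p4 - x4 * p3) := by
  obtain ⟨a1, a2, a3, a4, a5, a6⟩ := rels hx
  obtain ⟨b1, b2, b3, b4, b5, b6⟩ := rels hp
  generalize det3 c2 c3 c4 = m01 at *
  generalize det3 c1 c3 c4 = m02 at *
  generalize det3 c1 c2 c4 = m03 at *
  generalize det3 c1 c2 c3 = m04 at *
  generalize det3 c0 c3 c4 = m12 at *
  generalize det3 c0 c2 c4 = m13 at *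
  generalize det3 c0 c2 c3 = m14 at *
  generalize det3 c0 c1 c4 = m23 at *
  generalize det3 c0 c1 c3 = m24 at *
  generalize det3 c0 c1 c2 = m34 at *
  have k1 : -m03 * (x0 * p4 - x4 * p0) = m04 * (x0 * p3 - x3 * p0) := by
    linear_combination x0 * b1 - p0 * a1
  have k2 : m04 * (x2 * p4 - x4 * p2) = m24 * (x0 * p4 - x4 * p0) := by
    linear_combination x4 * b2 - p4 * a2
  obtain ⟨e03, e24⟩ := hc (mul_right_cancel₀ n4 (by
    linear_combination (x4 * p2 - x2 * p4) * k1 + (x3 * p0 - x0 * p3) * k2))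
  have e04 : m04 = x0 * p4 - x4 * p0 := mul_right_cancel₀ n3 (by
    linear_combination -k1 + (x0 * p4 - x4 * p0) * e03)
  have e03' : m03 = -(x0 * p3 - x3 * p0) := by linear_combination -e03
  have e24' : m24 = x2 * p4 - x4 * p2 := by linear_combination e24
  subst e04 e03' e24'
  have e34 : m34 = -(x3 * p4 - x4 * p3) := mul_right_cancel₀ n3 (by
    linear_combination -p3 * a1 + x3 * b1)
  have e02 : m02 = x0 * p2 - x2 * p0 := mul_right_cancel₀ n4 (by
    linear_combination x0 * b2 - p0 * a2)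
  subst e02
  have e23 : m23 = -(x2 * p3 - x3 * p2) := mul_right_cancel₀ n3 (by
    linear_combination -p3 * a3 + x3 * b3)
  have e01 : m01 = -(x0 * p1 - x1 * p0) := mul_right_cancel₀ n3 (by
    linear_combination -x0 * b4 + p0 * a4)
  subst e01
  have e13 : m13 = x1 * p3 - x3 * p1 := mul_right_cancel₀ n3 (by
    linear_combination p3 * a4 - x3 * b4)
  have e14 : m14 = -(x1 * p4 - x4 * p1) := mul_right_cancel₀ n3 (by
    linear_combination -p3 * a5 + x3 * b5)
  have e12 : m12 = -(x1 * p2 - x2 * p1) := mul_right_cancel₀ n3 (by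
    linear_combination -p3 * a6 + x3 * b6)
  exact ⟨rfl, rfl, rfl, rfl, e12, e13, e14, e23, rfl, e34⟩

lemma skew_radical {W : Type*} [AddCommGroup W] [Module ℝ W] [FiniteDimensional ℝ W]
    (hodd : Odd (finrank ℝ W)) (B : W →ₗ[ℝ] W →ₗ[ℝ] ℝ) (hB : ∀ p q, B p q = -B q p) :
    ∃ p, p ≠ 0 ∧ ∀ q, B p q = 0 := by
  let b := Module.finBasis ℝ W
  let M : Matrix (Fin (finrank ℝ W)) (Fin (finrank ℝ W)) ℝ := fun i j => B (b j) (b i)
  have hM : M.transpose = -M := by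
    ext i j; simp only [M, Matrix.transpose_apply, Matrix.neg_apply]; exact hB _ _
  have hd : M.det = 0 := by
    have h1 := Matrix.det_transpose M
    rw [hM, Matrix.det_neg, Fintype.card_fin, hodd.neg_one_pow] at h1
    linarith
  obtain ⟨w, hw, hm⟩ := Matrix.exists_mulVec_eq_zero_iff.2 hd
  refine ⟨b.equivFun.symm w, fun h => hw (b.equivFun.symm.map_eq_zero_iff.1 h), fun q => ?_⟩
  have : B (b.equivFun.symm w) = 0 := b.ext fun i => by
    have := congrFun hm i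
    simp only [M, Matrix.mulVec, dotProduct, Pi.zero_apply] at this
    simp only [Module.Basis.equivFun_symm_apply, map_sum, map_smul, LinearMap.coe_sum,
      Finset.sum_apply, LinearMap.smul_apply, smul_eq_mul, LinearMap.zero_apply]
    rw [← this]
    exact Finset.sum_congr rfl fun j _ => mul_comm _ _
  rw [this]; rfl

variable {K : Type*} {L : Type*} [Field K] [Algebra A K] [IsFractionRing A K] [Field L]
  [Algebra A L] [Algebra K L] [IsScalarTower A K L]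
variable {Z : Set Pt} {U V : L} {f₁ f₂ : R} {g₁ g₂ : Fin 4 → ℝ}
variable {ρ : L →ₗ[K] K} {S : Fin 3 → A}

lemma rel_par (hB : BData K U V ρ S 1) {x x' : Fin 5 → ℝ}
    (h : ∀ y, x 0 * eval y (S 0) + x 1 * eval y (S 1) + x 2 * eval y (S 2) = 0)
    (h' : ∀ y, x' 0 * eval y (S 0) + x' 1 * eval y (S 1) + x' 2 * eval y (S 2) = 0) :
    (![x 1 * x' 2 - x 2 * x' 1, x 2 * x' 0 - x 0 * x' 2, x 0 * x' 1 - x 1 * x' 0] :
      Fin 3 → ℝ) = 0 := by
  by_contra hc
  set c : Fin 3 → ℝ := ![x 1 * x' 2 - x 2 * x' 1, x 2 * x' 0 - x 0 * x' 2,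
    x 0 * x' 1 - x 1 * x' 0] with hcd
  obtain ⟨l, hl⟩ := Function.ne_iff.1 hc
  simp only [Pi.zero_apply] at hl
  have par : ∀ y i j, c i * eval y (S j) = c j * eval y (S i) := fun y i j => by
    have a := h y; have b := h' y
    fin_cases i <;> fin_cases j <;> simp only [hcd, Fin.zero_eta, Fin.mk_one, Fin.reduceFinMk,
      Matrix.cons_val_zero, Matrix.cons_val_one, Matrix.cons_val]
    · linear_combination x' 2 * a - x 2 * b
    · linear_combination -x' 1 * a + x 1 * b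
    · linear_combination -x' 2 * a + x 2 * b
    · linear_combination x' 0 * a - x 0 * b
    · linear_combination x' 1 * a - x 1 * b
    · linear_combination -x' 0 * a + x 0 * b
  have hd : ∀ i, S l ∣ S i := fun i => ⟨C (c i / c l), MvPolynomial.funext fun y => by
    rw [map_mul, eval_C]; field_simp; linear_combination par y l i⟩
  by_cases h0 : S l = 0
  · obtain ⟨i, hi⟩ := hB.prim (X 0) X_prime
    exact hi ((h0 ▸ dvd_zero _).trans (hd i))
  · have hu : ¬ IsUnit (S l) := fun hu => by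
      have := hu.map (constantCoeff : A →+* ℝ)
      rw [(hB.hom l).constantCoeff (by norm_num)] at this
      exact not_isUnit_zero this
    obtain ⟨π, hπ, hπd⟩ := WfDvdMonoid.exists_irreducible_factor hu h0
    obtain ⟨i, hi⟩ := hB.prim π hπ.prime
    exact hi (hπd.trans (hd i))

theorem main (hG : Geo Z f₁ f₂ g₁ g₂) (hM : Model K Z U V) (hB : BData K U V ρ S 1)
    (e : L) (a₁ a₂ : A) (s : Fin 3 → Fin 3 → A) (pu pv : Fin 3 → A)
    (he : ρ e = 1) (h₁ : HZ 1 a₁) (h₂ : HZ 1 a₂) (hs : ∀ l, HR 2 (lin (s l)))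
    (hu : HR 2 (lin pu)) (hv : HR 2 (lin pv))
    (em : ∀ l, pi U V (m2 l - lin (s l)) = algebraMap A L (S l) * e)
    (eu : pi U V (lin pu) = (U - algebraMap A L a₁) * e)
    (ev' : pi U V (lin pv) = (V - algebraMap A L a₂) * e) : False := by
  have hinj := IsFractionRing.injective A K
  have zS : ∀ i, HZ 1 (S i) := fun i => by simpa using hB.hom i
  have zl : ∀ b : Fin 3 → A, HR 2 (lin b) → HZ 2 (b 0) ∧ HZ 1 (b 1) ∧ HZ 1 (b 2) := fun b h => by
    have := (HR.coeffs_low (Q := 0) (b := b) (by simpa using h)).2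
    norm_num at this
    exact this
  have zs := fun l => zl _ (hs l)
  have zu := zl _ hu
  have zv := zl _ hv
  have dec : ∀ (b : Fin 3 → A) (w : A), pi U V (lin b) + algebraMap A L w * e = 0 →
      b = 0 ∧ w = 0 := fun b w h => by
    have h1 := congrArg ρ h
    rw [map_add, hB.rho_lin, rho_C_mul, he, map_zero, zero_add, mul_one] at h1
    have hw : w = 0 := hinj (by simpa using h1)
    exact ⟨lin_eq_zero_of_mem hG hM ((hM.ker _).1 (by simpa [hw] using h)), hw⟩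
  set x : Fin 5 → R := ![C (S 0), C (S 1), C (S 2), X 0 - C a₁, X 1 - C a₂] with hx
  set P : Fin 5 → R := ![m2 0 - lin (s 0), m2 1 - lin (s 1), m2 2 - lin (s 2), lin pu, lin pv]
    with hP
  have rx : ∀ t, HR 1 (x t) := fun t => by
    fin_cases t
    exacts [HR.C (zS 0), HR.C (zS 1), HR.C (zS 2), (HR.X 0).sub (HR.C h₁), (HR.X 1).sub (HR.C h₂)]
  have rP : ∀ t, HR 2 (P t) := fun t => by
    fin_cases t
    exacts [(hr_m2 0).sub (hs 0), (hr_m2 1).sub (hs 1), (hr_m2 2).sub (hs 2), hu, hv]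
  have hpx : ∀ t, pi U V (P t) = pi U V (x t) * e := fun t => by
    fin_cases t
    · simpa [hx, hP] using em 0
    · simpa [hx, hP] using em 1
    · simpa [hx, hP] using em 2
    · simpa [hx, hP] using eu
    · simpa [hx, hP] using ev'
  have mF : ∀ i j, x i * P j - x j * P i ∈ van Z := fun i j => (hM.ker _).1 (by
    simp only [map_sub, map_mul, hpx]; ring)
  have rowk : ∀ (r0 r1 r2 r3 r4 : R) (w : A) (b : Fin 3 → A),
      r0 * x 0 + r1 * x 1 + r2 * x 2 + r3 * x 3 + r4 * x 4 = C w →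
      r0 * P 0 + r1 * P 1 + r2 * P 2 + r3 * P 3 + r4 * P 4 = lin b →
      r0 * x 0 + r1 * x 1 + r2 * x 2 + r3 * x 3 + r4 * x 4 = 0 ∧
      r0 * P 0 + r1 * P 1 + r2 * P 2 + r3 * P 3 + r4 * P 4 = 0 := by
    intro r0 r1 r2 r3 r4 w b e1 e2
    have e3 := congrArg (pi U V) e1
    have e4 := congrArg (pi U V) e2
    simp only [map_add, map_mul, hpx, pi_C] at e3 e4
    obtain ⟨hb, hw⟩ := dec b (-w) (by rw [map_neg]; linear_combination e * e3 - e4)
    rw [neg_eq_zero] at hw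
    exact ⟨by rw [e1, hw, map_zero], by rw [e2, hb, lin_zero]⟩
  set c0 : Fin 3 → R := ![C (s 1 1) - X 1, C (s 2 1), -C (pv 1)] with hc0
  set c1 : Fin 3 → R := ![C (s 1 2 - s 0 1) + X 0, C (s 2 2 - s 1 1) - X 1, -C (pv 2 - pu 1)]
    with hc1
  set c2 : Fin 3 → R := ![-C (s 0 2), -C (s 1 2) + X 0, C (pu 2)] with hc2
  set c3 : Fin 3 → R := ![-C (S 1), -C (S 2), -(X 1 - C a₂)] with hc3
  set c4 : Fin 3 → R := ![C (S 0), C (S 1), X 0 - C a₁] with hc4
  have r0 : ∀ i, HR 1 (c0 i) := fun i => by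
    fin_cases i
    exacts [(HR.C (zs 1).2.1).sub (HR.X 1), HR.C (zs 2).2.1, (HR.C zv.2.1).neg]
  have r1 : ∀ i, HR 1 (c1 i) := fun i => by
    fin_cases i
    exacts [(HR.C ((zs 1).2.2.sub (zs 0).2.1)).add (HR.X 0),
      (HR.C ((zs 2).2.2.sub (zs 1).2.1)).sub (HR.X 1), (HR.C (zv.2.2.sub zu.2.1)).neg]
  have r2 : ∀ i, HR 1 (c2 i) := fun i => by
    fin_cases i
    exacts [(HR.C (zs 0).2.2).neg, (HR.C (zs 1).2.2).neg.add (HR.X 0), HR.C zu.2.2]
  have r3 : ∀ i, HR 1 (c3 i) := fun i => by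
    fin_cases i
    exacts [(HR.C (zS 1)).neg, (HR.C (zS 2)).neg, ((HR.X 1).sub (HR.C h₂)).neg]
  have r4 : ∀ i, HR 1 (c4 i) := fun i => by
    fin_cases i
    exacts [HR.C (zS 0), HR.C (zS 1), (HR.X 0).sub (HR.C h₁)]
  have rows : ∀ i, c0 i * x 0 + c1 i * x 1 + c2 i * x 2 + c3 i * x 3 + c4 i * x 4 = 0 ∧
      c0 i * P 0 + c1 i * P 1 + c2 i * P 2 + c3 i * P 3 + c4 i * P 4 = 0 := fun i => by
    fin_cases i
    · exact rowk _ _ _ _ _ (s 1 1 * S 0 + (s 1 2 - s 0 1) * S 1 - s 0 2 * S 2 + S 1 * a₁ - S 0 * a₂)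
        (fun t => ![0, -s 1 0, s 0 0] t - (s 1 1 * s 0 t + (s 1 2 - s 0 1) * s 1 t - s 0 2 * s 2 t)
          - S 1 * pu t + S 0 * pv t)
        (by simp [hc0, hc1, hc2, hc3, hc4, hx]; ring)
        (by simp [hc0, hc1, hc2, hc3, hc4, hP, lin, m2]; ring)
    · exact rowk _ _ _ _ _ (s 2 1 * S 0 + (s 2 2 - s 1 1) * S 1 - s 1 2 * S 2 + S 2 * a₁ - S 1 * a₂)
        (fun t => ![0, -s 2 0, s 1 0] t - (s 2 1 * s 0 t + (s 2 2 - s 1 1) * s 1 t - s 1 2 * s 2 t)
          - S 2 * pu t + S 1 * pv t)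
        (by simp [hc0, hc1, hc2, hc3, hc4, hx]; ring)
        (by simp [hc0, hc1, hc2, hc3, hc4, hP, lin, m2]; ring)
    · exact rowk _ _ _ _ _ (-(pv 1 * S 0 + (pv 2 - pu 1) * S 1 - pu 2 * S 2))
        (fun t => ![0, pv 0, -pu 0] t + (pv 1 * s 0 t + (pv 2 - pu 1) * s 1 t - pu 2 * s 2 t)
          + a₂ * pu t - a₁ * pv t)
        (by simp [hc0, hc1, hc2, hc3, hc4, hx]; ring)
        (by simp [hc0, hc1, hc2, hc3, hc4, hP, lin, m2]; ring)
  have cS := fun i => (zS i).constantCoeff one_ne_zero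
  have c₁ := h₁.constantCoeff one_ne_zero
  have c₂ := h₂.constantCoeff one_ne_zero
  have cl : ∀ b : Fin 3 → A, HR 2 (lin b) → ∀ i, constantCoeff (b i) = 0 := fun b h i => by
    fin_cases i
    exacts [(zl b h).1.constantCoeff two_ne_zero, (zl b h).2.1.constantCoeff one_ne_zero,
      (zl b h).2.2.constantCoeff one_ne_zero]
  have cs := fun l => cl _ (hs l)
  have cu := cl _ hu
  have cv := cl _ hv
  have rF : ∀ i j, HR 3 (x i * P j - x j * P i) := fun i j =>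
    ((rx i).mul' (rP j) (by norm_num)).sub ((rx j).mul' (rP i) (by norm_num))
  have l03 : Lead (x 3 * P 0 - x 0 * P 3) ![1, 0, 0, 0] :=
    lead_iff.2 (low_of_ev ((rF 3 0).sub (hr_cubR _)) fun w => by
      simp [hx, hP, m2, lin, cubR, cub, cS, c₁, c₂, cs, cu, cv]; ring)
  have l24 : Lead (x 4 * P 2 - x 2 * P 4) ![0, 0, 0, 1] :=
    lead_iff.2 (low_of_ev ((rF 4 2).sub (hr_cubR _)) fun w => by
      simp [hx, hP, m2, lin, cubR, cub, cS, c₁, c₂, cs, cu, cv]; ring)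
  have l04 : Lead (x 4 * P 0 - x 0 * P 4) ![0, 1, 0, 0] :=
    lead_iff.2 (low_of_ev ((rF 4 0).sub (hr_cubR _)) fun w => by
      simp [hx, hP, m2, lin, cubR, cub, cS, c₁, c₂, cs, cu, cv]; ring)
  obtain ⟨d01, d02, d03, d04, d12, d13, d14, d23, d24, d34⟩ :=
    pluck (fun i => (rows i).1) (fun i => (rows i).2)
    (fun h => l03.ne_zero (by simp) (by linear_combination -h))
    (fun h => l04.ne_zero (by simp) (by linear_combination -h))
    (low_cancel l03 l24
      (low_of_ev ((hr_det3 r1 r2 r4).neg.sub (rF 0 3)) fun w => by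
        simp [det3, hc1, hc2, hc4, hx, hP, m2, lin, cS, c₁, c₂, cs, cu, cv]; ring)
      (low_of_ev ((hr_det3 r0 r1 r3).sub (rF 2 4)) fun w => by
        simp [det3, hc0, hc1, hc3, hx, hP, m2, lin, cS, c₁, c₂, cs, cu, cv]; ring))
  obtain ⟨N, hN⟩ := exists_net ![c0, c1, c2, c3, c4] fun j => by
    fin_cases j
    exacts [r0, r1, r2, r3, r4]
  have ofZ : ∀ p ∈ Z, ∃ y, y ≠ 0 ∧ N y p = 0 := fun p hp => (net_iff hN p).2 fun i j k => by
    rw [map_det3]
    refine det3_all (fun j i => ev p (![c0, c1, c2, c3, c4] j i)) (fun i j k hij hjk => ?_) i j k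
    rw [← map_det3]
    have m := fun i j => mF i j p hp
    fin_cases i <;> fin_cases j <;> fin_cases k <;> simp at hij hjk <;>
      simp only [Fin.zero_eta, Fin.mk_one, Fin.reduceFinMk, Matrix.cons_val_zero,
        Matrix.cons_val_one, Matrix.cons_val, d01, d02, d03, d04, d12, d13, d14, d23, d24, d34,
        map_neg, m, neg_zero]
  have toZ : ∀ p : Pt, p.2 1 ≠ 0 → (∃ t, ev p (x t) ≠ 0) → (∃ y, y ≠ 0 ∧ N y p = 0) → p ∈ Z := by
    rintro p hp ⟨t, ht⟩ hy
    have h := (net_iff hN p).1 hy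
    have e01 := h 2 3 4; have e02 := h 1 3 4; have e03 := h 1 2 4; have e04 := h 1 2 3
    have e12 := h 0 3 4; have e13 := h 0 2 4; have e14 := h 0 2 3; have e23 := h 0 1 4
    have e24 := h 0 1 3; have e34 := h 0 1 2
    simp only [Matrix.cons_val_zero, Matrix.cons_val_one, Matrix.cons_val, d01, d02, d03, d04,
      d12, d13, d14, d23, d24, d34, map_neg, map_sub, map_mul]
      at e01 e02 e03 e04 e12 e13 e14 e23 e24 e34
    have par : ∀ i j, ev p (x i) * ev p (P j) = ev p (x j) * ev p (P i) := fun i j => by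
      fin_cases i <;> fin_cases j <;> simp only [Fin.zero_eta, Fin.mk_one, Fin.reduceFinMk] <;>
        linarith
    set ε := ev p (P t) / ev p (x t) with hε
    have hPe : ∀ j, ev p (P j) = ev p (x j) * ε := fun j => by
      rw [hε]; field_simp; linear_combination par t j
    have q0 := hPe 0; have q1 := hPe 1; have q2 := hPe 2; have q3 := hPe 3; have q4 := hPe 4
    have s0 := em 0; have s1 := em 1; have s2 := em 2
    simp only [hx, hP, m2, lin, Matrix.cons_val_zero, Matrix.cons_val_one, Matrix.cons_val,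
      map_add, map_sub, map_mul, map_pow, ev_C, ev_X, pi_C, pi_X0, pi_X1]
      at q0 q1 q2 q3 q4 s0 s1 s2 eu ev'
    have ind : ∀ f : R, ∃ (b : Fin 3 → A) (a : A),
        pi U V f = pi U V (lin b) + algebraMap A L a * e ∧
        ev p f = ev p (lin b) + eval p.1 a * ε := fun f => by
      induction f using MvPolynomial.induction_on with
      | C a => exact ⟨![a, 0, 0], 0, by simp [lin], by simp [lin]⟩
      | add f g hf hg =>
        obtain ⟨b, a, e1, e2⟩ := hf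
        obtain ⟨b', a', e1', e2'⟩ := hg
        exact ⟨b + b', a + a', by rw [map_add, e1, e1']; simp [lin]; ring,
          by rw [map_add, e2, e2']; simp [lin]; ring⟩
      | mul_X f j hf =>
        obtain ⟨b, a, e1, e2⟩ := hf
        rw [map_mul, map_mul, e1, e2]
        fin_cases j
        · refine ⟨fun t => ![0, b 0, 0] t + b 1 * s 0 t + b 2 * s 1 t + a * pu t,
            b 1 * S 0 + b 2 * S 1 + a * a₁, ?_, ?_⟩ <;> simp [lin]
          · linear_combination algebraMap A L (b 1) * s0 + algebraMap A L (b 2) * s1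
              - algebraMap A L a * eu
          · linear_combination eval p.1 (b 1) * q0 + eval p.1 (b 2) * q1 - eval p.1 a * q3
        · refine ⟨fun t => ![0, 0, b 0] t + b 1 * s 1 t + b 2 * s 2 t + a * pv t,
            b 1 * S 1 + b 2 * S 2 + a * a₂, ?_, ?_⟩ <;> simp [lin]
          · linear_combination algebraMap A L (b 1) * s1 + algebraMap A L (b 2) * s2
              - algebraMap A L a * ev'
          · linear_combination eval p.1 (b 1) * q1 + eval p.1 (b 2) * q2 - eval p.1 a * q4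
    refine hG.cut p hp fun f hf _ => ?_
    obtain ⟨b, a, e1, e2⟩ := ind f
    obtain ⟨rfl, rfl⟩ := dec b a (by rw [← e1]; exact (hM.ker _).2 hf)
    simpa using e2
  choose l hl using fun t => (rx t).exists_linearMap
  let Lm : Pt →ₗ[ℝ] (Fin 5 → ℝ) := LinearMap.pi l
  have hLm : ∀ p t, Lm p t = ev p (x t) := fun p t => hl t p
  let B : (Fin 3 → ℝ) → Pt →ₗ[ℝ] Pt →ₗ[ℝ] ℝ := fun y =>
    LinearMap.mk₂ ℝ (fun p q => N y p ⬝ᵥ Lm q) (by simp) (by simp) (by simp) (by simp)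
  have hBd : ∀ y p q, B y p q = N y p ⬝ᵥ Lm q := fun _ _ _ => rfl
  have hB0 : ∀ y p, B y p p = 0 := fun y p => by
    have k := fun i => congrArg (ev p) (rows i).1
    simp only [map_add, map_mul, map_zero] at k
    simp only [hBd, dotProduct, Fin.sum_univ_five, hN, hLm, Matrix.cons_val_zero,
      Matrix.cons_val_one, Matrix.cons_val]
    linear_combination y 0 * k 0 + y 1 * k 1 + y 2 * k 2
  have hBs : ∀ y p q, B y p q = -B y q p := fun y p q => by
    have := hB0 y (p + q)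
    simp only [map_add, LinearMap.add_apply, hB0] at this
    linarith
  have h5 : finrank ℝ Pt = 5 := by simp
  by_cases hi : Function.Injective Lm
  · have hsurj := (LinearMap.injective_iff_surjective_of_finrank_eq_finrank (by simp)).1 hi
    refine hG.net 5 N (fun y => ?_) fun p hp => ⟨toZ p (by rw [hp]; exact one_ne_zero) ?_, ofZ p⟩
    · obtain ⟨p, hp, h⟩ := skew_radical (by rw [h5]; decide) (B y) (hBs y)
      obtain ⟨q, hq⟩ := hsurj (N y p)
      exact ⟨p, hp, dotProduct_self_eq_zero.1 (by have := h q; rwa [hBd, hq] at this)⟩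
    · by_contra hn
      push Not at hn
      have : p = 0 := hi (by rw [map_zero]; funext t; rw [hLm, hn]; rfl)
      simp [this] at hp
  obtain ⟨p₁, hp₁, hp₁0⟩ := (Submodule.ne_bot_iff _).1 (mt LinearMap.ker_eq_bot.1 hi)
  rw [LinearMap.mem_ker] at hp₁
  obtain ⟨p₀, hZ, hp₀⟩ : ∃ p ∈ Z, ev p (X 1 * x 3) ≠ 0 := by
    by_contra hn
    push Not at hn
    rcases hG.prime.mem_or_mem (show X 1 * x 3 ∈ van Z from hn) with h | h
    · exact hG.X1_notMem h
    · have := congrFun (lin_eq_zero_of_mem hG hM (b := ![-a₁, 1, 0]) (by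
        convert h using 1; simp [lin, hx]; ring)) 1
      simp at this
  rw [map_mul, ev_X, ← hLm] at hp₀
  have v₀ := left_ne_zero_of_mul hp₀
  have x₀ := right_ne_zero_of_mul hp₀
  obtain ⟨y, hy, hy₀⟩ := ofZ p₀ hZ
  have ind : ∀ a b : ℝ, a • p₀ + b • p₁ = 0 → a = 0 ∧ b = 0 := fun a b h => by
    have h1 := congrFun (congrArg Lm h) 3
    simp only [map_add, map_smul, hp₁, smul_zero, add_zero, map_zero, Pi.smul_apply,
      smul_eq_mul, Pi.zero_apply, mul_eq_zero, x₀, or_false] at h1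
    subst h1
    exact ⟨rfl, by simpa [hp₁0] using h⟩
  obtain ⟨W, hW⟩ := (Submodule.span ℝ (Set.range ![p₀, p₁])).exists_isCompl
  have hW3 : finrank ℝ W = 3 := by
    have h1 := Submodule.finrank_add_eq_of_isCompl hW
    rw [finrank_span_eq_card (LinearIndependent.pair_iff.2 ind), h5] at h1
    simp at h1; omega
  obtain ⟨⟨z, hz⟩, hz0, hzr⟩ := skew_radical (by rw [hW3]; decide) ((B y).domRestrict₁₂ W W)
    fun p q => hBs y p q
  have rad₁ : ∀ q, B y p₁ q = 0 := fun q => by rw [hBs, hBd, hp₁]; simp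
  have radz : ∀ q, B y z q = 0 := fun q => by
    obtain ⟨q₁, hq₁, q₂, hq₂, rfl⟩ := Submodule.mem_sup.1 (hW.sup_eq_top ▸ Submodule.mem_top (x := q))
    obtain ⟨a, rfl⟩ := (Submodule.mem_span_range_iff_exists_fun ℝ).1 hq₁
    have k0 : B y z p₀ = 0 := by rw [hBs, hBd, hy₀]; simp
    have k1 : B y z p₁ = 0 := by rw [hBd, hp₁]; simp
    have k2 : B y z q₂ = 0 := hzr ⟨q₂, hq₂⟩
    simp [Fin.sum_univ_two, k0, k1, k2]
  have perp : ∀ w, (∀ q, B y w q = 0) → N y w 3 = 0 ∧ N y w 4 = 0 ∧ ∀ y', N y w 0 * eval y' (S 0)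
      + N y w 1 * eval y' (S 1) + N y w 2 * eval y' (S 2) = 0 := fun w hw => by
    have k3 := hw (0, ![1, 0])
    have k4 := hw (0, ![0, 1])
    have k := fun y' => hw (y', 0)
    simp [hBd, dotProduct, Fin.sum_univ_five, hLm, hx, cS, c₁, c₂] at k3 k4 k
    exact ⟨k3, k4, fun y' => by simpa [k3, k4] using k y'⟩
  obtain ⟨a3, a4, ar⟩ := perp _ rad₁
  obtain ⟨b3, b4, br⟩ := perp _ radz
  have par := rel_par hB ar br
  have n0 := congrFun par 0; have n1 := congrFun par 1; have n2 := congrFun par 2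
  simp only [Matrix.cons_val_zero, Matrix.cons_val_one, Matrix.cons_val, Pi.zero_apply]
    at n0 n1 n2
  obtain ⟨a, b, hab, hw⟩ : ∃ a b : ℝ, (a ≠ 0 ∨ b ≠ 0) ∧ N y (a • p₁ + b • z) = 0 := by
    by_cases h0 : N y p₁ = 0
    · exact ⟨1, 0, Or.inl one_ne_zero, by simp [h0]⟩
    obtain ⟨t, ht⟩ := Function.ne_iff.1 h0
    refine ⟨N y z t, -N y p₁ t, Or.inr (neg_ne_zero.2 ht), ?_⟩
    funext j
    simp only [map_add, map_smul, Pi.add_apply, Pi.smul_apply, smul_eq_mul, Pi.zero_apply]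
    fin_cases t <;> fin_cases j <;> simp only [Fin.zero_eta, Fin.mk_one, Fin.reduceFinMk,
      a3, a4, b3, b4] <;> linarith
  set w := a • p₁ + b • z with hwd
  refine hG.noLine (p := p₀) (q := p₀.2 1 • w - w.2 1 • p₀) (fun h => ?_) (by simp; ring)
    fun M => ?_
  · have h1 : (p₀.2 1 * b) • z = w.2 1 • p₀ + (-(p₀.2 1 * a)) • p₁ := by
      rw [sub_eq_zero, hwd] at h
      rw [← h]; module
    have h2 : (p₀.2 1 * b) • z = 0 := (Submodule.disjoint_def.1 hW.disjoint) _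
      (h1 ▸ (Submodule.mem_span_range_iff_exists_fun ℝ).2 ⟨![w.2 1, -(p₀.2 1 * a)], by
        simp [Fin.sum_univ_two]⟩) (W.smul_mem _ hz)
    have hz' : z ≠ 0 := fun h => hz0 (Subtype.ext h)
    have h3 := (ind _ _ (h1 ▸ h2)).2
    simp only [smul_eq_zero, mul_eq_zero, v₀, hz', false_or, or_false, neg_eq_zero] at h2 h3
    tauto
  · have key : ∀ τ : ℝ, Lm (p₀ + τ • (p₀.2 1 • w - w.2 1 • p₀)) 3 ≠ 0 →
        p₀ + τ • (p₀.2 1 • w - w.2 1 • p₀) ∈ Z := fun τ hτ =>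
      toZ _ (by convert v₀ using 1; simp; ring_nf; simp) ⟨3, by rwa [← hLm]⟩
        ⟨y, hy, by simp [hw, hy₀]⟩
    by_cases hM0 : Lm (p₀ + M • (p₀.2 1 • w - w.2 1 • p₀)) 3 ≠ 0
    · exact ⟨M, le_rfl, key M hM0⟩
    · refine ⟨M + 1, by linarith, key _ fun h => x₀ ?_⟩
      push Not at hM0
      simp only [map_add, map_smul, Pi.add_apply, Pi.smul_apply, smul_eq_mul] at h hM0
      linear_combination (M + 1) * hM0 - M * h

end Pool.Agent.Lib.MP_886b5a_gt.B1c
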