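import Pool.Agent.Lib.MP_886b5a_gt.CaseA

set_option autoImplicit false
set_option linter.unusedSectionVars false

namespace Pool.Agent.Lib.MP_886b5a_gt

open MvPolynomial Module

variable {K : Type*} {L : Type*} [Field K] [Algebra A K] [IsFractionRing A K] [Field L]
  [Algebra A L] [Algebra K L] [IsScalarTower A K L]
variable {Z : Set Pt} {U V : L} {f₁ f₂ : R} {g₁ g₂ : Fin 4 → ℝ}

lemma lin_eq_zero_of_mem (hG : Geo Z f₁ f₂ g₁ g₂) (hM : Model K Z U V) {b : Fin 3 → A}
    (hb : lin b ∈ van Z) : b = 0 := funext fun i =>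
  (Submodule.mem_bot A).1
    (satP hG hM (four_le hG hM) ⊥ Ideal.isPrime_bot (Ideal.mem_sup_right hb) i)

/-- `1, U, V` are independent over `K`. -/
lemma ind1 (hG : Geo Z f₁ f₂ g₁ g₂) (hM : Model K Z U V) {a b c : K}
    (h : algebraMap K L a + algebraMap K L b * U + algebraMap K L c * V = 0) :
    a = 0 ∧ b = 0 ∧ c = 0 := by
  obtain ⟨D, hD, z, hz⟩ := exists_denom K ![a, b, c]
  have z0 := hz 0; have z1 := hz 1; have z2 := hz 2
  simp only [Matrix.cons_val_zero, Matrix.cons_val_one, Matrix.cons_val] at z0 z1 z2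
  have h0 : z = 0 := lin_eq_zero_of_mem hG hM ((hM.ker _).1 (by
    rw [pi_lin]
    simp only [IsScalarTower.algebraMap_apply A K L, z0, z1, z2, map_mul]
    linear_combination algebraMap K L (algebraMap A K D) * h))
  have hD' : algebraMap A K D ≠ 0 := fun h0 => hD (IsFractionRing.injective A K (by simpa using h0))
  simp only [h0, Pi.zero_apply, map_zero] at z0 z1 z2
  exact ⟨(mul_eq_zero.1 z0.symm).resolve_left hD', (mul_eq_zero.1 z1.symm).resolve_left hD',
    (mul_eq_zero.1 z2.symm).resolve_left hD'⟩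

/-- The three quadratic monomials. -/
noncomputable def m2 : Fin 3 → R := ![X 0 ^ 2, X 0 * X 1, X 1 ^ 2]

lemma hr_m2 (i : Fin 3) : HR 2 (m2 i) := by
  fin_cases i
  · simpa [m2] using (HR.X 0).pow 2
  · simpa [m2] using (HR.X 0).mul' (k := 2) (HR.X 1) (by norm_num)
  · simpa [m2] using (HR.X 1).pow 2

/-- Data of the degree four case: the normalised functional killing `1, U, V`. -/
structure BData (K : Type*) {L : Type*} [Field K] [Algebra A K] [Field L] [Algebra A L]
    [Algebra K L] (U V : L) (ρ : L →ₗ[K] K) (S : Fin 3 → A) (k : ℕ) : Prop where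
  dim : finrank K L = 4
  ker : ∀ x, ρ x = 0 ↔ x ∈ F1 K U V
  int : ∀ f : R, ∃ a : A, ρ (pi U V f) = algebraMap A K a
  val : ∀ i, ρ (pi U V (m2 i)) = algebraMap A K (S i)
  prim : ∀ π : A, Prime π → ∃ i, ¬ π ∣ S i
  hom : ∀ i, HZ k (S i)

variable {ρ : L →ₗ[K] K} {S : Fin 3 → A} {k : ℕ}

lemma rho_C_mul (ρ : L →ₗ[K] K) (a : A) (x : L) :
    ρ (algebraMap A L a * x) = algebraMap A K a * ρ x := by
  rw [IsScalarTower.algebraMap_apply A K L, ← Algebra.smul_def, map_smul, smul_eq_mul]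

/-- An element killed by the functional is an affine-linear form over `A`. -/
lemma BData.sat (hG : Geo Z f₁ f₂ g₁ g₂) (hM : Model K Z U V) (hB : BData K U V ρ S k) {f : R}
    (hf : ρ (pi U V f) = 0) : ∃ b, f - lin b ∈ van Z :=
  satK hG hM (four_le hG hM) ((hB.ker _).1 hf)

/-- Expansion of any element in the basis `1, u, v, m2 l` after multiplying by `S l`. -/
lemma BData.expand (hG : Geo Z f₁ f₂ g₁ g₂) (hM : Model K Z U V) (hB : BData K U V ρ S k)
    (l : Fin 3) (f : R) : ∃ (a : A) (b : Fin 3 → A), ρ (pi U V f) = algebraMap A K a ∧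
      C (S l) * f - C a * m2 l - lin b ∈ van Z := by
  obtain ⟨a, ha⟩ := hB.int f
  obtain ⟨b, hb⟩ := hB.sat hG hM (f := C (S l) * f - C a * m2 l) (by
    rw [map_sub, map_sub, map_mul (pi U V), map_mul (pi U V), pi_C, pi_C, rho_C_mul, rho_C_mul,
      ha, hB.val]; ring)
  exact ⟨a, b, ha, hb⟩

end Pool.Agent.Lib.MP_886b5a_gt
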