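import Pool.Agent.Lib.MP_886b5a_gt.Cancel

set_option autoImplicit false
set_option linter.unusedSectionVars false

namespace Pool.Agent.Lib.MP_886b5a_gt

open MvPolynomial Module

variable {K : Type*} {L : Type*} [Field K] [Algebra A K] [IsFractionRing A K] [Field L]
  [Algebra A L] [Algebra K L] [IsScalarTower A K L]
variable {Z : Set Pt} {U V : L} {f₁ f₂ : R} {g₁ g₂ : Fin 4 → ℝ}

namespace BExists

lemma one_mem : (1 : L) ∈ F1 K U V := Submodule.subset_span ⟨0, rfl⟩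
lemma U_mem : U ∈ F1 K U V := Submodule.subset_span ⟨1, rfl⟩
lemma V_mem : V ∈ F1 K U V := Submodule.subset_span ⟨2, rfl⟩

lemma pm0 : pi U V (m2 0) = U * U := by simp [m2, sq]
lemma pm1 : pi U V (m2 1) = U * V := by simp [m2]
lemma pm2 : pi U V (m2 2) = V * V := by simp [m2, sq]

lemma mul_F1 {T : Submodule K L} (hT : F1 K U V ≤ T) (hm : ∀ l, pi U V (m2 l) ∈ T) {x : L}
    (hx : x ∈ F1 K U V) : U * x ∈ T ∧ V * x ∈ T := by
  obtain ⟨a, b, c, rfl⟩ := mem_F1.1 hx
  have h0 := T.smul_mem a (hT U_mem)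
  have h0' := T.smul_mem a (hT V_mem)
  have h1 := hm 0; have h2 := hm 1; have h3 := hm 2
  rw [pm0] at h1; rw [pm1] at h2; rw [pm2] at h3
  constructor
  · convert T.add_mem (T.add_mem h0 (T.smul_mem b h1)) (T.smul_mem c h2) using 1
    simp only [Algebra.smul_def]; ring
  · convert T.add_mem (T.add_mem h0' (T.smul_mem b h2)) (T.smul_mem c h3) using 1
    simp only [Algebra.smul_def]; ring

lemma F1_ne_top (hG : Geo Z f₁ f₂ g₁ g₂) (hM : Model K Z U V) : F1 K U V ≠ ⊤ := fun h => by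
  have h1 := finrank_range_le_card (R := K) ![(1 : L), U, V]
  have h2 := four_le hG hM
  rw [Set.finrank, ← F1, h, finrank_top] at h1
  simp at h1; omega

lemma mem_of_dual {T : Submodule K L} {x : L} (h : ∀ φ : L →ₗ[K] K, T ≤ LinearMap.ker φ → φ x = 0) :
    x ∈ T := by
  by_contra hx
  obtain ⟨φ, h1, h2⟩ := Submodule.exists_le_ker_of_notMem hx
  exact h1 (h φ h2)

lemma exists_rho0 (hG : Geo Z f₁ f₂ g₁ g₂) (hM : Model K Z U V) (e : L) (S₀ : Fin 3 → K)
    (hS : ∀ l, pi U V (m2 l) - S₀ l • e ∈ F1 K U V) :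
    finrank K L = 4 ∧ ∃ ρ : L →ₗ[K] K, (∀ x, ρ x = 0 ↔ x ∈ F1 K U V) ∧
      ∃ l, ρ (pi U V (m2 l)) ≠ 0 := by
  let : Algebra ℝ K := ((algebraMap A K).comp C).toAlgebra
  have hl : ∃ l, S₀ l ≠ 0 := by
    by_contra h
    push Not at h
    have hm : ∀ l, pi U V (m2 l) ∈ F1 K U V := fun l => by simpa [h l] using hS l
    exact F1_ne_top hG hM (hM.eq_top' _ one_mem (fun x hx => (mul_F1 le_rfl hm hx).1)
      fun x hx => (mul_F1 le_rfl hm hx).2)
  obtain ⟨l, hl⟩ := hl
  set T := F1 K U V ⊔ K ∙ e with hT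
  have hF : F1 K U V ≤ T := le_sup_left
  have he : e ∈ T := Submodule.mem_sup_right (Submodule.mem_span_singleton_self e)
  have hm : ∀ l, pi U V (m2 l) ∈ T := fun l => by
    have := T.add_mem (hF (hS l)) (T.smul_mem (S₀ l) he)
    rwa [sub_add_cancel] at this
  have key : ∀ φ : L →ₗ[K] K, T ≤ LinearMap.ker φ → φ (U * e) = 0 ∧ φ (V * e) = 0 := by
    intro φ hφ
    have hU : ∀ l, φ (U * pi U V (m2 l)) = S₀ l * φ (U * e) := fun l => by
      have : φ _ = 0 := hφ (mul_F1 hF hm (hS l)).1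
      rwa [mul_sub, mul_smul_comm, map_sub, map_smul, smul_eq_mul, sub_eq_zero] at this
    have hV : ∀ l, φ (V * pi U V (m2 l)) = S₀ l * φ (V * e) := fun l => by
      have : φ _ = 0 := hφ (mul_F1 hF hm (hS l)).2
      rwa [mul_sub, mul_smul_comm, map_sub, map_smul, smul_eq_mul, sub_eq_zero] at this
    set θ : Fin 4 → K := ![φ (U ^ 3), φ (U ^ 2 * V), φ (U * V ^ 2), φ (V ^ 3)] with hθ
    have a0 : θ 0 = S₀ 0 * φ (U * e) := by rw [← hU, pm0]; exact congrArg φ (by ring)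
    have a1 : θ 1 = S₀ 1 * φ (U * e) := by rw [← hU, pm1]; exact congrArg φ (by ring)
    have a2 : θ 2 = S₀ 2 * φ (U * e) := by rw [← hU, pm2]; exact congrArg φ (by ring)
    have b1 : θ 1 = S₀ 0 * φ (V * e) := by rw [← hV, pm0]; exact congrArg φ (by ring)
    have b2 : θ 2 = S₀ 1 * φ (V * e) := by rw [← hV, pm1]; exact congrArg φ (by ring)
    have b3 : θ 3 = S₀ 2 * φ (V * e) := by rw [← hV, pm2]; exact congrArg φ (by ring)
    have hd : ∀ f g, f ∈ van Z → Lead f g → dot4 g θ = 0 := by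
      rintro f g hf ⟨Q, b, rfl⟩
      have h0 := congrArg φ ((hM.ker _).2 hf)
      have q0 : φ (U ^ 2) = 0 := by rw [sq, ← pm0 (V := V)]; exact hφ (hm 0)
      have q1 : φ (U * V) = 0 := by rw [← pm1]; exact hφ (hm 1)
      have q2 : φ (V ^ 2) = 0 := by rw [sq, ← pm2 (U := U)]; exact hφ (hm 2)
      have q3 : φ (pi U V (lin b)) = 0 := hφ (hF (pi_lin_mem_F1 b))
      rw [map_add, map_add, map_add, map_add, q3, cubR, pi_cub, pi_quad] at h0
      simp only [map_add, rho_C_mul, q0, q1, q2, map_zero, mul_zero, add_zero] at h0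
      exact h0
    have h0 : θ = 0 := hG.cop.hankel (hd _ _ hG.mem₁ hG.lead₁) (hd _ _ hG.mem₂ hG.lead₂)
      (by rw [sq]; nth_rw 1 [a1]; rw [a0, b1, b2]; ring)
      (by rw [a0, b3, b1, a2]; ring)
      (by rw [sq]; nth_rw 1 [a2]; rw [a1, b3, b2]; ring)
    simp only [h0, Pi.zero_apply] at a0 a1 a2 b1 b2 b3
    have hU' : S₀ l * φ (U * e) = 0 := by
      fin_cases l
      exacts [a0.symm, a1.symm, a2.symm]
    have hV' : S₀ l * φ (V * e) = 0 := by
      fin_cases l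
      exacts [b1.symm, b2.symm, b3.symm]
    exact ⟨(mul_eq_zero.1 hU').resolve_left hl, (mul_eq_zero.1 hV').resolve_left hl⟩
  have hUe : U * e ∈ T := mem_of_dual fun φ hφ => (key φ hφ).1
  have hVe : V * e ∈ T := mem_of_dual fun φ hφ => (key φ hφ).2
  have hdec : ∀ x ∈ T, ∃ y ∈ F1 K U V, ∃ c : K, x = y + c • e := fun x hx => by
    obtain ⟨y, hy, z, hz, rfl⟩ := Submodule.mem_sup.1 hx
    obtain ⟨c, rfl⟩ := Submodule.mem_span_singleton.1 hz
    exact ⟨y, hy, c, rfl⟩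
  have htop : T = ⊤ := hM.eq_top' T (hF one_mem)
    (fun x hx => by
      obtain ⟨y, hy, c, rfl⟩ := hdec x hx
      rw [mul_add, mul_smul_comm]
      exact T.add_mem (mul_F1 hF hm hy).1 (T.smul_mem c hUe))
    (fun x hx => by
      obtain ⟨y, hy, c, rfl⟩ := hdec x hx
      rw [mul_add, mul_smul_comm]
      exact T.add_mem (mul_F1 hF hm hy).2 (T.smul_mem c hVe))
  have heF : e ∉ F1 K U V := fun h => F1_ne_top hG hM (by
    rw [← htop, hT]
    exact (sup_eq_left.2 ((Submodule.span_singleton_le_iff_mem e _).2 h)).symm)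
  obtain ⟨ρ, h1, h2⟩ := Submodule.exists_le_ker_of_notMem heF
  refine ⟨le_antisymm ?_ (four_le hG hM), ρ, fun x => ⟨fun hx => ?_, fun hx => h2 hx⟩, l, ?_⟩
  · have h3 := finrank_range_le_card (R := K) ![(1 : L), U, V, e]
    have h4 : Submodule.span K (Set.range ![(1 : L), U, V, e]) = ⊤ := by
      rw [eq_top_iff, ← htop, hT]
      refine sup_le (Submodule.span_mono ?_)
        ((Submodule.span_singleton_le_iff_mem e _).2 (Submodule.subset_span ⟨3, rfl⟩))
      rintro _ ⟨i, rfl⟩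
      fin_cases i
      exacts [⟨0, rfl⟩, ⟨1, rfl⟩, ⟨2, rfl⟩]
    rw [Set.finrank, h4, finrank_top] at h3
    simpa using h3
  · obtain ⟨y, hy, c, rfl⟩ := hdec x (htop ▸ trivial)
    have hy0 : ρ y = 0 := h2 hy
    rw [map_add, hy0, map_smul, zero_add, smul_eq_mul] at hx
    rw [(mul_eq_zero.1 hx).resolve_right h1, zero_smul, add_zero]
    exact hy
  · have h3 : ρ _ = 0 := h2 (hS l)
    rw [map_sub, map_smul, smul_eq_mul, sub_eq_zero] at h3
    rw [h3]
    exact mul_ne_zero hl h1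

lemma exists_primitive (hG : Geo Z f₁ f₂ g₁ g₂) (hM : Model K Z U V) (ρ₀ : L →ₗ[K] K) (f₀ : R)
    (h0 : ρ₀ (pi U V f₀) ≠ 0) : ∃ c : K, c ≠ 0 ∧
      (∀ f : R, ∃ a : A, (c • ρ₀) (pi U V f) = algebraMap A K a) ∧
      ∀ p : A, Prime p → ∃ (f : R) (a : A), (c • ρ₀) (pi U V f) = algebraMap A K a ∧ ¬ p ∣ a := by
  have hinj := IsFractionRing.injective A K
  obtain ⟨m, hm⟩ := span11 hG.lead₁ hG.lead₂ hG.cop
  obtain ⟨D, hD, z, hz⟩ := exists_denom K fun i => ρ₀ (pi U V (s11 m i))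
  let P : Set A := {x | ∃ c : K, c ≠ 0 ∧
    (∀ f : R, ∃ a : A, (c • ρ₀) (pi U V f) = algebraMap A K a) ∧
      (c • ρ₀) (pi U V f₀) = algebraMap A K x}
  have hint : ∀ f : R, ∃ a : A, (algebraMap A K D • ρ₀) (pi U V f) = algebraMap A K a := fun f => by
    obtain ⟨a, ha⟩ := mem_spn_iff.1 (hm _ hG.mem₁ hG.mem₂ f)
    have h1 := (hM.ker _).2 ha
    rw [map_sub, sub_eq_zero] at h1
    refine ⟨∑ i, a i * z i, ?_⟩
    rw [h1, map_sum, map_sum, map_sum]
    refine Finset.sum_congr rfl fun i _ => ?_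
    rw [map_mul, pi_C, rho_C_mul, map_mul, hz, LinearMap.smul_apply, smul_eq_mul]
  have hP : P.Nonempty := by
    obtain ⟨a, ha⟩ := hint f₀
    exact ⟨a, _, fun h => hD (hinj (by simpa using h)), hint, ha⟩
  obtain ⟨x, ⟨c, hc, hci, hx⟩, hmin⟩ := (wellFounded_dvdNotUnit (α := A)).has_min P hP
  refine ⟨c, hc, hci, fun p hp => ?_⟩
  by_contra hcon
  push Not at hcon
  have hp' : algebraMap A K p ≠ 0 := fun h => hp.ne_zero (hinj (by simpa using h))
  have hdiv : ∀ (f : R) (a : A), (c • ρ₀) (pi U V f) = algebraMap A K (p * a) →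
      ((c / algebraMap A K p) • ρ₀) (pi U V f) = algebraMap A K a := fun f a h => by
    rw [LinearMap.smul_apply, smul_eq_mul] at h ⊢
    rw [map_mul] at h
    field_simp
    exact h
  obtain ⟨y, rfl⟩ := hcon _ _ hx
  have hy : y ≠ 0 := fun h => by
    rw [h, mul_zero, map_zero, LinearMap.smul_apply, smul_eq_mul] at hx
    exact mul_ne_zero hc h0 hx
  refine hmin y ⟨c / algebraMap A K p, div_ne_zero hc hp', fun f => ?_, hdiv _ _ hx⟩
    ⟨hy, p, hp.not_isUnit, mul_comm _ _⟩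
  obtain ⟨a, ha⟩ := hci f
  obtain ⟨b, rfl⟩ := hcon _ _ ha
  exact ⟨b, hdiv _ _ ha⟩

lemma dvd_of_prim {S : Fin 3 → A} (hS : ∀ p : A, Prime p → ∃ i, ¬ p ∣ S i) (x : A) :
    x ≠ 0 → ∀ y : A, (∀ i, x ∣ y * S i) → x ∣ y := by
  induction x using UniqueFactorizationMonoid.induction_on_prime with
  | h₁ => intro h; exact absurd rfl h
  | h₂ x hx => intro _ y _; exact hx.dvd
  | h₃ a p ha hp ih =>
    intro _ y h
    obtain ⟨i, hi⟩ := hS p hp
    obtain ⟨y', rfl⟩ := (hp.dvd_or_dvd ((dvd_mul_right p a).trans (h i))).resolve_right hi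
    refine mul_dvd_mul_left p (ih ha y' fun j => ?_)
    have := h j
    rwa [mul_assoc, mul_dvd_mul_iff_left hp.ne_zero] at this

lemma totalDegree_sA (a : A) : (sA a).totalDegree ≤ a.totalDegree :=
  totalDegree_le_of_support_subset fun d hd => by
    rw [MvPolynomial.mem_support_iff] at hd ⊢
    rw [coeff_sA] at hd
    exact right_ne_zero_of_mul hd

lemma sR_lin (b : Fin 3 → A) : sR (lin b) = lin ![sA (b 0), 2 * sA (b 1), 2 * sA (b 2)] := by
  simp only [lin, map_add, map_mul, sR_C, sR_X, Matrix.cons_val_zero, Matrix.cons_val_one,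
    Matrix.cons_val, map_ofNat]
  ring

end BExists

open BExists in
/-- Normalisation of the degree four case. -/
theorem exists_BData (hG : Geo Z f₁ f₂ g₁ g₂) (hM : Model K Z U V) (e : L) (S₀ : Fin 3 → K)
    (hS : ∀ l, pi U V (m2 l) - S₀ l • e ∈ F1 K U V) :
    ∃ (ρ : L →ₗ[K] K) (S : Fin 3 → A) (k : ℕ), BData K U V ρ S k := by
  have hinj := IsFractionRing.injective A K
  obtain ⟨hdim, ρ₀, hker₀, l, hl₀⟩ := exists_rho0 hG hM e S₀ hS
  obtain ⟨c, hc, hint, hpr⟩ := exists_primitive hG hM ρ₀ (m2 l) hl₀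
  have hker : ∀ x, (c • ρ₀) x = 0 ↔ x ∈ F1 K U V := fun x => by
    rw [← hker₀, LinearMap.smul_apply, smul_eq_mul, mul_eq_zero, or_iff_right hc]
  have hl : (c • ρ₀) (pi U V (m2 l)) ≠ 0 := mul_ne_zero hc hl₀
  generalize c • ρ₀ = ρ at hint hpr hker hl
  choose S hval using fun i => hint (m2 i)
  have hSl : S l ≠ 0 := fun h => hl (by rw [hval, h, map_zero])
  have rel : ∀ (f g : R) (a b : A), ρ (pi U V f) = algebraMap A K a →
      ρ (pi U V g) = algebraMap A K b → ∃ w, C b * f - C a * g - lin w ∈ van Z :=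
    fun f g a b ha hb => satK hG hM (four_le hG hM) ((hker _).1 (by
      rw [map_sub, map_sub, map_mul (pi U V), map_mul (pi U V), pi_C, pi_C, rho_C_mul, rho_C_mul,
        ha, hb]; ring))
  have prim : ∀ p : A, Prime p → ∃ i, ¬ p ∣ S i := fun p hp => by
    by_contra hcon
    push Not at hcon
    obtain ⟨f, a, ha, hpa⟩ := hpr p hp
    have hP : (Ideal.span {p}).IsPrime := (Ideal.span_singleton_prime hp.ne_zero).2 hp
    set J := (Ideal.span {p}).map C ⊔ van Z with hJ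
    have G := mem_spn_gen ![1, X 0, X 1] J
    have G0 : (1 : R) ∈ spn ![1, X 0, X 1] J := G 0
    have G1 : (X 0 : R) ∈ spn ![1, X 0, X 1] J := G 1
    have G2 : (X 1 : R) ∈ spn ![1, X 0, X 1] J := G 2
    have Gm : ∀ i, C a * m2 i ∈ spn ![1, X 0, X 1] J := fun i => by
      obtain ⟨w, hw⟩ := rel _ _ _ _ (hval i) ha
      have e1 : C a * m2 i = (C a * m2 i - C (S i) * f - lin w) + C (S i) * f
          + (C (w 0) * 1 + C (w 1) * X 0 + C (w 2) * X 1) := by simp only [lin]; ring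
      rw [e1]
      refine Submodule.add_mem _ (mem_spn_ideal _ (J.add_mem (Ideal.mem_sup_right hw)
        (Ideal.mem_sup_left (Ideal.mul_mem_right _ _ (Ideal.mem_map_of_mem _
          (Ideal.mem_span_singleton.2 (hcon i))))))) ?_
      exact Submodule.add_mem _ (Submodule.add_mem _ (C_mul_mem _ G0) (C_mul_mem _ G1))
        (C_mul_mem _ G2)
    have := rank_le hG hM _ hP (s := a) (fun h => hpa (Ideal.mem_span_singleton.1 h))
      ![1, X 0, X 1] (by simpa using C_mul_mem a G0) fun j i => by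
        fin_cases j <;> fin_cases i
        · simpa using C_mul_mem a G1
        · simpa [m2, sq, mul_assoc] using Gm 0
        · simpa [m2, mul_assoc] using Gm 1
        · simpa using C_mul_mem a G2
        · convert Gm 1 using 1
          simp [m2]; ring
        · simpa [m2, sq, mul_assoc] using Gm 2
    omega
  have cross : ∀ j, sA (S l) * S j = sA (S j) * S l := fun j => by
    obtain ⟨w, hw⟩ := rel _ _ _ _ (hval j) (hval l)
    have h1 := congrArg ρ ((hM.ker _).2 (hG.sR_mem hw))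
    have h4 : ∀ i, sR (m2 i) = C (C ((2 : ℝ) ^ (2 : ℤ))) * m2 i := fun i => hr_m2 i
    rw [map_sub sR, map_sub sR, map_mul sR, map_mul sR, sR_C, sR_C, h4, h4, sR_lin, ← mul_assoc,
      ← mul_assoc, ← map_mul C, ← map_mul C, map_sub, map_sub, map_sub, map_sub,
      (hker _).2 (pi_lin_mem_F1 _), map_mul (pi U V), map_mul (pi U V), pi_C, pi_C, rho_C_mul,
      rho_C_mul, hval, hval, map_zero, sub_zero, sub_eq_zero, ← map_mul, ← map_mul] at h1
    have h2 := hinj h1
    have h3 : (C ((2 : ℝ) ^ (2 : ℤ)) : A) ≠ 0 := by simp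
    apply mul_left_cancel₀ h3
    linear_combination h2
  obtain ⟨t, ht⟩ := dvd_of_prim prim (S l) hSl (sA (S l)) fun j => ⟨sA (S j), by
    rw [cross, mul_comm]⟩
  have ht0 : t.totalDegree = 0 := by
    by_cases h : t = 0
    · simp [h]
    · have := totalDegree_sA (S l)
      rw [ht, totalDegree_mul_of_isDomain hSl h] at this
      omega
  rw [totalDegree_eq_zero_iff_eq_C] at ht0
  obtain ⟨k, hk⟩ := exists_hz_of_eigen hSl (r := coeff 0 t) (by rw [ht, ← ht0, mul_comm])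
  refine ⟨ρ, S, k, hdim, hker, hint, hval, prim, fun j => ?_⟩
  unfold HZ
  apply mul_right_cancel₀ hSl
  rw [← cross, ht, ← hk, ← ht0]
  ring

end Pool.Agent.Lib.MP_886b5a_gt
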