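import Mathlib

set_option autoImplicit false

namespace Pool.Agent.Lib.MP_886b5a_gt

open MvPolynomial

/-- Polynomials in the three base coordinates. -/
abbrev A : Type := MvPolynomial (Fin 3) ℝ
/-- Polynomials in the two fibre coordinates over `A`. -/
abbrev R : Type := MvPolynomial (Fin 2) A
/-- Real points. -/
abbrev Pt : Type := (Fin 3 → ℝ) × (Fin 2 → ℝ)

/-- Evaluation at a real point. -/
noncomputable def ev (p : Pt) : R →+* ℝ := eval₂Hom (eval p.1) p.2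

@[simp] lemma ev_C (p : Pt) (a : A) : ev p (C a) = eval p.1 a := by simp [ev]
@[simp] lemma ev_X (p : Pt) (i : Fin 2) : ev p (X i) = p.2 i := by simp [ev]

/-- Scaling by two on `A`. -/
noncomputable def sA : A →+* A := eval₂Hom C (fun i => 2 * X i)
/-- Scaling by two on `R`. -/
noncomputable def sR : R →+* R := eval₂Hom (C.comp sA) (fun i => 2 * X i)

@[simp] lemma sA_C (r : ℝ) : sA (C r) = C r := by simp [sA]
@[simp] lemma sA_X (i : Fin 3) : sA (X i) = 2 * X i := by simp [sA]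
@[simp] lemma sR_C (a : A) : sR (C a) = C (sA a) := by simp [sR]
@[simp] lemma sR_X (i : Fin 2) : sR (X i) = 2 * X i := by simp [sR]

lemma eval_sA (y : Fin 3 → ℝ) (a : A) : eval y (sA a) = eval ((2 : ℝ) • y) a := by
  induction a using MvPolynomial.induction_on with
  | C r => simp
  | add p q hp hq => simp [hp, hq]
  | mul_X p i hp => simp [hp]

lemma ev_sR (p : Pt) (f : R) : ev p (sR f) = ev ((2 : ℝ) • p) f := by
  induction f using MvPolynomial.induction_on with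
  | C r => simp [eval_sA]
  | add p q hp hq => simp [hp, hq]
  | mul_X q i hq =>
    have h2 : ev p 2 = 2 := map_ofNat _ 2
    simp [hq, h2]

lemma sA_monomial (d : Fin 3 →₀ ℕ) (r : ℝ) :
    sA (monomial d r) = C ((2 : ℝ) ^ d.degree) * monomial d r := by
  have h2 : (2 : A) = C 2 := (map_ofNat C 2).symm
  rw [monomial_eq, map_mul, sA_C, Finsupp.prod_fintype _ _ (by simp), map_prod]
  simp only [map_pow, sA_X, mul_pow, Finset.prod_mul_distrib, Finset.prod_pow_eq_pow_sum,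
    Finsupp.degree_eq_sum, h2]
  ring

lemma coeff_sA (d : Fin 3 →₀ ℕ) (a : A) : coeff d (sA a) = (2 : ℝ) ^ d.degree * coeff d a := by
  induction a using MvPolynomial.induction_on' with
  | monomial e r =>
    rw [sA_monomial, coeff_C_mul, coeff_monomial]
    split_ifs with h
    · rw [h]
    · simp
  | add p q hp hq => simp [hp, hq, mul_add]

lemma sR_monomial (d : Fin 2 →₀ ℕ) (a : A) :
    sR (monomial d a) = monomial d (C ((2 : ℝ) ^ d.degree) * sA a) := by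
  have h2 : (2 : R) = C (C 2) := by rw [map_ofNat C 2, map_ofNat C 2]
  rw [monomial_eq, monomial_eq, map_mul, sR_C, Finsupp.prod_fintype _ _ (by simp), map_prod]
  simp only [map_pow, sR_X, mul_pow, Finset.prod_mul_distrib, Finset.prod_pow_eq_pow_sum,
    Finsupp.degree_eq_sum, h2, map_mul]
  ring

lemma coeff_sR (d : Fin 2 →₀ ℕ) (f : R) :
    coeff d (sR f) = C ((2 : ℝ) ^ d.degree) * sA (coeff d f) := by
  induction f using MvPolynomial.induction_on' with
  | monomial e r =>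
    rw [sR_monomial, coeff_monomial, coeff_monomial]
    split_ifs with h
    · rw [h]
    · simp
  | add p q hp hq => simp [hp, hq, mul_add]

/-- `a` is homogeneous of degree `m`. -/
def HZ (m : ℤ) (a : A) : Prop := sA a = C ((2 : ℝ) ^ m) * a
/-- `f` is homogeneous of total degree `m`. -/
def HR (m : ℤ) (f : R) : Prop := sR f = C (C ((2 : ℝ) ^ m)) * f

lemma two_zpow_add (m n : ℤ) : (2 : ℝ) ^ (m + n) = 2 ^ m * 2 ^ n := zpow_add₀ (by norm_num) m n

namespace HZ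
variable {m n : ℤ} {a b : A}
lemma zero (m : ℤ) : HZ m 0 := by simp [HZ]
lemma C (r : ℝ) : HZ 0 (MvPolynomial.C r) := by simp [HZ]
lemma X (i : Fin 3) : HZ 1 (MvPolynomial.X i) := by
  simp only [HZ, sA_X, zpow_one]; rw [map_ofNat]
lemma add (ha : HZ m a) (hb : HZ m b) : HZ m (a + b) := by
  unfold HZ at *; rw [map_add, ha, hb]; ring
lemma neg (ha : HZ m a) : HZ m (-a) := by
  unfold HZ at *; rw [map_neg, ha]; ring
lemma sub (ha : HZ m a) (hb : HZ m b) : HZ m (a - b) := by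
  unfold HZ at *; rw [map_sub, ha, hb]; ring
lemma mul (ha : HZ m a) (hb : HZ n b) : HZ (m + n) (a * b) := by
  unfold HZ at *; rw [map_mul, ha, hb, two_zpow_add, map_mul]; ring
lemma mul' {k : ℤ} (ha : HZ m a) (hb : HZ n b) (h : k = m + n) : HZ k (a * b) := h ▸ ha.mul hb
lemma C_mul (r : ℝ) (ha : HZ m a) : HZ m (MvPolynomial.C r * a) := (HZ.C r).mul' ha (by simp)
lemma mul_C (r : ℝ) (ha : HZ m a) : HZ m (a * MvPolynomial.C r) := ha.mul' (HZ.C r) (by simp)
lemma of_mul (ha : HZ m a) (h0 : a ≠ 0) (hab : HZ (m + n) (a * b)) : HZ n b := by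
  unfold HZ at *
  rw [map_mul, ha, two_zpow_add, map_mul] at hab
  have h2 : (MvPolynomial.C ((2 : ℝ) ^ m) : A) * a ≠ 0 :=
    mul_ne_zero (by simpa using zpow_ne_zero m (two_ne_zero)) h0
  apply mul_left_cancel₀ h2
  rw [hab]; ring
lemma degree_eq (ha : HZ m a) {d : Fin 3 →₀ ℕ} (hd : coeff d a ≠ 0) : (d.degree : ℤ) = m := by
  have h := congrArg (coeff d) ha
  rw [coeff_sA, coeff_C_mul] at h
  have h2 := mul_right_cancel₀ hd h
  rw [← zpow_natCast] at h2
  exact zpow_right_injective₀ (by norm_num) (by norm_num) h2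
lemma eq_zero_of_neg (ha : HZ m a) (hm : m < 0) : a = 0 := by
  ext d
  by_contra h
  have := ha.degree_eq (d := d) (by simpa using h)
  omega
lemma isHomogeneous {k : ℕ} (ha : HZ k a) : a.IsHomogeneous k := by
  intro d hd
  have := ha.degree_eq hd
  have h1 : Finsupp.weight 1 d = d.degree := by rw [Finsupp.degree_eq_weight_one]; rfl
  rw [h1]
  exact_mod_cast this
lemma eq_C (ha : HZ 0 a) : ∃ r, a = MvPolynomial.C r := by
  have h : a.IsHomogeneous 0 := isHomogeneous (k := 0) (by simpa using ha)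
  exact ⟨coeff 0 a, totalDegree_eq_zero_iff_eq_C.1 (Nat.le_zero.1 h.totalDegree_le)⟩
lemma constantCoeff (ha : HZ m a) (hm : m ≠ 0) : MvPolynomial.constantCoeff a = 0 := by
  by_contra h
  have := ha.degree_eq (d := 0) h
  simp at this
  omega
end HZ

lemma hz_of_isHomogeneous {a : A} {k : ℕ} (h : a.IsHomogeneous k) : HZ k a := by
  unfold HZ
  ext d
  rw [coeff_sA, coeff_C_mul]
  by_cases hd : coeff d a = 0
  · simp [hd]
  · have := h hd
    have h1 : Finsupp.weight 1 d = d.degree := by rw [Finsupp.degree_eq_weight_one]; rfl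
    rw [h1] at this
    rw [this, zpow_natCast]

/-- A nonzero eigenvector of the scaling is homogeneous. -/
lemma exists_hz_of_eigen {a : A} (h0 : a ≠ 0) {r : ℝ} (h : sA a = C r * a) :
    ∃ k : ℕ, r = 2 ^ (k : ℤ) := by
  obtain ⟨d, hd⟩ := ne_zero_iff.1 h0
  have h1 := congrArg (coeff d) h
  rw [coeff_sA, coeff_C_mul] at h1
  exact ⟨d.degree, by rw [zpow_natCast]; exact (mul_right_cancel₀ hd h1).symm⟩

/-- The linear form with coefficient vector `n`. -/
noncomputable def lf (n : Fin 3 → ℝ) : A := C (n 0) * X 0 + C (n 1) * X 1 + C (n 2) * X 2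

@[simp] lemma eval_lf (y n : Fin 3 → ℝ) : eval y (lf n) = n 0 * y 0 + n 1 * y 1 + n 2 * y 2 := by
  simp [lf]

lemma hz_lf (n : Fin 3 → ℝ) : HZ 1 (lf n) :=
  (((HZ.X 0).C_mul _).add ((HZ.X 1).C_mul _)).add ((HZ.X 2).C_mul _)

lemma HZ.eq_lf {a : A} (ha : HZ 1 a) : ∃ n, a = lf n := by
  have h : a.IsHomogeneous 1 := HZ.isHomogeneous (k := 1) (by simpa using ha)
  have h1 : a ∈ homogeneousSubmodule (Fin 3) ℝ 1 := h
  rw [homogeneousSubmodule_one_eq_span_X, Submodule.mem_span_range_iff_exists_fun] at h1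
  obtain ⟨n, rfl⟩ := h1
  exact ⟨n, by simp [lf, Fin.sum_univ_three, smul_eq_C_mul]⟩

lemma lf_eq_zero {n : Fin 3 → ℝ} (h : lf n = 0) : n = 0 := by
  have h0 := congrArg (eval ![1, 0, 0]) h
  have h1 := congrArg (eval ![0, 1, 0]) h
  have h2 := congrArg (eval ![0, 0, 1]) h
  simp at h0 h1 h2
  ext i; fin_cases i <;> simp [h0, h1, h2]

namespace HR
variable {m n : ℤ} {a b : R}
lemma zero (m : ℤ) : HR m 0 := by simp [HR]
lemma C {z : A} (hz : HZ m z) : HR m (MvPolynomial.C z) := by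
  unfold HR HZ at *; rw [sR_C, hz, map_mul]
lemma CC (r : ℝ) : HR 0 (MvPolynomial.C (MvPolynomial.C r)) := C (HZ.C r)
lemma X (i : Fin 2) : HR 1 (MvPolynomial.X i) := by
  simp only [HR, sR_X, zpow_one]; rw [map_ofNat, map_ofNat]
lemma one : HR 0 1 := by simp [HR]
lemma add (ha : HR m a) (hb : HR m b) : HR m (a + b) := by
  unfold HR at *; rw [map_add, ha, hb]; ring
lemma neg (ha : HR m a) : HR m (-a) := by
  unfold HR at *; rw [map_neg, ha]; ring
lemma sub (ha : HR m a) (hb : HR m b) : HR m (a - b) := by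
  unfold HR at *; rw [map_sub, ha, hb]; ring
lemma mul (ha : HR m a) (hb : HR n b) : HR (m + n) (a * b) := by
  unfold HR at *; rw [map_mul, ha, hb, two_zpow_add, map_mul, map_mul]; ring
lemma mul' {k : ℤ} (ha : HR m a) (hb : HR n b) (h : k = m + n) : HR k (a * b) := h ▸ ha.mul hb
lemma CC_mul (r : ℝ) (ha : HR m a) : HR m (MvPolynomial.C (MvPolynomial.C r) * a) :=
  (HR.CC r).mul' ha (by simp)
lemma pow (ha : HR m a) (k : ℕ) : HR (k * m) (a ^ k) := by
  induction k with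
  | zero => simpa using one
  | succ k ih => rw [pow_succ]; exact ih.mul' ha (by push_cast; ring)
lemma of_mul (ha : HR m a) (h0 : a ≠ 0) (hab : HR (m + n) (a * b)) : HR n b := by
  unfold HR at *
  rw [map_mul, ha, two_zpow_add, map_mul, map_mul] at hab
  have h2 : (MvPolynomial.C (MvPolynomial.C ((2 : ℝ) ^ m)) : R) * a ≠ 0 :=
    mul_ne_zero (by simpa using zpow_ne_zero m (two_ne_zero)) h0
  apply mul_left_cancel₀ h2
  rw [hab]; ring
lemma coeff (ha : HR m a) (d : Fin 2 →₀ ℕ) : HZ (m - d.degree) (MvPolynomial.coeff d a) := by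
  have h := congrArg (MvPolynomial.coeff d) ha
  rw [coeff_sR, coeff_C_mul] at h
  unfold HZ
  have h2 : (MvPolynomial.C ((2 : ℝ) ^ d.degree) : A) ≠ 0 := by simp
  apply mul_left_cancel₀ h2
  rw [h, ← mul_assoc, ← map_mul, ← zpow_natCast, ← two_zpow_add]
  congr 3; ring
lemma sum {ι : Type*} (s : Finset ι) (f : ι → R) (h : ∀ i ∈ s, HR m (f i)) :
    HR m (∑ i ∈ s, f i) :=
  Finset.sum_induction f (HR m) (fun _ _ => HR.add) (HR.zero m) h
end HR

/-- Affine-linear part. -/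
noncomputable def lin (b : Fin 3 → A) : R := C (b 0) + C (b 1) * X 0 + C (b 2) * X 1
/-- Quadratic part. -/
noncomputable def quad (Q : Fin 3 → A) : R :=
  C (Q 0) * X 0 ^ 2 + C (Q 1) * (X 0 * X 1) + C (Q 2) * X 1 ^ 2
/-- Cubic part. -/
noncomputable def cub (g : Fin 4 → A) : R :=
  C (g 0) * X 0 ^ 3 + C (g 1) * (X 0 ^ 2 * X 1) + C (g 2) * (X 0 * X 1 ^ 2) + C (g 3) * X 1 ^ 3

/-- Exponent vector. -/
noncomputable def mon (i j : ℕ) : Fin 2 →₀ ℕ := Finsupp.single 0 i + Finsupp.single 1 j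

lemma mon_inj {i j k l : ℕ} : mon i j = mon k l ↔ i = k ∧ j = l := by
  constructor
  · intro h
    have h0 := congrArg (fun d => d 0) h
    have h1 := congrArg (fun d => d 1) h
    simp [mon] at h0 h1
    exact ⟨h0, h1⟩
  · rintro ⟨rfl, rfl⟩; rfl

lemma eq_mon (d : Fin 2 →₀ ℕ) : d = mon (d 0) (d 1) := by
  ext i; fin_cases i <;> simp [mon]

lemma degree_mon (i j : ℕ) : (mon i j).degree = i + j := by
  simp [mon, Finsupp.degree_eq_sum, Fin.sum_univ_two]

lemma monomial_mon (i j : ℕ) (a : A) : (monomial (mon i j) a : R) = C a * X 0 ^ i * X 1 ^ j := by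
  rw [mon, monomial_add_single, C_mul_X_pow_eq_monomial]

lemma poly_eq_sum (g : Fin 4 → A) (Q b : Fin 3 → A) : cub g + quad Q + lin b =
    monomial (mon 3 0) (g 0) + monomial (mon 2 1) (g 1) + monomial (mon 1 2) (g 2)
    + monomial (mon 0 3) (g 3) + monomial (mon 2 0) (Q 0) + monomial (mon 1 1) (Q 1)
    + monomial (mon 0 2) (Q 2) + monomial (mon 0 0) (b 0) + monomial (mon 1 0) (b 1)
    + monomial (mon 0 1) (b 2) := by
  simp only [monomial_mon, cub, quad, lin]; ring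

lemma coeffs_poly (g : Fin 4 → A) (Q b : Fin 3 → A) :
    let f := cub g + quad Q + lin b
    coeff (mon 3 0) f = g 0 ∧ coeff (mon 2 1) f = g 1 ∧ coeff (mon 1 2) f = g 2 ∧
    coeff (mon 0 3) f = g 3 ∧ coeff (mon 2 0) f = Q 0 ∧ coeff (mon 1 1) f = Q 1 ∧
    coeff (mon 0 2) f = Q 2 ∧ coeff (mon 0 0) f = b 0 ∧ coeff (mon 1 0) f = b 1 ∧
    coeff (mon 0 1) f = b 2 := by
  intro f
  simp only [f, poly_eq_sum, coeff_add, coeff_monomial, mon_inj]
  simp

lemma poly_eq_zero {g : Fin 4 → A} {Q b : Fin 3 → A} (h : cub g + quad Q + lin b = 0) :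
    g = 0 ∧ Q = 0 ∧ b = 0 := by
  have := coeffs_poly g Q b
  simp only [h, coeff_zero] at this
  obtain ⟨h1, h2, h3, h4, h5, h6, h7, h8, h9, h10⟩ := this
  refine ⟨?_, ?_, ?_⟩ <;> funext i <;> fin_cases i
  exacts [h1.symm, h2.symm, h3.symm, h4.symm, h5.symm, h6.symm, h7.symm, h8.symm, h9.symm,
    h10.symm]

@[simp] lemma cub_zero : cub 0 = 0 := by simp [cub]
@[simp] lemma quad_zero : quad 0 = 0 := by simp [quad]
@[simp] lemma lin_zero : lin 0 = 0 := by simp [lin]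

lemma low_eq_zero {Q b : Fin 3 → A} (h : quad Q + lin b = 0) : Q = 0 ∧ b = 0 :=
  (poly_eq_zero (g := 0) (by simpa using h)).2

lemma HR.coeffs {n : ℤ} {g : Fin 4 → A} {Q b : Fin 3 → A} (h : HR n (cub g + quad Q + lin b)) :
    (∀ i, HZ (n - 3) (g i)) ∧ (∀ i, HZ (n - 2) (Q i)) ∧ HZ n (b 0) ∧ HZ (n - 1) (b 1) ∧
      HZ (n - 1) (b 2) := by
  obtain ⟨h1, h2, h3, h4, h5, h6, h7, h8, h9, h10⟩ := coeffs_poly g Q b
  have H := fun i j => h.coeff (mon i j)
  simp only [degree_mon] at H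
  refine ⟨fun i => ?_, fun i => ?_, ?_, ?_, ?_⟩
  · fin_cases i
    · simpa [h1] using H 3 0
    · simpa [h2] using H 2 1
    · simpa [h3] using H 1 2
    · simpa [h4] using H 0 3
  · fin_cases i
    · simpa [h5] using H 2 0
    · simpa [h6] using H 1 1
    · simpa [h7] using H 0 2
  · simpa [h8] using H 0 0
  · simpa [h9] using H 1 0
  · simpa [h10] using H 0 1

lemma HR.coeffs_low {n : ℤ} {Q b : Fin 3 → A} (h : HR n (quad Q + lin b)) :
    (∀ i, HZ (n - 2) (Q i)) ∧ HZ n (b 0) ∧ HZ (n - 1) (b 1) ∧ HZ (n - 1) (b 2) :=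
  (HR.coeffs (g := 0) (by simpa using h)).2

lemma exists_poly {f : R} (h : ∀ i j, 3 < i + j → coeff (mon i j) f = 0) :
    ∃ g Q b, f = cub g + quad Q + lin b := by
  refine ⟨![coeff (mon 3 0) f, coeff (mon 2 1) f, coeff (mon 1 2) f, coeff (mon 0 3) f],
    ![coeff (mon 2 0) f, coeff (mon 1 1) f, coeff (mon 0 2) f],
    ![coeff (mon 0 0) f, coeff (mon 1 0) f, coeff (mon 0 1) f], ?_⟩
  rw [poly_eq_sum]
  refine MvPolynomial.ext _ _ fun d => ?_
  rw [eq_mon d]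
  generalize d 0 = i
  generalize d 1 = j
  simp only [coeff_add, coeff_monomial, mon_inj]
  by_cases hij : 3 < i + j
  · rw [h i j hij]
    have e : ∀ k l : ℕ, k + l ≤ 3 → ¬ (k = i ∧ l = j) := by
      rintro k l hkl ⟨rfl, rfl⟩; omega
    simp [e]
  · have hi : i ≤ 3 := by omega
    have hj : j ≤ 3 := by omega
    interval_cases i <;> interval_cases j <;> first | omega | simp

/-- Real cubic part. -/
noncomputable def cubR (g : Fin 4 → ℝ) : R := cub fun i => C (g i)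
/-- Real quadratic part. -/
noncomputable def quadR (g : Fin 3 → ℝ) : R := quad fun i => C (g i)

/-- `f` has cubic leading form `g`. -/
def Lead (f : R) (g : Fin 4 → ℝ) : Prop := ∃ Q b, f = cubR g + quad Q + lin b

lemma HR.exists_poly {n : ℤ} {f : R} (h : HR n f) (hn : n ≤ 3) :
    ∃ g Q b, f = cub g + quad Q + lin b := by
  refine MP_886b5a_gt.exists_poly fun i j hij => ?_
  refine (h.coeff (mon i j)).eq_zero_of_neg ?_
  rw [degree_mon]; push_cast; omega

lemma HR.lead {f : R} (h : HR 3 f) : ∃ g, Lead f g := by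
  obtain ⟨g, Q, b, rfl⟩ := h.exists_poly le_rfl
  have h1 := h.coeffs.1
  choose r hr using fun i => HZ.eq_C (a := g i) (by simpa using h1 i)
  exact ⟨r, Q, b, by rw [cubR, funext hr]⟩

lemma HR.low {f : R} (h : HR 2 f) : ∃ c b, f = quadR c + lin b := by
  obtain ⟨g, Q, b, rfl⟩ := h.exists_poly (by norm_num)
  have h1 := h.coeffs.1
  have h2 := h.coeffs.2.1
  have hg : g = 0 := funext fun i => (h1 i).eq_zero_of_neg (by norm_num)
  choose r hr using fun i => HZ.eq_C (a := Q i) (by simpa using h2 i)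
  exact ⟨r, b, by rw [quadR, funext hr, hg]; simp⟩

lemma HR.linear {f : R} (h : HR 1 f) :
    ∃ (n : Fin 3 → ℝ) (s t : ℝ), f = MvPolynomial.C (lf n) + MvPolynomial.C (MvPolynomial.C s) *
      MvPolynomial.X 0 + MvPolynomial.C (MvPolynomial.C t) * MvPolynomial.X 1 := by
  obtain ⟨g, Q, b, rfl⟩ := h.exists_poly (by norm_num)
  obtain ⟨h1, h2, h3, h4, h5⟩ := h.coeffs
  have hg : g = 0 := funext fun i => (h1 i).eq_zero_of_neg (by norm_num)
  have hQ : Q = 0 := funext fun i => (h2 i).eq_zero_of_neg (by norm_num)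
  obtain ⟨n, hn⟩ := h3.eq_lf
  obtain ⟨s, hs⟩ := HZ.eq_C (a := b 1) (by simpa using h4)
  obtain ⟨t, ht⟩ := HZ.eq_C (a := b 2) (by simpa using h5)
  exact ⟨n, s, t, by simp [hg, hQ, lin, hn, hs, ht]⟩

lemma HR.exists_linearMap {f : R} (h : HR 1 f) : ∃ l : Pt →ₗ[ℝ] ℝ, ∀ p, l p = ev p f := by
  obtain ⟨n, s, t, rfl⟩ := h.linear
  exact ⟨{ toFun := fun p => n 0 * p.1 0 + n 1 * p.1 1 + n 2 * p.1 2 + s * p.2 0 + t * p.2 1
           map_add' := fun p q => by simp; ring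
           map_smul' := fun r p => by simp; ring }, fun p => by simp⟩

lemma hr_lin {n : ℤ} {b : Fin 3 → A} (h0 : HZ n (b 0)) (h1 : HZ (n - 1) (b 1))
    (h2 : HZ (n - 1) (b 2)) : HR n (lin b) :=
  ((HR.C h0).add ((HR.C h1).mul' (HR.X 0) (by ring))).add ((HR.C h2).mul' (HR.X 1) (by ring))

lemma hr_quad {n : ℤ} {Q : Fin 3 → A} (h : ∀ i, HZ (n - 2) (Q i)) : HR n (quad Q) :=
  (((HR.C (h 0)).mul' ((HR.X 0).pow 2) (by push_cast; ring)).add
    ((HR.C (h 1)).mul' ((HR.X 0).mul (HR.X 1)) (by ring))).add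
    ((HR.C (h 2)).mul' ((HR.X 1).pow 2) (by push_cast; ring))

lemma hr_cub {n : ℤ} {g : Fin 4 → A} (h : ∀ i, HZ (n - 3) (g i)) : HR n (cub g) :=
  ((((HR.C (h 0)).mul' ((HR.X 0).pow 3) (by push_cast; ring)).add
    ((HR.C (h 1)).mul' (((HR.X 0).pow 2).mul (HR.X 1)) (by push_cast; ring))).add
    ((HR.C (h 2)).mul' ((HR.X 0).mul ((HR.X 1).pow 2)) (by push_cast; ring))).add
    ((HR.C (h 3)).mul' ((HR.X 1).pow 3) (by push_cast; ring))

lemma hr_cubR (g : Fin 4 → ℝ) : HR 3 (cubR g) := hr_cub fun i => by simpa using HZ.C (g i)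
lemma hr_quadR (g : Fin 3 → ℝ) : HR 2 (quadR g) := hr_quad fun i => by simpa using HZ.C (g i)

/-- Vanishing ideal of a set of real points. -/
def van (Z : Set Pt) : Ideal R where
  carrier := {f | ∀ p ∈ Z, ev p f = 0}
  add_mem' := fun {a b} ha hb p hp => by simp [ha p hp, hb p hp]
  zero_mem' := fun p _ => by simp
  smul_mem' := fun c x hx p hp => by simp [hx p hp]

lemma mem_van {Z : Set Pt} {f : R} : f ∈ van Z ↔ ∀ p ∈ Z, ev p f = 0 := Iff.rfl

/-- Jacobian in the fibre variables. -/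
noncomputable def Jac (f g : R) : R := pderiv 0 f * pderiv 1 g - pderiv 1 f * pderiv 0 g

/-- Product of a binary quadratic and a binary cubic form, in coefficients. -/
def conv (a : Fin 3 → ℝ) (g : Fin 4 → ℝ) : Fin 6 → ℝ :=
  ![a 0 * g 0, a 0 * g 1 + a 1 * g 0, a 0 * g 2 + a 1 * g 1 + a 2 * g 0,
    a 0 * g 3 + a 1 * g 2 + a 2 * g 1, a 1 * g 3 + a 2 * g 2, a 2 * g 3]

/-- Two binary cubic forms without common factor. -/
def Cop (g₁ g₂ : Fin 4 → ℝ) : Prop :=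
  ∀ a b : Fin 3 → ℝ, conv a g₁ + conv b g₂ = 0 → a = 0 ∧ b = 0

/-- The real-geometric input of the algebraic argument. -/
structure Geo (Z : Set Pt) (f₁ f₂ : R) (g₁ g₂ : Fin 4 → ℝ) : Prop where
  cone : ∀ p ∈ Z, (2 : ℝ) • p ∈ Z
  prime : (van Z).IsPrime
  dom : ∀ a : A, C a ∈ van Z → a = 0
  cut : ∀ p : Pt, p.2 1 ≠ 0 → (∀ f ∈ van Z, HR 3 f → ev p f = 0) → p ∈ Z
  bdd : ∃ c : ℝ, ∀ p ∈ Z, ‖p‖ ≤ c * |p.2 1|
  far : ∃ c : ℝ, ∀ p ∈ Z, |p.1 1| ≤ c * |p.1 0|
  mem₁ : f₁ ∈ van Z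
  mem₂ : f₂ ∈ van Z
  hr₁ : HR 3 f₁
  hr₂ : HR 3 f₂
  lead₁ : Lead f₁ g₁
  lead₂ : Lead f₂ g₂
  cop : Cop g₁ g₂
  deg : ∀ h₁ ∈ van Z, ∀ h₂ ∈ van Z,
    (∀ p : Pt, p.2 1 ≠ 0 → ev p h₁ = 0 → ev p h₂ = 0 → p ∈ Z) → Jac h₁ h₂ ∈ van Z
  net : ∀ (n : ℕ) (N : (Fin 3 → ℝ) →ₗ[ℝ] Pt →ₗ[ℝ] (Fin n → ℝ)), (∀ y, ∃ p, p ≠ 0 ∧ N y p = 0) →
    (∀ p : Pt, p.2 1 = 1 → ((∃ y, y ≠ 0 ∧ N y p = 0) ↔ p ∈ Z)) → False

end Pool.Agent.Lib.MP_886b5a_gt
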