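import Pool.Agent.Lib.MP_886b5a_gt.Basic

set_option autoImplicit false

namespace Pool.Agent.Lib.MP_886b5a_gt

variable {g₁ g₂ : Fin 4 → ℝ}

lemma Cop.symm (h : Cop g₁ g₂) : Cop g₂ g₁ := fun a b hab =>
  (h b a (by rw [add_comm]; exact hab)).symm

lemma Cop.surj (h : Cop g₁ g₂) (w : Fin 6 → ℝ) : ∃ a b, conv a g₁ + conv b g₂ = w := by
  let φ : ((Fin 3 → ℝ) × (Fin 3 → ℝ)) →ₗ[ℝ] (Fin 6 → ℝ) :=
    { toFun := fun x => conv x.1 g₁ + conv x.2 g₂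
      map_add' := fun x y => by
        funext i; fin_cases i <;> simp [conv] <;> ring
      map_smul' := fun r x => by
        funext i; fin_cases i <;> simp [conv] <;> ring }
  have hi : Function.Injective φ := by
    rw [injective_iff_map_eq_zero]
    intro x hx
    exact Prod.ext (h x.1 x.2 hx).1 (h x.1 x.2 hx).2
  have hs := (LinearMap.injective_iff_surjective_of_finrank_eq_finrank (by simp)).1 hi
  obtain ⟨x, hx⟩ := hs w
  exact ⟨x.1, x.2, hx⟩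

/-- Product of a binary linear and a binary cubic form, in coefficients. -/
def conv4 (a : Fin 2 → ℝ) (g : Fin 4 → ℝ) : Fin 5 → ℝ :=
  ![a 0 * g 0, a 0 * g 1 + a 1 * g 0, a 0 * g 2 + a 1 * g 1, a 0 * g 3 + a 1 * g 2, a 1 * g 3]

lemma Cop.inj4 (h : Cop g₁ g₂) (a b : Fin 2 → ℝ) (hab : conv4 a g₁ + conv4 b g₂ = 0) :
    a = 0 ∧ b = 0 := by
  have e := fun i => congrFun hab i
  have e0 := e 0; have e1 := e 1; have e2 := e 2; have e3 := e 3; have e4 := e 4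
  simp [conv4] at e0 e1 e2 e3 e4
  obtain ⟨h1, h2⟩ := h ![a 0, a 1, 0] ![b 0, b 1, 0] (by
    funext i; fin_cases i <;> simp [conv] <;> linarith)
  have a0 := congrFun h1 0; have a1 := congrFun h1 1
  have b0 := congrFun h2 0; have b1 := congrFun h2 1
  simp at a0 a1 b0 b1
  constructor <;> funext i <;> fin_cases i <;> simp [*]

lemma Cop.surj4 (h : Cop g₁ g₂) :
    ∃ m : Fin 5 → ℝ, ∀ w : Fin 5 → ℝ, ∃ a b, ∃ κ : ℝ, conv4 a g₁ + conv4 b g₂ + κ • m = w := by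
  let φ : ((Fin 2 → ℝ) × (Fin 2 → ℝ)) →ₗ[ℝ] (Fin 5 → ℝ) :=
    { toFun := fun x => conv4 x.1 g₁ + conv4 x.2 g₂
      map_add' := fun x y => by
        funext i; fin_cases i <;> simp [conv4] <;> ring
      map_smul' := fun r x => by
        funext i; fin_cases i <;> simp [conv4] <;> ring }
  have hne : LinearMap.range φ ≠ ⊤ := by
    intro ht
    have h1 := LinearMap.finrank_range_le φ
    rw [ht] at h1
    simp at h1
  obtain ⟨m, -, hm⟩ := SetLike.exists_of_lt (lt_top_iff_ne_top.2 hne)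
  let ψ : (((Fin 2 → ℝ) × (Fin 2 → ℝ)) × ℝ) →ₗ[ℝ] (Fin 5 → ℝ) :=
    φ.coprod (LinearMap.toSpanSingleton ℝ _ m)
  have hi : Function.Injective ψ := by
    rw [injective_iff_map_eq_zero]
    rintro ⟨x, κ⟩ hx
    have hx' : φ x + κ • m = 0 := hx
    have hκ : κ = 0 := by
      by_contra hκ
      apply hm
      refine ⟨(-κ⁻¹) • x, ?_⟩
      rw [map_smul, eq_neg_of_add_eq_zero_left hx']
      simp [smul_smul, hκ]
    subst hκ
    have := h.inj4 x.1 x.2 (by simpa [φ] using hx')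
    exact Prod.ext (Prod.ext this.1 this.2) rfl
  have hs := (LinearMap.injective_iff_surjective_of_finrank_eq_finrank (by simp)).1 hi
  refine ⟨m, fun w => ?_⟩
  obtain ⟨x, hx⟩ := hs w
  exact ⟨x.1.1, x.1.2, x.2, hx⟩

section
variable {E : Type*} [CommRing E] [Algebra ℝ E]

/-- Value of a real binary cubic form. -/
def cubE (g : Fin 4 → ℝ) (s t : E) : E :=
  algebraMap ℝ E (g 0) * s ^ 3 + algebraMap ℝ E (g 1) * (s ^ 2 * t)
    + algebraMap ℝ E (g 2) * (s * t ^ 2) + algebraMap ℝ E (g 3) * t ^ 3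

/-- Pairing of a real cubic form with a functional. -/
def dot4 (g : Fin 4 → ℝ) (θ : Fin 4 → E) : E :=
  algebraMap ℝ E (g 0) * θ 0 + algebraMap ℝ E (g 1) * θ 1 + algebraMap ℝ E (g 2) * θ 2
    + algebraMap ℝ E (g 3) * θ 3

lemma Cop.quintic (h : Cop g₁ g₂) (w : Fin 6 → ℝ) : ∃ a b : Fin 3 → ℝ, ∀ s t : E,
    algebraMap ℝ E (w 0) * s ^ 5 + algebraMap ℝ E (w 1) * (s ^ 4 * t)
      + algebraMap ℝ E (w 2) * (s ^ 3 * t ^ 2) + algebraMap ℝ E (w 3) * (s ^ 2 * t ^ 3)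
      + algebraMap ℝ E (w 4) * (s * t ^ 4) + algebraMap ℝ E (w 5) * t ^ 5 =
    (algebraMap ℝ E (a 0) * s ^ 2 + algebraMap ℝ E (a 1) * (s * t) + algebraMap ℝ E (a 2) * t ^ 2)
      * cubE g₁ s t +
    (algebraMap ℝ E (b 0) * s ^ 2 + algebraMap ℝ E (b 1) * (s * t) + algebraMap ℝ E (b 2) * t ^ 2)
      * cubE g₂ s t := by
  obtain ⟨a, b, rfl⟩ := h.surj w
  refine ⟨a, b, fun s t => ?_⟩
  simp [conv, cubE]
  ring

lemma Cop.pow_left (h : Cop g₁ g₂) (s t : E) :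
    ∃ p q : E, s ^ 5 = p * cubE g₁ s t + q * cubE g₂ s t := by
  obtain ⟨a, b, hab⟩ := h.quintic (E := E) ![1, 0, 0, 0, 0, 0]
  exact ⟨_, _, by rw [← hab s t]; simp⟩

lemma Cop.pow_right (h : Cop g₁ g₂) (s t : E) :
    ∃ p q : E, t ^ 5 = p * cubE g₁ s t + q * cubE g₂ s t := by
  obtain ⟨a, b, hab⟩ := h.quintic (E := E) ![0, 0, 0, 0, 0, 1]
  exact ⟨_, _, by rw [← hab s t]; simp⟩

lemma Cop.root [IsDomain E] (h : Cop g₁ g₂) {s t : E} (h1 : cubE g₁ s t = 0)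
    (h2 : cubE g₂ s t = 0) : s = 0 ∧ t = 0 := by
  obtain ⟨p, q, hs⟩ := h.pow_left s t
  obtain ⟨p', q', ht⟩ := h.pow_right s t
  rw [h1, h2] at hs ht
  exact ⟨pow_eq_zero_iff (n := 5) (by norm_num) |>.1 (by simpa using hs),
    pow_eq_zero_iff (n := 5) (by norm_num) |>.1 (by simpa using ht)⟩

/-- A functional of Hankel rank at most one killing both forms is zero. -/
lemma Cop.hankel [IsDomain E] (h : Cop g₁ g₂) {θ : Fin 4 → E} (h1 : dot4 g₁ θ = 0)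
    (h2 : dot4 g₂ θ = 0) (m1 : θ 0 * θ 2 = θ 1 ^ 2) (m2 : θ 0 * θ 3 = θ 1 * θ 2)
    (m3 : θ 1 * θ 3 = θ 2 ^ 2) : θ = 0 := by
  have key1 : ∀ g, dot4 g θ = 0 → cubE g (θ 0) (θ 1) = 0 := fun g hg => by
    unfold dot4 at hg; unfold cubE
    linear_combination (θ 0) ^ 2 * hg - algebraMap ℝ E (g 2) * θ 0 * m1
      - algebraMap ℝ E (g 3) * θ 1 * m1 - algebraMap ℝ E (g 3) * θ 0 * m2
  have key2 : ∀ g, dot4 g θ = 0 → cubE g (θ 2) (θ 3) = 0 := fun g hg => by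
    unfold dot4 at hg; unfold cubE
    linear_combination (θ 3) ^ 2 * hg - algebraMap ℝ E (g 1) * θ 3 * m3
      - algebraMap ℝ E (g 0) * θ 2 * m3 - algebraMap ℝ E (g 0) * θ 3 * m2
  obtain ⟨a, b⟩ := h.root (key1 _ h1) (key1 _ h2)
  obtain ⟨c, d⟩ := h.root (key2 _ h1) (key2 _ h2)
  funext i; fin_cases i <;> simp [*]

end

/-- Independence of three real vectors. -/
def Ind3 (v₁ v₂ v₃ : Fin 4 → ℝ) : Prop :=
  ∀ a b c : ℝ, a • v₁ + b • v₂ + c • v₃ = 0 → a = 0 ∧ b = 0 ∧ c = 0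

lemma span3 {E : Type*} [CommRing E] [Algebra ℝ E] {θ : Fin 4 → E} (hθ : θ ≠ 0)
    {v₁ v₂ v₃ g : Fin 4 → ℝ} (hv : Ind3 v₁ v₂ v₃) (h1 : dot4 v₁ θ = 0) (h2 : dot4 v₂ θ = 0)
    (h3 : dot4 v₃ θ = 0) (hg : dot4 g θ = 0) : ∃ a b c : ℝ, g = a • v₁ + b • v₂ + c • v₃ := by
  by_contra hn
  push Not at hn
  let φ : (Fin 4 → ℝ) →ₗ[ℝ] (Fin 4 → ℝ) :=
    { toFun := fun x => x 0 • v₁ + x 1 • v₂ + x 2 • v₃ + x 3 • g
      map_add' := fun x y => by funext i; simp; ring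
      map_smul' := fun r x => by funext i; simp; ring }
  have hi : Function.Injective φ := by
    rw [injective_iff_map_eq_zero]
    intro x hx
    have hx' : x 0 • v₁ + x 1 • v₂ + x 2 • v₃ + x 3 • g = 0 := hx
    have h3 : x 3 = 0 := by
      by_contra h3
      apply hn (-x 0 / x 3) (-x 1 / x 3) (-x 2 / x 3)
      funext i
      have := congrFun hx' i
      simp at this ⊢
      field_simp
      linarith
    obtain ⟨a, b, c⟩ := hv (x 0) (x 1) (x 2) (by simpa [h3] using hx')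
    funext i; fin_cases i <;> simp [*]
  have hs := (LinearMap.injective_iff_surjective).1 hi
  have key : ∀ w, dot4 w θ = 0 := fun w => by
    obtain ⟨x, rfl⟩ := hs w
    have e : dot4 (φ x) θ = algebraMap ℝ E (x 0) * dot4 v₁ θ + algebraMap ℝ E (x 1) * dot4 v₂ θ
        + algebraMap ℝ E (x 2) * dot4 v₃ θ + algebraMap ℝ E (x 3) * dot4 g θ := by
      simp [φ, dot4]; ring
    rw [e, h1, h2, h3, hg]; simp
  apply hθ
  have k0 := key ![1, 0, 0, 0]; have k1 := key ![0, 1, 0, 0]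
  have k2 := key ![0, 0, 1, 0]; have k3 := key ![0, 0, 0, 1]
  simp [dot4] at k0 k1 k2 k3
  funext i; fin_cases i <;> simp [*]

/-- `u` times a quadratic form. -/
def mulU (c : Fin 3 → ℝ) : Fin 4 → ℝ := ![c 0, c 1, c 2, 0]
/-- `v` times a quadratic form. -/
def mulV (c : Fin 3 → ℝ) : Fin 4 → ℝ := ![0, c 0, c 1, c 2]

lemma Cop.ne_zero (h : Cop g₁ g₂) : g₁ ≠ 0 := by
  rintro rfl
  have := (h ![1, 0, 0] 0 (by funext i; fin_cases i <;> simp [conv])).1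
  simpa using congrFun this 0

lemma Cop.indep (h : Cop g₁ g₂) {a b : ℝ} (hab : a • g₁ + b • g₂ = 0) : a = 0 ∧ b = 0 := by
  have e := fun i => congrFun hab i
  have e0 := e 0; have e1 := e 1; have e2 := e 2; have e3 := e 3
  simp at e0 e1 e2 e3
  obtain ⟨h1, h2⟩ := h ![a, 0, 0] ![b, 0, 0] (by
    funext i; fin_cases i <;> simp [conv] <;> linarith)
  exact ⟨by simpa using congrFun h1 0, by simpa using congrFun h2 0⟩

lemma ind3_or {c : Fin 3 → ℝ} (hc : c ≠ 0) (g : Fin 4 → ℝ) :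
    Ind3 (mulU c) (mulV c) g ∨ ∃ a b : ℝ, g = a • mulU c + b • mulV c := by
  by_cases hn : ∃ a b : ℝ, g = a • mulU c + b • mulV c
  · exact Or.inr hn
  left
  push Not at hn
  intro a b d hd
  have hd0 : d = 0 := by
    by_contra h0
    apply hn (-a / d) (-b / d)
    funext i
    have := congrFun hd i
    simp at this ⊢
    field_simp
    linarith
  subst hd0
  have e := fun i => congrFun hd i
  have e0 := e 0; have e1 := e 1; have e2 := e 2; have e3 := e 3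
  simp [mulU, mulV] at e0 e1 e2 e3
  have hc' : c 0 ≠ 0 ∨ c 1 ≠ 0 ∨ c 2 ≠ 0 := by
    by_contra hh
    push Not at hh
    exact hc (by funext i; fin_cases i <;> simp [hh.1, hh.2.1, hh.2.2])
  have ha : a = 0 := by
    by_contra ha
    have c0 : c 0 = 0 := by tauto
    have c1 : c 1 = 0 := by rw [c0] at e1; simpa [ha] using e1
    have c2 : c 2 = 0 := by rw [c1] at e2; simpa [ha] using e2
    tauto
  subst ha
  have hb : b = 0 := by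
    by_contra hb
    simp [hb] at e1 e2 e3
    tauto
  exact ⟨rfl, hb, rfl⟩

lemma Cop.ind3 (h : Cop g₁ g₂) {c : Fin 3 → ℝ} (hc : c ≠ 0) :
    Ind3 (mulU c) (mulV c) g₁ ∨ Ind3 (mulU c) (mulV c) g₂ := by
  rcases ind3_or hc g₁ with h1 | ⟨a, b, h1⟩
  · exact Or.inl h1
  rcases ind3_or hc g₂ with h2 | ⟨a', b', h2⟩
  · exact Or.inr h2
  exfalso
  obtain ⟨-, e⟩ := h.inj4 ![a', b'] ![-a, -b] (by
    rw [h1, h2]; funext i; fin_cases i <;> simp [conv4, mulU, mulV] <;> ring)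
  have ea := congrFun e 0; have eb := congrFun e 1
  simp at ea eb
  apply h.ne_zero
  rw [h1, ea, eb]; simp

section
variable {E : Type*} [CommRing E] [Algebra ℝ E]

/-- The determinant of `u c, v c, g₁, g₂`. -/
def Dq (g₁ g₂ : Fin 4 → ℝ) (c : Fin 3 → E) : E :=
  c 0 ^ 2 * algebraMap ℝ E (g₁ 2 * g₂ 3 - g₁ 3 * g₂ 2)
  - c 0 * c 1 * algebraMap ℝ E (g₁ 1 * g₂ 3 - g₁ 3 * g₂ 1)
  + c 0 * c 2 * algebraMap ℝ E (g₁ 1 * g₂ 2 - g₁ 2 * g₂ 1)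
  + (c 1 ^ 2 - c 0 * c 2) * algebraMap ℝ E (g₁ 0 * g₂ 3 - g₁ 3 * g₂ 0)
  - c 1 * c 2 * algebraMap ℝ E (g₁ 0 * g₂ 2 - g₁ 2 * g₂ 0)
  + c 2 ^ 2 * algebraMap ℝ E (g₁ 0 * g₂ 1 - g₁ 1 * g₂ 0)

lemma Dq_eq_zero [IsDomain E] {θ : Fin 4 → E} (hθ : θ ≠ 0) {c : Fin 3 → E}
    (r0 : c 0 * θ 0 + c 1 * θ 1 + c 2 * θ 2 = 0) (r1 : c 0 * θ 1 + c 1 * θ 2 + c 2 * θ 3 = 0)
    (r2 : dot4 g₁ θ = 0) (r3 : dot4 g₂ θ = 0) : Dq g₁ g₂ c = 0 := by
  by_contra hD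
  apply hθ
  unfold dot4 at r2 r3
  simp only [Dq, map_sub, map_mul] at hD
  set a0 := algebraMap ℝ E (g₁ 0); set a1 := algebraMap ℝ E (g₁ 1)
  set a2 := algebraMap ℝ E (g₁ 2); set a3 := algebraMap ℝ E (g₁ 3)
  set b0 := algebraMap ℝ E (g₂ 0); set b1 := algebraMap ℝ E (g₂ 1)
  set b2 := algebraMap ℝ E (g₂ 2); set b3 := algebraMap ℝ E (g₂ 3)
  set c0 := c 0; set c1 := c 1; set c2 := c 2
  have t0 : θ 0 = 0 := by
    apply mul_left_cancel₀ hD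
    linear_combination (a1 * b2 * c2 - a1 * b3 * c1 - a2 * b1 * c2 + a2 * b3 * c0 + a3 * b1 * c1
      - a3 * b2 * c0) * r0 + (a1 * b3 * c2 - a2 * b3 * c1 - a3 * b1 * c2 + a3 * b2 * c1) * r1
      + (b1 * c2 ^ 2 - b2 * c1 * c2 - b3 * c0 * c2 + b3 * c1 ^ 2) * r2
      + (-a1 * c2 ^ 2 + a2 * c1 * c2 + a3 * c0 * c2 - a3 * c1 ^ 2) * r3
  have t1 : θ 1 = 0 := by
    apply mul_left_cancel₀ hD
    linear_combination (-a0 * b2 * c2 + a0 * b3 * c1 + a2 * b0 * c2 - a3 * b0 * c1) * r0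
      + (-a0 * b3 * c2 + a2 * b3 * c0 + a3 * b0 * c2 - a3 * b2 * c0) * r1
      + (-b0 * c2 ^ 2 + b2 * c0 * c2 - b3 * c0 * c1) * r2
      + (a0 * c2 ^ 2 - a2 * c0 * c2 + a3 * c0 * c1) * r3
  have t2 : θ 2 = 0 := by
    apply mul_left_cancel₀ hD
    linear_combination (a0 * b1 * c2 - a0 * b3 * c0 - a1 * b0 * c2 + a3 * b0 * c0) * r0
      + (a0 * b3 * c1 - a1 * b3 * c0 - a3 * b0 * c1 + a3 * b1 * c0) * r1
      + (b0 * c1 * c2 - b1 * c0 * c2 + b3 * c0 ^ 2) * r2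
      + (-a0 * c1 * c2 + a1 * c0 * c2 - a3 * c0 ^ 2) * r3
  have t3 : θ 3 = 0 := by
    apply mul_left_cancel₀ hD
    linear_combination (-a0 * b1 * c1 + a0 * b2 * c0 + a1 * b0 * c1 - a2 * b0 * c0) * r0
      + (a0 * b1 * c2 - a0 * b2 * c1 - a1 * b0 * c2 + a1 * b2 * c0 + a2 * b0 * c1
        - a2 * b1 * c0) * r1
      + (b0 * c0 * c2 - b0 * c1 ^ 2 + b1 * c0 * c1 - b2 * c0 ^ 2) * r2
      + (-a0 * c0 * c2 + a0 * c1 ^ 2 - a1 * c0 * c1 + a2 * c0 ^ 2) * r3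
  funext i; fin_cases i <;> simp [*]

end

lemma Cop.lead_ne (h : Cop g₁ g₂) : g₁ 0 ≠ 0 ∨ g₂ 0 ≠ 0 := by
  by_contra hh
  push Not at hh
  have := h.root (E := ℝ) (s := 1) (t := 0) (by simp [cubE, hh.1]) (by simp [cubE, hh.2])
  simp at this

/-- The Bezout determinant of coprime forms is nonzero. -/
lemma Cop.bezout (h : Cop g₁ g₂) :
    let p := fun i j => g₁ i * g₂ j - g₁ j * g₂ i
    (!![p 0 1, p 0 2, p 0 3; p 0 2, p 0 3 + p 1 2, p 1 3; p 0 3, p 1 3, p 2 3] :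
      Matrix (Fin 3) (Fin 3) ℝ).det ≠ 0 := by
  intro p hd
  obtain ⟨w, hw, hm⟩ := Matrix.exists_mulVec_eq_zero_iff.2 hd
  have e := fun i => congrFun hm i
  have e0 := e 0; have e1 := e 1; have e2 := e 2
  simp [Matrix.mulVec, dotProduct, Fin.sum_univ_three, p] at e0 e1 e2
  obtain ⟨h1, h2⟩ := h
    ![-(w 2 * g₂ 0), -(w 1 * g₂ 0 + w 2 * g₂ 1), -(w 0 * g₂ 0 + w 1 * g₂ 1 + w 2 * g₂ 2)]
    ![w 2 * g₁ 0, w 1 * g₁ 0 + w 2 * g₁ 1, w 0 * g₁ 0 + w 1 * g₁ 1 + w 2 * g₁ 2] (by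
      funext i; fin_cases i <;> simp [conv] <;> linarith)
  have a0 := congrFun h1 0; have a1 := congrFun h1 1; have a2 := congrFun h1 2
  have b0 := congrFun h2 0; have b1 := congrFun h2 1; have b2 := congrFun h2 2
  simp only [Matrix.cons_val_zero, Matrix.cons_val_one, Matrix.cons_val, Pi.zero_apply,
    neg_eq_zero] at a0 a1 a2 b0 b1 b2
  apply hw
  rcases h.lead_ne with hl | hl
  · have w2 : w 2 = 0 := by simpa [hl] using b0
    have w1 : w 1 = 0 := by simpa [hl, w2] using b1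
    have w0 : w 0 = 0 := by simpa [hl, w2, w1] using b2
    funext i; fin_cases i <;> simp [*]
  · have w2 : w 2 = 0 := by simpa [hl] using a0
    have w1 : w 1 = 0 := by simpa [hl, w2] using a1
    have w0 : w 0 = 0 := by simpa [hl, w2, w1] using a2
    funext i; fin_cases i <;> simp [*]

lemma gram_aux (B11 B12 B13 B22 B23 B33 c0 c1 c2 d0 d1 d2 : ℝ)
    (h11 : B11 * c0 ^ 2 + B22 * c1 ^ 2 + B33 * c2 ^ 2
      + 2 * (B12 * c0 * c1 + B13 * c0 * c2 + B23 * c1 * c2) = 0)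
    (h22 : B11 * d0 ^ 2 + B22 * d1 ^ 2 + B33 * d2 ^ 2
      + 2 * (B12 * d0 * d1 + B13 * d0 * d2 + B23 * d1 * d2) = 0)
    (h12 : B11 * c0 * d0 + B22 * c1 * d1 + B33 * c2 * d2 + B12 * (c0 * d1 + c1 * d0)
      + B13 * (c0 * d2 + c2 * d0) + B23 * (c1 * d2 + c2 * d1) = 0)
    (hdet : B11 * B22 * B33 + 2 * B12 * B13 * B23 - B11 * B23 ^ 2 - B22 * B13 ^ 2
      - B33 * B12 ^ 2 ≠ 0) :
    c1 * d2 = c2 * d1 ∧ c2 * d0 = c0 * d2 ∧ c0 * d1 = c1 * d0 := by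
  obtain ⟨n0, hn0⟩ : ∃ n0, n0 = c1 * d2 - c2 * d1 := ⟨_, rfl⟩
  obtain ⟨n1, hn1⟩ : ∃ n1, n1 = c2 * d0 - c0 * d2 := ⟨_, rfl⟩
  obtain ⟨n2, hn2⟩ : ∃ n2, n2 = c0 * d1 - c1 * d0 := ⟨_, rfl⟩
  have key : ∀ e0 e1 e2 : ℝ, (B11 * B22 * B33 + 2 * B12 * B13 * B23 - B11 * B23 ^ 2
      - B22 * B13 ^ 2 - B33 * B12 ^ 2) * ((c1 * d2 - c2 * d1) * e0 + (c2 * d0 - c0 * d2) * e1
      + (c0 * d1 - c1 * d0) * e2) ^ 2 = 0 := by
    intro e0 e1 e2
    obtain ⟨G13, h13⟩ : ∃ G, G = B11 * c0 * e0 + B22 * c1 * e1 + B33 * c2 * e2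
      + B12 * (c0 * e1 + c1 * e0) + B13 * (c0 * e2 + c2 * e0) + B23 * (c1 * e2 + c2 * e1) :=
      ⟨_, rfl⟩
    obtain ⟨G23, h23⟩ : ∃ G, G = B11 * d0 * e0 + B22 * d1 * e1 + B33 * d2 * e2
      + B12 * (d0 * e1 + d1 * e0) + B13 * (d0 * e2 + d2 * e0) + B23 * (d1 * e2 + d2 * e1) :=
      ⟨_, rfl⟩
    obtain ⟨G33, h33⟩ : ∃ G, G = B11 * e0 ^ 2 + B22 * e1 ^ 2 + B33 * e2 ^ 2
      + 2 * (B12 * e0 * e1 + B13 * e0 * e2 + B23 * e1 * e2) := ⟨_, rfl⟩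
    obtain ⟨G22, h22'⟩ : ∃ G, G = B11 * d0 ^ 2 + B22 * d1 ^ 2 + B33 * d2 ^ 2
      + 2 * (B12 * d0 * d1 + B13 * d0 * d2 + B23 * d1 * d2) := ⟨_, rfl⟩
    obtain ⟨G12, h12'⟩ : ∃ G, G = B11 * c0 * d0 + B22 * c1 * d1 + B33 * c2 * d2
      + B12 * (c0 * d1 + c1 * d0) + B13 * (c0 * d2 + c2 * d0) + B23 * (c1 * d2 + c2 * d1) :=
      ⟨_, rfl⟩
    have e : (B11 * B22 * B33 + 2 * B12 * B13 * B23 - B11 * B23 ^ 2
      - B22 * B13 ^ 2 - B33 * B12 ^ 2) * ((c1 * d2 - c2 * d1) * e0 + (c2 * d0 - c0 * d2) * e1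
      + (c0 * d1 - c1 * d0) * e2) ^ 2 = (B11 * c0 ^ 2 + B22 * c1 ^ 2 + B33 * c2 ^ 2
      + 2 * (B12 * c0 * c1 + B13 * c0 * c2 + B23 * c1 * c2)) * (G22 * G33 - G23 ^ 2)
        - G12 * (G12 * G33 - 2 * G23 * G13) - G22 * G13 ^ 2 := by
      rw [h13, h23, h33, h22', h12']; ring
    rw [e, h11, h22'.trans h22, h12'.trans h12]; ring
  have k0 := key 1 0 0; have k1 := key 0 1 0; have k2 := key 0 0 1
  simp only [mul_eq_zero, hdet, false_or, mul_one, mul_zero, add_zero, zero_add, ne_eq,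
    OfNat.ofNat_ne_zero, not_false_eq_true, pow_eq_zero_iff] at k0 k1 k2
  exact ⟨by linarith, by linarith, by linarith⟩

/-- The conic of quadratic forms dividing a member of the pencil contains no line. -/
lemma Cop.no_plane (h : Cop g₁ g₂) {c d : Fin 3 → ℝ} (hc : Dq g₁ g₂ c = 0) (hd : Dq g₁ g₂ d = 0)
    (hcd : Dq g₁ g₂ (c + d) = 0) :
    c 1 * d 2 = c 2 * d 1 ∧ c 2 * d 0 = c 0 * d 2 ∧ c 0 * d 1 = c 1 * d 0 := by
  have hb := h.bezout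
  simp only [Matrix.det_fin_three, Matrix.of_apply, Matrix.cons_val', Matrix.cons_val_zero,
    Matrix.cons_val_one, Matrix.cons_val, Matrix.cons_val_fin_one] at hb
  simp only [Dq, Algebra.algebraMap_self, RingHom.id_apply, Pi.add_apply] at hc hd hcd
  set p01 := g₁ 0 * g₂ 1 - g₁ 1 * g₂ 0 with h01
  set p02 := g₁ 0 * g₂ 2 - g₁ 2 * g₂ 0 with h02
  set p03 := g₁ 0 * g₂ 3 - g₁ 3 * g₂ 0 with h03
  set p12 := g₁ 1 * g₂ 2 - g₁ 2 * g₂ 1 with h12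
  set p13 := g₁ 1 * g₂ 3 - g₁ 3 * g₂ 1 with h13
  set p23 := g₁ 2 * g₂ 3 - g₁ 3 * g₂ 2 with h23
  have hpl : p01 * p23 - p02 * p13 + p03 * p12 = 0 := by
    rw [h01, h02, h03, h12, h13, h23]; ring
  refine gram_aux (2 * p23) (-p13) (p12 - p03) (2 * p03) (-p02) (2 * p01) _ _ _ _ _ _
    (by linear_combination 2 * hc) (by linear_combination 2 * hd)
    (by linear_combination hcd - hc - hd) ?_
  intro hz
  apply hb
  linear_combination (1 / 2) * hz + (p12 - 3 * p03) * hpl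

end Pool.Agent.Lib.MP_886b5a_gt
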