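import Pool.Agent.Lib.MP_886b5a_gt.Trip

set_option autoImplicit false
set_option linter.unusedSectionVars false

namespace Pool.Agent.Lib.MP_886b5a_gt

open MvPolynomial Module

/-- Scaling of the fibre variables by a new variable. -/
noncomputable def hsc : R →+* Polynomial R :=
  eval₂Hom (Polynomial.C.comp C) fun i => Polynomial.C (X i) * Polynomial.X

lemma hsc_poly (g : Fin 4 → A) (Q b : Fin 3 → A) : hsc (cub g + quad Q + lin b) =
    Polynomial.C (cub g) * Polynomial.X ^ 3 + Polynomial.C (quad Q) * Polynomial.X ^ 2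
      + Polynomial.C (C (b 1) * X 0 + C (b 2) * X 1) * Polynomial.X + Polynomial.C (C (b 0)) := by
  simp [hsc, cub, quad, lin]; ring

lemma quint_eq_zero {a b : Fin 3 → A} (h : quad a * X 1 ^ 3 = quad b * X 0 ^ 3) :
    a = 0 ∧ b = 0 := by
  have e : monomial (mon 2 3) (a 0) + monomial (mon 1 4) (a 1) + monomial (mon 0 5) (a 2)
      = monomial (mon 5 0) (b 0) + monomial (mon 4 1) (b 1) + monomial (mon 3 2) (b 2) := by
    simp only [monomial_mon, quad] at h ⊢; linear_combination h
  have c := fun i j => congrArg (coeff (mon i j)) e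
  have c0 := c 2 3; have c1 := c 1 4; have c2 := c 0 5
  have c3 := c 5 0; have c4 := c 4 1; have c5 := c 3 2
  simp [coeff_monomial, mon_inj] at c0 c1 c2 c3 c4 c5
  constructor <;> funext i <;> fin_cases i <;> simp [c0, c1, c2, ← c3, ← c4, ← c5]

/-- Two cubics with leading forms `u ^ 3` and `v ^ 3` have no syzygy of low degree. -/
lemma low_cancel {F G a b : R} (hF : Lead F ![1, 0, 0, 0]) (hG : Lead G ![0, 0, 0, 1])
    (ha : Low a) (hb : Low b) (h : a * G = b * F) : a = 0 ∧ b = 0 := by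
  obtain ⟨Q, p, rfl⟩ := ha
  obtain ⟨Q', p', rfl⟩ := hb
  obtain ⟨A₁, B₁, rfl⟩ := hF
  obtain ⟨A₂, B₂, rfl⟩ := hG
  have e := congrArg hsc h
  have l := fun Q b => hsc_poly 0 Q b
  simp only [cub_zero, zero_add, map_zero, zero_mul] at l
  rw [map_mul, map_mul, l, l, cubR, cubR, hsc_poly, hsc_poly] at e
  have u3 : cub (fun i => C (![1, 0, 0, 0] i : ℝ)) = X 0 ^ 3 := by simp [cub]
  have v3 : cub (fun i => C (![0, 0, 0, 1] i : ℝ)) = X 1 ^ 3 := by simp [cub]
  rw [u3, v3] at e
  generalize quad A₁ = q₁ at e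
  generalize quad A₂ = q₂ at e
  generalize C (B₁ 1) * X 0 + C (B₁ 2) * (X 1 : R) = r₁ at e
  generalize C (B₂ 1) * X 0 + C (B₂ 2) * (X 1 : R) = r₂ at e
  have key : ∀ (a2 a1 a0 g3 g2 g1 g0 : R), (Polynomial.C a2 * Polynomial.X ^ 2
      + Polynomial.C a1 * Polynomial.X + Polynomial.C a0) * (Polynomial.C g3 * Polynomial.X ^ 3
      + Polynomial.C g2 * Polynomial.X ^ 2 + Polynomial.C g1 * Polynomial.X + Polynomial.C g0) =
      Polynomial.C (a2 * g3) * Polynomial.X ^ 5
      + Polynomial.C (a2 * g2 + a1 * g3) * Polynomial.X ^ 4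
      + Polynomial.C (a2 * g1 + a1 * g2 + a0 * g3) * Polynomial.X ^ 3
      + Polynomial.C (a2 * g0 + a1 * g1 + a0 * g2) * Polynomial.X ^ 2
      + Polynomial.C (a1 * g0 + a0 * g1) * Polynomial.X ^ 1
      + Polynomial.C (a0 * g0) * Polynomial.X ^ 0 := by
    intros; simp only [map_add, map_mul]; ring
  rw [key, key] at e
  have c5 := congrArg (fun P => Polynomial.coeff P 5) e
  have c4 := congrArg (fun P => Polynomial.coeff P 4) e
  have c3 := congrArg (fun P => Polynomial.coeff P 3) e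
  simp only [Polynomial.coeff_add, Polynomial.coeff_C_mul_X_pow] at c5 c4 c3
  norm_num at c5 c4 c3
  obtain ⟨rfl, rfl⟩ := quint_eq_zero c5
  obtain ⟨h1, h2⟩ := quint_eq_zero (a := ![p 1, p 2, 0]) (b := ![p' 1, p' 2, 0]) (by
    simp only [quad_zero] at c4
    simp [quad]; linear_combination X 0 * c4)
  have a1 := congrFun h1 0; have a2 := congrFun h1 1
  have b1 := congrFun h2 0; have b2 := congrFun h2 1
  simp only [Matrix.cons_val_zero, Matrix.cons_val_one, Pi.zero_apply] at a1 a2 b1 b2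
  obtain ⟨h3, h4⟩ := quint_eq_zero (a := ![p 0, 0, 0]) (b := ![p' 0, 0, 0]) (by
    simp only [quad_zero, a1, a2, b1, b2] at c3
    simp [quad] at c3 ⊢; linear_combination X 0 ^ 2 * c3)
  have a0 := congrFun h3 0; have b0 := congrFun h4 0
  simp only [Matrix.cons_val_zero, Pi.zero_apply] at a0 b0
  simp [lin, *]

lemma det3_all {E : Type*} [CommRing E] {ι : Type*} [LinearOrder ι] (col : ι → Fin 3 → E)
    (h : ∀ i j k, i < j → j < k → det3 (col i) (col j) (col k) = 0) (i j k : ι) :
    det3 (col i) (col j) (col k) = 0 := by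
  have s1 : ∀ a b c : Fin 3 → E, det3 a b c = 0 → det3 b a c = 0 := fun a b c h => by
    unfold det3 at *; linear_combination -h
  have s2 : ∀ a b c : Fin 3 → E, det3 a b c = 0 → det3 a c b = 0 := fun a b c h => by
    unfold det3 at *; linear_combination -h
  have z : ∀ a c : Fin 3 → E, det3 a a c = 0 := fun a c => by unfold det3; ring
  have h2 : ∀ i j k, i < j → det3 (col i) (col j) (col k) = 0 := fun i j k hij => by
    rcases lt_trichotomy j k with hjk | rfl | hjk
    · exact h i j k hij hjk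
    · exact s1 _ _ _ (s2 _ _ _ (z _ _))
    · rcases lt_trichotomy i k with hik | rfl | hik
      · exact s2 _ _ _ (h i k j hik hjk)
      · exact s2 _ _ _ (z _ _)
      · exact s2 _ _ _ (s1 _ _ _ (h k i j hik hij))
  rcases lt_trichotomy i j with hij | rfl | hij
  · exact h2 i j k hij
  · exact z _ _
  · exact s1 _ _ _ (h2 j i k hij)

end Pool.Agent.Lib.MP_886b5a_gt
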