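import Pool.Agent.Lib.MP_886b5a_gt.Parity

set_option autoImplicit false
set_option linter.unusedSectionVars false

namespace Pool.Agent.Lib.MP_886b5a_gt

open MvPolynomial Module

variable {K : Type*} {L : Type*} [Field K] [Algebra A K] [IsFractionRing A K] [Field L]
  [Algebra A L] [Algebra K L] [IsScalarTower A K L]
variable {Z : Set Pt} {U V : L} {f₁ f₂ : R} {g₁ g₂ : Fin 4 → ℝ}

lemma Geo.sR_mem (hG : Geo Z f₁ f₂ g₁ g₂) {f : R} (hf : f ∈ van Z) : sR f ∈ van Z :=
  fun p hp => by rw [ev_sR]; exact hf _ (hG.cone p hp)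

/-- Coefficients of a homogeneous element in a homogeneous independent family. -/
lemma Geo.homCoef (hG : Geo Z f₁ f₂ g₁ g₂) {ι : Type*} [Fintype ι] {b : ι → R} {e : ι → ℤ}
    (hb : ∀ i, HR (e i) (b i)) (hind : ∀ a : ι → A, ∑ i, C (a i) * b i ∈ van Z → a = 0)
    {n : ℤ} {f : R} (hf : HR n f) {a : ι → A} (ha : f - ∑ i, C (a i) * b i ∈ van Z) (i : ι) :
    HZ (n - e i) (a i) := by
  have h1 := (van Z).sub_mem ((van Z).mul_mem_left (C (C ((2 : ℝ) ^ n))) ha) (hG.sR_mem ha)
  have h2 := hind (fun i => C ((2 : ℝ) ^ e i) * sA (a i) - C ((2 : ℝ) ^ n) * a i) (by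
    convert h1 using 1
    rw [map_sub, hf, map_sum, mul_sub, Finset.mul_sum, sub_sub_sub_cancel_left,
      ← Finset.sum_sub_distrib]
    refine Finset.sum_congr rfl fun j _ => ?_
    rw [map_mul sR, hb j, sR_C]
    simp only [map_sub, map_mul]; ring)
  have h3 := congrFun h2 i
  simp only [Pi.zero_apply, sub_eq_zero] at h3
  unfold HZ
  have h4 : (C ((2 : ℝ) ^ e i) : A) ≠ 0 := by simpa using zpow_ne_zero (e i) two_ne_zero
  apply mul_left_cancel₀ h4
  rw [h3, ← mul_assoc, ← map_mul, ← two_zpow_add]
  congr 3; ring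

/-- Derivative along a tangent vector. -/
noncomputable def dv (U V b c : L) (f : R) : L :=
  b * pi U V (pderiv 0 f) + c * pi U V (pderiv 1 f)

lemma mem_tker' {b c : L} {f : R} : f ∈ tker U V b c ↔ pi U V f = 0 ∧ dv U V b c f = 0 := mem_tker

section
variable (b c : L)
@[simp] lemma dv_C (a : A) : dv U V b c (C a) = 0 := by simp [dv]
@[simp] lemma dv_X (i : Fin 2) : dv U V b c (X i) = ![b, c] i := by
  fin_cases i <;> simp [dv, pderiv_X]
@[simp] lemma dv_add (f g : R) : dv U V b c (f + g) = dv U V b c f + dv U V b c g := by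
  simp only [dv, map_add]; ring
@[simp] lemma dv_sub (f g : R) : dv U V b c (f - g) = dv U V b c f - dv U V b c g := by
  simp only [dv, map_sub]; ring
@[simp] lemma dv_neg (f : R) : dv U V b c (-f) = -dv U V b c f := by
  simp only [dv, map_neg]; ring
@[simp] lemma dv_zero : dv U V b c 0 = 0 := by simp [dv]
@[simp] lemma dv_mul (f g : R) :
    dv U V b c (f * g) = pi U V f * dv U V b c g + pi U V g * dv U V b c f := by
  simp only [dv, Derivation.leibniz, smul_eq_mul, map_add, map_mul]; ring
end

lemma exists_A (hG : Geo Z f₁ f₂ g₁ g₂) (hM : Model K Z U V) {f : R} {z : K}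
    (h : pi U V f = algebraMap K L z) : ∃ a : A, algebraMap A K a = z := by
  have := hM.isIntegral hG f
  rw [h, isIntegral_algebraMap_iff (algebraMap K L).injective] at this
  exact IsIntegrallyClosed.isIntegral_iff.1 this

lemma quad_rel (hG : Geo Z f₁ f₂ g₁ g₂) (hM : Model K Z U V) (hd : finrank K L = 2) {f : R}
    (hf : pi U V f ∉ (algebraMap K L).range) : ∃ t n : A,
      pi U V f ^ 2 - algebraMap A L t * pi U V f + algebraMap A L n = 0 := by
  have := hM.finite hG
  have hint := hM.isIntegral hG f
  have h1 : (minpoly K (pi U V f)).natDegree = 2 :=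
    le_antisymm ((minpoly.natDegree_le _).trans hd.le)
      ((minpoly.two_le_natDegree_iff (IsIntegral.of_finite K _)).2 hf)
  rw [minpoly.isIntegrallyClosed_eq_field_fractions' K hint,
    (minpoly.monic hint).natDegree_map] at h1
  have h2 := minpoly.aeval A (pi U V f)
  have h3 := (minpoly.monic hint).coeff_natDegree
  rw [Polynomial.aeval_eq_sum_range, h1] at h2
  rw [h1] at h3
  refine ⟨-(minpoly A (pi U V f)).coeff 1, (minpoly A (pi U V f)).coeff 0, ?_⟩
  simp only [Finset.sum_range_succ, Finset.range_zero, Finset.sum_empty, h3,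
    Algebra.smul_def] at h2
  simp only [map_neg, map_one] at h2 ⊢
  linear_combination h2

lemma caseA_core (hG : Geo Z f₁ f₂ g₁ g₂) (hM : Model K Z U V) (hd : finrank K L = 2)
    (i j : Fin 2) (hij : ∀ k, k = i ∨ k = j) (hW : pi U V (X i) ∉ (algebraMap K L).range) :
    False := by
  have := hM.finite hG
  have : CharZero K := charZero_K
  have hL : CharZero L := charZero_of_injective_algebraMap (algebraMap K L).injective
  have hinj := inj_AL K (L := L)
  have hinjK := IsFractionRing.injective A K
  set W := pi U V (X i) with hWdef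
  have ind : ∀ a b : K, algebraMap K L a + algebraMap K L b * W = 0 → a = 0 ∧ b = 0 := by
    intro a b h
    have hb : b = 0 := by
      by_contra hb
      have hb' : algebraMap K L b ≠ 0 := by simpa using hb
      exact hW ⟨-a / b, by rw [map_div₀, map_neg, div_eq_iff hb']; linear_combination -h⟩
    subst hb
    exact ⟨by simpa using h, rfl⟩
  have indA : ∀ a : Fin 2 → A, ∑ k, C (a k) * ![1, X i] k ∈ van Z → a = 0 := by
    intro a h
    have h1 := (hM.ker _).2 h
    simp only [Fin.sum_univ_two, Matrix.cons_val_zero, Matrix.cons_val_one, map_add, map_mul,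
      pi_C, map_one, mul_one, IsScalarTower.algebraMap_apply A K L] at h1
    obtain ⟨h2, h3⟩ := ind _ _ h1
    funext k; fin_cases k
    · exact hinjK (by simpa using h2)
    · exact hinjK (by simpa using h3)
  have hspan : ∀ z : L, ∃ a b : K, z = algebraMap K L a + algebraMap K L b * W := fun z => by
    have hli : LinearIndependent K ![1, W] := by
      rw [LinearIndependent.pair_iff]
      intro a b h
      exact ind a b (by simpa [Algebra.smul_def] using h)
    have := hli.span_eq_top_of_card_eq_finrank' (by simp [hd])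
    have hz : z ∈ Submodule.span K (Set.range ![1, W]) := this ▸ trivial
    obtain ⟨a, rfl⟩ := (Submodule.mem_span_range_iff_exists_fun K).1 hz
    exact ⟨a 0, a 1, by simp [Fin.sum_univ_two, Algebra.smul_def]⟩
  have hom : ∀ (k : Fin 2) (t n : A), pi U V (X k) ∉ (algebraMap K L).range →
      pi U V (X k) ^ 2 - algebraMap A L t * pi U V (X k) + algebraMap A L n = 0 →
      HZ 2 (t ^ 2 - 4 * n) := fun k t n hk h => by
    have indk : ∀ a : Fin 2 → A, ∑ l, C (a l) * ![1, X k] l ∈ van Z → a = 0 := by
      intro a h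
      have h1 := (hM.ker _).2 h
      simp only [Fin.sum_univ_two, Matrix.cons_val_zero, Matrix.cons_val_one, map_add, map_mul,
        pi_C, map_one, mul_one, IsScalarTower.algebraMap_apply A K L] at h1
      have hb : a 1 = 0 := by
        by_contra hb
        have hb' : algebraMap K L (algebraMap A K (a 1)) ≠ 0 := by
          simpa using fun h0 => hb (hinjK (by simpa using h0))
        exact hk ⟨-algebraMap A K (a 0) / algebraMap A K (a 1), by
          rw [map_div₀, map_neg, div_eq_iff hb']; linear_combination -h1⟩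
      funext l; fin_cases l
      · exact hinjK (by simpa [hb] using h1)
      · exact hb
    have H := hG.homCoef (b := ![1, X k]) (e := ![0, 1])
      (by intro l; fin_cases l; exacts [HR.one, HR.X k]) indk (n := 2) (f := X k ^ 2)
      (by simpa using (HR.X k).pow 2) (a := ![-n, t]) (by
        rw [← hM.ker]; simp [Fin.sum_univ_two]; linear_combination h)
    have h0 : HZ 2 n := by simpa using (H 0).neg
    have h1 : HZ 1 t := by simpa using H 1
    have h4 : (4 : A) = C 4 := (map_ofNat C 4).symm
    rw [sq, h4]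
    exact (h1.mul' h1 (by norm_num)).sub (h0.C_mul 4)
  obtain ⟨t, n, hq⟩ := quad_rel hG hM hd hW
  rw [← hWdef] at hq
  have hne : 2 * W - algebraMap A L t ≠ 0 := fun h => by
    have := (ind (-algebraMap A K t) 2 (by
      rw [map_neg, ← IsScalarTower.algebraMap_apply, map_ofNat]; linear_combination h)).2
    exact two_ne_zero this
  have hsq : (2 * W - algebraMap A L t) ^ 2 = algebraMap A L (t ^ 2 - 4 * n) := by
    simp only [map_sub, map_mul, map_pow, map_ofNat]; linear_combination 4 * hq
  have hD0 : t ^ 2 - 4 * n ≠ 0 := fun h => by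
    rw [h, map_zero] at hsq; exact hne (pow_eq_zero_iff two_ne_zero |>.1 hsq)
  have hD := hom i t n hW hq
  obtain ⟨a, b, hab⟩ := hspan (pi U V (X j))
  have hreal : ∃ r : ℝ, b = algebraMap A K (C r) := by
    by_cases hb : b = 0
    · exact ⟨0, by simp [hb]⟩
    have hW' : pi U V (X j) ∉ (algebraMap K L).range := by
      rintro ⟨z, hz⟩
      exact hb (ind (a - z) b (by rw [map_sub]; linear_combination -hab - hz)).2
    obtain ⟨t', n', hq'⟩ := quad_rel hG hM hd hW'
    have hD' := hom j t' n' hW' hq'
    rw [hab] at hq'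
    obtain ⟨e1, e2⟩ := ind (a ^ 2 - b ^ 2 * algebraMap A K n - algebraMap A K t' * a
      + algebraMap A K n') (2 * a * b + b ^ 2 * algebraMap A K t - algebraMap A K t' * b) (by
        simp only [map_add, map_sub, map_mul, map_pow, map_ofNat,
          ← IsScalarTower.algebraMap_apply]
        linear_combination hq' - (algebraMap K L b) ^ 2 * hq)
    have e3 : algebraMap A K t' = 2 * a + b * algebraMap A K t := by
      apply mul_right_cancel₀ hb; linear_combination -e2
    have e4 : algebraMap A K (t' ^ 2 - 4 * n') = b ^ 2 * algebraMap A K (t ^ 2 - 4 * n) := by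
      simp only [map_sub, map_mul, map_pow, map_ofNat]
      rw [e3] at e1 ⊢
      linear_combination -4 * e1
    set b1 := IsFractionRing.num A b
    set b2 : A := (IsFractionRing.den A b : A)
    have hb2 : b2 ≠ 0 := nonZeroDivisors.coe_ne_zero _
    have hb2' : algebraMap A K b2 ≠ 0 := fun h => hb2 (hinjK (by simpa using h))
    have hbb : algebraMap A K b1 / algebraMap A K b2 = b := IsFractionRing.mk'_num_den' A b
    have hrel : IsRelPrime b1 b2 := IsFractionRing.num_den_reduced A b
    have hb1 : b1 ≠ 0 := fun h => hb (by rw [← hbb, h]; simp)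
    have e5 : b1 ^ 2 * (t ^ 2 - 4 * n) = b2 ^ 2 * (t' ^ 2 - 4 * n') := by
      apply hinjK
      rw [map_mul, map_mul, e4, ← hbb, map_pow, map_pow]
      field_simp
    have hdeg : (t ^ 2 - 4 * n).totalDegree = 2 :=
      (HZ.isHomogeneous (k := 2) hD).totalDegree hD0
    have hdeg' : (t' ^ 2 - 4 * n').totalDegree ≤ 2 :=
      (HZ.isHomogeneous (k := 2) hD').totalDegree_le
    have hD0' : t' ^ 2 - 4 * n' ≠ 0 := fun h => by
      rw [h, mul_zero] at e5; exact mul_ne_zero (pow_ne_zero 2 hb1) hD0 e5
    by_cases h2 : b2.totalDegree = 0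
    · have e6 := congrArg totalDegree e5
      rw [sq b1, sq b2, totalDegree_mul_of_isDomain (mul_ne_zero hb1 hb1) hD0,
        totalDegree_mul_of_isDomain hb1 hb1,
        totalDegree_mul_of_isDomain (mul_ne_zero hb2 hb2) hD0',
        totalDegree_mul_of_isDomain hb2 hb2] at e6
      have h1 : b1.totalDegree = 0 := by omega
      rw [totalDegree_eq_zero_iff_eq_C] at h1 h2
      refine ⟨coeff 0 b1 / coeff 0 b2, ?_⟩
      have h3 : coeff 0 b2 ≠ 0 := fun h => hb2 (by rw [h2, h, map_zero])
      rw [← hbb, div_eq_iff hb2', ← map_mul]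
      congr 1
      rw [h1, h2]
      simp only [coeff_C, if_true, ← map_mul]
      rw [div_mul_cancel₀ _ h3]
    · exfalso
      obtain ⟨κ, hκ⟩ : b2 ^ 2 ∣ t ^ 2 - 4 * n :=
        (hrel.pow (m := 2) (n := 2)).symm.dvd_of_dvd_mul_left ⟨_, e5⟩
      have hκ0 : κ ≠ 0 := fun h => hD0 (by rw [hκ, h, mul_zero])
      have e6 := congrArg totalDegree hκ
      rw [sq b2, totalDegree_mul_of_isDomain (mul_ne_zero hb2 hb2) hκ0,
        totalDegree_mul_of_isDomain hb2 hb2] at e6
      have h1 : κ.totalDegree = 0 := by omega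
      rw [totalDegree_eq_zero_iff_eq_C] at h1
      set k := coeff 0 κ
      rw [hκ, h1] at hsq
      by_cases hk : 0 ≤ k
      · have hs : (C k : A) = C (√k) ^ 2 := by rw [← map_pow, Real.sq_sqrt hk]
        rw [hs, ← mul_pow, map_pow, sq_eq_sq_iff_eq_or_eq_neg] at hsq
        rcases hsq with h | h
        · exact two_ne_zero (ind (-algebraMap A K (t + b2 * C √k)) 2 (by
            rw [map_neg, ← IsScalarTower.algebraMap_apply, map_ofNat, map_add]
            linear_combination h)).2
        · exact two_ne_zero (ind (-algebraMap A K (t - b2 * C √k)) 2 (by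
            rw [map_neg, ← IsScalarTower.algebraMap_apply, map_ofNat, map_sub]
            linear_combination h)).2
      · apply hne
        have h3 : (2 * X i - C t) ^ 2 - C (b2 ^ 2 * C k) ∈ van Z := by
          rw [← hM.ker, map_sub, map_pow, map_sub, map_mul, map_ofNat, pi_C, pi_C, ← hWdef, hsq,
            sub_self]
        have h4 : 2 * X i - C t ∈ van Z := fun p hp => by
          have := h3 p hp
          rw [map_sub, map_pow, ev_C, map_mul, map_pow, eval_C] at this
          push Not at hk
          nlinarith [sq_nonneg (ev p (2 * X i - C t)), sq_nonneg (eval p.1 b2)]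
        have := (hM.ker _).2 h4
        rwa [map_sub, map_mul, map_ofNat, pi_C] at this
  obtain ⟨r, rfl⟩ := hreal
  obtain ⟨a', rfl⟩ := exists_A hG hM (f := X j - C (C r) * X i) (z := a) (by
    rw [map_sub, map_mul, pi_C, hab, ← IsScalarTower.algebraMap_apply]; ring)
  have m₁ : X j - C (C r) * X i - C a' ∈ van Z := by
    rw [← hM.ker, map_sub, map_sub, map_mul, pi_C, pi_C, hab]
    simp only [← IsScalarTower.algebraMap_apply]; ring
  have m₂ : X i * X i - C t * X i + C n ∈ van Z := by
    rw [← hM.ker, map_add, map_sub, map_mul, map_mul, pi_C, pi_C, ← hWdef]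
    linear_combination hq
  obtain ⟨β, γ, hβγ, t₁, t₂⟩ := hG.tangent hM m₁ m₂ fun p hp e₁ e₂ => hG.cut p hp fun f hf _ => by
    set J := Ideal.span {X j - C (C r) * X i - C a', X i * X i - C t * X i + C n}
    have j₁ : X j - C (C r) * X i - C a' ∈ J := Ideal.subset_span (by simp)
    have j₂ : X i * X i - C t * X i + C n ∈ J := Ideal.subset_span (by simp)
    have G0 : (1 : R) ∈ spn ![1, X i] J := mem_spn_gen ![1, X i] J 0
    have G1 : (X i : R) ∈ spn ![1, X i] J := mem_spn_gen ![1, X i] J 1
    have G2 : (X i * X i : R) ∈ spn ![1, X i] J := by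
      convert Submodule.sub_mem _ (Submodule.add_mem _ (mem_spn_ideal ![1, X i] j₂)
        (C_mul_mem t G1)) (C_mul_mem n G0) using 1
      ring
    have hf' := all_mem_spn G0 (fun k l => by
      rcases hij k with rfl | rfl <;> fin_cases l
      · simpa using G1
      · simpa using G2
      · convert Submodule.add_mem _ (Submodule.add_mem _ (mem_spn_ideal ![1, X i] j₁)
          (C_mul_mem (C r) G1)) (C_mul_mem a' G0) using 1
        simp; ring
      · convert Submodule.add_mem _ (Submodule.add_mem _ (mem_spn_ideal ![1, X i]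
          (J.mul_mem_left (X i) j₁)) (C_mul_mem (C r) G2)) (C_mul_mem a' G1) using 1
        simp; ring) f
    obtain ⟨z, hz⟩ := mem_spn_iff.1 hf'
    have hJ : J ≤ van Z := Ideal.span_le.2 (by
      rintro _ (rfl | rfl)
      exacts [m₁, m₂])
    have hz0 := indA z (by simpa using (van Z).sub_mem hf (hJ hz))
    rw [hz0] at hz
    obtain ⟨u, v, huv⟩ := Ideal.mem_span_pair.1 (by simpa using hz : f ∈ J)
    rw [← huv, map_add, map_mul, map_mul, e₁, e₂]; simp
  have d₁ := (mem_tker'.1 t₁).2
  have d₂ := (mem_tker'.1 t₂).2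
  simp only [dv_sub, dv_add, dv_mul, dv_C, dv_X, pi_C, ← hWdef] at d₁ d₂
  have hi : ![β, γ] i = 0 := by
    apply mul_left_cancel₀ hne; linear_combination d₂
  have hj : ![β, γ] j = 0 := by rw [hi] at d₁; simpa using d₁
  have h0 : ![β, γ] 0 = 0 := by rcases hij 0 with h | h <;> rw [h] <;> assumption
  have h1 : ![β, γ] 1 = 0 := by rcases hij 1 with h | h <;> rw [h] <;> assumption
  simp only [Matrix.cons_val_zero, Matrix.cons_val_one] at h0 h1
  tauto

lemma four_le (hG : Geo Z f₁ f₂ g₁ g₂) (hM : Model K Z U V) : 4 ≤ finrank K L := by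
  have := hM.finite hG
  by_contra hlt
  have hpos : 0 < finrank K L := finrank_pos
  obtain ⟨k, hk⟩ := hM.even hG
  have hd : finrank K L = 2 := by omega
  by_cases hU : pi U V (X 0) ∈ (algebraMap K L).range
  · by_cases hV : pi U V (X 1) ∈ (algebraMap K L).range
    · obtain ⟨a, ha⟩ := hU
      obtain ⟨b, hb⟩ := hV
      simp only [pi_X0, pi_X1] at ha hb
      have := hM.eq_top' (Submodule.span K (Set.range ![(1 : L)])) (Submodule.subset_span ⟨0, rfl⟩)
        (fun x hx => by rw [← ha, ← Algebra.smul_def]; exact Submodule.smul_mem _ _ hx)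
        (fun x hx => by rw [← hb, ← Algebra.smul_def]; exact Submodule.smul_mem _ _ hx)
      have h1 := finrank_range_le_card (R := K) ![(1 : L)]
      rw [Set.finrank, this, finrank_top] at h1
      simp at h1; omega
    · exact caseA_core hG hM hd 1 0 (by intro k; fin_cases k <;> simp) hV
  · exact caseA_core hG hM hd 0 1 (by intro k; fin_cases k <;> simp) hU

end Pool.Agent.Lib.MP_886b5a_gt
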