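import Pool.Agent.Lib.MP_886b5a_gt.Cancel

set_option autoImplicit false
set_option linter.unusedSectionVars false

namespace Pool.Agent.Lib.MP_886b5a_gt

open MvPolynomial Module

namespace CB1a

lemma sub_aeval_mem (I : Ideal A) (g : Fin 3 → A) (h : ∀ k, X k - g k ∈ I) (a : A) :
    a - aeval g a ∈ I := by
  induction a using MvPolynomial.induction_on with
  | C r => simp
  | add p q hp hq =>
    have e : p + q - aeval g (p + q) = (p - aeval g p) + (q - aeval g q) := by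
      rw [map_add]; ring
    rw [e]; exact I.add_mem hp hq
  | mul_X p k hp =>
    have e : p * X k - aeval g (p * X k) = (p - aeval g p) * X k + aeval g p * (X k - g k) := by
      rw [map_mul, aeval_X]; ring
    rw [e]; exact I.add_mem (I.mul_mem_right _ hp) (I.mul_mem_left _ (h k))

lemma prime_of_retract (I : Ideal A) (g : Fin 3 → A) (h : ∀ k, X k - g k ∈ I)
    (h2 : I ≤ RingHom.ker (aeval g : A →ₐ[ℝ] A)) : I.IsPrime := by
  have e : I = RingHom.ker (aeval g : A →ₐ[ℝ] A) := le_antisymm h2 fun a ha => by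
    have := sub_aeval_mem I g h a
    rwa [(RingHom.mem_ker).1 ha, sub_zero] at this
  rw [e]
  exact RingHom.ker_isPrime _

lemma hz_aeval {g : Fin 3 → A} (hg : ∀ k, HZ 1 (g k)) {n : ℤ} {a : A} (ha : HZ n a) :
    HZ n (aeval g a) := by
  have key : ∀ b : A, sA (aeval g b) = aeval g (sA b) := fun b => by
    induction b using MvPolynomial.induction_on with
    | C r => simp
    | add p q hp hq => simp only [map_add, hp, hq]
    | mul_X p k hp =>
      have h2 := hg k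
      unfold HZ at h2
      simp only [map_mul, hp, aeval_X, sA_X, h2, zpow_one, map_ofNat]
  unfold HZ at *
  rw [key, ha, map_mul, aeval_C, algebraMap_eq]

lemma aeval_lf (p q m : Fin 3 → ℝ) (a b : A) :
    aeval (fun k => X k - C (p k) * a - C (q k) * b) (lf m)
      = lf m - C (eval p (lf m)) * a - C (eval q (lf m)) * b := by
  rw [eval_lf, eval_lf]
  simp only [lf, map_add, map_mul, aeval_C, aeval_X, algebraMap_eq]
  ring

lemma prime_lf {n p : Fin 3 → ℝ} (hp : eval p (lf n) = 1) : Prime (lf n) := by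
  have h0 : lf n ≠ 0 := fun h => by rw [h, map_zero] at hp; exact zero_ne_one hp
  rw [← Ideal.span_singleton_prime h0]
  refine prime_of_retract _ (fun k => X k - C (p k) * lf n - C ((0 : Fin 3 → ℝ) k) * 0)
    (fun k => ?_) ?_
  · simpa using Ideal.mul_mem_left _ _ (Ideal.mem_span_singleton_self _)
  · rw [Ideal.span_singleton_le_iff_mem, RingHom.mem_ker, aeval_lf, hp]
    simp

lemma exists_pair {S : Fin 3 → A} (hom : ∀ i, HZ 1 (S i))
    (prim : ∀ π : A, Prime π → ∃ i, ¬ π ∣ S i) : ∃ (i j : Fin 3) (n m p q : Fin 3 → ℝ),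
      S i = lf n ∧ S j = lf m ∧ eval p (lf n) = 1 ∧ eval p (lf m) = 0 ∧ eval q (lf n) = 0 ∧
      eval q (lf m) = 1 := by
  have sq : ∀ v : Fin 3 → ℝ, lf v ≠ 0 → v 0 ^ 2 + v 1 ^ 2 + v 2 ^ 2 ≠ 0 := fun v hv h => by
    have h0 : v 0 = 0 := by nlinarith [sq_nonneg (v 0), sq_nonneg (v 1), sq_nonneg (v 2)]
    have h1 : v 1 = 0 := by nlinarith [sq_nonneg (v 0), sq_nonneg (v 1), sq_nonneg (v 2)]
    have h2 : v 2 = 0 := by nlinarith [sq_nonneg (v 0), sq_nonneg (v 1), sq_nonneg (v 2)]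
    exact hv (by simp [lf, h0, h1, h2])
  obtain ⟨i, hi⟩ := prim (X 0) X_prime
  obtain ⟨n, hn⟩ := (hom i).eq_lf
  have hn0 := sq n fun h => hi (by rw [hn, h]; exact dvd_zero _)
  obtain ⟨w, hw⟩ : ∃ w, eval w (lf n) = 1 :=
    ⟨fun k => n k / (n 0 ^ 2 + n 1 ^ 2 + n 2 ^ 2), by rw [eval_lf]; field_simp⟩
  obtain ⟨j, hj⟩ := prim _ (prime_lf hw)
  obtain ⟨m, hm⟩ := (hom j).eq_lf
  obtain ⟨c, hc⟩ : ∃ c : ℝ, c * (n 0 ^ 2 + n 1 ^ 2 + n 2 ^ 2) = m 0 * n 0 + m 1 * n 1 + m 2 * n 2 :=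
    ⟨_, div_mul_cancel₀ _ hn0⟩
  have hv := sq (fun k => m k - c * n k) fun h => hj ⟨C c, by
    rw [hm, ← sub_eq_zero, ← h]; simp only [lf, map_sub, map_mul]; ring⟩
  obtain ⟨q, hq1, hq2⟩ : ∃ q, eval q (lf n) = 0 ∧ eval q (lf m) = 1 := by
    refine ⟨fun k => (m k - c * n k) / ((m 0 - c * n 0) ^ 2 + (m 1 - c * n 1) ^ 2
      + (m 2 - c * n 2) ^ 2), ?_, ?_⟩
    · rw [eval_lf]
      linear_combination -hc / ((m 0 - c * n 0) ^ 2 + (m 1 - c * n 1) ^ 2 + (m 2 - c * n 2) ^ 2)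
    · rw [eval_lf]; field_simp; linear_combination -c * hc
  refine ⟨i, j, n, m, fun k => w k - eval w (lf m) * q k, q, hn, hm, ?_, ?_, hq1, hq2⟩
  · simp only [eval_lf] at *
    linear_combination hw - (m 0 * w 0 + m 1 * w 1 + m 2 * w 2) * hq1
  · simp only [eval_lf] at *
    linear_combination - (m 0 * w 0 + m 1 * w 1 + m 2 * w 2) * hq2

/-- Splitting a homogeneous element of the ideal of two independent linear forms. -/
lemma split_hom {n m p : Fin 3 → ℝ} (h1 : eval p (lf n) = 1) (h2 : eval p (lf m) = 0) {d : ℤ}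
    {r : A} (hr : HZ (1 + d) r) (hm : lf m ≠ 0) (h : r ∈ Ideal.span {lf n, lf m}) :
    ∃ x z, HZ d x ∧ r = lf m * x - lf n * z := by
  obtain ⟨u, v, huv⟩ := Ideal.mem_span_pair.1 h
  set g : Fin 3 → A := fun k => X k - C (p k) * lf n - C ((0 : Fin 3 → ℝ) k) * 0 with hg
  have e1 : aeval g (lf n) = 0 := by rw [hg, aeval_lf, h1]; simp
  have e2 : aeval g (lf m) = lf m := by rw [hg, aeval_lf, h2]; simp
  have e3 : aeval g r = lf m * aeval g v := by rw [← huv, map_add, map_mul, map_mul, e1, e2]; ring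
  have hg1 : ∀ k, HZ 1 (g k) := fun k => by
    simpa [hg] using (HZ.X k).sub ((hz_lf n).C_mul (p k))
  obtain ⟨w, hw⟩ := Ideal.mem_span_singleton'.1 (sub_aeval_mem (Ideal.span {lf n}) g
    (fun k => by simpa [hg] using Ideal.mul_mem_left _ _ (Ideal.mem_span_singleton_self _)) r)
  exact ⟨aeval g v, -w, (hz_lf m).of_mul hm (e3 ▸ hz_aeval hg1 hr), by
    rw [← e3]; linear_combination -hw⟩

variable {K : Type*} {L : Type*} [Field K] [Algebra A K] [IsFractionRing A K] [Field L]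
  [Algebra A L] [Algebra K L] [IsScalarTower A K L]
variable {Z : Set Pt} {U V : L} {f₁ f₂ : R} {g₁ g₂ : Fin 4 → ℝ}
variable {ρ : L →ₗ[K] K} {S : Fin 3 → A} {k : ℕ}

lemma lin_hom (hG : Geo Z f₁ f₂ g₁ g₂) (hM : Model K Z U V) {n : ℤ} {f : R} (hf : HR n f)
    {c : Fin 3 → A} (h : f - lin c ∈ van Z) :
    HZ n (c 0) ∧ HZ (n - 1) (c 1) ∧ HZ (n - 1) (c 2) := by
  have e : ∀ a : Fin 3 → A, ∑ i, C (a i) * ![1, X 0, X 1] i = lin a := fun a => by
    simp [Fin.sum_univ_three, lin]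
  have H := hG.homCoef (b := ![1, X 0, X 1]) (e := ![0, 1, 1])
    (by intro l; fin_cases l; exacts [HR.one, HR.X 0, HR.X 1])
    (fun a ha => lin_eq_zero_of_mem hG hM (e a ▸ ha)) hf (a := c) (by rw [e]; exact h)
  exact ⟨by simpa using H 0, by simpa using H 1, by simpa using H 2⟩

lemma rho_hom (hG : Geo Z f₁ f₂ g₁ g₂) (hM : Model K Z U V) (hB : BData K U V ρ S k)
    {l : Fin 3} (hl : S l ≠ 0) {n : ℤ} {f : R} (hf : HR n f) {a : A}
    (ha : ρ (pi U V f) = algebraMap A K a) : HZ (n + k - 2) a := by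
  obtain ⟨a', b, ha', hb⟩ := hB.expand hG hM l f
  obtain rfl : a' = a := IsFractionRing.injective A K (ha'.symm.trans ha)
  have h1 := congrArg ρ ((hM.ker _).2 (hG.sR_mem hb))
  have e : sR (lin b) = lin ![sA (b 0), 2 * sA (b 1), 2 * sA (b 2)] := by
    simp [lin, map_ofNat]; ring
  have e2 := hB.hom l
  unfold HZ at e2
  rw [map_sub sR, map_sub sR, map_mul sR, map_mul sR, hf, hr_m2 l, e, sR_C, sR_C, ← mul_assoc,
    ← mul_assoc, ← map_mul, ← map_mul, map_sub, map_sub, map_sub, map_sub,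
    (hB.ker _).2 (pi_lin_mem_F1 _), map_mul (pi U V), map_mul (pi U V), pi_C, pi_C, rho_C_mul,
    rho_C_mul, ha', hB.val, map_zero, sub_zero, ← map_mul, ← map_mul, ← map_sub,
    map_eq_zero_iff _ (IsFractionRing.injective A K), e2] at h1
  unfold HZ
  have h4 : (C ((2 : ℝ) ^ (2 : ℤ)) : A) * S l ≠ 0 := mul_ne_zero (by simp) hl
  apply mul_left_cancel₀ h4
  have e3 : (C ((2 : ℝ) ^ (2 : ℤ)) : A) * C ((2 : ℝ) ^ (n + k - 2))
      = C ((2 : ℝ) ^ (k : ℤ)) * C ((2 : ℝ) ^ n) := by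
    rw [← map_mul, ← map_mul, ← two_zpow_add, ← two_zpow_add]; congr 2; ring
  linear_combination -h1 - S l * a' * e3

lemma key (hG : Geo Z f₁ f₂ g₁ g₂) (hM : Model K Z U V) (hB : BData K U V ρ S k) {a b : A}
    (ha : Prime a) (ha1 : HZ 1 a) (hab : ¬ a ∣ b) {y : L} (hy : ρ y = 0) {f g : R} (hf : HR 3 f)
    (h1 : pi U V f = algebraMap A L a * y) (h2 : pi U V g = algebraMap A L b * y) :
    ∃ c, HR 2 (lin c) ∧ pi U V (lin c) = y := by
  obtain ⟨c, hc⟩ := hB.sat hG hM (f := f) (by rw [h1, rho_C_mul, hy, mul_zero])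
  obtain ⟨d, hd⟩ := hB.sat hG hM (f := g) (by rw [h2, rho_C_mul, hy, mul_zero])
  have hc' := (hM.ker _).2 hc
  have hd' := (hM.ker _).2 hd
  rw [map_sub, h1] at hc'
  rw [map_sub, h2] at hd'
  have h3 := lin_eq_zero_of_mem hG hM (b := fun t => b * c t - a * d t) ((hM.ker _).1 (by
    rw [pi_lin] at *
    simp only [map_sub, map_mul]
    linear_combination algebraMap A L a * hd' - algebraMap A L b * hc'))
  have h4 : ∀ t, a ∣ c t := fun t => (ha.dvd_or_dvd (a := b) (b := c t)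
    ⟨d t, sub_eq_zero.1 (congrFun h3 t)⟩).resolve_left hab
  choose c' hc2 using h4
  obtain ⟨e0, e1, e2⟩ := lin_hom hG hM hf hc
  rw [hc2] at e0 e1 e2
  refine ⟨c', hr_lin (ha1.of_mul ha.ne_zero (by simpa using e0))
    (ha1.of_mul ha.ne_zero (by simpa using e1)) (ha1.of_mul ha.ne_zero (by simpa using e2)), ?_⟩
  have ha0 : algebraMap A L a ≠ 0 := fun h =>
    ha.ne_zero (inj_AL K (L := L) (by simpa using h))
  apply mul_left_cancel₀ ha0
  rw [pi_lin] at *
  simp only [hc2, map_mul] at hc'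
  linear_combination -hc'

end CB1a

open CB1a

variable {K : Type*} {L : Type*} [Field K] [Algebra A K] [IsFractionRing A K] [Field L]
  [Algebra A L] [Algebra K L] [IsScalarTower A K L]
variable {Z : Set Pt} {U V : L} {f₁ f₂ : R} {g₁ g₂ : Fin 4 → ℝ}

variable {ρ : L →ₗ[K] K} {S : Fin 3 → A}

/-- The surface is a projection of a surface of degree four in five-space. -/
theorem exists_B1 (hG : Geo Z f₁ f₂ g₁ g₂) (hM : Model K Z U V) (hB : BData K U V ρ S 1) :
    ∃ (e : L) (a₁ a₂ : A) (s : Fin 3 → Fin 3 → A) (pu pv : Fin 3 → A),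
      ρ e = 1 ∧ HZ 1 a₁ ∧ HZ 1 a₂ ∧ (∀ l, HR 2 (lin (s l))) ∧ HR 2 (lin pu) ∧ HR 2 (lin pv) ∧
      (∀ l, pi U V (m2 l - lin (s l)) = algebraMap A L (S l) * e) ∧
      pi U V (lin pu) = (U - algebraMap A L a₁) * e ∧
      pi U V (lin pv) = (V - algebraMap A L a₂) * e := by
  have hom : ∀ i, HZ 1 (S i) := fun i => by simpa using hB.hom i
  obtain ⟨i, j, n, m, p, q, hn, hm, p1, p2, q1, q2⟩ := exists_pair hom hB.prim
  have hpr : Prime (S i) := hn ▸ prime_lf p1
  have hnd : ¬ S i ∣ S j := by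
    rintro ⟨c, hc⟩
    rw [← hm, hc, hn, map_mul, q1, zero_mul] at q2
    exact zero_ne_one q2
  have hj0 : lf m ≠ 0 := fun h => hnd (by rw [hm, h]; exact dvd_zero _)
  have hP : (Ideal.span {lf n, lf m}).IsPrime := by
    refine prime_of_retract _ (fun k => X k - C (p k) * lf n - C (q k) * lf m) (fun k => ?_) ?_
    · exact Ideal.mem_span_pair.2 ⟨C (p k), C (q k), by ring⟩
    · rw [Ideal.span_le]
      rintro _ (rfl | rfl)
      · rw [SetLike.mem_coe, RingHom.mem_ker, aeval_lf, p1, q1]; simp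
      · rw [SetLike.mem_coe, RingHom.mem_ker, aeval_lf, p2, q2]; simp
  obtain ⟨r, hr⟩ := hB.sat hG hM (f := C (S j) * m2 i - C (S i) * m2 j) (by
    rw [map_sub, map_sub, map_mul (pi U V), map_mul (pi U V), pi_C, pi_C, rho_C_mul, rho_C_mul,
      hB.val, hB.val]; ring)
  obtain ⟨r0, r1, r2⟩ := lin_hom hG hM (n := 3)
    (((HR.C (hom j)).mul' (hr_m2 i) (by norm_num)).sub
      ((HR.C (hom i)).mul' (hr_m2 j) (by norm_num))) hr
  have hrP := satP hG hM (four_le hG hM) _ hP (b := r) (by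
    have e : lin r = C (lf m) * m2 i - C (lf n) * m2 j
        - (C (S j) * m2 i - C (S i) * m2 j - lin r) := by rw [hn, hm]; ring
    rw [e]
    exact Ideal.sub_mem _ (Ideal.mem_sup_left (Ideal.sub_mem _
      (Ideal.mul_mem_right _ _ (Ideal.mem_map_of_mem _ (Ideal.subset_span (by simp))))
      (Ideal.mul_mem_right _ _ (Ideal.mem_map_of_mem _ (Ideal.subset_span (by simp))))))
      (Ideal.mem_sup_right hr))
  obtain ⟨x0, z0, hx0, e0⟩ := split_hom p1 p2 (d := 2) (by simpa using r0) hj0 (hrP 0)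
  obtain ⟨x1, z1, hx1, e1⟩ := split_hom p1 p2 (d := 1) (by simpa using r1) hj0 (hrP 1)
  obtain ⟨x2, z2, hx2, e2⟩ := split_hom p1 p2 (d := 1) (by simpa using r2) hj0 (hrP 2)
  rw [← hn, ← hm] at e0 e1 e2
  obtain ⟨E, hE⟩ : ∃ E, E = m2 i - lin ![x0, x1, x2] := ⟨_, rfl⟩
  obtain ⟨F, hF⟩ : ∃ F, F = m2 j - lin ![z0, z1, z2] := ⟨_, rfl⟩
  have hE2 : HR 2 E := hE ▸ (hr_m2 i).sub (hr_lin hx0 (by simpa using hx1) (by simpa using hx2))
  have hi0 : algebraMap A L (S i) ≠ 0 := fun h =>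
    hpr.ne_zero (inj_AL K (L := L) (by simpa using h))
  have hi1 : algebraMap A K (S i) ≠ 0 := fun h =>
    hpr.ne_zero (IsFractionRing.injective A K (by simpa using h))
  obtain ⟨e, he⟩ : ∃ e, pi U V E = algebraMap A L (S i) * e :=
    ⟨_, (mul_div_cancel₀ _ hi0).symm⟩
  have hf : pi U V F = algebraMap A L (S j) * e := by
    apply mul_left_cancel₀ hi0
    have h := (hM.ker _).2 hr
    have e3 : C (S j) * m2 i - C (S i) * m2 j - lin r = C (S j) * E - C (S i) * F := by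
      simp only [hE, hF, lin, e0, e1, e2, map_sub, map_mul, Matrix.cons_val_zero,
        Matrix.cons_val_one, Matrix.cons_val]
      ring
    rw [e3, map_sub, map_mul, map_mul, pi_C, pi_C, he] at h
    linear_combination -h
  have hρ : ρ e = 1 := by
    apply mul_left_cancel₀ hi1
    rw [← rho_C_mul, ← he, hE, map_sub, map_sub, hB.val, (hB.ker _).2 (pi_lin_mem_F1 _)]
    ring
  have h1 : ∀ l, ∃ c, HR 2 (lin c) ∧
      pi U V (lin c) = pi U V (m2 l) - algebraMap A L (S l) * e := fun l =>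
    key hG hM hB hpr (hom i) hnd (by rw [map_sub, rho_C_mul, hρ, hB.val]; ring)
      (f := C (S i) * m2 l - C (S l) * E) (g := C (S j) * m2 l - C (S l) * F)
      (((HR.C (hom i)).mul' (hr_m2 l) (by norm_num)).sub
        ((HR.C (hom l)).mul' hE2 (by norm_num)))
      (by rw [map_sub, map_mul, map_mul, pi_C, pi_C, he]; ring)
      (by rw [map_sub, map_mul, map_mul, pi_C, pi_C, hf]; ring)
  have h2 : ∀ t : Fin 2, ∃ a c, HZ 1 a ∧ HR 2 (lin c) ∧
      pi U V (lin c) = (pi U V (X t) - algebraMap A L a) * e := fun t => by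
    obtain ⟨α, hα⟩ := hB.int (X t * E)
    obtain ⟨β, hβ⟩ := hB.int (X t * F)
    have hα2 := rho_hom hG hM hB hpr.ne_zero ((HR.X t).mul hE2) hα
    rw [map_mul, he, mul_left_comm, rho_C_mul] at hα
    rw [map_mul, hf, mul_left_comm, rho_C_mul] at hβ
    obtain ⟨a, ha⟩ : S i ∣ α := (hpr.dvd_or_dvd (a := S j) (b := α) ⟨β,
      IsFractionRing.injective A K (by rw [map_mul, map_mul, ← hα, ← hβ]; ring)⟩).resolve_left hnd
    rw [ha] at hα hα2
    have ha1 : HZ 1 a := (hom i).of_mul hpr.ne_zero (by simpa using hα2)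
    rw [map_mul (algebraMap A K)] at hα
    obtain ⟨c, hc⟩ := key hG hM hB hpr (hom i) hnd (y := (pi U V (X t) - algebraMap A L a) * e)
      (by rw [sub_mul, map_sub, rho_C_mul, hρ, mul_left_cancel₀ hi1 hα]; ring)
      (f := (X t - C a) * E) (g := (X t - C a) * F)
      (((HR.X t).sub (HR.C ha1)).mul' hE2 (by norm_num))
      (by rw [map_mul, map_sub, pi_C, he]; ring) (by rw [map_mul, map_sub, pi_C, hf]; ring)
    exact ⟨a, c, ha1, hc⟩
  choose s hs using h1
  obtain ⟨a₁, pu, u1, u2, u3⟩ := h2 0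
  obtain ⟨a₂, pv, v1, v2, v3⟩ := h2 1
  exact ⟨e, a₁, a₂, s, pu, pv, hρ, u1, v1, fun l => (hs l).1, u2, v2,
    fun l => by rw [map_sub, (hs l).2]; ring, by simpa using u3, by simpa using v3⟩

end Pool.Agent.Lib.MP_886b5a_gt
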