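import Pool.Agent.Lib.MP_886b5a_gt.BDefs

set_option autoImplicit false
set_option linter.unusedSectionVars false

namespace Pool.Agent.Lib.MP_886b5a_gt

open MvPolynomial Module

namespace CB2

section res
variable {F K : Type*} [Field F] [Field K]

/-- Elements regular at infinity, together with their value there. -/
noncomputable def Gam (κ : F →+* K) (t : K) : Subring (K × F) where
  carrier := {x | ∃ P Q : Polynomial F, Q.coeff 0 ≠ 0 ∧
    x.1 * Polynomial.eval₂ κ t⁻¹ Q = Polynomial.eval₂ κ t⁻¹ P ∧ x.2 * Q.coeff 0 = P.coeff 0}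
  mul_mem' := by
    rintro x y ⟨P, Q, h1, h2, h3⟩ ⟨P', Q', h1', h2', h3'⟩
    refine ⟨P * P', Q * Q', ?_, ?_, ?_⟩
    · rw [Polynomial.mul_coeff_zero]; exact mul_ne_zero h1 h1'
    · rw [Polynomial.eval₂_mul, Polynomial.eval₂_mul, ← h2, ← h2', Prod.fst_mul]; ring
    · rw [Polynomial.mul_coeff_zero, Polynomial.mul_coeff_zero, ← h3, ← h3', Prod.snd_mul]; ring
  one_mem' := ⟨1, 1, by simp, by simp, by simp⟩
  add_mem' := by
    rintro x y ⟨P, Q, h1, h2, h3⟩ ⟨P', Q', h1', h2', h3'⟩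
    refine ⟨P * Q' + P' * Q, Q * Q', ?_, ?_, ?_⟩
    · rw [Polynomial.mul_coeff_zero]; exact mul_ne_zero h1 h1'
    · rw [Polynomial.eval₂_add, Polynomial.eval₂_mul, Polynomial.eval₂_mul, Polynomial.eval₂_mul,
        ← h2, ← h2', Prod.fst_add]; ring
    · rw [Polynomial.coeff_add, Polynomial.mul_coeff_zero, Polynomial.mul_coeff_zero,
        Polynomial.mul_coeff_zero, ← h3, ← h3', Prod.snd_add]; ring
  zero_mem' := ⟨0, 1, by simp, by simp, by simp⟩
  neg_mem' := by
    rintro x ⟨P, Q, h1, h2, h3⟩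
    refine ⟨-P, Q, h1, ?_, ?_⟩
    · rw [Polynomial.eval₂_neg, ← h2, Prod.fst_neg]; ring
    · rw [Polynomial.coeff_neg, ← h3, Prod.snd_neg]; ring

variable {κ : F →+* K} {t : K}

lemma reflect_eval (ht : t ≠ 0) {n : ℕ} {P : Polynomial F} (h : P.natDegree ≤ n) :
    Polynomial.eval₂ κ t⁻¹ (Polynomial.reflect n P) * t ^ n = Polynomial.eval₂ κ t P := by
  let _ : Invertible t := invertibleOfNonzero ht
  have := Polynomial.eval₂_reflect_mul_pow κ t n P h
  rwa [invOf_eq_inv] at this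

lemma inj_inv (ht : t ≠ 0) (hφ : ∀ P, Polynomial.eval₂ κ t P = 0 → P = 0) (P : Polynomial F)
    (h : Polynomial.eval₂ κ t⁻¹ P = 0) : P = 0 := by
  have h1 := reflect_eval (κ := κ) (inv_ne_zero ht) (P := P) le_rfl
  rw [h, inv_inv] at h1
  have h2 := hφ _ ((mul_eq_zero.1 h1).resolve_right (pow_ne_zero _ (inv_ne_zero ht)))
  exact Polynomial.reflect_eq_zero_iff.1 h2

lemma mem_poly (ht : t ≠ 0) {n : ℕ} {P : Polynomial F} (h : P.natDegree ≤ n) :
    (Polynomial.eval₂ κ t P / t ^ n, P.coeff n) ∈ Gam κ t :=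
  ⟨Polynomial.reflect n P, 1, by simp, by
    rw [Polynomial.eval₂_one, mul_one, ← reflect_eval ht h, mul_div_cancel_right₀ _
      (pow_ne_zero _ ht)], by simp⟩

lemma mem_const (c : F) : (κ c, c) ∈ Gam κ t := ⟨Polynomial.C c, 1, by simp, by simp, by simp⟩

lemma mem_inv (ht : t ≠ 0) (hφ : ∀ P, Polynomial.eval₂ κ t P = 0 → P = 0) {x : K} {r : F}
    (h : (x, r) ∈ Gam κ t) (hr : r ≠ 0) : (x⁻¹, r⁻¹) ∈ Gam κ t := by
  obtain ⟨P, Q, h1, h2, h3⟩ := h
  have hP : P.coeff 0 ≠ 0 := by rw [← h3]; exact mul_ne_zero hr h1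
  have hx : x ≠ 0 := by
    rintro rfl
    rw [zero_mul] at h2
    exact hP (by rw [inj_inv ht hφ P h2.symm]; simp)
  refine ⟨Q, P, hP, ?_, ?_⟩
  · rw [← h2]; exact inv_mul_cancel_left₀ hx _
  · rw [← h3]; exact inv_mul_cancel_left₀ hr _

lemma eq_zero_of_mem (ht : t ≠ 0) (hφ : ∀ P, Polynomial.eval₂ κ t P = 0 → P = 0)
    {P : Polynomial F} (h : (Polynomial.eval₂ κ t P, (0 : F)) ∈ Gam κ t) : P = 0 := by
  obtain ⟨P1, Q1, h1, h2, h3⟩ := h
  have h4 := reflect_eval (κ := κ) ht (P := P) le_rfl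
  have h5 : Polynomial.reflect P.natDegree P * Q1 - Polynomial.X ^ P.natDegree * P1 = 0 := by
    apply inj_inv ht hφ
    rw [Polynomial.eval₂_sub, Polynomial.eval₂_mul, Polynomial.eval₂_mul, Polynomial.eval₂_X_pow,
      ← h2, ← h4, inv_pow]
    have := pow_ne_zero P.natDegree ht
    field_simp
    ring
  have h6 := congrArg (fun p => Polynomial.coeff p 0) h5
  simp only [Polynomial.coeff_sub, Polynomial.mul_coeff_zero, Polynomial.coeff_zero,
    Polynomial.coeff_reflect, Polynomial.revAt_zero, ← h3, zero_mul, mul_zero, sub_zero] at h6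
  exact Polynomial.leadingCoeff_eq_zero.1 ((mul_eq_zero.1 h6).resolve_right h1)

end res

section chart

/-- Polynomials in two variables. -/
abbrev A2 : Type := MvPolynomial (Fin 2) ℝ

variable (y : Fin 3 → ℝ) (i : Fin 3)

/-- Coordinates adapted to the direction `y`. -/
noncomputable def chi : A →+* Polynomial A2 :=
  eval₂Hom (Polynomial.C.comp C) (fun j =>
    Polynomial.C ((Fin.insertNth i (0 : A2) (fun a => X a) : Fin 3 → A2) j)
      + Polynomial.C (C (y j)) * Polynomial.X)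

/-- The two transversal coordinates. -/
noncomputable def sig : A2 →+* A :=
  eval₂Hom C (fun a => X (i.succAbove a) - C (y (i.succAbove a) / y i) * X i)

/-- The inverse change of coordinates. -/
noncomputable def chiInv : Polynomial A2 →+* A :=
  Polynomial.eval₂RingHom (sig y i) (C (1 / y i) * X i)

variable {y i}

lemma chiInv_chi (hy : y i ≠ 0) (a : A) : chiInv y i (chi y i a) = a := by
  have : (chiInv y i).comp (chi y i) = RingHom.id A := by
    apply MvPolynomial.ringHom_ext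
    · intro r; simp [chi, chiInv, sig]
    · intro j
      rcases Fin.eq_self_or_eq_succAbove i j with rfl | ⟨a, rfl⟩
      · simp only [chi, chiInv, sig, RingHom.comp_apply, eval₂Hom_X', Fin.insertNth_apply_same,
          map_zero, zero_add, Polynomial.coe_eval₂RingHom, Polynomial.eval₂_mul,
          Polynomial.eval₂_C, Polynomial.eval₂_X, eval₂Hom_C, RingHom.id_apply]
        rw [← mul_assoc, ← map_mul, mul_one_div_cancel hy, map_one, one_mul]
      · simp only [chi, chiInv, sig, RingHom.comp_apply, eval₂Hom_X', Fin.insertNth_apply_succAbove,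
          Polynomial.coe_eval₂RingHom, Polynomial.eval₂_add, Polynomial.eval₂_mul,
          Polynomial.eval₂_C, Polynomial.eval₂_X, eval₂Hom_C, RingHom.id_apply]
        rw [← mul_assoc, ← map_mul, mul_one_div]
        ring
  exact RingHom.congr_fun this a

lemma chi_chiInv (hy : y i ≠ 0) (P : Polynomial A2) : chi y i (chiInv y i P) = P := by
  have hC : ∀ r : ℝ, chi y i (C r) = Polynomial.C (C r) := fun r => by simp [chi]
  have hi : chi y i (X i) = Polynomial.C (C (y i)) * Polynomial.X := by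
    simp [chi]
  have : (chi y i).comp (chiInv y i) = RingHom.id _ := by
    apply Polynomial.ringHom_ext'
    · apply MvPolynomial.ringHom_ext
      · intro r; simp [chi, chiInv, sig]
      · intro a
        have h1 : chi y i (X (i.succAbove a)) = Polynomial.C (X a)
            + Polynomial.C (C (y (i.succAbove a))) * Polynomial.X := by simp [chi]
        simp only [chiInv, sig, RingHom.comp_apply, Polynomial.coe_eval₂RingHom,
          Polynomial.eval₂_C, eval₂Hom_X', map_sub, map_mul, hC, hi, h1, RingHom.id_apply]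
        rw [← mul_assoc, ← map_mul, ← map_mul, div_mul_cancel₀ _ hy]
        ring
    · simp only [chiInv, RingHom.comp_apply, Polynomial.coe_eval₂RingHom, Polynomial.eval₂_X,
        map_mul, hC, hi, RingHom.id_apply]
      rw [← mul_assoc, ← map_mul, ← map_mul, one_div_mul_cancel hy, map_one, map_one, one_mul]
  exact RingHom.congr_fun this P

lemma chi_lead {m : ℕ} {z : A} (hz : HZ m z) :
    (chi y i z).natDegree ≤ m ∧ (chi y i z).coeff m = C (eval y z) := by
  have hX : ∀ j, (chi y i (X j)).natDegree ≤ 1 ∧ (chi y i (X j)).coeff 1 = C (y j) := fun j => by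
    simp only [chi, eval₂Hom_X']
    refine ⟨?_, by simp⟩
    compute_degree
  have hp : ∀ j n, (chi y i (X j) ^ n).natDegree ≤ n ∧
      (chi y i (X j) ^ n).coeff n = C (y j) ^ n := fun j n => by
    refine ⟨by simpa using Polynomial.natDegree_pow_le_of_le n (hX j).1, ?_⟩
    have := Polynomial.coeff_pow_of_natDegree_le (m := n) (hX j).1
    rwa [mul_one, (hX j).2] at this
  have hm : ∀ (d : Fin 3 →₀ ℕ) (r : ℝ), d.degree = m →
      (chi y i (monomial d r)).natDegree ≤ m ∧
        (chi y i (monomial d r)).coeff m = C (eval y (monomial d r)) := by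
    intro d r hd
    have e : m = d 0 + d 1 + d 2 := by rw [← hd, Finsupp.degree_eq_sum, Fin.sum_univ_three]
    have hC : chi y i (C r) = Polynomial.C (C r) := by simp [chi]
    rw [monomial_eq, Finsupp.prod_fintype _ _ (by simp), Fin.prod_univ_three]
    simp only [map_mul, map_pow, hC, eval_C, eval_X]
    have h01 := Polynomial.natDegree_mul_le_of_le (hp 0 (d 0)).1 (hp 1 (d 1)).1
    refine ⟨(Polynomial.natDegree_C_mul_le _ _).trans
      (e ▸ Polynomial.natDegree_mul_le_of_le h01 (hp 2 (d 2)).1), ?_⟩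
    rw [Polynomial.coeff_C_mul, e, Polynomial.coeff_mul_add_eq_of_natDegree_le h01 (hp 2 (d 2)).1,
      Polynomial.coeff_mul_add_eq_of_natDegree_le (hp 0 (d 0)).1 (hp 1 (d 1)).1,
      (hp 0 _).2, (hp 1 _).2, (hp 2 _).2]
  have hd : ∀ d ∈ z.support, d.degree = m := fun d hd => by
    exact_mod_cast hz.degree_eq (mem_support_iff.1 hd)
  conv_lhs => rw [z.as_sum]
  conv_rhs => rw [z.as_sum]
  simp only [map_sum]
  refine ⟨Polynomial.natDegree_sum_le_of_forall_le _ _ fun d h => (hm d _ (hd d h)).1, ?_⟩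
  rw [Polynomial.finsetSum_coeff]
  exact Finset.sum_congr rfl fun d h => (hm d _ (hd d h)).2

/-- The function field of the transversal plane. -/
abbrev F2 : Type := FractionRing A2

variable (y i) in
/-- Restriction to the generic line with direction `y`. -/
noncomputable def jj : A →+* Polynomial F2 :=
  (Polynomial.mapRingHom (algebraMap A2 F2)).comp (chi y i)

lemma jj_lead {m : ℕ} {z : A} (hz : HZ m z) :
    (jj y i z).natDegree ≤ m ∧ (jj y i z).coeff m = algebraMap A2 F2 (C (eval y z)) := by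
  obtain ⟨h1, h2⟩ := chi_lead (y := y) (i := i) hz
  exact ⟨Polynomial.natDegree_map_le.trans h1, by
    simp only [jj, RingHom.comp_apply, Polynomial.coe_mapRingHom, Polynomial.coeff_map, h2]⟩

lemma exists_bezout (hy : y i ≠ 0) {S : Fin 3 → A} (prim : ∀ π : A, Prime π → ∃ i, ¬ π ∣ S i)
    {l : Fin 3} {k : ℕ} (hS : HZ k (S l)) (hl : eval y (S l) ≠ 0) :
    ∃ lam : Fin 3 → Polynomial F2, ∑ a, lam a * jj y i (S a) = 1 := by
  rw [← Ideal.mem_span_range_iff_exists_fun, ← Ideal.eq_top_iff_one]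
  by_contra hI
  set I := Ideal.span (Set.range fun a => jj y i (S a)) with hIdef
  have hg : ¬ IsUnit (Submodule.IsPrincipal.generator I) := fun h =>
    hI (Ideal.eq_top_of_isUnit_mem _ (Submodule.IsPrincipal.generator_mem I) h)
  obtain ⟨q, hq1, hq2, hq3⟩ := Polynomial.exists_monic_irreducible_factor _ hg
  have hdvd : ∀ a, q ∣ jj y i (S a) := fun a => hq3.trans
    ((Submodule.IsPrincipal.mem_iff_generator_dvd I).1 (Ideal.subset_span ⟨a, rfl⟩))
  obtain ⟨h1, h2⟩ := chi_lead (y := y) (i := i) hS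
  have hmon : (Polynomial.C (C (eval y (S l))⁻¹) * chi y i (S l)).Monic := by
    refine Polynomial.monic_of_natDegree_le_of_coeff_eq_one k
      ((Polynomial.natDegree_C_mul_le _ _).trans h1) ?_
    rw [Polynomial.coeff_C_mul, h2, ← map_mul, inv_mul_cancel₀ hl, map_one]
  obtain ⟨q0, hq0⟩ := IsIntegrallyClosed.eq_map_mul_C_of_dvd F2 hmon (g := q) (by
    rw [Polynomial.map_mul]; exact Dvd.dvd.mul_left (hdvd l) _)
  rw [hq1.leadingCoeff, map_one, mul_one] at hq0
  have hinj : Function.Injective (algebraMap A2 F2) := IsFractionRing.injective _ _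
  have hq0m : q0.Monic := Polynomial.monic_of_injective hinj (hq0 ▸ hq1)
  have hd0 : ∀ a, chiInv y i q0 ∣ S a := fun a => by
    have h3 : q0 ∣ chi y i (S a) := (Polynomial.map_dvd_map _ hinj hq0m).1 (hq0 ▸ hdvd a)
    have h4 := map_dvd (chiInv y i) h3
    rwa [chiInv_chi hy] at h4
  have hne : chiInv y i q0 ≠ 0 := fun h => by
    have := chi_chiInv hy q0
    rw [h, map_zero] at this
    exact hq0m.ne_zero this.symm
  have hnu : ¬ IsUnit (chiInv y i q0) := fun h => by
    have h3 := h.map (chi y i)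
    rw [chi_chiInv hy] at h3
    exact hq2.not_isUnit (hq0 ▸ h3.map (Polynomial.mapRingHom (algebraMap A2 F2)))
  obtain ⟨π, hπ, hπd⟩ := WfDvdMonoid.exists_irreducible_factor hnu hne
  obtain ⟨a, ha⟩ := prim π hπ.prime
  exact ha (hπd.trans (hd0 a))

lemma exists_chart (K : Type*) [Field K] [Algebra A K] [IsFractionRing A K] (hy : y i ≠ 0) :
    ∃ (κ : F2 →+* K) (t : K), t ≠ 0 ∧ (∀ P, Polynomial.eval₂ κ t P = 0 → P = 0) ∧
      ∀ a, Polynomial.eval₂ κ t (jj y i a) = algebraMap A K a := by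
  have hA : Function.Injective (algebraMap A K) := IsFractionRing.injective A K
  have hci : Function.Injective (chiInv y i) :=
    Function.LeftInverse.injective (chi_chiInv hy)
  have hsig : Function.Injective ((algebraMap A K).comp (sig y i)) := by
    refine hA.comp fun a b h => Polynomial.C_injective (hci ?_)
    simpa [chiInv] using h
  obtain ⟨κ, hκ⟩ : ∃ κ : F2 →+* K, ∀ a, κ (algebraMap A2 F2 a) = algebraMap A K (sig y i a) :=
    ⟨IsFractionRing.lift hsig, fun a => IsFractionRing.lift_algebraMap hsig a⟩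
  have hκ' : κ.comp (algebraMap A2 F2) = (algebraMap A K).comp (sig y i) := RingHom.ext hκ
  have key : ∀ P : Polynomial A2,
      Polynomial.eval₂ κ (algebraMap A K (C (1 / y i) * X i)) (P.map (algebraMap A2 F2))
        = algebraMap A K (chiInv y i P) := fun P => by
    rw [Polynomial.eval₂_map, chiInv, Polynomial.coe_eval₂RingHom, Polynomial.hom_eval₂, hκ']
  have hinj : ∀ P, Polynomial.eval₂ κ (algebraMap A K (C (1 / y i) * X i)) P = 0 → P = 0 := by
    intro P hP
    obtain ⟨b, hb, h1⟩ := IsLocalization.integerNormalization_spec (nonZeroDivisors A2) P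
    have h2 := key (IsLocalization.integerNormalization (nonZeroDivisors A2) P)
    rw [h1, ← IsScalarTower.algebraMap_smul F2 b P, Polynomial.smul_eq_C_mul,
      Polynomial.eval₂_mul, hP, mul_zero] at h2
    have h3 : IsLocalization.integerNormalization (nonZeroDivisors A2) P = 0 :=
      hci (by rw [map_zero]; exact hA (by rw [← h2, map_zero]))
    exact IsFractionRing.integerNormalization_eq_zero_iff.1 h3
  refine ⟨κ, _, fun h => ?_, hinj, fun a => ?_⟩
  · exact Polynomial.X_ne_zero (hinj Polynomial.X (by rw [Polynomial.eval₂_X, h]))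
  · have := key (chi y i a)
    rwa [chiInv_chi hy] at this

end chart

section psi
variable {F K L : Type*} [Field F] [Field K] [Field L] [Algebra K L]

lemma norm_eq_det (hdim : finrank K L = 4) {v : Fin 4 → L} (hv : LinearIndependent K v) (x : L)
    (M : Matrix (Fin 4) (Fin 4) K) (h : ∀ j, x * v j = ∑ i, M i j • v i) :
    Algebra.norm K x = M.det := by
  let b := basisOfLinearIndependentOfCardEqFinrank hv (by simp [hdim])
  have hb : ∀ i, b i = v i := fun i => by simp [b]
  rw [Algebra.norm_eq_matrix_det b]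
  congr 1
  ext i j
  rw [Algebra.leftMulMatrix_eq_repr_mul, hb, h j]
  simp only [← hb]
  exact congrFun (b.repr_sum_self (fun i => M i j)) i

/-- An element of the lattice at infinity together with its value at the chosen point. -/
def Psi (Γ : Subring (K × F)) (v : Fin 4 → L) (β : Fin 4 → F) (x : L) (r : F) : Prop :=
  ∃ o : Fin 4 → Γ, x = ∑ i, (o i).1.1 • v i ∧ r = ∑ i, (o i).1.2 * β i

variable {Γ : Subring (K × F)} {v : Fin 4 → L} {β : Fin 4 → F}

lemma Psi.smul {x : L} {r : F} (h : Psi Γ v β x r) (c : Γ) :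
    Psi Γ v β (c.1.1 • x) (c.1.2 * r) := by
  obtain ⟨o, rfl, rfl⟩ := h
  refine ⟨fun i => c * o i, ?_, ?_⟩
  · rw [Finset.smul_sum]; exact Finset.sum_congr rfl fun i _ => by rw [smul_smul]; rfl
  · rw [Finset.mul_sum]; exact Finset.sum_congr rfl fun i _ => by rw [← mul_assoc]; rfl

lemma Psi.add {x x' : L} {r r' : F} (h : Psi Γ v β x r) (h' : Psi Γ v β x' r') :
    Psi Γ v β (x + x') (r + r') := by
  obtain ⟨o, rfl, rfl⟩ := h
  obtain ⟨o', rfl, rfl⟩ := h'
  refine ⟨fun i => o i + o' i, ?_, ?_⟩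
  · rw [← Finset.sum_add_distrib]; exact Finset.sum_congr rfl fun i _ => by rw [← add_smul]; rfl
  · rw [← Finset.sum_add_distrib]; exact Finset.sum_congr rfl fun i _ => by rw [← add_mul]; rfl

lemma Psi.norm_mem (hdim : finrank K L = 4) (hv : LinearIndependent K v) (hβ : β ≠ 0)
    (hm : ∀ i j, Psi Γ v β (v i * v j) (β i * β j)) {x : L} (hx : Psi Γ v β x 0) :
    (Algebra.norm K x, (0 : F)) ∈ Γ := by
  obtain ⟨o, ho1, ho2⟩ := hx
  have h1 : ∀ j, Psi Γ v β (x * v j) 0 := fun j => by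
    have h2 := ((((hm 0 j).smul (o 0)).add ((hm 1 j).smul (o 1))).add ((hm 2 j).smul (o 2))).add
      ((hm 3 j).smul (o 3))
    have e1 : x * v j = (o 0).1.1 • (v 0 * v j) + (o 1).1.1 • (v 1 * v j)
        + (o 2).1.1 • (v 2 * v j) + (o 3).1.1 • (v 3 * v j) := by
      rw [ho1, Fin.sum_univ_four]; simp only [add_mul, smul_mul_assoc]
    have e2 : (0 : F) = (o 0).1.2 * (β 0 * β j) + (o 1).1.2 * (β 1 * β j)
        + (o 2).1.2 * (β 2 * β j) + (o 3).1.2 * (β 3 * β j) := by
      rw [Fin.sum_univ_four] at ho2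
      linear_combination β j * ho2
    rw [e1, e2]; exact h2
  choose N hN1 hN2 using h1
  let M : Matrix (Fin 4) (Fin 4) Γ := Matrix.of fun i j => N j i
  let a : Γ →+* K := (RingHom.fst K F).comp Γ.subtype
  let b : Γ →+* F := (RingHom.snd K F).comp Γ.subtype
  have e1 : Algebra.norm K x = a M.det := by
    rw [RingHom.map_det]
    exact norm_eq_det hdim hv x _ hN1
  have e2 : (0 : F) = b M.det := by
    rw [RingHom.map_det]
    refine (Matrix.exists_vecMul_eq_zero_iff.1 ⟨β, hβ, funext fun j => ?_⟩).symm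
    rw [Pi.zero_apply, hN2 j]
    show ∑ i, β i * (N j i).1.2 = _
    exact Finset.sum_congr rfl fun i _ => mul_comm (β i) (N j i).1.2
  rw [e1, e2]
  exact M.det.2

end psi

variable {K : Type*} {L : Type*} [Field K] [Algebra A K] [IsFractionRing A K] [Field L]
  [Algebra A L] [Algebra K L] [IsScalarTower A K L]
variable {Z : Set Pt} {U V : L} {f₁ f₂ : R} {g₁ g₂ : Fin 4 → ℝ}
variable {ρ : L →ₗ[K] K} {S : Fin 3 → A} {k : ℕ}

lemma rho_basic (hB : BData K U V ρ S k) : ρ 1 = 0 ∧ ρ U = 0 ∧ ρ V = 0 :=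
  ⟨(hB.ker _).2 (mem_F1.2 ⟨1, 0, 0, by simp⟩), (hB.ker _).2 (mem_F1.2 ⟨0, 1, 0, by simp⟩),
    (hB.ker _).2 (mem_F1.2 ⟨0, 0, 1, by simp⟩)⟩

lemma indep4 (hG : Geo Z f₁ f₂ g₁ g₂) (hM : Model K Z U V) (hB : BData K U V ρ S k) {a : K}
    (ha : a ≠ 0) {e : L} (he : ρ e ≠ 0) : LinearIndependent K ![1, a • U, a • V, e] := by
  obtain ⟨r1, r2, r3⟩ := rho_basic hB
  rw [Fintype.linearIndependent_iff]
  intro g hg
  simp only [Fin.sum_univ_four, Matrix.cons_val_zero, Matrix.cons_val_one, Matrix.cons_val] at hg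
  have h3 : g 3 = 0 := by
    have := congrArg ρ hg
    simp only [map_add, map_smul, r1, r2, r3, smul_eq_mul, mul_zero, zero_add, map_zero] at this
    exact (mul_eq_zero.1 this).resolve_right he
  obtain ⟨h0, h1, h2⟩ := ind1 hG hM (a := g 0) (b := g 1 * a) (c := g 2 * a) (by
    rw [h3, zero_smul, add_zero, smul_smul, smul_smul] at hg
    simpa only [Algebra.smul_def, mul_one] using hg)
  intro i
  fin_cases i
  exacts [h0, (mul_eq_zero.1 h1).resolve_right ha, (mul_eq_zero.1 h2).resolve_right ha, h3]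

lemma expand_hom (hG : Geo Z f₁ f₂ g₁ g₂) (hM : Model K Z U V) (hB : BData K U V ρ S k)
    {l : Fin 3} (hl : S l ≠ 0) {n : ℤ} {f : R} (hf : HR n f) :
    ∃ c : Fin 4 → A, C (S l) * f - ∑ i, C (c i) * ![1, X 0, X 1, m2 l] i ∈ van Z ∧
      ∀ i, HZ (k + n - ![0, 1, 1, 2] i) (c i) := by
  obtain ⟨a, b, -, hb⟩ := hB.expand hG hM l f
  have h1 : C (S l) * f - ∑ i, C (![b 0, b 1, b 2, a] i) * ![1, X 0, X 1, m2 l] i ∈ van Z := by
    have e : C (S l) * f - ∑ i, C (![b 0, b 1, b 2, a] i) * ![1, X 0, X 1, m2 l] i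
        = C (S l) * f - C a * m2 l - lin b := by
      simp only [Fin.sum_univ_four, Matrix.cons_val_zero, Matrix.cons_val_one, Matrix.cons_val, lin]
      ring
    rw [e]; exact hb
  refine ⟨_, h1, fun i => hG.homCoef (e := ![0, 1, 1, 2]) (fun j => ?_) (fun c hc => ?_)
    ((HR.C (hB.hom l)).mul hf) h1 i⟩
  · fin_cases j
    exacts [HR.one, HR.X 0, HR.X 1, hr_m2 l]
  · have e : ∑ i, C (c i) * ![1, X 0, X 1, m2 l] i = lin ![c 0, c 1, c 2] + C (c 3) * m2 l := by
      simp only [Fin.sum_univ_four, Matrix.cons_val_zero, Matrix.cons_val_one, Matrix.cons_val, lin]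
      ring
    rw [e] at hc
    have h3 : c 3 = 0 := by
      have h4 := congrArg ρ ((hM.ker _).2 hc)
      rw [map_add, map_add, (hB.ker _).2 (pi_lin_mem_F1 _), map_mul (pi U V), pi_C, rho_C_mul,
        hB.val, map_zero, zero_add, ← map_mul, map_eq_zero_iff _ (IsFractionRing.injective A K)]
        at h4
      exact (mul_eq_zero.1 h4).resolve_right hl
    rw [h3, map_zero, zero_mul, add_zero] at hc
    have h5 := lin_eq_zero_of_mem hG hM hc
    funext i
    fin_cases i
    exacts [congrFun h5 0, congrFun h5 1, congrFun h5 2, h3]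

end CB2

open CB2

variable {K : Type*} {L : Type*} [Field K] [Algebra A K] [IsFractionRing A K] [Field L]
  [Algebra A L] [Algebra K L] [IsScalarTower A K L]
variable {Z : Set Pt} {U V : L} {f₁ f₂ : R} {g₁ g₂ : Fin 4 → ℝ}
variable {ρ : L →ₗ[K] K} {S : Fin 3 → A} {k : ℕ}

/-- Connectedness of the generic hyperplane section through a real point. -/
theorem caseB2 (hG : Geo Z f₁ f₂ g₁ g₂) (hM : Model K Z U V) (hB : BData K U V ρ S k)
    (hk : 2 ≤ k) : False := by
  obtain ⟨l, hl⟩ := hB.prim (X 0) (X_prime)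
  have hl0 : S l ≠ 0 := fun h => hl (h ▸ dvd_zero _)
  obtain ⟨p, hp, hpl⟩ : ∃ p ∈ Z, eval p.1 (S l) ≠ 0 := by
    by_contra h
    push Not at h
    exact hl0 (hG.dom _ fun p hp => by rw [ev_C]; exact h p hp)
  obtain ⟨i0, hy⟩ : ∃ i, p.1 i ≠ 0 := by
    by_contra h
    push Not at h
    have h1 : p.1 = 0 := funext h
    rw [h1, eval_zero] at hpl
    exact hpl ((hB.hom l).constantCoeff (by omega))
  obtain ⟨κ, t, ht, hφ, hj⟩ := exists_chart K hy
  obtain ⟨lam, hlam⟩ := exists_bezout hy hB.prim (hB.hom l) hpl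
  obtain ⟨r1, r2, r3⟩ := rho_basic hB
  have := hM.finite hG
  let φ : Polynomial F2 →+* K := Polynomial.eval₂RingHom κ t
  have hφj : ∀ a, φ (jj p.1 i0 a) = algebraMap A K a := hj
  have hAL : ∀ (a : A) (x : L), algebraMap A L a * x = algebraMap A K a • x := fun a x => by
    rw [IsScalarTower.algebraMap_apply A K L, Algebra.smul_def]
  let τ : ℝ →+* F2 := (algebraMap A2 F2).comp C
  have hτ : ∀ r, r ≠ 0 → τ r ≠ 0 := fun r hr => (map_ne_zero τ).2 hr
  have hS0 : algebraMap A K (S l) ≠ 0 :=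
    (map_ne_zero_iff _ (IsFractionRing.injective A K)).2 hl0
  -- the lattice at infinity
  set Γ := Gam κ t with hΓ
  let v : Fin 4 → L := ![1, t⁻¹ • U, t⁻¹ • V, (t ^ 2)⁻¹ • pi U V (m2 l)]
  let b : Fin 4 → R := ![1, X 0, X 1, m2 l]
  let e : Fin 4 → ℕ := ![0, 1, 1, 2]
  let β : Fin 4 → F2 := fun i => τ (ev p (b i))
  have hvb : ∀ i, v i = (t ^ e i)⁻¹ • pi U V (b i) := fun i => by
    fin_cases i <;> simp [v, b, e]
  have hb : ∀ i, HR (e i) (b i) := fun i => by
    fin_cases i
    exacts [HR.one, HR.X 0, HR.X 1, hr_m2 l]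
  have he2 : ∀ i, e i ≤ 2 := fun i => by fin_cases i <;> simp [e]
  have hv : LinearIndependent K v := indep4 hG hM hB (inv_ne_zero ht) (by
    rw [map_smul, hB.val, smul_eq_mul]
    exact mul_ne_zero (inv_ne_zero (pow_ne_zero _ ht)) hS0)
  have memA : ∀ {m : ℕ} {z : A}, HZ m z →
      (algebraMap A K z / t ^ m, τ (eval p.1 z)) ∈ Γ := fun {m z} hz => by
    obtain ⟨h1, h2⟩ := jj_lead (y := p.1) (i := i0) hz
    have := mem_poly (κ := κ) ht h1
    rwa [hj, h2] at this
  let σ : Γ := ⟨_, mem_inv ht hφ (memA (hB.hom l)) (hτ _ hpl)⟩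
  have psiHR : ∀ (n : ℕ) (f : R), HR n f → Psi Γ v β ((t ^ n)⁻¹ • pi U V f) (τ (ev p f)) := by
    intro n f hf
    obtain ⟨c, hc1, hc2⟩ := expand_hom hG hM hB hl0 hf
    have hc3 : ∀ i, HZ ((k + n - e i : ℕ) : ℤ) (c i) := fun i => by
      have h1 : ((k + n - e i : ℕ) : ℤ) = k + n - ![0, 1, 1, 2] i := by
        have := he2 i
        rw [Nat.cast_sub (by omega)]
        fin_cases i <;> simp [e]
      rw [h1]; exact hc2 i
    refine ⟨fun i => σ * ⟨_, memA (hc3 i)⟩, ?_, ?_⟩
    · have h1 := (hM.ker _).2 hc1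
      rw [map_sub, sub_eq_zero, map_mul, pi_C, hAL, map_sum] at h1
      have h2 : pi U V f = (algebraMap A K (S l))⁻¹ • ∑ i, pi U V (C (c i) * b i) := by
        rw [← h1, inv_smul_smul₀ hS0]
      rw [h2, Finset.smul_sum, Finset.smul_sum]
      refine Finset.sum_congr rfl fun i _ => ?_
      rw [map_mul, pi_C, hAL, hvb, smul_smul, smul_smul, smul_smul]
      congr 1
      show _ = (algebraMap A K (S l) / t ^ k)⁻¹ * (algebraMap A K (c i) / t ^ (k + n - e i))
        * (t ^ e i)⁻¹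
      have h3 : t ^ (k + n - e i) * t ^ e i = t ^ k * t ^ n := by
        have := he2 i
        rw [← pow_add, ← pow_add, Nat.sub_add_cancel (by omega)]
      have h4 : t ^ (k + n - e i) = t ^ k * t ^ n / t ^ e i := by
        rw [← h3, mul_div_cancel_right₀ _ (pow_ne_zero _ ht)]
      rw [h4]
      field_simp
    · have h1 := hc1 p hp
      rw [map_sub, sub_eq_zero, map_mul, ev_C, map_sum] at h1
      have h2 : ev p f = (eval p.1 (S l))⁻¹ * ∑ i, ev p (C (c i) * b i) := by
        rw [← h1, inv_mul_cancel_left₀ hpl]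
      rw [h2, Finset.mul_sum, map_sum]
      refine Finset.sum_congr rfl fun i _ => ?_
      rw [map_mul (ev p), ev_C, ← mul_assoc, map_mul τ, map_mul τ, map_inv₀]
      rfl
  have hm : ∀ i j, Psi Γ v β (v i * v j) (β i * β j) := fun i j => by
    have h1 := psiHR (e i + e j) (b i * b j) ((hb i).mul' (hb j) (by push_cast; rfl))
    rw [map_mul, map_mul, map_mul] at h1
    rw [hvb, hvb, smul_mul_smul_comm, ← mul_inv, ← pow_add]
    exact h1
  have hβ0 : β 0 = 1 := by simp [β, b]
  have hβ : β ≠ 0 := fun h => one_ne_zero (hβ0.symm.trans (congrFun h 0))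
  -- the order over the affine line
  let Φ := φ.range
  have hAΦ : ∀ a, algebraMap A K a ∈ Φ := fun a => ⟨_, hφj a⟩
  let e0 : L := ∑ a, φ (lam a) • pi U V (m2 a)
  have hlam' : ∑ a, φ (lam a) * algebraMap A K (S a) = 1 := by
    have := congrArg φ hlam
    simpa only [map_sum, map_mul, hφj, map_one] using this
  have he0 : ρ e0 = 1 := by
    simp only [e0, map_sum, map_smul, hB.val, smul_eq_mul]; exact hlam'
  let w : Fin 4 → L := ![1, (1 : K) • U, (1 : K) • V, e0]
  have hw : LinearIndependent K w := indep4 hG hM hB one_ne_zero (by rw [he0]; exact one_ne_zero)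
  let M1 := Submodule.span Φ (Set.range w)
  let M2 := Submodule.span Φ (Set.range (pi U V))
  have smul1 : ∀ (N : Submodule Φ L) (c : K) (x : L), c ∈ Φ → x ∈ N → c • x ∈ N :=
    fun N c x hc hx => N.smul_mem (⟨c, hc⟩ : Φ) hx
  have hw1 : ∀ i, w i ∈ M1 := fun i => Submodule.subset_span ⟨i, rfl⟩
  have hlin : ∀ c : Fin 3 → A, pi U V (lin c) ∈ M1 := fun c => by
    have e1 : pi U V (lin c) = algebraMap A K (c 0) • w 0 + algebraMap A K (c 1) • w 1
        + algebraMap A K (c 2) • w 2 := by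
      rw [pi_lin, hAL, hAL, ← mul_one (algebraMap A L (c 0)), hAL]; simp [w]
    rw [e1]
    exact M1.add_mem (M1.add_mem (smul1 _ _ _ (hAΦ _) (hw1 0)) (smul1 _ _ _ (hAΦ _) (hw1 1)))
      (smul1 _ _ _ (hAΦ _) (hw1 2))
  have h21 : M2 ≤ M1 := by
    refine Submodule.span_le.2 ?_
    rintro _ ⟨f, rfl⟩
    choose a c ha hc using fun a => hB.expand hG hM a f
    have h1 : ∀ i, algebraMap A K (S i) • pi U V f
        = ρ (pi U V f) • pi U V (m2 i) + pi U V (lin (c i)) := fun i => by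
      have h2 := (hM.ker _).2 (hc i)
      rw [map_sub, map_sub, map_mul, map_mul, pi_C, pi_C, hAL, hAL, ← ha i] at h2
      linear_combination (exp := 1) h2
    have h3 : pi U V f = ρ (pi U V f) • w 3 + ∑ i, φ (lam i) • pi U V (lin (c i)) := by
      calc pi U V f = (∑ a, φ (lam a) * algebraMap A K (S a)) • pi U V f := by
            rw [hlam', one_smul]
        _ = _ := by
            rw [Finset.sum_smul]
            simp only [mul_smul, h1, smul_add, Finset.sum_add_distrib]
            congr 1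
            show _ = ρ (pi U V f) • ∑ a, φ (lam a) • pi U V (m2 a)
            rw [Finset.smul_sum]
            exact Finset.sum_congr rfl fun a _ => smul_comm _ _ _
    show pi U V f ∈ M1
    rw [h3]
    exact M1.add_mem (smul1 _ _ _ (ha 0 ▸ hAΦ _) (hw1 3))
      (M1.sum_mem fun i _ => smul1 _ _ _ ⟨_, rfl⟩ (hlin _))
  have hw2 : ∀ i, w i ∈ M2 := fun i => by
    have g : ∀ f, pi U V f ∈ M2 := fun f => Submodule.subset_span ⟨f, rfl⟩
    fin_cases i
    · simpa [w] using g 1
    · simpa [w] using g (X 0)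
    · simpa [w] using g (X 1)
    · exact (show e0 ∈ M2 from M2.sum_mem fun a _ => smul1 _ _ _ ⟨_, rfl⟩ (g _))
  have hmul : ∀ x ∈ M2, ∀ y ∈ M2, x * y ∈ M2 := fun x hx y hy => by
    have h1 := Submodule.mul_mem_mul hx hy
    rw [Submodule.span_mul_span] at h1
    refine Submodule.span_mono ?_ h1
    rintro _ ⟨_, ⟨f, rfl⟩, _, ⟨g, rfl⟩, rfl⟩
    exact ⟨f * g, map_mul _ _ _⟩
  have coef : ∀ x ∈ M2, ∃ P : Fin 4 → Polynomial F2, x = ∑ i, φ (P i) • w i := fun x hx => by
    obtain ⟨c, hc⟩ := (Submodule.mem_span_range_iff_exists_fun Φ).1 (h21 hx)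
    choose P hP using fun i => (c i).2
    refine ⟨P, ?_⟩
    rw [← hc]
    exact Finset.sum_congr rfl fun i _ => by rw [hP]; rfl
  -- the global section
  obtain ⟨P, hP⟩ := coef _ (Submodule.subset_span ⟨m2 l, rfl⟩)
  have hw0 : w 0 = 1 := rfl
  have hwU : w 1 = U := one_smul _ _
  have hwV : w 2 = V := one_smul _ _
  have hw3 : w 3 = e0 := rfl
  rw [Fin.sum_univ_four, hw0, hwU, hwV, hw3] at hP
  have hP3 : φ (P 3) = algebraMap A K (S l) := by
    have := congrArg ρ hP
    simp only [map_add, map_smul, r1, r2, r3, he0, hB.val, smul_eq_mul, mul_zero, zero_add,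
      mul_one] at this
    exact this.symm
  set D := jj p.1 i0 (S l) with hD
  obtain ⟨hD1, hD2⟩ := jj_lead (y := p.1) (i := i0) (hB.hom l)
  have hD0 : D ≠ 0 := fun h => hS0 (by rw [← hφj, ← hD, h, map_zero])
  have hrem : ∀ Q : Polynomial F2, (Q % D).natDegree ≤ k - 1 := fun Q => by
    have h1 : (Q % D).degree < k :=
      (Polynomial.degree_mod_lt Q hD0).trans_le (Polynomial.degree_le_of_natDegree_le hD1)
    by_cases h0 : Q % D = 0
    · rw [h0]; simp
    · have := (Polynomial.natDegree_lt_iff_degree_lt h0).2 h1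
      omega
  have hdiv : ∀ Q : Polynomial F2, φ Q = algebraMap A K (S l) * φ (Q / D) + φ (Q % D) :=
    fun Q => by rw [← hφj, ← map_mul, ← map_add, EuclideanDomain.div_add_mod]
  let eps : L := e0 + φ (P 0 / D) • w 0 + φ (P 1 / D) • w 1 + φ (P 2 / D) • w 2
  have heps2 : eps ∈ M2 := M2.add_mem (M2.add_mem (M2.add_mem (hw2 3)
    (smul1 _ _ _ ⟨_, rfl⟩ (hw2 0))) (smul1 _ _ _ ⟨_, rfl⟩ (hw2 1))) (smul1 _ _ _ ⟨_, rfl⟩ (hw2 2))
  have hX1 : ∀ Q : Polynomial F2, (Q % D * Polynomial.X).natDegree ≤ k := fun Q =>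
    (Polynomial.natDegree_mul_le_of_le (hrem Q) Polynomial.natDegree_X_le).trans (by omega)
  let o : Fin 4 → Γ := ![-(σ * ⟨_, mem_poly ht ((hrem (P 0)).trans (Nat.sub_le k 1))⟩),
    -(σ * ⟨_, mem_poly ht (hX1 (P 1))⟩), -(σ * ⟨_, mem_poly ht (hX1 (P 2))⟩),
    σ * ⟨_, mem_poly ht (P := Polynomial.X ^ 2) ((Polynomial.natDegree_X_pow_le 2).trans hk)⟩]
  have heps : eps = ∑ i, (o i).1.1 • v i := by
    have htk := pow_ne_zero k ht
    have o0 : (o 0).1.1 = -((algebraMap A K (S l))⁻¹ * φ (P 0 % D)) := by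
      show -((algebraMap A K (S l) / t ^ k)⁻¹ * (φ (P 0 % D) / t ^ k)) = _
      field_simp
    have o1 : (o 1).1.1 * t⁻¹ = -((algebraMap A K (S l))⁻¹ * φ (P 1 % D)) := by
      show -((algebraMap A K (S l) / t ^ k)⁻¹ * (φ (P 1 % D * Polynomial.X) / t ^ k)) * t⁻¹ = _
      rw [map_mul, show φ Polynomial.X = t from Polynomial.eval₂_X _ _]
      field_simp
    have o2 : (o 2).1.1 * t⁻¹ = -((algebraMap A K (S l))⁻¹ * φ (P 2 % D)) := by
      show -((algebraMap A K (S l) / t ^ k)⁻¹ * (φ (P 2 % D * Polynomial.X) / t ^ k)) * t⁻¹ = _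
      rw [map_mul, show φ Polynomial.X = t from Polynomial.eval₂_X _ _]
      field_simp
    have o3 : (o 3).1.1 * (t ^ 2)⁻¹ = (algebraMap A K (S l))⁻¹ := by
      show (algebraMap A K (S l) / t ^ k)⁻¹ * (φ (Polynomial.X ^ 2) / t ^ k) * (t ^ 2)⁻¹ = _
      rw [map_pow, show φ Polynomial.X = t from Polynomial.eval₂_X _ _]
      field_simp
    have v0 : v 0 = 1 := rfl
    have v1 : v 1 = t⁻¹ • U := rfl
    have v2 : v 2 = t⁻¹ • V := rfl
    have v3 : v 3 = (t ^ 2)⁻¹ • pi U V (m2 l) := rfl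
    rw [Fin.sum_univ_four, v0, v1, v2, v3, smul_smul, smul_smul, smul_smul, o0, o1, o2, o3, hP,
      hP3, hdiv (P 0), hdiv (P 1), hdiv (P 2)]
    simp only [eps, hw0, hwU, hwV]
    match_scalars <;> field_simp <;> ring
  set r0 : F2 := ∑ i, (o i).1.2 * β i with hr0
  have hη : Psi Γ v β (eps + (-κ r0) • (1 : L)) 0 := by
    have h1 : Psi Γ v β eps r0 := ⟨o, heps, hr0⟩
    have h2 : Psi Γ v β 1 1 := by
      have := psiHR 0 1 (by simpa using HR.one)
      simpa using this
    have h3 := h1.add (h2.smul (-⟨_, mem_const r0⟩))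
    have h4 : r0 + (-(⟨_, mem_const r0⟩ : Γ)).1.2 * 1 = 0 := by
      show r0 + -r0 * 1 = 0
      ring
    rw [h4] at h3
    exact h3
  have hη2 : eps + (-κ r0) • (1 : L) ∈ M2 :=
    M2.add_mem heps2 (smul1 _ _ _ (Φ.neg_mem ⟨Polynomial.C r0, Polynomial.eval₂_C _ _⟩) (hw2 0))
  have hn := Psi.norm_mem hB.dim hv hβ hm hη
  choose N hN using fun j => coef _ (hmul _ hη2 _ (hw2 j))
  have hn2 : Algebra.norm K (eps + (-κ r0) • (1 : L)) = φ (Matrix.of fun i j => N j i).det := by
    rw [RingHom.map_det]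
    exact norm_eq_det hB.dim hw _ _ hN
  rw [hn2] at hn
  rw [eq_zero_of_mem ht hφ hn, map_zero, Algebra.norm_eq_zero_iff] at hn2
  have h1 := congrArg ρ hn2
  simp only [eps, hw0, hwU, hwV, map_add, map_smul, r1, r2, r3, he0, smul_zero, add_zero,
    map_zero] at h1
  exact one_ne_zero h1

end Pool.Agent.Lib.MP_886b5a_gt
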