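import Pool.Agent.Lib.MP_886b5a_gt.Cancel

set_option autoImplicit false
set_option linter.unusedSectionVars false

namespace Pool.Agent.Lib.MP_886b5a_gt

open MvPolynomial Module

variable {K : Type*} {L : Type*} [Field K] [Algebra A K] [IsFractionRing A K] [Field L]
  [Algebra A L] [Algebra K L] [IsScalarTower A K L]
variable {Z : Set Pt} {U V : L} {f₁ f₂ : R} {g₁ g₂ : Fin 4 → ℝ}

/-- The cubics do not all lie in an ideal with two generators. -/
lemma cut_two (hG : Geo Z f₁ f₂ g₁ g₂) (hM : Model K Z U V) (hd : 6 ≤ finrank K L) {q f : R}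
    (hq : q ∈ van Z) (hf : f ∈ van Z)
    (h : ∀ f' ∈ van Z, HR 3 f' → ∃ a b, f' = a * q + b * f) : False := by
  obtain ⟨b, c, hbc, t₁, t₂⟩ := hG.tangent hM hq hf fun p hp e₁ e₂ => hG.cut p hp fun f' hf' h3 => by
    obtain ⟨a, b, rfl⟩ := h f' hf' h3
    simp [e₁, e₂]
  have key : ∀ f' ∈ van Z, HR 3 f' → f' ∈ tker U V b c := fun f' hf' h3 => by
    obtain ⟨a, b, rfl⟩ := h f' hf' h3
    exact Ideal.add_mem _ (Ideal.mul_mem_left _ _ t₁) (Ideal.mul_mem_left _ _ t₂)
  exact no_tangent hG hM hd hbc (key _ hG.mem₁ hG.hr₁) (key _ hG.mem₂ hG.hr₂)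

/-- Either all cubics lie in the pencil or there is a third leading form. -/
lemma third_cubic (hG : Geo Z f₁ f₂ g₁ g₂) (hM : Model K Z U V) (hd : 6 ≤ finrank K L)
    (hlow : ∀ f ∈ van Z, HR 3 f → Low f → f = 0) :
    ∃ f₃ g₃, f₃ ∈ van Z ∧ HR 3 f₃ ∧ Lead f₃ g₃ ∧ Ind3 g₁ g₂ g₃ := by
  by_contra hn
  push Not at hn
  refine cut_two hG hM hd hG.mem₁ hG.mem₂ fun f hf h3 => ?_
  obtain ⟨g, hg⟩ := h3.lead
  have h1 := hn f g hf h3 hg
  unfold Ind3 at h1
  push Not at h1
  obtain ⟨a, b, c, habc, hne⟩ := h1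
  have hc : c ≠ 0 := by
    rintro rfl
    obtain ⟨ha, hb⟩ := hG.cop.indep (a := a) (b := b) (by simpa using habc)
    exact hne ha hb rfl
  have e : g = (-a / c) • g₁ + (-b / c) • g₂ := by
    funext i
    have := congrFun habc i
    simp at this ⊢
    field_simp
    linarith
  refine ⟨C (C (-a / c)), C (C (-b / c)), sub_eq_zero.1 (hlow _ ((van Z).sub_mem hf
    ((van Z).add_mem ((van Z).mul_mem_left _ hG.mem₁) ((van Z).mul_mem_left _ hG.mem₂)))
    (h3.sub ((hG.hr₁.CC_mul _).add (hG.hr₂.CC_mul _)))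
    (hg.low_sub (e ▸ (hG.lead₁.smul _).add (hG.lead₂.smul _))))⟩

lemma lead_X0_mul (c : Fin 3 → ℝ) (b : Fin 3 → A) : Lead (X 0 * (quadR c + lin b)) (mulU c) := by
  rw [lead_iff]
  convert Low.X0_lin b using 1
  simp [cubR, cub, quadR, quad, mulU]; ring

lemma lead_X1_mul (c : Fin 3 → ℝ) (b : Fin 3 → A) : Lead (X 1 * (quadR c + lin b)) (mulV c) := by
  rw [lead_iff]
  convert Low.X1_lin b using 1
  simp [cubR, cub, quadR, quad, mulV]; ring

/-- A real functional killing three given vectors. -/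
lemma exists_theta (v₁ v₂ v₃ : Fin 4 → ℝ) :
    ∃ θ : Fin 4 → ℝ, θ ≠ 0 ∧ dot4 v₁ θ = 0 ∧ dot4 v₂ θ = 0 ∧ dot4 v₃ θ = 0 := by
  let φ : (Fin 4 → ℝ) →ₗ[ℝ] (Fin 3 → ℝ) :=
    { toFun := fun θ => ![dot4 v₁ θ, dot4 v₂ θ, dot4 v₃ θ]
      map_add' := fun x y => by funext i; fin_cases i <;> simp [dot4] <;> ring
      map_smul' := fun r x => by funext i; fin_cases i <;> simp [dot4] <;> ring }
  obtain ⟨θ, hθ, h0⟩ := (Submodule.ne_bot_iff _).1
    (LinearMap.ker_ne_bot_of_finrank_lt (f := φ) (by simp))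
  exact ⟨θ, h0, congrFun hθ 0, congrFun hθ 1, congrFun hθ 2⟩

/-- The quadratic form apolar to a cubic functional. -/
def apo (θ : Fin 4 → ℝ) : Fin 3 → ℝ :=
  ![θ 1 * θ 3 - θ 2 ^ 2, θ 1 * θ 2 - θ 0 * θ 3, θ 0 * θ 2 - θ 1 ^ 2]

lemma apo_ne_zero (hc : Cop g₁ g₂) {θ : Fin 4 → ℝ} (h0 : θ ≠ 0) (h1 : dot4 g₁ θ = 0)
    (h2 : dot4 g₂ θ = 0) : apo θ ≠ 0 := fun h => by
  have a0 := congrFun h 0; have a1 := congrFun h 1; have a2 := congrFun h 2
  simp only [apo, Matrix.cons_val_zero, Matrix.cons_val_one, Matrix.cons_val, Pi.zero_apply]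
    at a0 a1 a2
  exact h0 (hc.hankel h1 h2 (by linarith) (by linarith) (by linarith))

theorem caseC (hG : Geo Z f₁ f₂ g₁ g₂) (hM : Model K Z U V) (h : Fin 3 → K) (hh : h ≠ 0)
    (hrel : ∀ c : Fin 3 → K,
      c 0 • U ^ 2 + c 1 • (U * V) + c 2 • V ^ 2 ∈ F1 K U V ↔ ∃ t : K, c = t • h) : False := by
  letI : Algebra ℝ K := ((algebraMap A K).comp C).toAlgebra
  have hRK : ∀ r : ℝ, algebraMap ℝ K r = algebraMap A K (C r) := fun r => rfl
  have hinj := IsFractionRing.injective A K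
  have := hM.finite hG
  let φ : ((Fin 3 → K) × (Fin 3 → K)) →ₗ[K] L :=
    (Fintype.linearCombination K ![1, U, V]).coprod
      (Fintype.linearCombination K ![U ^ 2, U * V, V ^ 2])
  have hφ : ∀ b c, φ (b, c) = b 0 • (1 : L) + b 1 • U + b 2 • V
      + (c 0 • U ^ 2 + c 1 • (U * V) + c 2 • V ^ 2) := fun b c => by
    simp [φ, Fintype.linearCombination_apply, Fin.sum_univ_three]
  obtain ⟨b0, b1, b2, hb⟩ := mem_F1.1 ((hrel h).2 ⟨1, by simp⟩)
  have hker : LinearMap.ker φ = Submodule.span K {(-![b0, b1, b2], h)} := by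
    apply le_antisymm
    · rintro ⟨b, c⟩ hbc
      rw [LinearMap.mem_ker, hφ] at hbc
      obtain ⟨t, rfl⟩ := (hrel c).1 (mem_F1.2 ⟨-b 0, -b 1, -b 2, by
        simp only [Algebra.smul_def, map_neg] at hbc ⊢; linear_combination hbc⟩)
      obtain ⟨e0, e1, e2⟩ := ind1 hG hM (a := b 0 + t * b0) (b := b 1 + t * b1)
        (c := b 2 + t * b2) (by
          simp only [Algebra.smul_def, map_add, map_mul, Pi.smul_apply, smul_eq_mul] at hbc hb ⊢
          linear_combination hbc - algebraMap K L t * hb)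
      refine Submodule.mem_span_singleton.2 ⟨t, Prod.ext ?_ rfl⟩
      funext i; fin_cases i <;> simp
      · linear_combination -e0
      · linear_combination -e1
      · linear_combination -e2
    · rw [Submodule.span_singleton_le_iff_mem, LinearMap.mem_ker, hφ, hb]
      simp [Algebra.smul_def]; ring
  have hrk : finrank K (LinearMap.range φ) = 5 := by
    have h1 := φ.finrank_range_add_finrank_ker
    rw [hker, finrank_span_singleton (by simp [hh])] at h1
    simp at h1; omega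
  have hd : 6 ≤ finrank K L := by
    have h1 := (LinearMap.range φ).finrank_le
    obtain ⟨k, hk⟩ := hM.even hG
    omega
  set T := LinearMap.range φ with hT
  have mT : ∀ b0 b1 b2 c0 c1 c2 : K, b0 • (1 : L) + b1 • U + b2 • V
      + (c0 • U ^ 2 + c1 • (U * V) + c2 • V ^ 2) ∈ T := fun b0 b1 b2 c0 c1 c2 =>
    ⟨(![b0, b1, b2], ![c0, c1, c2]), by rw [hφ]; rfl⟩
  have lowT : ∀ f, Low f → pi U V f ∈ T := by
    rintro _ ⟨Q, b, rfl⟩
    convert mT (algebraMap A K (b 0)) (algebraMap A K (b 1)) (algebraMap A K (b 2))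
      (algebraMap A K (Q 0)) (algebraMap A K (Q 1)) (algebraMap A K (Q 2)) using 1
    simp only [map_add, pi_quad, pi_lin, Algebra.smul_def, ← IsScalarTower.algebraMap_apply]; ring
  obtain ⟨Θ, hΘ, hθ⟩ : ∃ Θ : L →ₗ[K] K, (∀ x ∈ T, Θ x = 0) ∧
      ![Θ (U ^ 3), Θ (U ^ 2 * V), Θ (U * V ^ 2), Θ (V ^ 3)] ≠ 0 := by
    by_contra hn
    push Not at hn
    have key : ∀ x, (∀ Θ : L →ₗ[K] K, (∀ x ∈ T, Θ x = 0) → Θ x = 0) → x ∈ T := fun x hx => by
      by_contra hxT
      obtain ⟨Θ, h1, h2⟩ := Submodule.exists_le_ker_of_notMem hxT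
      exact h1 (hx Θ fun y hy => h2 hy)
    have c0 := key _ fun Θ hΘ => congrFun (hn Θ hΘ) 0
    have c1 := key _ fun Θ hΘ => congrFun (hn Θ hΘ) 1
    have c2 := key _ fun Θ hΘ => congrFun (hn Θ hΘ) 2
    have c3 := key _ fun Θ hΘ => congrFun (hn Θ hΘ) 3
    have := hM.eq_top' T (by simpa using mT 1 0 0 0 0 0) (by
      rintro _ ⟨⟨b, c⟩, rfl⟩
      convert T.add_mem (T.add_mem (T.add_mem (mT 0 (b 0) 0 (b 1) (b 2) 0) (T.smul_mem (c 0) c0))
        (T.smul_mem (c 1) c1)) (T.smul_mem (c 2) c2) using 1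
      rw [hφ]; simp only [Algebra.smul_def, map_zero]; ring) (by
      rintro _ ⟨⟨b, c⟩, rfl⟩
      convert T.add_mem (T.add_mem (T.add_mem (mT 0 0 (b 0) 0 (b 1) (b 2)) (T.smul_mem (c 0) c1))
        (T.smul_mem (c 1) c2)) (T.smul_mem (c 2) c3) using 1
      rw [hφ]; simp only [Algebra.smul_def, map_zero]; ring)
    rw [this, finrank_top] at hrk
    omega
  set θ := ![Θ (U ^ 3), Θ (U ^ 2 * V), Θ (U * V ^ 2), Θ (V ^ 3)] with hθdef
  have hdot : ∀ f g, f ∈ van Z → Lead f g → dot4 g θ = 0 := fun f g hf hg => by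
    have h1 := hΘ _ (lowT _ (lead_iff.1 hg))
    rw [map_sub, (hM.ker _).2 hf, zero_sub, map_neg, neg_eq_zero, cubR, pi_cub] at h1
    simpa only [map_add, rho_C_mul, dot4, hRK, hθdef, Matrix.cons_val_zero, Matrix.cons_val_one,
      Matrix.cons_val] using h1
  have r0 : h 0 * θ 0 + h 1 * θ 1 + h 2 * θ 2 = 0 := by
    have := hΘ _ (mT 0 b0 0 b1 b2 0)
    have e : (0 : K) • (1 : L) + b0 • U + (0 : K) • V + (b1 • U ^ 2 + b2 • (U * V)
        + (0 : K) • V ^ 2) = h 0 • U ^ 3 + h 1 • (U ^ 2 * V) + h 2 • (U * V ^ 2) := by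
      simp only [Algebra.smul_def, map_zero] at hb ⊢; linear_combination -U * hb
    rw [e] at this
    simpa [hθdef] using this
  have r1 : h 0 * θ 1 + h 1 * θ 2 + h 2 * θ 3 = 0 := by
    have := hΘ _ (mT 0 0 b0 0 b1 b2)
    have e : (0 : K) • (1 : L) + (0 : K) • U + b0 • V + ((0 : K) • U ^ 2 + b1 • (U * V)
        + b2 • V ^ 2) = h 0 • (U ^ 2 * V) + h 1 • (U * V ^ 2) + h 2 • V ^ 3 := by
      simp only [Algebra.smul_def, map_zero] at hb ⊢; linear_combination -V * hb
    rw [e] at this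
    simpa [hθdef] using this
  have relA : ∀ η β : Fin 3 → A, quad η + lin β ∈ van Z →
      ∃ t : K, ∀ i, algebraMap A K (η i) = t * h i := fun η β hη => by
    obtain ⟨t, ht⟩ := (hrel fun i => algebraMap A K (η i)).1 (by
      have h1 := (hM.ker _).2 hη
      rw [map_add, add_eq_zero_iff_eq_neg, pi_quad] at h1
      simp only [Algebra.smul_def, ← IsScalarTower.algebraMap_apply]
      rw [h1]; exact Submodule.neg_mem _ (pi_lin_mem_F1 β))
    exact ⟨t, fun i => congrFun ht i⟩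
  have claim1 : ∀ c : Fin 3 → ℝ, c ≠ 0 → (∀ i j, algebraMap ℝ K (c i) * h j =
      algebraMap ℝ K (c j) * h i) → False := fun c hc hpar => by
    obtain ⟨l, hl⟩ := Function.ne_iff.1 hh
    obtain ⟨l', hl'⟩ := Function.ne_iff.1 hc
    simp only [Pi.zero_apply] at hl hl'
    obtain ⟨b, hb⟩ := satK hG hM (four_le hG hM) (f := quadR c) (by
      have := (hrel fun i => algebraMap ℝ K (c i)).2 ⟨algebraMap ℝ K (c l) / h l, by
        funext i; simp only [Pi.smul_apply, smul_eq_mul]; field_simp; exact hpar i l⟩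
      simpa only [quadR, pi_quad, Algebra.smul_def, hRK, ← IsScalarTower.algebraMap_apply]
        using this)
    have hq : quadR c + lin (-b) ∈ van Z := by
      convert hb using 1; simp [lin]; ring
    have main : ∀ f g, f ∈ van Z → Lead f g → Ind3 (mulU c) (mulV c) g → False := by
      intro f g hf hg hi
      refine cut_two hG hM hd hq hf fun f' hf' h3 => ?_
      obtain ⟨g', hg'⟩ := h3.lead
      obtain ⟨x, y, z, e⟩ := span3 hθ hi
        (hdot _ _ ((van Z).mul_mem_left _ hq) (lead_X0_mul c _))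
        (hdot _ _ ((van Z).mul_mem_left _ hq) (lead_X1_mul c _)) (hdot _ _ hf hg) (hdot _ _ hf' hg')
      obtain ⟨η, β, e2⟩ := hg'.low_sub (e ▸ (((lead_X0_mul c (-b)).smul x).add
        ((lead_X1_mul c (-b)).smul y)).add (hg.smul z))
      have m1 : quad η + lin β ∈ van Z := e2 ▸ (van Z).sub_mem hf' ((van Z).add_mem
        ((van Z).add_mem ((van Z).mul_mem_left _ ((van Z).mul_mem_left _ hq))
        ((van Z).mul_mem_left _ ((van Z).mul_mem_left _ hq))) ((van Z).mul_mem_left _ hf))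
      obtain ⟨t, ht⟩ := relA η β m1
      have hη : ∀ i, η i = C (c l')⁻¹ * η l' * C (c i) := fun i => by
        have e3 : C (c l') * η i = η l' * C (c i) := hinj (by
          rw [map_mul, map_mul, ht, ht, ← hRK, ← hRK]; linear_combination t * hpar l' i)
        rw [mul_assoc, ← e3, ← mul_assoc, ← map_mul, inv_mul_cancel₀ hl', map_one, one_mul]
      set τ : A := C (c l')⁻¹ * η l' with hτ
      have e4 : quad η + lin β - C τ * (quadR c + lin (-b)) = lin fun i => β i + τ * b i := by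
        simp only [quad, quadR, lin, hη 0, hη 1, hη 2, map_mul, map_add, Pi.neg_apply, map_neg]
        ring
      have e5 := lin_eq_zero_of_mem hG hM (e4 ▸ (van Z).sub_mem m1 ((van Z).mul_mem_left _ hq))
      rw [e5, lin_zero] at e4
      exact ⟨C (C x) * X 0 + C (C y) * X 1 + C τ, C (C z), by linear_combination e2 + e4⟩
    rcases hG.cop.ind3 hc with hi | hi
    · exact main _ _ hG.mem₁ hG.lead₁ hi
    · exact main _ _ hG.mem₂ hG.lead₂ hi
  obtain ⟨f₃, g₃, m₃, -, l₃, hi⟩ := third_cubic hG hM hd (by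
    rintro _ hf h3 ⟨η, β, rfl⟩
    by_cases hη : η = 0
    · subst hη
      rw [lin_eq_zero_of_mem hG hM (b := β) (by simpa using hf)]; simp
    exfalso
    obtain ⟨t, ht⟩ := relA η β hf
    have hD : Dq g₁ g₂ η = 0 := by
      have := Dq_eq_zero (g₁ := g₁) (g₂ := g₂) hθ (c := fun i => algebraMap A K (η i))
        (by simp only [ht]; linear_combination t * r0) (by simp only [ht]; linear_combination t * r1)
        (hdot _ _ hG.mem₁ hG.lead₁) (hdot _ _ hG.mem₂ hG.lead₂)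
      apply hinj
      rw [map_zero, ← this]
      simp only [Dq, hRK, map_add, map_sub, map_mul, map_pow, algebraMap_eq]
    have hD' : ∀ y, Dq g₁ g₂ (fun i => eval y (η i)) = 0 := fun y => by
      have := congrArg (eval y) hD
      simpa only [Dq, map_add, map_sub, map_mul, map_pow, algebraMap_eq, eval_C, map_zero,
        Algebra.algebraMap_self, RingHom.id_apply] using this
    choose n hn using fun i => HZ.eq_lf (a := η i) (by simpa using h3.coeffs_low.1 i)
    obtain ⟨l, hl⟩ := Function.ne_iff.1 hη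
    obtain ⟨y₀, -, hy₀⟩ := exists_eval_ne_zero hl (fun _ => Set.univ) fun _ => Set.infinite_univ
    have hpar : ∀ i j, C (eval y₀ (η i)) * η j = C (eval y₀ (η j)) * η i := fun i j => by
      refine MvPolynomial.funext fun y => ?_
      obtain ⟨p0, p1, p2⟩ := hG.cop.no_plane (hD' y₀) (hD' y) (by
        convert hD' (y₀ + y) using 2
        funext i; simp [hn]; ring)
      simp only [map_mul, eval_C]
      fin_cases i <;> fin_cases j <;> simp only [Fin.zero_eta, Fin.mk_one, Fin.reduceFinMk] <;>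
        first | rfl | linarith
    have ht0 : t ≠ 0 := fun h0 => hl (hinj (by rw [ht, h0]; simp))
    refine claim1 (fun i => eval y₀ (η i)) (Function.ne_iff.2 ⟨l, hy₀⟩) fun i j => ?_
    apply mul_left_cancel₀ ht0
    have := congrArg (algebraMap A K) (hpar i j)
    rw [map_mul, map_mul, ht, ht] at this
    rw [hRK, hRK]; linear_combination this)
  obtain ⟨θ', h0, d₁, d₂, d₃⟩ := exists_theta g₁ g₂ g₃
  have kill : ∀ g, dot4 g θ' = 0 → dot4 g θ = 0 := fun g hg => by
    obtain ⟨x, y, z, rfl⟩ := span3 h0 hi d₁ d₂ d₃ hg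
    have e₁ := hdot _ _ hG.mem₁ hG.lead₁
    have e₂ := hdot _ _ hG.mem₂ hG.lead₂
    have e₃ := hdot _ _ m₃ l₃
    simp only [dot4, Pi.add_apply, Pi.smul_apply, smul_eq_mul, map_add, map_mul] at e₁ e₂ e₃ ⊢
    linear_combination algebraMap ℝ K x * e₁ + algebraMap ℝ K y * e₂ + algebraMap ℝ K z * e₃
  have hpar : ∀ i j, algebraMap ℝ K (θ' i) * θ j = algebraMap ℝ K (θ' j) * θ i := fun i j => by
    have := kill (Pi.single j (θ' i) - Pi.single i (θ' j)) (by
      fin_cases i <;> fin_cases j <;> simp [dot4] <;> ring)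
    fin_cases i <;> fin_cases j <;> simp [dot4] at this ⊢ <;> linear_combination this
  obtain ⟨j, hj⟩ := Function.ne_iff.1 hθ
  have s0 : h 0 * algebraMap ℝ K (θ' 0) + h 1 * algebraMap ℝ K (θ' 1)
      + h 2 * algebraMap ℝ K (θ' 2) = 0 := by
    apply mul_left_cancel₀ hj
    linear_combination algebraMap ℝ K (θ' j) * r0 + h 0 * hpar 0 j + h 1 * hpar 1 j
      + h 2 * hpar 2 j
  have s1 : h 0 * algebraMap ℝ K (θ' 1) + h 1 * algebraMap ℝ K (θ' 2)
      + h 2 * algebraMap ℝ K (θ' 3) = 0 := by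
    apply mul_left_cancel₀ hj
    linear_combination algebraMap ℝ K (θ' j) * r1 + h 0 * hpar 1 j + h 1 * hpar 2 j
      + h 2 * hpar 3 j
  refine claim1 (apo θ') (apo_ne_zero hG.cop h0 d₁ d₂) fun i j => ?_
  fin_cases i <;> fin_cases j <;>
    simp only [apo, Fin.zero_eta, Fin.mk_one, Fin.reduceFinMk, Matrix.cons_val_zero,
      Matrix.cons_val_one, Matrix.cons_val, map_sub, map_mul, map_pow]
  · linear_combination algebraMap ℝ K (θ' 3) * s0 - algebraMap ℝ K (θ' 2) * s1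
  · linear_combination algebraMap ℝ K (θ' 1) * s1 - algebraMap ℝ K (θ' 2) * s0
  · linear_combination -algebraMap ℝ K (θ' 3) * s0 + algebraMap ℝ K (θ' 2) * s1
  · linear_combination algebraMap ℝ K (θ' 1) * s0 - algebraMap ℝ K (θ' 0) * s1
  · linear_combination -algebraMap ℝ K (θ' 1) * s1 + algebraMap ℝ K (θ' 2) * s0
  · linear_combination -algebraMap ℝ K (θ' 1) * s0 + algebraMap ℝ K (θ' 0) * s1

end Pool.Agent.Lib.MP_886b5a_gt
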