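import Pool.Agent.Lib.MP_886b5a_gt.CaseD4

set_option autoImplicit false
set_option linter.unusedSectionVars false

namespace Pool.Agent.Lib.MP_886b5a_gt

open MvPolynomial Module

variable {K : Type*} {L : Type*} [Field K] [Algebra A K] [IsFractionRing A K] [Field L]
  [Algebra A L] [Algebra K L] [IsScalarTower A K L]
variable {Z : Set Pt} {U V : L} {f₁ f₂ : R} {g₁ g₂ : Fin 4 → ℝ}

lemma uniq3 {F₁ F₂ F₃ : R} {G₁ G₂ G₃ : Fin 4 → ℝ} (hi : Ind3 G₁ G₂ G₃) (l₁ : Lead F₁ G₁)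
    (l₂ : Lead F₂ G₂) (l₃ : Lead F₃ G₃) {a b c : A} (h : Low (C a * F₁ + C b * F₂ + C c * F₃)) :
    a = 0 ∧ b = 0 ∧ c = 0 := by
  have h1 := cub_low (ν := fun j => a * C (G₁ j) + b * C (G₂ j) + c * C (G₃ j)) (by
    convert h.sub (((l₁.low_A a).add (l₂.low_A b)).add (l₃.low_A c)) using 1
    simp [cub]; ring)
  have h2 : ∀ y, eval y a = 0 ∧ eval y b = 0 ∧ eval y c = 0 := fun y => hi _ _ _ (by
    funext j
    simpa using congrArg (eval y) (congrFun h1 j))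
  exact ⟨MvPolynomial.funext fun y => by simp [(h2 y).1],
    MvPolynomial.funext fun y => by simp [(h2 y).2.1],
    MvPolynomial.funext fun y => by simp [(h2 y).2.2]⟩

lemma exists_proj {n : Fin 3 → ℝ} (hn : n ≠ 0) : ∃ φ : A →+* A, (∀ r, φ (C r) = C r) ∧
    φ (lf n) = 0 ∧ ∀ a, φ a = 0 → lf n ∣ a := by
  have hN : n 0 ^ 2 + n 1 ^ 2 + n 2 ^ 2 ≠ 0 := by
    rcases vec3_ne_zero.1 hn with h | h | h <;> positivity
  set N := n 0 ^ 2 + n 1 ^ 2 + n 2 ^ 2 with hNdef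
  let φ : A →+* A := eval₂Hom C fun k => X k - C (n k / N) * lf n
  have hC : ∀ r, φ (C r) = C r := fun r => by simp [φ]
  have hX : ∀ k, φ (X k) = X k - C (n k / N) * lf n := fun k => by simp [φ]
  have hd : ∀ a, lf n ∣ a - φ a := fun a => by
    induction a using MvPolynomial.induction_on with
    | C r => simp [hC]
    | add p q hp hq =>
      have e : p + q - φ (p + q) = (p - φ p) + (q - φ q) := by rw [map_add]; ring
      rw [e]; exact dvd_add hp hq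
    | mul_X p k hp =>
      have e : p * X k - φ (p * X k) = (p - φ p) * X k + lf n * (φ p * C (n k / N)) := by
        rw [map_mul, hX]; ring
      rw [e]; exact dvd_add (hp.mul_right _) (dvd_mul_right _ _)
  refine ⟨φ, hC, ?_, fun a ha => by simpa [ha] using hd a⟩
  have e : (C (n 0 * (n 0 / N) + n 1 * (n 1 / N) + n 2 * (n 2 / N)) : A) = 1 := by
    rw [← C_1]; congr 1; field_simp; rfl
  have e2 : φ (lf n) = φ (C (n 0) * X 0 + C (n 1) * X 1 + C (n 2) * X 2) := rfl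
  simp only [map_add, map_mul] at e
  rw [e2]
  simp only [map_add, map_mul, hC, hX]
  have e3 : lf n = C (n 0) * X 0 + C (n 1) * X 1 + C (n 2) * X 2 := rfl
  linear_combination -e3 - lf n * e

lemma map_low (φ : A →+* A) (Q b : Fin 3 → A) :
    map φ (quad Q + lin b) = quad (fun i => φ (Q i)) + lin fun i => φ (b i) := by
  simp [quad, lin]

lemma Lead.map {φ : A →+* A} (hφ : ∀ r, φ (C r) = C r) {F : R} {g : Fin 4 → ℝ} (h : Lead F g) :
    Lead (map φ F) g := by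
  obtain ⟨Q, b, rfl⟩ := h
  exact ⟨fun i => φ (Q i), fun i => φ (b i), by simp [cubR, cub, quad, lin, hφ]⟩

lemma sub_dvd (a : A) (f : R) :
    X 0 - C a ∣ f - eval₂Hom C (![C a, X 1] : Fin 2 → R) f := by
  induction f using MvPolynomial.induction_on with
  | C r => simp
  | add p q hp hq =>
    rw [map_add, add_sub_add_comm]; exact dvd_add hp hq
  | mul_X p k hp =>
    rw [map_mul]
    generalize eval₂Hom C (![C a, X 1] : Fin 2 → R) p = p' at hp
    fin_cases k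
    · convert dvd_add (hp.mul_right (X 0)) (dvd_mul_left (X 0 - C a) p') using 1
      simp; ring
    · convert hp.mul_right (X 1) using 1
      simp; ring

/-- A linear syzygy between three cubics generating the cubic part of the ideal. -/
lemma syz_case (hG : Geo Z f₁ f₂ g₁ g₂) (hM : Model K Z U V) (hd : 6 ≤ finrank K L)
    (hlow : ∀ f ∈ van Z, Low f → f = 0) {F₁ F₂ F₃ : R} (m₁ : F₁ ∈ van Z) (m₂ : F₂ ∈ van Z)
    (m₃ : F₃ ∈ van Z) (h₁ : HR 3 F₁) (hF : F₁ ≠ 0)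
    (hgen : ∀ f ∈ van Z, HR 3 f → ∃ a b c, f = a * F₁ + b * F₂ + c * F₃)
    {a₁ a₂ a₃ : A} (z₁ : HZ 1 a₁) (z₂ : HZ 1 a₂) (z₃ : HZ 1 a₃)
    (hs : (X 1 - C a₁) * F₁ + (C a₂ - X 0) * F₂ + C a₃ * F₃ = 0) : False := by
  have hcut : ∀ p : Pt, p.2 1 ≠ 0 → ev p F₁ = 0 → ev p F₂ = 0 → ev p F₃ = 0 → p ∈ Z :=
    fun p hp e₁ e₂ e₃ => hG.cut p hp fun f hf h3 => by
      obtain ⟨a, b, c, rfl⟩ := hgen f hf h3
      simp [e₁, e₂, e₃]
  have nl : ∀ b : Fin 3 → A, b ≠ 0 → lin b ∉ van Z := fun b hb h =>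
    hb (low_eq_zero (Q := 0) (by simpa using hlow _ h (Low.lin b))).2
  by_cases h3 : a₃ = 0
  · have e := congrArg (eval₂Hom C (![C a₂, X 1] : Fin 2 → R)) hs
    have hne : (X 1 - C a₁ : R) ≠ 0 := fun h => by
      have := congrFun (low_eq_zero (Q := 0) (b := ![-a₁, 0, 1]) (by
        simp [lin]; linear_combination h)).2 2
      simp at this
    simp only [h3, map_add, map_mul, map_sub, eval₂Hom_C, eval₂Hom_X', Matrix.cons_val_zero,
      Matrix.cons_val_one, map_zero, sub_self, zero_mul, add_zero, mul_eq_zero, hne,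
      false_or] at e
    obtain ⟨q, hq⟩ := sub_dvd a₂ F₁
    rw [e, sub_zero] at hq
    have hl : (X 0 - C a₂ : R) = lin ![-a₂, 1, 0] := by simp [lin]; ring
    have hn : (X 0 - C a₂ : R) ∉ van Z := hl ▸ nl _ (vec3_ne_zero.2 (by simp))
    have hqv : q ∈ van Z := (hG.prime.mem_or_mem (hq ▸ m₁)).resolve_left hn
    have hq2 : HR 2 q := HR.of_mul (m := 1) ((HR.X 0).sub (HR.C z₂))
      (fun h => hn (h ▸ (van Z).zero_mem)) (by rw [← hq]; exact h₁)
    obtain ⟨c, b, e2⟩ := hq2.low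
    exact hF (by rw [hq, hlow q hqv ⟨_, b, e2⟩, mul_zero])
  obtain ⟨n₁, rfl⟩ := z₁.eq_lf
  obtain ⟨n₂, rfl⟩ := z₂.eq_lf
  obtain ⟨n₃, rfl⟩ := z₃.eq_lf
  have hn₃ : n₃ ≠ 0 := by rintro rfl; exact h3 (by simp [lf])
  have hN : n₃ 0 ^ 2 + n₃ 1 ^ 2 + n₃ 2 ^ 2 ≠ 0 := by
    rcases vec3_ne_zero.1 hn₃ with h | h | h <;> positivity
  have line : ∀ y : Fin 3 → ℝ, eval y (lf n₃) = 0 → eval y (lf n₁) ≠ 0 →
      (y, ![eval y (lf n₂), eval y (lf n₁)]) ∈ Z := fun y hy3 hy1 => by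
    have d0 := congrArg (fun f => ev (y, ![eval y (lf n₂), eval y (lf n₁)]) (pderiv 0 f)) hs
    have d1 := congrArg (fun f => ev (y, ![eval y (lf n₂), eval y (lf n₁)]) (pderiv 1 f)) hs
    simp only [map_add, map_sub, map_mul, Derivation.leibniz, smul_eq_mul, pderiv_C, pderiv_X,
      ev_C, ev_X, Matrix.cons_val_zero, Matrix.cons_val_one, hy3, sub_self, zero_mul, map_zero,
      mul_zero] at d0 d1
    have e3 := congrArg (eval₂Hom (RingHom.id A) ![lf n₂, lf n₁]) hs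
    simp only [map_add, map_mul, map_sub, eval₂Hom_C, eval₂Hom_X', Matrix.cons_val_zero,
      Matrix.cons_val_one, map_zero, sub_self, zero_mul, zero_add, RingHom.id_apply, mul_eq_zero,
      h3, false_or] at e3
    have e4 : ∀ f, ev (y, ![eval y (lf n₂), eval y (lf n₁)]) f =
        eval y (eval₂Hom (RingHom.id A) ![lf n₂, lf n₁] f) := fun f => by
      induction f using MvPolynomial.induction_on with
      | C r => simp
      | add p q hp hq => rw [map_add, map_add, map_add, hp, hq]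
      | mul_X p k hp => rw [map_mul, map_mul, map_mul, hp]; fin_cases k <;> simp
    exact hcut _ hy1 (by simpa using d1) (by simpa using d0) (by rw [e4, e3, map_zero])
  set w : Fin 3 → ℝ := ![n₁ 1 * n₃ 2 - n₁ 2 * n₃ 1, n₁ 2 * n₃ 0 - n₁ 0 * n₃ 2,
    n₁ 0 * n₃ 1 - n₁ 1 * n₃ 0] with hw
  by_cases hw0 : w ≠ 0
  · set y₀ : Fin 3 → ℝ := ![n₃ 1 * w 2 - n₃ 2 * w 1, n₃ 2 * w 0 - n₃ 0 * w 2,
      n₃ 0 * w 1 - n₃ 1 * w 0] with hy₀
    have hW : w 0 ^ 2 + w 1 ^ 2 + w 2 ^ 2 ≠ 0 := by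
      rcases vec3_ne_zero.1 hw0 with h | h | h <;> positivity
    refine hG.noLine (p := (y₀, ![eval y₀ (lf n₂), eval y₀ (lf n₁)]))
      (q := (w, ![eval w (lf n₂), 0])) (fun h => hw0 (congrArg Prod.fst h)) rfl fun M =>
      ⟨M, le_rfl, ?_⟩
    have e1 : eval (y₀ + M • w) (lf n₁) = w 0 ^ 2 + w 1 ^ 2 + w 2 ^ 2 := by
      simp [hy₀, hw]; ring
    have e2 : eval y₀ (lf n₁) = w 0 ^ 2 + w 1 ^ 2 + w 2 ^ 2 := by
      simp [hy₀, hw]; ring
    convert line (y₀ + M • w) (by simp [hy₀, hw]; ring) (by rw [e1]; exact hW) using 1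
    refine Prod.ext rfl ?_
    funext i; fin_cases i
    · simp; ring
    · simp only [e1, e2]; simp
  push Not at hw0
  have w0 := congrFun hw0 0; have w1 := congrFun hw0 1; have w2 := congrFun hw0 2
  simp only [hw, Matrix.cons_val_zero, Matrix.cons_val_one, Matrix.cons_val, Pi.zero_apply]
    at w0 w1 w2
  obtain ⟨b, c, hbc, t₁, t₂, t₃⟩ := trip_core hG hM (c0 := n₃ 0 ^ 2 + n₃ 1 ^ 2 + n₃ 2 ^ 2)
    (c1 := 0) (c2 := n₁ 0 * n₃ 0 + n₁ 1 * n₃ 1 + n₁ 2 * n₃ 2) hN m₁ m₂ m₃ hs (fun p hp h => by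
      simp only [map_add, map_mul, map_sub, ev_C, ev_X, eval_C, eval_lf, map_zero, zero_mul,
        map_pow] at h
      apply mul_ne_zero hN hp
      linear_combination h - (p.1 2 * n₃ 1 - p.1 1 * n₃ 2) * w0
        - (p.1 0 * n₃ 2 - p.1 2 * n₃ 0) * w1 - (p.1 1 * n₃ 0 - p.1 0 * n₃ 1) * w2) hcut
  have key : ∀ f ∈ van Z, HR 3 f → f ∈ tker U V b c := fun f hf h3 => by
    obtain ⟨a, b, c, rfl⟩ := hgen f hf h3
    exact Ideal.add_mem _ (Ideal.add_mem _ (Ideal.mul_mem_left _ _ t₁)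
      (Ideal.mul_mem_left _ _ t₂)) (Ideal.mul_mem_left _ _ t₃)
  exact no_tangent hG hM hd hbc (key _ hG.mem₁ hG.hr₁) (key _ hG.mem₂ hG.hr₂)

lemma par_apo {E : Type*} [CommRing E] [Algebra ℝ E] (θ : Fin 4 → ℝ) (h : Fin 3 → E)
    (s0 : h 0 * algebraMap ℝ E (θ 0) + h 1 * algebraMap ℝ E (θ 1) + h 2 * algebraMap ℝ E (θ 2) = 0)
    (s1 : h 0 * algebraMap ℝ E (θ 1) + h 1 * algebraMap ℝ E (θ 2) + h 2 * algebraMap ℝ E (θ 3) = 0)
    (i j : Fin 3) : algebraMap ℝ E (apo θ i) * h j = algebraMap ℝ E (apo θ j) * h i := by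
  fin_cases i <;> fin_cases j <;>
    simp only [apo, Fin.zero_eta, Fin.mk_one, Fin.reduceFinMk, Matrix.cons_val_zero,
      Matrix.cons_val_one, Matrix.cons_val, map_sub, map_mul, map_pow]
  · linear_combination algebraMap ℝ E (θ 3) * s0 - algebraMap ℝ E (θ 2) * s1
  · linear_combination algebraMap ℝ E (θ 1) * s1 - algebraMap ℝ E (θ 2) * s0
  · linear_combination -algebraMap ℝ E (θ 3) * s0 + algebraMap ℝ E (θ 2) * s1
  · linear_combination algebraMap ℝ E (θ 1) * s0 - algebraMap ℝ E (θ 0) * s1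
  · linear_combination -algebraMap ℝ E (θ 1) * s1 + algebraMap ℝ E (θ 2) * s0
  · linear_combination -algebraMap ℝ E (θ 1) * s0 + algebraMap ℝ E (θ 0) * s1

lemma mulU_mulV (d : Fin 3 → ℝ) : X 1 * cubR (mulU d) = X 0 * cubR (mulV d) := by
  simp [cubR, cub, mulU, mulV]; ring

/-- The case of a net of cubics. -/
lemma caseD3 (hG : Geo Z f₁ f₂ g₁ g₂) (hM : Model K Z U V) (hd : 6 ≤ finrank K L)
    (hlow : ∀ f ∈ van Z, Low f → f = 0) {θ : Fin 4 → ℝ} (hθ : θ ≠ 0)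
    (hkill : ∀ f ∈ van Z, HR 3 f → ∀ g, Lead f g → dot4 g θ = 0)
    (hall : ∀ g, dot4 g θ = 0 → ∃ f ∈ van Z, HR 3 f ∧ Lead f g) : False := by
  have hc := apo_ne_zero hG.cop hθ (hkill _ hG.mem₁ hG.hr₁ _ hG.lead₁)
    (hkill _ hG.mem₂ hG.hr₂ _ hG.lead₂)
  set c := apo θ with hcdef
  have du : dot4 (mulU c) θ = 0 := by simp [dot4, mulU, hcdef, apo]; ring
  have dv' : dot4 (mulV c) θ = 0 := by simp [dot4, mulV, hcdef, apo]; ring
  obtain ⟨F₁, m₁, h₁, l₁⟩ := hall _ du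
  obtain ⟨F₂, m₂, h₂, l₂⟩ := hall _ dv'
  obtain ⟨F₃, g, m₃, h₃, l₃, hi⟩ : ∃ F₃ g, F₃ ∈ van Z ∧ HR 3 F₃ ∧ Lead F₃ g ∧
      Ind3 (mulU c) (mulV c) g := by
    rcases hG.cop.ind3 hc with hi | hi
    exacts [⟨_, _, hG.mem₁, hG.hr₁, hG.lead₁, hi⟩, ⟨_, _, hG.mem₂, hG.hr₂, hG.lead₂, hi⟩]
  have dg := hkill _ m₃ h₃ _ l₃
  obtain ⟨g₄, d₄⟩ : ∃ g₄, dot4 g₄ θ = 1 := by
    obtain ⟨j, hj⟩ := Function.ne_iff.1 hθ
    refine ⟨Pi.single j (θ j)⁻¹, ?_⟩
    fin_cases j <;> simp [dot4] at hj ⊢ <;> field_simp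
  set ω := cubR g₄ with hω
  have comb : ∀ a b c : R, a * F₁ + b * F₂ + c * F₃ ∈ van Z := fun a b c =>
    (van Z).add_mem ((van Z).add_mem ((van Z).mul_mem_left _ m₁) ((van Z).mul_mem_left _ m₂))
      ((van Z).mul_mem_left _ m₃)
  have redR : ∀ w : Fin 4 → ℝ, ∃ x y z : ℝ, Low (cubR w - (C (C x) * F₁ + C (C y) * F₂
      + C (C z) * F₃) - C (C (dot4 w θ)) * ω) := fun w => by
    obtain ⟨x, y, z, e⟩ := span3 (g := w - dot4 w θ • g₄) hθ hi du dv' dg (by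
      simp only [dot4, Algebra.algebraMap_self, RingHom.id_apply, Pi.sub_apply, Pi.smul_apply,
        smul_eq_mul] at d₄ ⊢
      linear_combination -(w 0 * θ 0 + w 1 * θ 1 + w 2 * θ 2 + w 3 * θ 3) * d₄)
    refine ⟨x, y, z, ?_⟩
    have e2 : w = x • mulU c + y • mulV c + z • g + dot4 w θ • g₄ := by rw [← e]; simp
    have hl := (((l₁.smul x).add (l₂.smul y)).add (l₃.smul z)).add
      ((lead_cubR g₄).smul (dot4 w θ))
    rw [← e2] at hl
    convert (lead_cubR w).low_sub hl using 1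
    ring
  have red : ∀ ν : Fin 4 → A, ∃ a₁ a₂ a₃ : A,
      ((∀ j, HZ 1 (ν j)) → HZ 1 a₁ ∧ HZ 1 a₂ ∧ HZ 1 a₃) ∧
      Low (cub ν - (C a₁ * F₁ + C a₂ * F₂ + C a₃ * F₃) - C (dot4 θ ν) * ω) := fun ν => by
    obtain ⟨x0, y0, z0, e0⟩ := redR ![1, 0, 0, 0]
    obtain ⟨x1, y1, z1, e1⟩ := redR ![0, 1, 0, 0]
    obtain ⟨x2, y2, z2, e2⟩ := redR ![0, 0, 1, 0]
    obtain ⟨x3, y3, z3, e3⟩ := redR ![0, 0, 0, 1]
    have hz : (∀ j, HZ 1 (ν j)) → ∀ a b c d : ℝ,
        HZ 1 (C a * ν 0 + C b * ν 1 + C c * ν 2 + C d * ν 3) := fun h a b c d =>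
      ((((h 0).C_mul a).add ((h 1).C_mul b)).add ((h 2).C_mul c)).add ((h 3).C_mul d)
    refine ⟨_, _, _, fun h => ⟨hz h x0 x1 x2 x3, hz h y0 y1 y2 y3, hz h z0 z1 z2 z3⟩, ?_⟩
    convert (((e0.C_mul (ν 0)).add (e1.C_mul (ν 1))).add (e2.C_mul (ν 2))).add
      (e3.C_mul (ν 3)) using 1
    simp [cubR, cub, dot4]; ring
  have hgen : ∀ f ∈ van Z, HR 3 f → ∃ a b c, f = a * F₁ + b * F₂ + c * F₃ := fun f hf h3 => by
    obtain ⟨w, hw⟩ := h3.lead
    obtain ⟨x, y, z, e⟩ := redR w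
    rw [hkill f hf h3 w hw] at e
    refine ⟨_, _, _, sub_eq_zero.1 (hlow _ ((van Z).sub_mem hf
      (comb (C (C x)) (C (C y)) (C (C z)))) ?_)⟩
    convert (lead_iff.1 hw).add e using 1
    simp
  obtain ⟨ν, hν, e₀⟩ := row_low (mulU_mulV c) l₁ l₂ h₁ h₂
  obtain ⟨a₁, a₂, a₃, hz, e₁⟩ := red ν
  obtain ⟨z₁, z₂, z₃⟩ := hz hν
  set π := dot4 θ ν with hπ
  obtain ⟨C₂, C₁, eC⟩ := e₀.add e₁
  have eH : π • ω + (quad C₂ + lin C₁) =
      (X 1 - C a₁) * F₁ + (C (-a₂) - X 0) * F₂ + C (-a₃) * F₃ := by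
    rw [← eC, smul_eq_C_mul]; simp only [map_neg]; ring
  rw [smul_eq_C_mul] at eH
  have mH : C π * ω + (quad C₂ + lin C₁) ∈ van Z := eH ▸ comb _ _ _
  by_cases hπ0 : π = 0
  · refine syz_case hG hM hd hlow m₁ m₂ m₃ h₁ (l₁.ne_zero fun h => ?_) hgen z₁ z₂.neg z₃.neg ?_
    · simpa using (hi 1 0 0 (by simp [h])).1
    · rw [← eH, hπ0, map_zero, zero_mul, zero_add]
      exact hlow _ (by simpa [hπ0] using mH) (Low.mk _ _)
  have zπ : HZ 1 π := by
    simp only [hπ, dot4, algebraMap_eq]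
    exact ((((hν 0).C_mul _).add ((hν 1).C_mul _)).add ((hν 2).C_mul _)).add ((hν 3).C_mul _)
  obtain ⟨n, hn⟩ := zπ.eq_lf
  obtain ⟨φ, hφ, hφ0, hφd⟩ := exists_proj (n := n) (by rintro rfl; exact hπ0 (by simp [hn, lf]))
  rw [← hn] at hφ0 hφd
  set Cc := quad C₂ + lin C₁ with hCc
  have hne : map φ Cc ≠ 0 := fun h => by
    rw [hCc, map_low] at h
    obtain ⟨q0, q1⟩ := low_eq_zero h
    choose w hw using fun i => hφd _ (congrFun q0 i)
    choose w' hw' using fun i => hφd _ (congrFun q1 i)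
    have e : C π * ω + Cc = C π * (cubR g₄ + quad w + lin w') := by
      simp only [hCc, hω, quad, lin, hw, hw', map_mul]; ring
    have hH : HR 4 (C π * ω + Cc) := by
      rw [eH]
      exact ((((HR.X 1).sub (HR.C z₁)).mul' h₁ (by norm_num)).add
        (((HR.C z₂.neg).sub (HR.X 0)).mul' h₂ (by norm_num))).add
        ((HR.C z₃.neg).mul' h₃ (by norm_num))
    rw [e] at mH hH
    have := hkill _ ((hG.prime.mem_or_mem mH).resolve_left fun h => hπ0 (hG.dom _ h))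
      (HR.of_mul (m := 1) (HR.C zπ) (by simpa using hπ0) hH) g₄ ⟨w, w', rfl⟩
    rw [d₄] at this
    exact one_ne_zero this
  have hN : c 0 ^ 2 + c 1 ^ 2 + c 2 ^ 2 ≠ 0 := by
    rcases vec3_ne_zero.1 hc with h | h | h <;> positivity
  have core : ∀ (x : R) (a : A) (m : R) (μ : Fin 4 → A), Low m → x * ω - C a * ω - m ∈ van Z →
      Low (x * Cc - cub μ) → φ (dot4 θ μ) = 0 ∧ ∃ z b₁ b₂ b₃ : A, (map φ x - C z) * map φ Cc =
        C b₁ * map φ F₁ + C b₂ * map φ F₂ + C b₃ * map φ F₃ := by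
    intro x a m μ hm hx hμ
    obtain ⟨b₁, b₂, b₃, -, e⟩ := red μ
    set h := dot4 θ μ
    set N := x * Cc - (C b₁ * F₁ + C b₂ * F₂ + C b₃ * F₃) - C h * ω + C π * m - C a * Cc with hNd
    have lN : Low N := by
      convert ((hμ.add e).add (hm.C_mul π)).sub ((Low.mk C₂ C₁).C_mul a) using 1
      rw [hNd]; ring
    have e2 : C π * N - C h * Cc = 0 := hlow _ (by
      convert (van Z).sub_mem ((van Z).mul_mem_left (C π) ((van Z).sub_mem ((van Z).sub_mem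
        ((van Z).mul_mem_left (x - C a) mH) ((van Z).mul_mem_left (C π) hx))
        (comb (C b₁) (C b₂) (C b₃)))) ((van Z).mul_mem_left (C h) mH) using 1
      rw [hNd]; ring) ((lN.C_mul π).sub ((Low.mk C₂ C₁).C_mul h))
    have e3 := congrArg (map φ) e2
    simp only [map_sub, map_mul, map_C, hφ0, map_zero, zero_mul, zero_sub, neg_eq_zero,
      mul_eq_zero, hne, or_false, C_eq_zero] at e3
    obtain ⟨h', hh'⟩ := hφd _ e3
    have e4 : N = C h' * Cc := by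
      apply mul_left_cancel₀ (a := (C π : R)) (by simpa using hπ0)
      rw [hh', map_mul] at e2
      linear_combination e2
    have e5 := congrArg (map φ) e4
    rw [hNd] at e5
    simp only [map_add, map_sub, map_mul, map_C, hφ0, e3, map_zero, zero_mul] at e5
    exact ⟨e3, φ a + φ h', φ b₁, φ b₂, φ b₃, by rw [map_add]; linear_combination e5⟩
  obtain ⟨ru, zu, u₁, u₂, u₃, eu⟩ : φ (dot4 θ ![C₂ 0, C₂ 1, C₂ 2, 0]) = 0 ∧ ∃ z b₁ b₂ b₃ : A,
      (map φ (X 0) - C z) * map φ Cc = C b₁ * map φ F₁ + C b₂ * map φ F₂ + C b₃ * map φ F₃ := by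
    obtain ⟨d, da, db⟩ : ∃ d, dot4 (mulU d) θ = 0 ∧ dot4 (mulV d) θ = 1 :=
      ⟨(c 0 ^ 2 + c 1 ^ 2 + c 2 ^ 2)⁻¹ • ![c 1 * θ 2 - c 2 * θ 1, c 2 * θ 0 - c 0 * θ 2,
        c 0 * θ 1 - c 1 * θ 0], by simp [dot4, mulU]; ring, by
          simp [dot4, mulV]; field_simp; simp [hcdef, apo]; ring⟩
    obtain ⟨G, mG, hG3, lG⟩ := hall _ da
    obtain ⟨G', mG', hG3', lG'⟩ := hall (mulV d - g₄) (by
      simp only [dot4, Algebra.algebraMap_self, RingHom.id_apply, Pi.sub_apply] at d₄ db ⊢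
      linear_combination db - d₄)
    obtain ⟨μ, -, e⟩ := row_low (mulU_mulV d) lG
      (by simpa using lG'.add (lead_cubR g₄)) hG3 (hG3'.add (hr_cubR g₄))
    obtain ⟨b₁, b₂, b₃, -, e'⟩ := red μ
    refine core (X 0) (-dot4 θ μ) _ _ (e.add e').neg ?_ ?_
    · convert (van Z).add_mem ((van Z).sub_mem ((van Z).mul_mem_left (X 1) mG)
        ((van Z).mul_mem_left (X 0) mG')) (comb (-C b₁) (-C b₂) (-C b₃)) using 1
      rw [map_neg]; ring
    · convert Low.X0_lin C₁ using 1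
      simp [hCc, cub, quad]; ring
  obtain ⟨rv, zv, v₁, v₂, v₃, ev'⟩ : φ (dot4 θ ![0, C₂ 0, C₂ 1, C₂ 2]) = 0 ∧ ∃ z b₁ b₂ b₃ : A,
      (map φ (X 1) - C z) * map φ Cc = C b₁ * map φ F₁ + C b₂ * map φ F₂ + C b₃ * map φ F₃ := by
    obtain ⟨d, da, db⟩ : ∃ d, dot4 (mulU d) θ = 1 ∧ dot4 (mulV d) θ = 0 :=
      ⟨(c 0 ^ 2 + c 1 ^ 2 + c 2 ^ 2)⁻¹ • ![θ 2 * c 2 - θ 3 * c 1, θ 3 * c 0 - θ 1 * c 2,
        θ 1 * c 1 - θ 2 * c 0], by simp [dot4, mulU]; field_simp; simp [hcdef, apo]; ring, by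
          simp [dot4, mulV]; ring⟩
    obtain ⟨G', mG', hG3', lG'⟩ := hall _ db
    obtain ⟨G, mG, hG3, lG⟩ := hall (mulU d - g₄) (by
      simp only [dot4, Algebra.algebraMap_self, RingHom.id_apply, Pi.sub_apply] at d₄ da ⊢
      linear_combination da - d₄)
    obtain ⟨μ, -, e⟩ := row_low (mulU_mulV d)
      (by simpa using lG.add (lead_cubR g₄)) lG' (hG3.add (hr_cubR g₄)) hG3'
    obtain ⟨b₁, b₂, b₃, -, e'⟩ := red μ
    refine core (X 1) (dot4 θ μ) _ _ (e.add e') ?_ ?_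
    · convert (van Z).add_mem ((van Z).sub_mem ((van Z).mul_mem_left (X 0) mG')
        ((van Z).mul_mem_left (X 1) mG)) (comb (C b₁) (C b₂) (C b₃)) using 1
      ring
    · convert Low.X1_lin C₁ using 1
      simp [hCc, cub, quad]; ring
  have hpar := par_apo (E := A) θ (fun i => φ (C₂ i))
    (by simp [dot4, hφ] at ru ⊢; linear_combination ru)
    (by simp [dot4, hφ] at rv ⊢; linear_combination rv)
  obtain ⟨l, hl⟩ := Function.ne_iff.1 hc
  simp only [Pi.zero_apply] at hl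
  simp only [algebraMap_eq, ← hcdef] at hpar
  have hκ : ∀ i, φ (C₂ i) = C (c l)⁻¹ * φ (C₂ l) * C (c i) := fun i => by
    rw [mul_assoc, mul_comm (φ _), hpar i l, ← mul_assoc, ← map_mul, inv_mul_cancel₀ hl, map_one,
      one_mul]
  set κ : A := C (c l)⁻¹ * φ (C₂ l)
  have k₁ := l₁.map hφ
  have k₂ := l₂.map hφ
  have k₃ := l₃.map hφ
  have eC' : map φ Cc = C κ * quadR c + lin fun i => φ (C₁ i) := by
    rw [hCc, map_low]
    simp only [quad, quadR, hκ 0, hκ 1, hκ 2, map_mul]; ring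
  have lC : Low (map φ Cc) := ⟨_, _, map_low φ C₂ C₁⟩
  simp only [map_X] at eu ev'
  obtain ⟨p₁, p₂, p₃⟩ := uniq3 hi k₁ k₂ k₃ (a := u₁ - κ) (b := u₂) (c := u₃) (by
    convert (((Low.X0_lin fun i => φ (C₁ i)).sub (lC.C_mul zu)).sub
      ((lead_iff.1 k₁).C_mul κ)) using 1
    have e : cubR (mulU c) = X 0 * quadR c := by simp [cubR, cub, quadR, quad, mulU]; ring
    rw [map_sub, e]
    linear_combination -eu + X 0 * eC')
  obtain ⟨q₁, q₂, q₃⟩ := uniq3 hi k₁ k₂ k₃ (a := v₁) (b := v₂ - κ) (c := v₃) (by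
    convert (((Low.X1_lin fun i => φ (C₁ i)).sub (lC.C_mul zv)).sub
      ((lead_iff.1 k₂).C_mul κ)) using 1
    have e : cubR (mulV c) = X 1 * quadR c := by simp [cubR, cub, quadR, quad, mulV]; ring
    rw [map_sub, e]
    linear_combination -ev' + X 1 * eC')
  rw [sub_eq_zero] at p₁ q₂
  simp only [p₁, p₂, p₃, q₁, q₂, q₃, map_zero, zero_mul, add_zero, zero_add] at eu ev'
  have hκ0 : (C κ : R) ≠ 0 := fun h => by
    rw [h, zero_mul, mul_eq_zero] at eu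
    refine hne (eu.resolve_left fun h => ?_)
    have := congrFun (low_eq_zero (Q := 0) (b := ![-zu, 1, 0]) (by
      simp [lin]; linear_combination h)).2 1
    simp at this
  have e6 : (X 1 - C zv) * map φ F₁ = (X 0 - C zu) * map φ F₂ :=
    mul_left_cancel₀ hκ0 (by linear_combination (X 0 - C zu) * ev' - (X 1 - C zv) * eu)
  have e7 := congrArg (map φ) eH
  simp only [map_add, map_sub, map_mul, map_C, map_X, hφ0, map_zero, zero_mul, zero_add,
    map_neg] at e7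
  have e8 : map φ Cc = C (zv - φ a₁) * map φ F₁ + C (-zu - φ a₂) * map φ F₂
      + C (-φ a₃) * map φ F₃ := by
    simp only [map_sub, map_neg]
    linear_combination e7 + e6
  obtain ⟨s₁, s₂, s₃⟩ := uniq3 hi k₁ k₂ k₃ (e8 ▸ lC)
  exact hne (by rw [e8, s₁, s₂, s₃]; simp)

theorem caseD (hG : Geo Z f₁ f₂ g₁ g₂) (hM : Model K Z U V)
    (hind : ∀ c : Fin 3 → K, c 0 • U ^ 2 + c 1 • (U * V) + c 2 • V ^ 2 ∈ F1 K U V → c = 0) :
    False := by
  have := hM.finite hG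
  have hlow : ∀ f ∈ van Z, Low f → f = 0 := by
    rintro _ hf ⟨η, β, rfl⟩
    have h0 := hind (fun i => algebraMap A K (η i)) (by
      have h1 := (hM.ker _).2 hf
      rw [map_add, add_eq_zero_iff_eq_neg, pi_quad] at h1
      simp only [Algebra.smul_def, ← IsScalarTower.algebraMap_apply]
      rw [h1]; exact Submodule.neg_mem _ (pi_lin_mem_F1 β))
    have hη : η = 0 := funext fun i =>
      IsFractionRing.injective A K (by simpa using congrFun h0 i)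
    subst hη
    rw [lin_eq_zero_of_mem hG hM (b := β) (by simpa using hf)]; simp
  have hd : 6 ≤ finrank K L := by
    have hli : LinearIndependent K (![1, U, V, U ^ 2, U * V, V ^ 2] : Fin 6 → L) := by
      rw [Fintype.linearIndependent_iff]
      intro a ha
      simp only [Fin.sum_univ_six, Matrix.cons_val_zero, Matrix.cons_val_one, Matrix.cons_val,
        Algebra.smul_def] at ha
      have h0 := hind ![a 3, a 4, a 5] (mem_F1.2 ⟨-a 0, -a 1, -a 2, by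
        simp only [Algebra.smul_def, map_neg, Matrix.cons_val_zero, Matrix.cons_val_one,
          Matrix.cons_val]
        linear_combination ha⟩)
      have a3 : a 3 = 0 := congrFun h0 0
      have a4 : a 4 = 0 := congrFun h0 1
      have a5 : a 5 = 0 := congrFun h0 2
      obtain ⟨a0, a1, a2⟩ := ind1 hG hM (a := a 0) (b := a 1) (c := a 2) (by
        have b3 := congrArg (algebraMap K L) a3
        have b4 := congrArg (algebraMap K L) a4
        have b5 := congrArg (algebraMap K L) a5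
        rw [map_zero] at b3 b4 b5
        linear_combination ha - U ^ 2 * b3 - U * V * b4 - V ^ 2 * b5)
      intro i; fin_cases i <;> assumption
    simpa using hli.fintype_card_le_finrank
  obtain ⟨f₃, g₃, m₃, h₃, l₃, hi⟩ := third_cubic hG hM hd fun f hf _ => hlow f hf
  obtain ⟨θ, hθ, d₁, d₂, d₃⟩ := exists_theta g₁ g₂ g₃
  have hall : ∀ g, dot4 g θ = 0 → ∃ f ∈ van Z, HR 3 f ∧ Lead f g := fun g hg => by
    obtain ⟨x, y, z, rfl⟩ := span3 hθ hi d₁ d₂ d₃ hg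
    exact ⟨_, (van Z).add_mem ((van Z).add_mem ((van Z).mul_mem_left _ hG.mem₁)
      ((van Z).mul_mem_left _ hG.mem₂)) ((van Z).mul_mem_left _ m₃),
      ((hG.hr₁.CC_mul x).add (hG.hr₂.CC_mul y)).add (h₃.CC_mul z),
      ((hG.lead₁.smul x).add (hG.lead₂.smul y)).add (l₃.smul z)⟩
  by_cases hkill : ∀ f ∈ van Z, HR 3 f → ∀ g, Lead f g → dot4 g θ = 0
  · exact caseD3 hG hM hd hlow hθ hkill hall
  push Not at hkill
  obtain ⟨f₄, m₄, h₄, g₄, l₄, d₄⟩ := hkill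
  refine caseD4 hG hlow fun g => ?_
  obtain ⟨f, mf, hf, lf⟩ := hall (g - (dot4 g θ / dot4 g₄ θ) • g₄) (by
    have e : dot4 (g - (dot4 g θ / dot4 g₄ θ) • g₄) θ =
        dot4 g θ - dot4 g θ / dot4 g₄ θ * dot4 g₄ θ := by
      generalize dot4 g θ / dot4 g₄ θ = t
      simp [dot4]; ring
    rw [e]; field_simp; ring)
  exact ⟨_, (van Z).add_mem mf ((van Z).mul_mem_left _ m₄), hf.add (h₄.CC_mul _),
    by simpa using lf.add (l₄.smul (dot4 g θ / dot4 g₄ θ))⟩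

end Pool.Agent.Lib.MP_886b5a_gt
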