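import Pool.Agent.Lib.MP_886b5a_gt.CaseC

set_option autoImplicit false
set_option linter.unusedSectionVars false

namespace Pool.Agent.Lib.MP_886b5a_gt

open MvPolynomial Module

variable {Z : Set Pt} {f₁ f₂ : R} {g₁ g₂ : Fin 4 → ℝ}

lemma lead_cubR (g : Fin 4 → ℝ) : Lead (cubR g) g := ⟨0, 0, by simp⟩

lemma Lead.ev_zero {f : R} {g : Fin 4 → ℝ} (hf : HR 3 f) (hg : Lead f g) (w : Fin 2 → ℝ) :
    ev (0, w) f = cubE g (w 0) (w 1) := by
  obtain ⟨Q, b, rfl⟩ := hg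
  obtain ⟨-, hQ, b0, b1, b2⟩ := HR.coeffs hf
  have hQ' := fun i => (hQ i).eval_zero (by norm_num)
  have b0' := b0.eval_zero (by norm_num)
  have b1' := b1.eval_zero (by norm_num)
  have b2' := b2.eval_zero (by norm_num)
  simp only [cubR, cub, quad, lin, map_add, map_mul, map_pow, ev_C, ev_X, eval_C, hQ', b0', b1',
    b2', cubE, Algebra.algebraMap_self, RingHom.id_apply]
  ring

lemma row_low {Fa Fb : R} {ga gb : Fin 4 → ℝ} (h : X 1 * cubR ga = X 0 * cubR gb)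
    (la : Lead Fa ga) (lb : Lead Fb gb) (ha : HR 3 Fa) (hb : HR 3 Fb) :
    ∃ ν : Fin 4 → A, (∀ j, HZ 1 (ν j)) ∧ Low (X 1 * Fa - X 0 * Fb - cub ν) := by
  obtain ⟨Q, b, rfl⟩ := la
  obtain ⟨Q', b', rfl⟩ := lb
  have hQ : ∀ i, HZ 1 (Q i) := fun i => by simpa using (HR.coeffs ha).2.1 i
  have hQ' : ∀ i, HZ 1 (Q' i) := fun i => by simpa using (HR.coeffs hb).2.1 i
  refine ⟨![-Q' 0, Q 0 - Q' 1, Q 1 - Q' 2, Q 2], fun j => ?_, ?_⟩
  · fin_cases j
    exacts [(hQ' 0).neg, (hQ 0).sub (hQ' 1), (hQ 1).sub (hQ' 2), hQ 2]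
  · convert (Low.X1_lin b).sub (Low.X0_lin b') using 1
    simp [cub, quad]
    linear_combination h

lemma Lead.low_A {F : R} {g : Fin 4 → ℝ} (h : Lead F g) (a : A) :
    Low (C a * F - cub fun j => a * C (g j)) := by
  convert (lead_iff.1 h).C_mul a using 1
  simp [cubR, cub]; ring

lemma cub_low {ν : Fin 4 → A} (h : Low (cub ν)) : ν = 0 := by
  obtain ⟨Q, b, e⟩ := h
  exact (poly_eq_zero (g := ν) (Q := -Q) (b := -b) (by rw [e]; simp [quad, lin]; ring)).1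

lemma Lead.ne_zero {F : R} {g : Fin 4 → ℝ} (h : Lead F g) (hg : g ≠ 0) : F ≠ 0 := by
  rintro rfl
  apply hg
  have := cub_low (ν := fun j => C (g j)) (by simpa [cubR] using (lead_iff.1 h).neg)
  funext j
  simpa using congrFun this j

lemma cramer4 {E : Type*} [CommRing E] (c0 c1 c2 c3 : Fin 3 → E) (x0 x1 x2 x3 : E)
    (h : ∀ i, c0 i * x0 + c1 i * x1 + c2 i * x2 + c3 i * x3 = 0) :
    -det3 c1 c2 c3 * x3 = det3 c0 c1 c2 * x0 ∧ det3 c0 c2 c3 * x0 = -det3 c1 c2 c3 * x1 ∧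
      -det3 c0 c1 c3 * x0 = -det3 c1 c2 c3 * x2 := by
  unfold det3
  refine ⟨?_, ?_, ?_⟩
  · linear_combination -(c1 1 * c2 2 - c1 2 * c2 1) * h 0 + (c1 0 * c2 2 - c1 2 * c2 0) * h 1
      - (c1 0 * c2 1 - c1 1 * c2 0) * h 2
  · linear_combination (c2 1 * c3 2 - c2 2 * c3 1) * h 0 - (c2 0 * c3 2 - c2 2 * c3 0) * h 1
      + (c2 0 * c3 1 - c2 1 * c3 0) * h 2
  · linear_combination -(c1 1 * c3 2 - c1 2 * c3 1) * h 0 + (c1 0 * c3 2 - c1 2 * c3 0) * h 1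
      - (c1 0 * c3 1 - c1 1 * c3 0) * h 2

/-- The determinantal case. -/
lemma caseD4 (hG : Geo Z f₁ f₂ g₁ g₂) (hlow : ∀ f ∈ van Z, Low f → f = 0)
    (hall : ∀ g, ∃ f ∈ van Z, HR 3 f ∧ Lead f g) : False := by
  obtain ⟨E0, m0, h0, l0⟩ := hall ![1, 0, 0, 0]
  obtain ⟨E1, m1, h1, l1⟩ := hall ![0, 1, 0, 0]
  obtain ⟨E2, m2, h2, l2⟩ := hall ![0, 0, 1, 0]
  obtain ⟨E3, m3, h3, l3⟩ := hall ![0, 0, 0, 1]
  have red : ∀ ν : Fin 4 → A,
      Low (C (ν 0) * E0 + C (ν 1) * E1 + C (ν 2) * E2 + C (ν 3) * E3 - cub ν) := fun ν => by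
    convert (((l0.low_A (ν 0)).add (l1.low_A (ν 1))).add (l2.low_A (ν 2))).add
      (l3.low_A (ν 3)) using 1
    simp [cub]; ring
  have row : ∀ {Fa Fb : R} {ga gb : Fin 4 → ℝ}, X 1 * cubR ga = X 0 * cubR gb → Lead Fa ga →
      Lead Fb gb → HR 3 Fa → HR 3 Fb → Fa ∈ van Z → Fb ∈ van Z → ∃ ν : Fin 4 → A,
      (∀ j, HZ 1 (ν j)) ∧ X 1 * Fa - X 0 * Fb =
        C (ν 0) * E0 + C (ν 1) * E1 + C (ν 2) * E2 + C (ν 3) * E3 := by
    intro Fa Fb ga gb h la lb ha hb ma mb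
    obtain ⟨ν, hν, hl⟩ := row_low h la lb ha hb
    refine ⟨ν, hν, sub_eq_zero.1 (hlow _ ((van Z).sub_mem ((van Z).sub_mem
      ((van Z).mul_mem_left _ ma) ((van Z).mul_mem_left _ mb)) ((van Z).add_mem ((van Z).add_mem
      ((van Z).add_mem ((van Z).mul_mem_left _ m0) ((van Z).mul_mem_left _ m1))
      ((van Z).mul_mem_left _ m2)) ((van Z).mul_mem_left _ m3))) ?_)⟩
    convert hl.sub (red ν) using 1
    ring
  obtain ⟨α, hα, eα⟩ := row (by simp [cubR, cub]; ring) l0 l1 h0 h1 m0 m1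
  obtain ⟨β, hβ, eβ⟩ := row (by simp [cubR, cub]; ring) l1 l2 h1 h2 m1 m2
  obtain ⟨γ, hγ, eγ⟩ := row (by simp [cubR, cub]; ring) l2 l3 h2 h3 m2 m3
  set c0 : Fin 3 → R := ![X 1 - C (α 0), -C (β 0), -C (γ 0)] with hc0
  set c1 : Fin 3 → R := ![-X 0 - C (α 1), X 1 - C (β 1), -C (γ 1)] with hc1
  set c2 : Fin 3 → R := ![-C (α 2), -X 0 - C (β 2), X 1 - C (γ 2)] with hc2
  set c3 : Fin 3 → R := ![-C (α 3), -C (β 3), -X 0 - C (γ 3)] with hc3
  have r0 : ∀ i, HR 1 (c0 i) := fun i => by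
    fin_cases i
    exacts [(HR.X 1).sub (HR.C (hα 0)), (HR.C (hβ 0)).neg, (HR.C (hγ 0)).neg]
  have r1 : ∀ i, HR 1 (c1 i) := fun i => by
    fin_cases i
    exacts [(HR.X 0).neg.sub (HR.C (hα 1)), (HR.X 1).sub (HR.C (hβ 1)), (HR.C (hγ 1)).neg]
  have r2 : ∀ i, HR 1 (c2 i) := fun i => by
    fin_cases i
    exacts [(HR.C (hα 2)).neg, (HR.X 0).neg.sub (HR.C (hβ 2)), (HR.X 1).sub (HR.C (hγ 2))]
  have r3 : ∀ i, HR 1 (c3 i) := fun i => by
    fin_cases i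
    exacts [(HR.C (hα 3)).neg, (HR.C (hβ 3)).neg, (HR.X 0).neg.sub (HR.C (hγ 3))]
  obtain ⟨k0, k1, k2⟩ := cramer4 c0 c1 c2 c3 E0 E1 E2 E3 fun i => by
    fin_cases i <;> simp [hc0, hc1, hc2, hc3]
    · linear_combination eα
    · linear_combination eβ
    · linear_combination eγ
  have zα := fun j => (hα j).constantCoeff one_ne_zero
  have zβ := fun j => (hβ j).constantCoeff one_ne_zero
  have zγ := fun j => (hγ j).constantCoeff one_ne_zero
  obtain ⟨d0, d3⟩ := low_cancel (a := -det3 c1 c2 c3 - E0) (b := det3 c0 c1 c2 - E3) l0 l3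
    (low_of_ev ((hr_det3 r1 r2 r3).neg.sub h0) fun w => by
      rw [map_sub, l0.ev_zero h0]
      simp [det3, hc1, hc2, hc3, zα, zβ, zγ, cubE]; ring)
    (low_of_ev ((hr_det3 r0 r1 r2).sub h3) fun w => by
      rw [map_sub, l3.ev_zero h3]
      simp [det3, hc0, hc1, hc2, zα, zβ, zγ, cubE]; ring)
    (by linear_combination k0)
  have hE0 : E0 ≠ 0 := l0.ne_zero (by simp)
  have d1 : det3 c0 c2 c3 = E1 := mul_right_cancel₀ hE0 (by linear_combination k1 + E1 * d0)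
  have d2 : det3 c0 c1 c3 = -E2 := mul_right_cancel₀ hE0 (by linear_combination -k2 - E2 * d0)
  have d0' : det3 c1 c2 c3 = -E0 := by linear_combination -d0
  have d3' : det3 c0 c1 c2 = E3 := by linear_combination d3
  obtain ⟨N, hN⟩ := exists_net ![c0, c1, c2, c3] fun j => by
    fin_cases j
    exacts [r0, r1, r2, r3]
  refine hG.net 4 N (fun y => ?_) fun p hp => ?_
  · obtain ⟨p, hp, h0⟩ := (Submodule.ne_bot_iff _).1
      (LinearMap.ker_ne_bot_of_finrank_lt (f := N y) (by simp))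
    exact ⟨p, h0, hp⟩
  rw [net_iff hN]
  constructor
  · intro h
    have e0 := h 1 2 3; have e1 := h 0 2 3; have e2 := h 0 1 3; have e3 := h 0 1 2
    simp only [Matrix.cons_val_zero, Matrix.cons_val_one, Matrix.cons_val, d0', d1, d2, d3',
      map_neg, neg_eq_zero] at e0 e1 e2 e3
    refine hG.cut p (by rw [hp]; exact one_ne_zero) fun f hf hf3 => ?_
    obtain ⟨g, hg⟩ := hf3.lead
    have := hlow (C (C (g 0)) * E0 + C (C (g 1)) * E1 + C (C (g 2)) * E2 + C (C (g 3)) * E3 - f)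
      ((van Z).sub_mem ((van Z).add_mem ((van Z).add_mem
      ((van Z).add_mem ((van Z).mul_mem_left _ m0) ((van Z).mul_mem_left _ m1))
      ((van Z).mul_mem_left _ m2)) ((van Z).mul_mem_left _ m3)) hf) (by
        convert (red fun j => C (g j)).sub (lead_iff.1 hg) using 1
        rw [cubR]; ring)
    rw [← sub_eq_zero.1 this]
    simp [e0, e1, e2, e3]
  · intro hp i j k
    rw [map_det3]
    refine det3_all (fun j i => ev p (![c0, c1, c2, c3] j i)) (fun i j k hij hjk => ?_) i j k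
    rw [← map_det3]
    fin_cases i <;> fin_cases j <;> fin_cases k <;> simp at hij hjk <;>
      simp [d0', d1, d2, d3', m0 p hp, m1 p hp, m2 p hp, m3 p hp]

end Pool.Agent.Lib.MP_886b5a_gt
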