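import Pool.Agent.Lib.MP_886b5a_gt.Span

set_option autoImplicit false
set_option linter.unusedSectionVars false

namespace Pool.Agent.Lib.MP_886b5a_gt

open MvPolynomial Module

section
variable {E : Type*} [CommRing E] [Algebra A E]

/-- Evaluation of the fibre variables in an `A`-algebra. -/
noncomputable def pi (U V : E) : R →ₐ[A] E := aeval ![U, V]

@[simp] lemma pi_C (U V : E) (a : A) : pi U V (C a) = algebraMap A E a := by simp [pi]
@[simp] lemma pi_X0 (U V : E) : pi U V (X 0) = U := by simp [pi]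
@[simp] lemma pi_X1 (U V : E) : pi U V (X 1) = V := by simp [pi]

lemma pi_lin (U V : E) (b : Fin 3 → A) : pi U V (lin b) =
    algebraMap A E (b 0) + algebraMap A E (b 1) * U + algebraMap A E (b 2) * V := by simp [lin]
lemma pi_quad (U V : E) (b : Fin 3 → A) : pi U V (quad b) =
    algebraMap A E (b 0) * U ^ 2 + algebraMap A E (b 1) * (U * V)
      + algebraMap A E (b 2) * V ^ 2 := by simp [quad]
lemma pi_cub (U V : E) (b : Fin 4 → A) : pi U V (cub b) =
    algebraMap A E (b 0) * U ^ 3 + algebraMap A E (b 1) * (U ^ 2 * V)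
      + algebraMap A E (b 2) * (U * V ^ 2) + algebraMap A E (b 3) * V ^ 3 := by simp [cub]
end

variable (K : Type*) {L : Type*} [Field K] [Algebra A K] [IsFractionRing A K] [Field L]
  [Algebra A L] [Algebra K L] [IsScalarTower A K L]

/-- The function field of the surface. -/
structure Model (Z : Set Pt) (U V : L) : Prop where
  ker : ∀ f, pi U V f = 0 ↔ f ∈ van Z
  gen : Algebra.adjoin K {U, V} = ⊤

variable {K} {Z : Set Pt} {U V : L} {f₁ f₂ : R} {g₁ g₂ : Fin 4 → ℝ}

lemma adjoin_le_of_closed {E : Type*} [CommRing E] [Algebra K E] {U V : E} (T : Submodule K E)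
    (h1 : (1 : E) ∈ T) (hU : ∀ x ∈ T, U * x ∈ T) (hV : ∀ x ∈ T, V * x ∈ T) {x : E}
    (hx : x ∈ Algebra.adjoin K {U, V}) : x ∈ T := by
  have : ∀ t ∈ T, x * t ∈ T := by
    induction hx using Algebra.adjoin_induction with
    | mem y hy =>
      rcases hy with rfl | rfl
      · exact hU
      · exact hV
    | algebraMap r => intro t ht; rw [← Algebra.smul_def]; exact T.smul_mem r ht
    | add a b _ _ ha hb => intro t ht; rw [add_mul]; exact T.add_mem (ha t ht) (hb t ht)
    | mul a b _ _ ha hb => intro t ht; rw [mul_assoc]; exact ha _ (hb t ht)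
  simpa using this 1 h1

lemma adjoin_le_of_range {E : Type*} [CommRing E] [Algebra K E] [Algebra A E] {U V : E}
    (T : Submodule K E) (h : ∀ f, pi U V f ∈ T) {x : E}
    (hx : x ∈ Algebra.adjoin K {U, V}) : x ∈ T := by
  have hle : Submodule.span K (Set.range (pi U V)) ≤ T :=
    Submodule.span_le.2 (by rintro _ ⟨f, rfl⟩; exact h f)
  apply hle
  have cl : ∀ g : R, ∀ y ∈ Submodule.span K (Set.range (pi U V)),
      pi U V g * y ∈ Submodule.span K (Set.range (pi U V)) := fun g y hy => by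
    refine Submodule.span_induction
      (p := fun y _ => pi U V g * y ∈ Submodule.span K (Set.range (pi U V))) ?_ ?_ ?_ ?_ hy
    · rintro _ ⟨f, rfl⟩; exact Submodule.subset_span (Set.mem_range.2 ⟨g * f, by simp⟩)
    · simp
    · intro a b _ _ ha hb; rw [mul_add]; exact Submodule.add_mem _ ha hb
    · intro a b _ hb; rw [mul_smul_comm]; exact Submodule.smul_mem _ a hb
  refine adjoin_le_of_closed (Submodule.span K (Set.range (pi U V)))
    (Submodule.subset_span ⟨1, by simp⟩) ?_ ?_ hx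
  · simpa using cl (X 0)
  · simpa using cl (X 1)

lemma pi_mem_span {E : Type*} [CommRing E] [Algebra K E] [Algebra A E] [IsScalarTower A K E]
    {U V : E} {n : ℕ} {s : Fin n → R} {J : Ideal R} (hJ : ∀ g ∈ J, pi U V g = 0) {f : R}
    (hf : f ∈ spn s J) : pi U V f ∈ Submodule.span K (Set.range fun i => pi U V (s i)) := by
  obtain ⟨a, ha⟩ := mem_spn_iff.1 hf
  have := hJ _ ha
  rw [map_sub, sub_eq_zero] at this
  rw [this, map_sum]
  refine Submodule.sum_mem _ fun i _ => ?_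
  rw [map_mul, pi_C, IsScalarTower.algebraMap_apply A K E, ← Algebra.smul_def]
  exact Submodule.smul_mem _ _ (Submodule.subset_span ⟨i, rfl⟩)

lemma Model.eq_top (hM : Model K Z U V) (T : Submodule K L) (h : ∀ f, pi U V f ∈ T) : T = ⊤ :=
  eq_top_iff.2 fun x _ => adjoin_le_of_range T h (by rw [hM.gen]; trivial)

lemma Model.eq_top' (hM : Model K Z U V) (T : Submodule K L) (h1 : (1 : L) ∈ T)
    (hU : ∀ x ∈ T, U * x ∈ T) (hV : ∀ x ∈ T, V * x ∈ T) : T = ⊤ :=
  eq_top_iff.2 fun x _ => adjoin_le_of_closed T h1 hU hV (by rw [hM.gen]; trivial)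

lemma Model.finite (hG : Geo Z f₁ f₂ g₁ g₂) (hM : Model K Z U V) : FiniteDimensional K L := by
  obtain ⟨m, hm⟩ := span11 hG.lead₁ hG.lead₂ hG.cop
  have := hM.eq_top _ fun f => pi_mem_span (K := K) (fun g hg => (hM.ker g).2 hg)
    (hm _ hG.mem₁ hG.mem₂ f)
  exact ⟨this ▸ Submodule.fg_span (Set.finite_range _)⟩

lemma inj_AL (K : Type*) {L : Type*} [Field K] [Algebra A K] [IsFractionRing A K] [Field L]
    [Algebra A L] [Algebra K L] [IsScalarTower A K L] : Function.Injective (algebraMap A L) := by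
  rw [IsScalarTower.algebraMap_eq A K L, RingHom.coe_comp]
  exact (algebraMap K L).injective.comp (IsFractionRing.injective A K)

lemma Model.isIntegral (hG : Geo Z f₁ f₂ g₁ g₂) (hM : Model K Z U V) (f : R) :
    IsIntegral A (pi U V f) := by
  obtain ⟨m, hm⟩ := span11 hG.lead₁ hG.lead₂ hG.cop
  refine IsIntegral.of_mem_of_fg (pi U V).range ?_ _ ⟨f, rfl⟩
  have : Subalgebra.toSubmodule (pi U V).range =
      Submodule.span A (Set.range fun i => pi U V (s11 m i)) := by
    apply le_antisymm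
    · rintro _ ⟨g, rfl⟩
      obtain ⟨a, ha⟩ := mem_spn_iff.1 (hm _ hG.mem₁ hG.mem₂ g)
      have := (hM.ker _).2 ha
      rw [map_sub, sub_eq_zero] at this
      change pi U V g ∈ _
      rw [this, map_sum]
      refine Submodule.sum_mem _ fun i _ => ?_
      rw [map_mul, pi_C, ← Algebra.smul_def]
      exact Submodule.smul_mem _ _ (Submodule.subset_span ⟨i, rfl⟩)
    · exact Submodule.span_le.2 (by rintro _ ⟨i, rfl⟩; exact ⟨_, rfl⟩)
  rw [this]; exact Submodule.fg_span (Set.finite_range _)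

/-- The ideal of polynomials vanishing together with a derivative. -/
noncomputable def tker (U V b c : L) : Ideal R :=
  RingHom.ker (pi (E := DualNumber L) (TrivSqZeroExt.inl U + TrivSqZeroExt.inr b)
    (TrivSqZeroExt.inl V + TrivSqZeroExt.inr c))

lemma pi_dual (U V b c : L) (f : R) :
    pi (E := DualNumber L) (TrivSqZeroExt.inl U + TrivSqZeroExt.inr b)
      (TrivSqZeroExt.inl V + TrivSqZeroExt.inr c) f = TrivSqZeroExt.inl (pi U V f) +
      TrivSqZeroExt.inr (b * pi U V (pderiv 0 f) + c * pi U V (pderiv 1 f)) := by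
  induction f using MvPolynomial.induction_on with
  | C a => simp [TrivSqZeroExt.algebraMap_eq_inl']
  | add p q hp hq =>
    rw [map_add, hp, hq]
    ext <;> simp; ring
  | mul_X p j hp =>
    rw [map_mul, hp]
    fin_cases j
    · ext <;> simp [Derivation.leibniz, pderiv_X]; ring
    · ext <;> simp [Derivation.leibniz, pderiv_X]; ring

lemma mem_tker {U V b c : L} {f : R} : f ∈ tker U V b c ↔
    pi U V f = 0 ∧ b * pi U V (pderiv 0 f) + c * pi U V (pderiv 1 f) = 0 := by
  rw [tker, RingHom.mem_ker, pi_dual]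
  constructor
  · intro h
    exact ⟨by simpa using congrArg TrivSqZeroExt.fst h, by simpa using congrArg TrivSqZeroExt.snd h⟩
  · rintro ⟨h1, h2⟩; rw [h1, h2]; simp

lemma charZero_K : CharZero K :=
  charZero_of_injective_algebraMap (IsFractionRing.injective A K)

lemma tangent_bound (hG : Geo Z f₁ f₂ g₁ g₂) (hM : Model K Z U V) {n : ℕ} (s : Fin n → R)
    {b c : L} (hbc : b ≠ 0 ∨ c ≠ 0) (hs : ∀ f, f ∈ spn s (tker U V b c)) :
    2 * finrank K L ≤ n := by
  have := hM.finite hG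
  have : CharZero K := charZero_K
  set U' : DualNumber L := TrivSqZeroExt.inl U + TrivSqZeroExt.inr b with hU'
  set V' : DualNumber L := TrivSqZeroExt.inl V + TrivSqZeroExt.inr c with hV'
  set B := Algebra.adjoin K {U', V'} with hB
  have hsurj : ∀ x : L, ∃ e ∈ B, e.fst = x := fun x => by
    have : x ∈ B.map (TrivSqZeroExt.fstHom K L L) := by
      rw [hB, AlgHom.map_adjoin, Set.image_pair]
      simp [hU', hV', hM.gen]
    obtain ⟨e, he, rfl⟩ := this
    exact ⟨e, he, rfl⟩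
  have key : ∀ W β : L, β ≠ 0 → (TrivSqZeroExt.inl W + TrivSqZeroExt.inr β : DualNumber L) ∈ B →
      ∃ ν : L, ν ≠ 0 ∧ (TrivSqZeroExt.inr ν : DualNumber L) ∈ B := fun W β hβ hW => by
    have hsep : (minpoly K W).Separable := Algebra.IsSeparable.isSeparable K W
    refine ⟨Polynomial.aeval W (Polynomial.derivative (minpoly K W)) * β,
      mul_ne_zero (hsep.aeval_derivative_ne_zero (minpoly.aeval K W)) hβ, ?_⟩
    have h1 : Polynomial.aeval (TrivSqZeroExt.inl W + TrivSqZeroExt.inr β : DualNumber L)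
        (minpoly K W) ∈ B :=
      Algebra.adjoin_le (Set.singleton_subset_iff.2 hW)
        (Polynomial.aeval_mem_adjoin_singleton K _)
    have e : ∀ p : Polynomial K, Polynomial.aeval (TrivSqZeroExt.inl W : DualNumber L) p =
        TrivSqZeroExt.inl (Polynomial.aeval W p) := fun p =>
      Polynomial.aeval_algHom_apply (TrivSqZeroExt.inlAlgHom K L L) W p
    rw [Polynomial.aeval_add_of_sq_eq_zero _ _ _ (by simp [sq, TrivSqZeroExt.inr_mul_inr]), e, e,
      minpoly.aeval, TrivSqZeroExt.inl_mul_inr] at h1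
    simpa using h1
  obtain ⟨ν, hν, hνB⟩ : ∃ ν : L, ν ≠ 0 ∧ (TrivSqZeroExt.inr ν : DualNumber L) ∈ B := by
    rcases hbc with h | h
    · exact key U b h (Algebra.subset_adjoin (by simp [hU']))
    · exact key V c h (Algebra.subset_adjoin (by simp [hV']))
  have hinr : ∀ x : L, (TrivSqZeroExt.inr x : DualNumber L) ∈ B := fun x => by
    obtain ⟨e, he, hx⟩ := hsurj (x / ν)
    have := B.mul_mem he hνB
    convert this using 1
    ext <;> simp [hx]
    field_simp
  have hall : ∀ z : DualNumber L, z ∈ B := fun z => by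
    obtain ⟨e, he, hx⟩ := hsurj z.fst
    have := B.add_mem he (hinr (z.snd - e.snd))
    convert this using 1
    ext <;> simp [hx]
  have htop : Submodule.span K (Set.range fun i => pi U' V' (s i)) = ⊤ :=
    eq_top_iff.2 fun z _ => adjoin_le_of_range _
      (fun f => pi_mem_span (K := K) (fun g hg => hg) (hs f)) (hall z)
  have h1 := finrank_range_le_card (R := K) fun i => pi U' V' (s i)
  rw [Set.finrank, htop, finrank_top, Fintype.card_fin] at h1
  have h2 : finrank K (DualNumber L) = finrank K (L × L) := rfl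
  rw [h2, finrank_prod] at h1
  omega

lemma exists_tangent {h₁ h₂ : R} (h : pi U V (Jac h₁ h₂) = 0) (m₁ : pi U V h₁ = 0)
    (m₂ : pi U V h₂ = 0) :
    ∃ b c : L, (b ≠ 0 ∨ c ≠ 0) ∧ h₁ ∈ tker U V b c ∧ h₂ ∈ tker U V b c := by
  simp only [Jac, map_sub, map_mul] at h
  simp only [mem_tker, m₁, m₂, true_and]
  generalize pi U V (pderiv 0 h₁) = a₁ at *
  generalize pi U V (pderiv 1 h₁) = b₁ at *
  generalize pi U V (pderiv 0 h₂) = a₂ at *
  generalize pi U V (pderiv 1 h₂) = b₂ at *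
  by_cases e1 : a₁ = 0 ∧ b₁ = 0
  · by_cases e2 : a₂ = 0 ∧ b₂ = 0
    · exact ⟨1, 0, Or.inl one_ne_zero, by simp [e1.1], by simp [e2.1]⟩
    · refine ⟨b₂, -a₂, ?_, by simp [e1.1, e1.2], by ring⟩
      rw [neg_ne_zero]; tauto
  · refine ⟨b₁, -a₁, ?_, by ring, by linear_combination -h⟩
    rw [neg_ne_zero]; tauto

/-- The orientation lemma in algebraic form. -/
lemma Geo.tangent (hG : Geo Z f₁ f₂ g₁ g₂) (hM : Model K Z U V) {h₁ h₂ : R} (m₁ : h₁ ∈ van Z)
    (m₂ : h₂ ∈ van Z) (hcut : ∀ p : Pt, p.2 1 ≠ 0 → ev p h₁ = 0 → ev p h₂ = 0 → p ∈ Z) :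
    ∃ b c : L, (b ≠ 0 ∨ c ≠ 0) ∧ h₁ ∈ tker U V b c ∧ h₂ ∈ tker U V b c :=
  exists_tangent ((hM.ker _).2 (hG.deg h₁ m₁ h₂ m₂ hcut)) ((hM.ker _).2 m₁) ((hM.ker _).2 m₂)

lemma no_tangent (hG : Geo Z f₁ f₂ g₁ g₂) (hM : Model K Z U V) (hd : 6 ≤ finrank K L)
    {b c : L} (hbc : b ≠ 0 ∨ c ≠ 0) (m₁ : f₁ ∈ tker U V b c) (m₂ : f₂ ∈ tker U V b c) : False := by
  obtain ⟨m, hm⟩ := span11 hG.lead₁ hG.lead₂ hG.cop
  have := tangent_bound hG hM _ hbc (hm _ m₁ m₂)
  omega

lemma nakayama {N : Type*} [AddCommGroup N] [Module A N] [Module.Finite A N] (P : Ideal A)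
    (hP : P.IsPrime) {s : A} (hs : s ∉ P) (h : ∀ x : N, s • x ∈ P • (⊤ : Submodule A N)) :
    ∃ t : A, t ∉ P ∧ ∀ x : N, t • x = 0 := by
  obtain ⟨p, hp, -, hc, h0⟩ :=
    LinearMap.exists_monic_and_natDegree_eq_and_coeff_mem_pow_and_aeval_eq_zero A
      (algebraMap A (Module.End A N) s) P (by rintro _ ⟨x, rfl⟩; simpa using h x)
  refine ⟨p.eval s, fun hmem => ?_, fun x => ?_⟩
  · rw [Polynomial.eval_eq_sum_range, Finset.sum_range_succ, hp.coeff_natDegree, one_mul] at hmem
    have h1 : ∑ i ∈ Finset.range p.natDegree, p.coeff i * s ^ i ∈ P :=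
      P.sum_mem fun i hi => P.mul_mem_right _ (Ideal.pow_le_self
        (by have := Finset.mem_range.1 hi; omega) (hc i))
    exact hs (hP.mem_of_pow_mem _ ((P.add_mem_iff_right h1).1 hmem))
  · rw [Polynomial.aeval_algebraMap_apply, Polynomial.coe_aeval_eq_eval] at h0
    simpa using congrArg (fun φ : Module.End A N => φ x) h0

lemma rank_le (hG : Geo Z f₁ f₂ g₁ g₂) (hM : Model K Z U V) (P : Ideal A) (hP : P.IsPrime)
    {s : A} (hs : s ∉ P) {r : ℕ} (S : Fin r → R)
    (h1 : C s ∈ spn S (P.map C ⊔ van Z))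
    (h : ∀ (j : Fin 2) i, C s * X j * S i ∈ spn S (P.map C ⊔ van Z)) : finrank K L ≤ r := by
  set W := spn S (P.map C ⊔ van Z) with hW
  have step : ∀ f : R, ∃ n : ℕ, ∀ x ∈ W, C s ^ n * f * x ∈ W := fun f => by
    induction f using MvPolynomial.induction_on with
    | C a => exact ⟨0, fun x hx => by simpa using C_mul_mem a hx⟩
    | add p q hp hq =>
      obtain ⟨n, hn⟩ := hp
      obtain ⟨k, hk⟩ := hq
      refine ⟨n + k, fun x hx => ?_⟩
      have e : C s ^ (n + k) * (p + q) * x =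
          C (s ^ k) * (C s ^ n * p * x) + C (s ^ n) * (C s ^ k * q * x) := by
        simp only [map_pow]; ring
      rw [e]; exact W.add_mem (C_mul_mem _ (hn x hx)) (C_mul_mem _ (hk x hx))
    | mul_X p j hp =>
      obtain ⟨n, hn⟩ := hp
      refine ⟨n + 1, fun x hx => ?_⟩
      have e : C s ^ (n + 1) * (p * X j) * x = C s ^ n * p * (C s * X j * x) := by ring
      rw [e]; exact hn _ (mul_mem_spn (h j) hx)
  obtain ⟨m, hm⟩ := span11 hG.lead₁ hG.lead₂ hG.cop
  choose n hn using step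
  set N := ∑ i, n (s11 m i) with hN
  have all : ∀ f : R, C (s ^ (N + 1)) * f ∈ W := fun f => by
    obtain ⟨a, ha⟩ := mem_spn_iff.1 (hm _ hG.mem₁ hG.mem₂ f)
    have e : C (s ^ (N + 1)) * f = ∑ i, C (a i) * (C (s ^ (N + 1)) * s11 m i)
        + C (s ^ (N + 1)) * (f - ∑ i, C (a i) * s11 m i) := by
      rw [mul_sub, Finset.mul_sum]
      simp only [mul_left_comm (C (s ^ (N + 1)) : R)]
      ring
    rw [e]
    refine W.add_mem (W.sum_mem fun i _ => C_mul_mem _ ?_)
      (mem_spn_ideal _ (Ideal.mul_mem_left _ _ (Ideal.mem_sup_right ha)))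
    obtain ⟨k, hk⟩ : ∃ k, N = n (s11 m i) + k :=
      Nat.exists_eq_add_of_le (Finset.single_le_sum (f := fun i => n (s11 m i))
        (fun _ _ => Nat.zero_le _) (Finset.mem_univ i))
    have e2 : C (s ^ (N + 1)) * s11 m i = C (s ^ k) * (C s ^ n (s11 m i) * s11 m i * C s) := by
      rw [hk]; simp only [map_pow]; ring
    rw [e2]; exact C_mul_mem _ (hn _ _ h1)
  have : Module.Finite A (R ⧸ spn S (van Z)) := by
    classical
    refine ⟨⟨Finset.univ.image fun i => (spn S (van Z)).mkQ (s11 m i), ?_⟩⟩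
    rw [eq_top_iff]
    rintro x -
    obtain ⟨f, rfl⟩ := (spn S (van Z)).mkQ_surjective x
    obtain ⟨a, ha⟩ := mem_spn_iff.1 (hm _ hG.mem₁ hG.mem₂ f)
    have : (spn S (van Z)).mkQ f = (spn S (van Z)).mkQ (∑ i, a i • s11 m i) := by
      rw [Submodule.mkQ_apply, Submodule.mkQ_apply, Submodule.Quotient.eq]
      simpa [smul_eq_C_mul] using mem_spn_ideal S ha
    rw [this, map_sum]
    exact Submodule.sum_mem _ fun i _ => by
      rw [map_smul]; exact Submodule.smul_mem _ _ (Submodule.subset_span (by simp))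
  obtain ⟨t, ht, ht0⟩ := nakayama (N := R ⧸ spn S (van Z)) P hP
    (s := s ^ (N + 1)) (fun hh => hs (hP.mem_of_pow_mem _ hh)) (fun x => by
      obtain ⟨f, rfl⟩ := (spn S (van Z)).mkQ_surjective x
      obtain ⟨y, hy, z, hz, e⟩ := Submodule.mem_sup.1 (all f)
      obtain ⟨z₁, hz₁, z₂, hz₂, rfl⟩ := Submodule.mem_sup.1 hz
      rw [← map_smul, smul_eq_C_mul, ← e, map_add, map_add]
      have y0 : (spn S (van Z)).mkQ y = 0 :=
        (Submodule.Quotient.mk_eq_zero _).2 (Submodule.mem_sup_left hy)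
      have z0 : (spn S (van Z)).mkQ z₂ = 0 :=
        (Submodule.Quotient.mk_eq_zero _).2 (mem_spn_ideal S hz₂)
      rw [y0, z0, zero_add, add_zero]
      have hz₁' : z₁ ∈ P • (⊤ : Submodule A R) := by
        rw [Ideal.smul_top_eq_map]; exact hz₁
      have := Submodule.mem_map_of_mem (f := (spn S (van Z)).mkQ) hz₁'
      rw [Submodule.map_smul''] at this
      exact Submodule.smul_mono le_rfl le_top this)
  have ht1 : algebraMap A K t ≠ 0 := fun h0 =>
    ht (((injective_iff_map_eq_zero _).1 (IsFractionRing.injective A K) t h0).symm ▸ P.zero_mem)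
  have htop := hM.eq_top (Submodule.span K (Set.range fun i => pi U V (S i))) fun f => by
    have h2 : C t * f ∈ spn S (van Z) := by
      rw [← smul_eq_C_mul, ← Submodule.Quotient.mk_eq_zero]
      exact ht0 ((spn S (van Z)).mkQ f)
    have h3 := pi_mem_span (K := K) (fun g hg => (hM.ker g).2 hg) h2
    rw [map_mul, pi_C, IsScalarTower.algebraMap_apply A K L, ← Algebra.smul_def] at h3
    exact (Submodule.smul_mem_iff _ ht1).1 h3
  have h1 := finrank_range_le_card (R := K) fun i => pi U V (S i)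
  rwa [Set.finrank, htop, finrank_top, Fintype.card_fin] at h1

lemma sat_aux (hG : Geo Z f₁ f₂ g₁ g₂) (hM : Model K Z U V) (P : Ideal A) (hP : P.IsPrime)
    (x y : R) (hxy : ∀ j : Fin 2, X j = x ∨ X j = y) (a b c s : A) (hc : c ∉ P) (hs : s ∉ P)
    (hl : C a + C b * x + C c * y ∈ P.map C ⊔ van Z) (g0 g1 g2 g3 Q0 Q1 Q2 p0 p1 p2 : A)
    (hf : C g0 * x ^ 3 + C g1 * (x ^ 2 * y) + C g2 * (x * y ^ 2) + C g3 * y ^ 3 + C Q0 * x ^ 2
      + C Q1 * (x * y) + C Q2 * y ^ 2 + C p0 + C p1 * x + C p2 * y ∈ van Z)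
    (hs' : s = g0 * c ^ 3 - g1 * c ^ 2 * b + g2 * c * b ^ 2 - g3 * b ^ 3) :
    finrank K L ≤ 3 := by
  set J := P.map C ⊔ van Z with hJ
  have G := mem_spn_gen ![1, x, x ^ 2] J
  have G0 : (1 : R) ∈ spn ![1, x, x ^ 2] J := G 0
  have G1 : x ∈ spn ![1, x, x ^ 2] J := G 1
  have G2 : x ^ 2 ∈ spn ![1, x, x ^ 2] J := G 2
  have G3 : C s * x ^ 3 ∈ spn ![1, x, x ^ 2] J := by
    have e : C s * x ^ 3 = C c ^ 3 * (C g0 * x ^ 3 + C g1 * (x ^ 2 * y) + C g2 * (x * y ^ 2)
        + C g3 * y ^ 3 + C Q0 * x ^ 2 + C Q1 * (x * y) + C Q2 * y ^ 2 + C p0 + C p1 * x + C p2 * y)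
        - (C c ^ 2 * (C g1 * x ^ 2 + C Q1 * x + C p2)
          + C c * (C g2 * x + C Q2) * (C c * y - (C a + C b * x))
          + C g3 * ((C c * y) ^ 2 - C c * y * (C a + C b * x) + (C a + C b * x) ^ 2))
          * (C a + C b * x + C c * y)
        - C (Q2 * a ^ 2 * c - a * c ^ 2 * p2 - a ^ 3 * g3 + c ^ 3 * p0) * 1
        - C (-Q1 * a * c ^ 2 + 2 * Q2 * a * b * c - 3 * a ^ 2 * b * g3 + a ^ 2 * c * g2
          - b * c ^ 2 * p2 + c ^ 3 * p1) * x
        - C (Q0 * c ^ 3 - Q1 * b * c ^ 2 + Q2 * b ^ 2 * c + 2 * a * b * c * g2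
          - 3 * a * b ^ 2 * g3 - a * c ^ 2 * g1) * x ^ 2 := by
      rw [hs']
      simp only [map_add, map_sub, map_mul, map_pow, map_neg, map_ofNat]
      ring
    rw [e]
    exact Submodule.sub_mem _ (Submodule.sub_mem _ (Submodule.sub_mem _ (mem_spn_ideal _
      (J.sub_mem (J.mul_mem_left _ (Ideal.mem_sup_right hf)) (J.mul_mem_left _ hl)))
      (C_mul_mem _ G0)) (C_mul_mem _ G1)) (C_mul_mem _ G2)
  have Gl : ∀ t : R, t * (C a + C b * x + C c * y) ∈ spn ![1, x, x ^ 2] J := fun t =>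
    mem_spn_ideal _ (J.mul_mem_left _ hl)
  refine rank_le hG hM P hP (s := s * c) (fun h => (hP.mem_or_mem h).elim hs hc) ![1, x, x ^ 2]
    (by simpa using C_mul_mem (s * c) G0) fun j i => ?_
  rcases hxy j with h | h <;> rw [h] <;> fin_cases i
  · simpa using C_mul_mem (s * c) G1
  · simpa [sq, mul_assoc] using C_mul_mem (s * c) G2
  · convert C_mul_mem c G3 using 1
    simp; ring
  · convert Submodule.sub_mem _ (Submodule.sub_mem _ (Gl (C s)) (C_mul_mem (s * a) G0))
      (C_mul_mem (s * b) G1) using 1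
    simp; ring
  · convert Submodule.sub_mem _ (Submodule.sub_mem _ (Gl (C s * x)) (C_mul_mem (s * a) G1))
      (C_mul_mem (s * b) G2) using 1
    simp; ring
  · convert Submodule.sub_mem _ (Submodule.sub_mem _ (Gl (C s * x ^ 2)) (C_mul_mem (s * a) G2))
      (C_mul_mem b G3) using 1
    simp; ring

lemma cubE_notMem (hc : Cop g₁ g₂) (P : Ideal A) (hP : P.IsPrime) {s t : A}
    (h : s ∉ P ∨ t ∉ P) : cubE g₁ s t ∉ P ∨ cubE g₂ s t ∉ P := by
  by_contra hh
  push Not at hh
  obtain ⟨p, q, h1⟩ := hc.pow_left s t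
  obtain ⟨p', q', h2⟩ := hc.pow_right s t
  rcases h with h | h
  · exact h (hP.mem_of_pow_mem 5 (h1 ▸ P.add_mem (P.mul_mem_left _ hh.1) (P.mul_mem_left _ hh.2)))
  · exact h (hP.mem_of_pow_mem 5 (h2 ▸ P.add_mem (P.mul_mem_left _ hh.1) (P.mul_mem_left _ hh.2)))

/-- No fibre is collinear. -/
lemma satP (hG : Geo Z f₁ f₂ g₁ g₂) (hM : Model K Z U V) (hd : 4 ≤ finrank K L)
    (P : Ideal A) (hP : P.IsPrime) {b : Fin 3 → A} (hb : lin b ∈ P.map C ⊔ van Z) (i : Fin 3) :
    b i ∈ P := by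
  have h2 : b 2 ∈ P := by
    by_contra h
    have key : ∀ f g, f ∈ van Z → Lead f g → cubE g (b 2) (-b 1) ∈ P := by
      rintro f g hf ⟨Q, p, rfl⟩
      by_contra hs
      have := sat_aux hG hM P hP (X 0) (X 1) (by intro j; fin_cases j <;> simp) (b 0) (b 1) (b 2)
        _ h hs hb (C (g 0)) (C (g 1)) (C (g 2)) (C (g 3)) (Q 0) (Q 1) (Q 2) (p 0) (p 1) (p 2)
        (by convert hf using 1; simp only [cubR, cub, quad, lin]; ring)
        (by simp only [cubE, algebraMap_eq]; ring)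
      omega
    rcases cubE_notMem hG.cop P hP (s := b 2) (t := -b 1) (Or.inl h) with h' | h'
    · exact h' (key _ _ hG.mem₁ hG.lead₁)
    · exact h' (key _ _ hG.mem₂ hG.lead₂)
  have h1 : b 1 ∈ P := by
    by_contra h
    have key : ∀ f g, f ∈ van Z → Lead f g → cubE g (-b 2) (b 1) ∈ P := by
      rintro f g hf ⟨Q, p, rfl⟩
      by_contra hs
      have := sat_aux hG hM P hP (X 1) (X 0) (by intro j; fin_cases j <;> simp) (b 0) (b 2) (b 1)
        _ h hs (by convert hb using 1; simp only [lin]; ring)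
        (C (g 3)) (C (g 2)) (C (g 1)) (C (g 0)) (Q 2) (Q 1) (Q 0) (p 0) (p 2) (p 1)
        (by convert hf using 1; simp only [cubR, cub, quad, lin]; ring)
        (by simp only [cubE, algebraMap_eq]; ring)
      omega
    rcases cubE_notMem hG.cop P hP (s := -b 2) (t := b 1) (Or.inr h) with h' | h'
    · exact h' (key _ _ hG.mem₁ hG.lead₁)
    · exact h' (key _ _ hG.mem₂ hG.lead₂)
  have h0 : b 0 ∈ P := by
    by_contra h
    have hb0 : C (b 0) ∈ P.map C ⊔ van Z := by
      have e : C (b 0) = lin b - C (b 1) * X 0 - C (b 2) * X 1 := by simp [lin]; ring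
      rw [e]
      exact Ideal.sub_mem _ (Ideal.sub_mem _ hb (Ideal.mul_mem_right _ _
        (Ideal.mem_sup_left (Ideal.mem_map_of_mem _ h1)))) (Ideal.mul_mem_right _ _
        (Ideal.mem_sup_left (Ideal.mem_map_of_mem _ h2)))
    have := rank_le hG hM P hP h (r := 0) Fin.elim0 (mem_spn_ideal _ hb0) fun j i => i.elim0
    omega
  fin_cases i
  exacts [h0, h1, h2]

lemma sat (hG : Geo Z f₁ f₂ g₁ g₂) (hM : Model K Z U V) (hd : 4 ≤ finrank K L) (D : A) :
    D ≠ 0 → ∀ (f : R) (b : Fin 3 → A), C D * f - lin b ∈ van Z → ∃ b', f - lin b' ∈ van Z := by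
  induction D using UniqueFactorizationMonoid.induction_on_prime with
  | h₁ => intro h; exact absurd rfl h
  | h₂ x hx =>
    intro _ f b hb
    obtain ⟨y, hy⟩ := hx.exists_left_inv
    refine ⟨fun i => y * b i, ?_⟩
    have := (van Z).mul_mem_left (C y) hb
    convert this using 1
    rw [mul_sub, ← mul_assoc, ← map_mul, hy]
    simp [lin]; ring
  | h₃ a p ha hp ih =>
    intro _ f b hb
    have hP : (Ideal.span {p}).IsPrime := (Ideal.span_singleton_prime hp.ne_zero).2 hp
    have hl : lin b ∈ (Ideal.span {p}).map C ⊔ van Z := by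
      have e : lin b = C p * (C a * f) - (C (p * a) * f - lin b) := by simp; ring
      rw [e]
      exact Ideal.sub_mem _ (Ideal.mem_sup_left (Ideal.mul_mem_right _ _
        (Ideal.mem_map_of_mem _ (Ideal.mem_span_singleton_self p)))) (Ideal.mem_sup_right hb)
    have hdiv := fun i => Ideal.mem_span_singleton.1 (satP hG hM hd _ hP hl i)
    choose b' hb' using hdiv
    refine ih ha f b' ?_
    have e : C (p * a) * f - lin b = C p * (C a * f - lin b') := by
      simp [lin, hb']; ring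
    rw [e] at hb
    exact (hG.prime.mem_or_mem hb).resolve_left fun h => hp.ne_zero (hG.dom p h)

/-- The `K`-span of `1, U, V`. -/
def F1 (K : Type*) {L : Type*} [Field K] [Field L] [Algebra K L] (U V : L) : Submodule K L :=
  Submodule.span K (Set.range ![1, U, V])

lemma mem_F1 {x : L} : x ∈ F1 K U V ↔ ∃ a b c : K, x = algebraMap K L a + algebraMap K L b * U
    + algebraMap K L c * V := by
  rw [F1, Submodule.mem_span_range_iff_exists_fun]
  constructor
  · rintro ⟨a, rfl⟩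
    exact ⟨a 0, a 1, a 2, by simp [Fin.sum_univ_three, Algebra.smul_def]⟩
  · rintro ⟨a, b, c, rfl⟩
    exact ⟨![a, b, c], by simp [Fin.sum_univ_three, Algebra.smul_def]⟩

lemma pi_lin_mem_F1 (b : Fin 3 → A) : pi U V (lin b) ∈ F1 K U V :=
  mem_F1.2 ⟨algebraMap A K (b 0), algebraMap A K (b 1), algebraMap A K (b 2), by
    simp [pi_lin, ← IsScalarTower.algebraMap_apply]⟩

lemma exists_denom (K : Type*) [Field K] [Algebra A K] [IsFractionRing A K] {ι : Type*}
    [Finite ι] (x : ι → K) : ∃ D : A, D ≠ 0 ∧ ∃ a : ι → A,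
      ∀ i, algebraMap A K (a i) = algebraMap A K D * x i := by
  obtain ⟨D, hD⟩ := IsLocalization.exist_integer_multiples_of_finite (nonZeroDivisors A) x
  choose a ha using hD
  exact ⟨D, nonZeroDivisors.ne_zero D.2, a, fun i => by rw [ha i, Algebra.smul_def]⟩

lemma satK (hG : Geo Z f₁ f₂ g₁ g₂) (hM : Model K Z U V) (hd : 4 ≤ finrank K L) {f : R}
    (hf : pi U V f ∈ F1 K U V) : ∃ b, f - lin b ∈ van Z := by
  obtain ⟨a, b, c, h⟩ := mem_F1.1 hf
  obtain ⟨D, hD, z, hz⟩ := exists_denom K ![a, b, c]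
  refine sat hG hM hd D hD f z ((hM.ker _).1 ?_)
  have z0 := hz 0; have z1 := hz 1; have z2 := hz 2
  simp only [Matrix.cons_val_zero, Matrix.cons_val_one, Matrix.cons_val] at z0 z1 z2
  rw [map_sub, map_mul, pi_C, pi_lin, h]
  simp only [IsScalarTower.algebraMap_apply A K L, z0, z1, z2, map_mul]
  ring

end Pool.Agent.Lib.MP_886b5a_gt
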