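import Mathlib

set_option autoImplicit false

namespace Pool.Agent.Lib.MP_886b5a_gt

namespace GdL

open Polynomial

/-- Restriction of a polynomial to the line `a + T b`, with base point in an algebra. -/
noncomputable def ln {A : Type*} [CommRing A] [Algebra ℝ A] (a : Fin 4 → A) (b : Fin 4 → ℝ) :
    MvPolynomial (Fin 4) ℝ →ₐ[ℝ] A[X] :=
  MvPolynomial.aeval fun i => C (algebraMap ℝ A (b i)) * X + C (a i)

theorem prod_deg {A : Type*} [CommRing A] {ι : Type*} (s : Finset ι) (f : ι → A[X]) (m : ι → ℕ)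
    (h : ∀ i, (f i).natDegree ≤ m i) :
    (∏ i ∈ s, f i).natDegree ≤ ∑ i ∈ s, m i ∧
      (∏ i ∈ s, f i).coeff (∑ i ∈ s, m i) = ∏ i ∈ s, (f i).coeff (m i) := by
  classical
  induction s using Finset.induction_on with
  | empty => simp
  | insert i s hi ih =>
    rw [Finset.prod_insert hi, Finset.prod_insert hi, Finset.sum_insert hi]
    refine ⟨natDegree_mul_le.trans (add_le_add (h i) ih.1), ?_⟩
    rw [coeff_mul_add_eq_of_natDegree_le (h i) ih.1, ih.2]

theorem ln_monomial {A : Type*} [CommRing A] [Algebra ℝ A] (a : Fin 4 → A) (b : Fin 4 → ℝ)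
    (m : Fin 4 →₀ ℕ) (r : ℝ) :
    (ln a b (MvPolynomial.monomial m r)).natDegree ≤ m.degree ∧
      (ln a b (MvPolynomial.monomial m r)).coeff m.degree
        = algebraMap ℝ A (MvPolynomial.eval b (MvPolynomial.monomial m r)) := by
  have hl : ∀ i, (C (algebraMap ℝ A (b i)) * X + C (a i) : A[X]).natDegree ≤ 1 :=
    fun i => natDegree_linear_le
  have h := prod_deg Finset.univ (fun i => (C (algebraMap ℝ A (b i)) * X + C (a i) : A[X]) ^ m i)
    (fun i => m i) (fun i => by simpa using natDegree_pow_le_of_le (m i) (hl i))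
  have hd : m.degree = ∑ i, m i := Finsupp.degree_eq_sum m
  have he : ln a b (MvPolynomial.monomial m r) = C (algebraMap ℝ A r) *
      ∏ i, (C (algebraMap ℝ A (b i)) * X + C (a i) : A[X]) ^ m i := by
    unfold ln
    rw [MvPolynomial.aeval_monomial, Finsupp.prod_fintype _ _ (by simp), Polynomial.algebraMap_apply]
  rw [he, hd]
  refine ⟨(natDegree_C_mul_le _ _).trans h.1, ?_⟩
  rw [coeff_C_mul, h.2, MvPolynomial.eval_monomial, Finsupp.prod_fintype _ _ (by simp), map_mul,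
    map_prod]
  congr 1
  refine Finset.prod_congr rfl fun i _ => ?_
  have := coeff_pow_of_natDegree_le (m := m i) (hl i)
  rw [mul_one] at this
  rw [this]
  simp

theorem ln_deg {A : Type*} [CommRing A] [Algebra ℝ A] (a : Fin 4 → A) (b : Fin 4 → ℝ)
    (f : MvPolynomial (Fin 4) ℝ) {N : ℕ} (hf : f.totalDegree ≤ N) :
    (ln a b f).natDegree ≤ N ∧ (ln a b f).coeff N
      = algebraMap ℝ A (MvPolynomial.eval b (MvPolynomial.homogeneousComponent N f)) := by
  have hm : ∀ m ∈ f.support, m.degree ≤ N := fun m hm =>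
    (MvPolynomial.le_totalDegree hm).trans hf
  constructor
  · conv_lhs => rw [f.as_sum, map_sum]
    exact natDegree_sum_le_of_forall_le _ _ fun m h => (ln_monomial a b m _).1.trans (hm m h)
  · rw [MvPolynomial.homogeneousComponent_apply, Finset.sum_filter, map_sum, map_sum]
    conv_lhs => rw [f.as_sum, map_sum, finsetSum_coeff]
    refine Finset.sum_congr rfl fun m h => ?_
    split_ifs with h1
    · rw [← h1]; exact (ln_monomial a b m _).2
    · rw [map_zero, map_zero]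
      exact coeff_eq_zero_of_natDegree_lt
        ((ln_monomial a b m _).1.trans_lt (lt_of_le_of_ne (hm m h) h1))

theorem ln_eval (a b : Fin 4 → ℝ) (f : MvPolynomial (Fin 4) ℝ) (t : ℝ) :
    (ln a b f).eval t = MvPolynomial.eval (a + t • b) f := by
  induction f using MvPolynomial.induction_on with
  | C r => simp [ln]
  | add p q hp hq => simp [hp, hq]
  | mul_X p i hp =>
    rw [map_mul, eval_mul, hp, map_mul]
    simp [ln]
    left; ring

theorem ln_map (a b : Fin 4 → ℝ) (f : MvPolynomial (Fin 4) ℝ) :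
    (ln (A := MvPolynomial (Fin 4) ℝ) MvPolynomial.X b f).map (MvPolynomial.eval a)
      = ln a b f := by
  induction f using MvPolynomial.induction_on with
  | C r => simp [ln]
  | add p q hp hq => simp [hp, hq]
  | mul_X p i hp =>
    rw [map_mul, Polynomial.map_mul, hp, map_mul]
    simp [ln]

theorem cubic (a b : Fin 4 → ℝ) (f : MvPolynomial (Fin 4) ℝ) (hf : f.totalDegree ≤ 3) (t : ℝ) :
    MvPolynomial.eval (a + t • b) f = (ln a b f).coeff 3 * t ^ 3 + (ln a b f).coeff 2 * t ^ 2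
      + (ln a b f).coeff 1 * t + (ln a b f).coeff 0 := by
  rw [← ln_eval, eval_eq_sum_range' (n := 4) (Nat.lt_succ_of_le (ln_deg a b f hf).1)]
  simp [Finset.sum_range_succ]
  ring

/-- The shift endomorphism of `R[T]`. -/
noncomputable def sh (b : Fin 4 → ℝ) :
    (MvPolynomial (Fin 4) ℝ)[X] →+* (MvPolynomial (Fin 4) ℝ)[X] :=
  eval₂RingHom (ln (A := MvPolynomial (Fin 4) ℝ) MvPolynomial.X b).toRingHom X

theorem sh_C (b : Fin 4 → ℝ) (f : MvPolynomial (Fin 4) ℝ) :
    sh b (C f) = ln (A := MvPolynomial (Fin 4) ℝ) MvPolynomial.X b f := by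
  simp [sh]

theorem sh_X (b : Fin 4 → ℝ) : sh b X = X := by simp [sh]

theorem sh_sh (b : Fin 4 → ℝ) (p : (MvPolynomial (Fin 4) ℝ)[X]) : sh b (sh (-b) p) = p := by
  have : (sh b).comp (sh (-b)) = RingHom.id _ := by
    refine Polynomial.ringHom_ext' ?_ ?_
    · refine MvPolynomial.ringHom_ext ?_ ?_
      · intro r
        simp [sh_C, ln]
      · intro i
        simp [sh_C, sh_X, ln]
    · simp [sh_X]
  exact DFunLike.congr_fun this p

theorem relprime_ln (b : Fin 4 → ℝ) {f g : MvPolynomial (Fin 4) ℝ} (hf : f ≠ 0)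
    (h : IsRelPrime f g) :
    IsRelPrime (ln (A := MvPolynomial (Fin 4) ℝ) MvPolynomial.X b f)
      (ln (A := MvPolynomial (Fin 4) ℝ) MvPolynomial.X b g) := by
  intro e h1 h2
  have k : ∀ u : MvPolynomial (Fin 4) ℝ,
      e ∣ ln (A := MvPolynomial (Fin 4) ℝ) MvPolynomial.X b u → sh (-b) e ∣ C u := by
    intro u hu
    have := map_dvd (sh (-b)) hu
    have h3 := sh_sh (-b) (C u)
    rw [neg_neg, sh_C] at h3
    rwa [h3] at this
  have k1 := k f h1
  have k2 := k g h2
  have hd : (sh (-b) e).natDegree = 0 := by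
    have := natDegree_le_of_dvd k1 (C_ne_zero.mpr hf)
    simpa using this
  obtain ⟨x, hx⟩ := natDegree_eq_zero.mp hd
  rw [← hx] at k1 k2
  have k3 : ∀ u : MvPolynomial (Fin 4) ℝ, (C x : (MvPolynomial (Fin 4) ℝ)[X]) ∣ C u → x ∣ u := by
    intro u hu
    simpa using (C_dvd_iff_dvd_coeff _ _).mp hu 0
  have hu : IsUnit (sh (-b) e) := by
    rw [← hx]
    exact (h (k3 f k1) (k3 g k2)).map C
  have := hu.map (sh b)
  rwa [sh_sh] at this

theorem bezout {R : Type*} [CommRing R] [IsDomain R] [IsIntegrallyClosed R] {p q : R[X]}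
    (hp : p.Monic) (hd : p.natDegree ≠ 0) (h : IsRelPrime p q) :
    ∃ u v : R[X], ∃ r : R, r ≠ 0 ∧ p * u + q * v = C r := by
  let K := FractionRing R
  have hinj : Function.Injective (algebraMap R K) := IsFractionRing.injective R K
  have hco : IsCoprime (p.map (algebraMap R K)) (q.map (algebraMap R K)) := by
    refine isCoprime_of_irreducible_dvd (fun h => (hp.map _).ne_zero h.1) ?_
    intro z hz h1 h2
    obtain ⟨g, hg⟩ := IsIntegrallyClosed.eq_map_mul_C_of_dvd K hp h1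
    have hl : z.leadingCoeff ≠ 0 := leadingCoeff_ne_zero.mpr hz.ne_zero
    have hgm : g.Monic := by
      refine monic_of_injective hinj ?_
      have := congrArg leadingCoeff hg
      rw [leadingCoeff_mul, leadingCoeff_C] at this
      exact mul_right_cancel₀ hl (by rw [one_mul]; exact this)
    have hdv : g.map (algebraMap R K) ∣ z := ⟨_, hg.symm⟩
    have hu := h ((map_dvd_map _ hinj hgm).mp (hdv.trans h1))
      ((map_dvd_map _ hinj hgm).mp (hdv.trans h2))
    apply hz.not_isUnit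
    rw [← hg]
    exact (hu.map (mapRingHom (algebraMap R K))).mul (isUnit_C.mpr hl.isUnit)
  obtain ⟨u, v, -, -, e⟩ := exists_mul_add_mul_eq_C_resultant p q le_rfl le_rfl (Or.inl hd)
  refine ⟨u, v, _, ?_, e⟩
  intro h0
  have h1 := resultant_map_map p q p.natDegree q.natDegree (algebraMap R K)
  rw [h0, map_zero, ← natDegree_map_eq_of_injective hinj p,
    ← natDegree_map_eq_of_injective hinj q] at h1
  exact (resultant_eq_zero_iff.mp h1).2 hco

/-- A cubic polynomial of constant weak sign with two distinct zeros vanishes on their line. -/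
theorem line_zero {p : MvPolynomial (Fin 4) ℝ} (hp : p.totalDegree ≤ 3)
    (hs : (∀ x, 0 ≤ MvPolynomial.eval x p) ∨ (∀ x, MvPolynomial.eval x p ≤ 0))
    {x v : Fin 4 → ℝ} (h0 : MvPolynomial.eval x p = 0) (h1 : MvPolynomial.eval (x + v) p = 0)
    (t : ℝ) : MvPolynomial.eval (x + t • v) p = 0 := by
  have c0 := cubic x v p hp 0
  have c1 := cubic x v p hp 1
  have c2 := cubic x v p hp 2
  have c3 := cubic x v p hp (-1)
  have c4 := cubic x v p hp (1 / 2)
  rw [zero_smul, add_zero, h0] at c0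
  rw [one_smul, h1] at c1
  rw [cubic x v p hp t]
  generalize (ln x v p).coeff 3 = g3 at *
  generalize (ln x v p).coeff 2 = g2 at *
  generalize (ln x v p).coeff 1 = g1 at *
  generalize (ln x v p).coeff 0 = g0 at *
  have key : g3 = 0 ∧ g2 = 0 ∧ g1 = 0 ∧ g0 = 0 := by
    rcases hs with hs | hs
    · have a2 := hs (x + (2 : ℝ) • v)
      have a3 := hs (x + (-1 : ℝ) • v)
      have a4 := hs (x + (1 / 2 : ℝ) • v)
      rw [c2] at a2
      rw [c3] at a3
      rw [c4] at a4
      refine ⟨?_, ?_, ?_, ?_⟩ <;> linarith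
    · have a2 := hs (x + (2 : ℝ) • v)
      have a3 := hs (x + (-1 : ℝ) • v)
      have a4 := hs (x + (1 / 2 : ℝ) • v)
      rw [c2] at a2
      rw [c3] at a3
      rw [c4] at a4
      refine ⟨?_, ?_, ?_, ?_⟩ <;> linarith
  obtain ⟨rfl, rfl, rfl, rfl⟩ := key
  simp

theorem no_sign_change {F : ℝ × ℝ → (Fin 4 → ℝ)} (hF : ContDiff ℝ 1 F)
    {p : MvPolynomial (Fin 4) ℝ} (hz : ∀ x, MvPolynomial.eval x p = 0 → x ∈ Set.range F) :
    (∀ x, 0 ≤ MvPolynomial.eval x p) ∨ (∀ x, MvPolynomial.eval x p ≤ 0) := by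
  by_contra hcon
  push Not at hcon
  obtain ⟨⟨a, ha⟩, ⟨b, hb⟩⟩ := hcon
  have hc : Continuous fun x : Fin 4 → ℝ => MvPolynomial.eval x p := MvPolynomial.continuous_eval p
  let G : (ℝ × ℝ) × ℝ → (Fin 4 → ℝ) := fun q => F q.1 - q.2 • (b - a)
  have hG : ContDiff ℝ 1 G := (hF.comp contDiff_fst).sub (contDiff_snd.smul contDiff_const)
  have hden := hG.dense_compl_range_of_finrank_lt_finrank (by simp)
  have hU : IsOpen {x : Fin 4 → ℝ | MvPolynomial.eval x p < 0 ∧
      0 < MvPolynomial.eval (x + (b - a)) p} :=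
    (isOpen_lt hc continuous_const).inter
      (isOpen_lt continuous_const (hc.comp (continuous_id.add continuous_const)))
  obtain ⟨x, hx1, hx2⟩ := hden.inter_open_nonempty _ hU ⟨a, ha, by simpa using hb⟩
  have hk : Continuous fun t : ℝ => MvPolynomial.eval (x + t • (b - a)) p :=
    hc.comp (continuous_const.add (continuous_id.smul continuous_const))
  obtain ⟨t, ht⟩ := intermediate_value_univ (0 : ℝ) 1 hk
    (show (0 : ℝ) ∈ Set.Icc _ _ from ⟨by simpa using hx1.1.le, by simpa using hx1.2.le⟩)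
  obtain ⟨z, hz'⟩ := hz _ ht
  exact hx2 ⟨(z, t), by simp [G, hz']⟩

/-- The cubics vanishing on the image of `F`. -/
def Wsp (F : ℝ × ℝ → (Fin 4 → ℝ)) : Submodule ℝ (MvPolynomial (Fin 4) ℝ) where
  carrier := {f | f.totalDegree ≤ 3 ∧ ∀ z, MvPolynomial.eval (F z) f = 0}
  add_mem' := fun {f g} hf hg =>
    ⟨(MvPolynomial.totalDegree_add f g).trans (max_le hf.1 hg.1), fun z => by
      rw [map_add, hf.2, hg.2, add_zero]⟩
  zero_mem' := ⟨by simp, fun z => by simp⟩
  smul_mem' := fun r f hf => ⟨(MvPolynomial.totalDegree_smul_le r f).trans hf.1, fun z => by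
    rw [MvPolynomial.smul_eval, hf.2, mul_zero]⟩

theorem no_common {c : ℝ} (hc : 0 < c) {F : ℝ × ℝ → (Fin 4 → ℝ)} (hF : ContDiff ℝ 1 F)
    (hne : ∀ (z : ℝ × ℝ) (e : ℝ), 0 < e → e < c → F (z.1 + e, z.2) ≠ F z)
    {M : ℝ} (hM : ∀ z, ‖F z‖ ≤ M)
    (hW : ∀ x, (∀ f ∈ Wsp F, MvPolynomial.eval x f = 0) → x ∈ Set.range F)
    {f0 : MvPolynomial (Fin 4) ℝ} (hf0 : f0 ∈ Wsp F) (hf0' : f0 ≠ 0)
    {p : MvPolynomial (Fin 4) ℝ} (hp : Irreducible p) (hdiv : ∀ f ∈ Wsp F, p ∣ f) : False := by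
  have hz : ∀ x, MvPolynomial.eval x p = 0 → x ∈ Set.range F := by
    intro x hx
    refine hW x fun f hf => ?_
    obtain ⟨h, rfl⟩ := hdiv f hf
    rw [map_mul, hx, zero_mul]
  have hp3 : p.totalDegree ≤ 3 :=
    (MvPolynomial.totalDegree_le_of_dvd_of_isDomain (hdiv f0 hf0) hf0').trans hf0.1
  have hs := no_sign_change hF hz
  have huniq : ∀ x y, MvPolynomial.eval x p = 0 → MvPolynomial.eval y p = 0 → y = x := by
    intro x y hx hy
    by_contra hxy
    have hv : y - x ≠ 0 := sub_ne_zero.mpr hxy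
    have hv' : 0 < ‖y - x‖ := norm_pos_iff.mpr hv
    have hmem : ∀ t : ℝ, ‖x + t • (y - x)‖ ≤ M := by
      intro t
      obtain ⟨z, hz'⟩ := hz _ (line_zero hp3 hs hx (v := y - x) (by simpa using hy) t)
      rw [← hz']
      exact hM z
    have h0 : ‖x‖ ≤ M := by simpa using hmem 0
    have hM0 : 0 ≤ M := (norm_nonneg _).trans h0
    have h3 := hmem ((2 * M + 1) / ‖y - x‖)
    have h4 : ‖((2 * M + 1) / ‖y - x‖) • (y - x)‖ = 2 * M + 1 := by
      rw [norm_smul, Real.norm_eq_abs, abs_of_pos (by positivity)]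
      field_simp
    have h5 : ‖((2 * M + 1) / ‖y - x‖) • (y - x)‖
        ≤ ‖x + ((2 * M + 1) / ‖y - x‖) • (y - x)‖ + ‖x‖ := by
      simpa using norm_sub_le (x + ((2 * M + 1) / ‖y - x‖) • (y - x)) x
    linarith
  have hstep : ∀ h : MvPolynomial (Fin 4) ℝ, h ≠ 0 → p * h ∈ Wsp F → h ∈ Wsp F := by
    intro h h0 hh
    refine ⟨(MvPolynomial.totalDegree_le_of_dvd_of_isDomain (Dvd.intro_left p rfl)
      (mul_ne_zero hp.ne_zero h0)).trans hh.1, fun z => ?_⟩
    have hv : ∀ z, MvPolynomial.eval (F z) p ≠ 0 → MvPolynomial.eval (F z) h = 0 := by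
      intro z hz
      have := hh.2 z
      rw [map_mul] at this
      exact (mul_eq_zero.mp this).resolve_left hz
    by_cases hpz : MvPolynomial.eval (F z) p = 0
    · have hcl : IsClosed {e : ℝ | MvPolynomial.eval (F (z.1 + e, z.2)) h = 0} :=
        isClosed_eq ((MvPolynomial.continuous_eval h).comp (hF.continuous.comp
          ((continuous_const.add continuous_id).prodMk continuous_const))) continuous_const
      have hsub : Set.Ioo 0 c ⊆ {e : ℝ | MvPolynomial.eval (F (z.1 + e, z.2)) h = 0} := by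
        intro e he
        exact hv _ fun h' => hne z e he.1 he.2 (huniq _ _ hpz h')
      have h1 := hcl.closure_subset_iff.mpr hsub
      rw [closure_Ioo hc.ne] at h1
      simpa using h1 ⟨le_rfl, hc.le⟩
    · exact hv z hpz
  obtain ⟨n, a, ha, e⟩ := WfDvdMonoid.max_power_factor hf0' hp
  have ha0 : a ≠ 0 := by
    rintro rfl
    exact ha (dvd_zero p)
  have hind : ∀ k : ℕ, p ^ k * a ∈ Wsp F → a ∈ Wsp F := by
    intro k
    induction k with
    | zero => simp
    | succ k ih =>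
      intro h
      refine ih (hstep _ (mul_ne_zero (pow_ne_zero _ hp.ne_zero) ha0) ?_)
      rwa [← mul_assoc, ← pow_succ']
  exact ha (hdiv a (hind n (e ▸ hf0)))

end GdL

open Polynomial in
/-- Two cubics through the surface whose restrictions to a far away line are coprime. -/
theorem exists_good_line (c d : ℝ) (hc : 0 < c) (hd : 0 < d) (F : ℝ × ℝ → (Fin 4 → ℝ))
    (hF : ContDiff ℝ 1 F)
    (hper : ∀ p : ℝ × ℝ, F (p.1, p.2 + d) = F p ∧ F (p.1 + c, -p.2) = F p)
    (hinj : ∀ p q : ℝ × ℝ, F p = F q →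
      ∃ m n : ℤ, q.1 = p.1 + (m : ℝ) * c ∧ q.2 = (-1 : ℝ) ^ m * p.2 + (n : ℝ) * d)
    (S : Finset (MvPolynomial (Fin 4) ℝ)) (hS : ∀ P ∈ S, P.totalDegree ≤ 3)
    (hrange : Set.range F = {x : Fin 4 → ℝ | ∀ P ∈ S, MvPolynomial.eval x P = 0}) :
    ∃ f₁ f₂ : MvPolynomial (Fin 4) ℝ, f₁.totalDegree ≤ 3 ∧ f₂.totalDegree ≤ 3 ∧
      (∀ z, MvPolynomial.eval (F z) f₁ = 0) ∧ (∀ z, MvPolynomial.eval (F z) f₂ = 0) ∧
      ∃ a b : Fin 4 → ℝ, b 0 ≠ 0 ∧
        (∀ z, 1 ≤ |F z 1 - a 1 - (F z 0 - a 0) * (b 1 / b 0)|) ∧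
        ∃ g₁ g₂ : Fin 4 → ℝ,
          (∀ t : ℝ, MvPolynomial.eval (a + t • b) f₁
            = g₁ 0 * t ^ 3 + g₁ 1 * t ^ 2 + g₁ 2 * t + g₁ 3) ∧
          (∀ t : ℝ, MvPolynomial.eval (a + t • b) f₂
            = g₂ 0 * t ^ 3 + g₂ 1 * t ^ 2 + g₂ 2 * t + g₂ 3) ∧
          ∀ A B : Fin 3 → ℝ,
            (∀ t : ℝ, (A 0 * t ^ 2 + A 1 * t + A 2) * (g₁ 0 * t ^ 3 + g₁ 1 * t ^ 2 + g₁ 2 * t + g₁ 3)
              + (B 0 * t ^ 2 + B 1 * t + B 2) * (g₂ 0 * t ^ 3 + g₂ 1 * t ^ 2 + g₂ 2 * t + g₂ 3) = 0)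
            → A = 0 ∧ B = 0 := by
  classical
  -- boundedness
  obtain ⟨M, hM⟩ : ∃ M : ℝ, ∀ z, ‖F z‖ ≤ M := by
    have hK : IsCompact (Set.Icc 0 (2 * c) ×ˢ Set.Icc 0 d) := isCompact_Icc.prod isCompact_Icc
    obtain ⟨M, hM⟩ := (hK.image hF.continuous).isBounded.exists_norm_le
    refine ⟨M, ?_⟩
    rintro ⟨x, y⟩
    have p1 : Function.Periodic (fun t => F (t, y)) (2 * c) := by
      intro t
      have h1 := (hper (t, y)).2
      have h2 := (hper (t + c, -y)).2
      simp only [neg_neg] at h1 h2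
      show F (t + 2 * c, y) = F (t, y)
      rw [← h1, ← h2]
      congr 2
      ring
    obtain ⟨x', hx', e1⟩ := p1.exists_mem_Ico₀ (by positivity) x
    have p2 : Function.Periodic (fun t => F (x', t)) d := fun t => (hper (x', t)).1
    obtain ⟨y', hy', e2⟩ := p2.exists_mem_Ico₀ hd y
    exact hM _ ⟨(x', y'), ⟨Set.Ico_subset_Icc_self hx', Set.Ico_subset_Icc_self hy'⟩,
      (e1.trans e2).symm⟩
  have hne : ∀ (z : ℝ × ℝ) (e : ℝ), 0 < e → e < c → F (z.1 + e, z.2) ≠ F z := by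
    intro z e h0 h1 h
    obtain ⟨m, n, hm, -⟩ := hinj _ _ h.symm
    have hm' : e = m * c := by simpa using hm
    have a1 : (0 : ℝ) < m := by
      by_contra hcon
      push Not at hcon
      nlinarith
    have a2 : (m : ℝ) < 1 := by
      by_contra hcon
      push Not at hcon
      nlinarith
    have b1 : 0 < m := by exact_mod_cast a1
    have b2 : m < 1 := by exact_mod_cast a2
    omega
  have hSW : ∀ P ∈ S, P ∈ GdL.Wsp F := by
    intro P hP
    refine ⟨hS P hP, fun z => ?_⟩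
    have : F z ∈ Set.range F := ⟨z, rfl⟩
    rw [hrange] at this
    exact this P hP
  have hW : ∀ x, (∀ f ∈ GdL.Wsp F, MvPolynomial.eval x f = 0) → x ∈ Set.range F := by
    intro x hx
    rw [hrange]
    exact fun P hP => hx P (hSW P hP)
  obtain ⟨f0, hf0, hf0'⟩ : ∃ f0 ∈ GdL.Wsp F, f0 ≠ 0 := by
    by_contra hcon
    push Not at hcon
    obtain ⟨x, hx⟩ := (hF.dense_compl_range_of_finrank_lt_finrank (by simp)).nonempty
    exact hx (hW x fun f hf => by rw [hcon f hf, map_zero])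
  -- a cubic of exact degree three
  obtain ⟨f1, hf1, hf1', hdeg⟩ : ∃ f1 ∈ GdL.Wsp F, f1 ≠ 0 ∧ f1.totalDegree = 3 := by
    have hX : (MvPolynomial.X 0 ^ (3 - f0.totalDegree) : MvPolynomial (Fin 4) ℝ) ≠ 0 :=
      pow_ne_zero _ (MvPolynomial.X_ne_zero 0)
    have hdg : (f0 * MvPolynomial.X 0 ^ (3 - f0.totalDegree)).totalDegree = 3 := by
      rw [MvPolynomial.totalDegree_mul_of_isDomain hf0' hX, MvPolynomial.totalDegree_X_pow]
      have := hf0.1
      omega
    exact ⟨_, ⟨hdg.le, fun z => by rw [map_mul, hf0.2, zero_mul]⟩, mul_ne_zero hf0' hX, hdg⟩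
  obtain ⟨f2, hf2, hrel⟩ : ∃ f2 ∈ GdL.Wsp F, IsRelPrime f1 f2 := by
    by_contra hcon
    push Not at hcon
    let ι := {q // q ∈ (UniqueFactorizationMonoid.factors f1).toFinset}
    let V : ι → Submodule ℝ (GdL.Wsp F) := fun q =>
      ((Ideal.span {q.1}).restrictScalars ℝ).comap (GdL.Wsp F).subtype
    have hV : ∀ (q : ι) (f : GdL.Wsp F), f ∈ V q ↔ q.1 ∣ f.1 := by
      intro q f
      simp [V, Ideal.mem_span_singleton]
    have hcov : ⋃ q, (V q : Set (GdL.Wsp F)) = Set.univ := by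
      refine Set.eq_univ_of_forall fun f => ?_
      by_contra hf
      apply hcon f.1 f.2
      refine WfDvdMonoid.isRelPrime_of_no_irreducible_factors (fun h => hf1' h.1) ?_
      intro z hz h1 h2
      obtain ⟨q, hq, hzq⟩ := UniqueFactorizationMonoid.exists_mem_factors_of_dvd hf1' hz h1
      exact hf (Set.mem_iUnion.mpr ⟨⟨q, Multiset.mem_toFinset.mpr hq⟩,
        (hV _ _).mpr (hzq.symm.dvd.trans h2)⟩)
    obtain ⟨q, hq⟩ := Subspace.exists_eq_top_of_iUnion_eq_univ hcov
    refine GdL.no_common hc hF hne hM hW hf0 hf0'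
      (UniqueFactorizationMonoid.irreducible_of_factor _ (Multiset.mem_toFinset.mp q.2)) ?_
    intro f hf
    exact (hV q ⟨f, hf⟩).mp (by rw [hq]; trivial)
  -- the direction
  have hhc : MvPolynomial.homogeneousComponent 3 f1 ≠ 0 := by
    obtain ⟨m, hm, hm'⟩ := Finset.exists_mem_eq_sup f1.support
      (MvPolynomial.support_nonempty.mpr hf1') (fun s => s.sum fun _ e => e)
    have h3 : m.degree = 3 := by
      rw [← hdeg]
      exact hm'.symm
    intro h
    have := congrArg (MvPolynomial.coeff m) h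
    rw [MvPolynomial.coeff_homogeneousComponent, if_pos h3, MvPolynomial.coeff_zero] at this
    exact MvPolynomial.mem_support_iff.mp hm this
  obtain ⟨b, hb⟩ : ∃ b : Fin 4 → ℝ, MvPolynomial.eval b
      (MvPolynomial.X 0 * MvPolynomial.homogeneousComponent 3 f1) ≠ 0 := by
    by_contra hcon
    push Not at hcon
    exact mul_ne_zero (MvPolynomial.X_ne_zero 0) hhc
      (MvPolynomial.funext fun x => by rw [hcon x, map_zero])
  rw [map_mul, MvPolynomial.eval_X] at hb
  have hb0 : b 0 ≠ 0 := left_ne_zero_of_mul hb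
  obtain ⟨l, hl, hl0⟩ : ∃ l : ℝ,
      MvPolynomial.eval b (MvPolynomial.homogeneousComponent 3 f1) = l ∧ l ≠ 0 :=
    ⟨_, rfl, right_ne_zero_of_mul hb⟩
  have hP := GdL.ln_deg (A := MvPolynomial (Fin 4) ℝ) MvPolynomial.X b f1 hdeg.le
  rw [hl] at hP
  have hrel' := GdL.relprime_ln b hf1' hrel
  set P1 := GdL.ln (A := MvPolynomial (Fin 4) ℝ) MvPolynomial.X b f1 with hP1
  set P2 := GdL.ln (A := MvPolynomial (Fin 4) ℝ) MvPolynomial.X b f2 with hP2
  have hmc : (C (MvPolynomial.C l⁻¹) * P1).coeff 3 = 1 := by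
    rw [coeff_C_mul, hP.2, MvPolynomial.algebraMap_eq, ← map_mul, inv_mul_cancel₀ hl0, map_one]
  have hmd : (C (MvPolynomial.C l⁻¹) * P1).natDegree ≤ 3 := (natDegree_C_mul_le _ _).trans hP.1
  have hmon : (C (MvPolynomial.C l⁻¹) * P1).Monic := monic_of_natDegree_le_of_coeff_eq_one 3 hmd hmc
  have hmn : (C (MvPolynomial.C l⁻¹) * P1).natDegree ≠ 0 := by
    intro h
    have := coeff_eq_zero_of_natDegree_lt (n := 3) (h ▸ (by norm_num : 0 < 3) :
      (C (MvPolynomial.C l⁻¹) * P1).natDegree < 3)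
    rw [hmc] at this
    exact one_ne_zero this
  have hun : IsUnit (C (MvPolynomial.C l⁻¹) : (MvPolynomial (Fin 4) ℝ)[X]) :=
    ((inv_ne_zero hl0).isUnit.map MvPolynomial.C).map C
  have hrel2 : IsRelPrime (C (MvPolynomial.C l⁻¹) * P1) P2 := by
    intro e h1 h2
    exact hrel' ((hun.dvd_mul_left).mp h1) h2
  obtain ⟨u, v, r, hr, e⟩ := GdL.bezout hmon hmn hrel2
  -- the base point
  let T : ℝ := M + (M + 1) * |b 1 / b 0| + 1
  let s : Fin 4 → Set ℝ := fun i => if i = 1 then Set.Ioi T else Set.Ioo 0 1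
  obtain ⟨a, ha, har⟩ : ∃ a ∈ Set.pi Set.univ s, MvPolynomial.eval a r ≠ 0 := by
    by_contra hcon
    push Not at hcon
    refine hr (MvPolynomial.funext_set s ?_ fun x hx => by rw [hcon x hx, map_zero])
    intro i
    by_cases h : i = 1
    · simp only [s, h, if_true]
      exact Set.Ioi_infinite T
    · simp only [s, h, if_false]
      exact Set.Ioo_infinite zero_lt_one
  have ha0 : a 0 ∈ Set.Ioo (0 : ℝ) 1 := by simpa [s] using ha 0 (Set.mem_univ _)
  have ha1 : T < a 1 := by simpa [s] using ha 1 (Set.mem_univ _)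
  have hG := GdL.ln_deg a b f1 hdeg.le
  rw [hl] at hG
  have hco : IsCoprime (GdL.ln a b f1) (GdL.ln a b f2) := by
    have e' := congrArg (Polynomial.map (MvPolynomial.eval a)) e
    simp only [Polynomial.map_add, Polynomial.map_mul, map_C, hP1, hP2, GdL.ln_map] at e'
    refine ⟨C (MvPolynomial.eval a r)⁻¹ * (C (MvPolynomial.eval a (MvPolynomial.C l⁻¹))
      * u.map (MvPolynomial.eval a)), C (MvPolynomial.eval a r)⁻¹ * v.map (MvPolynomial.eval a), ?_⟩
    have h1 : (C (MvPolynomial.eval a r)⁻¹ * C (MvPolynomial.eval a r) : ℝ[X]) = 1 := by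
      rw [← C_mul, inv_mul_cancel₀ har, C_1]
    rw [← h1, ← e']
    ring
  refine ⟨f1, f2, hf1.1, hf2.1, hf1.2, hf2.2, a, b, hb0, ?_,
    ![(GdL.ln a b f1).coeff 3, (GdL.ln a b f1).coeff 2, (GdL.ln a b f1).coeff 1,
      (GdL.ln a b f1).coeff 0],
    ![(GdL.ln a b f2).coeff 3, (GdL.ln a b f2).coeff 2, (GdL.ln a b f2).coeff 1,
      (GdL.ln a b f2).coeff 0], ?_, ?_, ?_⟩
  · intro z
    have h0 : |F z 0| ≤ M := (norm_le_pi_norm (F z) 0).trans (hM z)
    have h1 : |F z 1| ≤ M := (norm_le_pi_norm (F z) 1).trans (hM z)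
    have h2 : |F z 0 - a 0| ≤ M + 1 := by
      rw [abs_le] at h0 ⊢
      constructor <;> linarith [h0.1, h0.2, ha0.1, ha0.2]
    have h3 : |(F z 0 - a 0) * (b 1 / b 0)| ≤ (M + 1) * |b 1 / b 0| := by
      rw [abs_mul]
      exact mul_le_mul_of_nonneg_right h2 (abs_nonneg _)
    have h4 := neg_abs_le ((F z 0 - a 0) * (b 1 / b 0))
    have h5 := le_abs_self (F z 1)
    have h6 := neg_le_abs (F z 1 - a 1 - (F z 0 - a 0) * (b 1 / b 0))
    simp only [T] at ha1
    linarith
  · intro t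
    simpa using GdL.cubic a b f1 hf1.1 t
  · intro t
    simpa using GdL.cubic a b f2 hf2.1 t
  · intro A B h
    let PA : ℝ[X] := C (A 0) * X ^ 2 + C (A 1) * X + C (A 2)
    let PB : ℝ[X] := C (B 0) * X ^ 2 + C (B 1) * X + C (B 2)
    have hz : PA * GdL.ln a b f1 + PB * GdL.ln a b f2 = 0 := by
      refine Polynomial.funext fun t => ?_
      have := h t
      simp only [Matrix.cons_val] at this
      rw [eval_add, eval_mul, eval_mul, GdL.ln_eval, GdL.ln_eval, GdL.cubic a b f1 hf1.1,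
        GdL.cubic a b f2 hf2.1, eval_zero, ← this]
      simp [PA, PB]
    have hG3 : (GdL.ln a b f1).coeff 3 ≠ 0 := by
      rw [hG.2]
      simpa using hl0
    have hG0 : GdL.ln a b f1 ≠ 0 := by
      intro h0
      rw [h0] at hG3
      simp at hG3
    have hdv : GdL.ln a b f1 ∣ PB := by
      refine hco.dvd_of_dvd_mul_right ⟨-PA, ?_⟩
      linear_combination hz
    have hPB : PB = 0 := by
      by_contra h0
      have k1 := natDegree_le_of_dvd hdv h0
      have k2 : PB.natDegree ≤ 2 := natDegree_quadratic_le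
      have k3 := le_natDegree_of_ne_zero hG3
      omega
    have hPA : PA = 0 := by
      rw [hPB, zero_mul, add_zero] at hz
      exact (mul_eq_zero.mp hz).resolve_right hG0
    have hq : ∀ Q : Fin 3 → ℝ, (C (Q 0) * X ^ 2 + C (Q 1) * X + C (Q 2) : ℝ[X]) = 0 → Q = 0 := by
      intro Q hQ
      have e0 := congrArg (eval 0) hQ
      have e1 := congrArg (eval 1) hQ
      have e2 := congrArg (eval (-1)) hQ
      simp at e0 e1 e2
      funext i
      fin_cases i
      · simp; linarith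
      · simp; linarith
      · simp; linarith
    exact ⟨hq A hPA, hq B hPB⟩

end Pool.Agent.Lib.MP_886b5a_gt
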