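import Mathlib

set_option autoImplicit false

namespace Pool.Agent.Lib.MP_886b5a_gt

namespace LD

open Complex Set Filter Topology

/-- A continuous logarithm of `1` on the real line is constant. -/
theorem const_of_exp {f : ℝ → ℂ} (hf : Continuous f) (h : ∀ t, exp (f t) = 1) (s t : ℝ) :
    f s = f t :=
  Complex.isCoveringMap_exp.const_of_comp hf
    (fun a a' => Subtype.ext (by simp only [h a, h a'])) s t

/-- Continuous logarithm on the plane. -/
theorem exists_log (H : ℝ × ℝ → ℂ) (hH : Continuous H) (h0 : ∀ p, H p ≠ 0) :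
    ∃ L : ℝ × ℝ → ℂ, Continuous L ∧ ∀ p, exp (L p) = H p := by
  obtain ⟨f, ⟨-, hf⟩, -⟩ := Complex.isCoveringMap_exp.existsUnique_continuousMap_lifts
    (⟨fun p => ⟨H p, h0 p⟩, hH.subtype_mk _⟩ : C(ℝ × ℝ, {z : ℂ // z ≠ 0})) (0 : ℝ × ℝ)
    (Complex.log (H 0)) (Subtype.ext (Complex.exp_log (h0 0)))
  refine ⟨f, f.continuous, fun p => ?_⟩
  have := congrArg Subtype.val (congrFun hf p)
  simpa using this

/-- The winding number argument. -/
theorem wind (H : ℝ × ℝ → ℂ) (hH : Continuous H) (h0 : ∀ p, H p ≠ 0)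
    (hper : ∀ τ, H (τ, Real.pi) = H (τ, -Real.pi))
    (hflip : ∀ θ, H (1, θ) = H (0, -θ)) (α : ℂ)
    (hα : ∀ θ : ℝ, ‖H (0, θ) - α * exp (θ * I)‖ < ‖α‖) : False := by
  obtain ⟨L, hL, hLe⟩ := exists_log H hH h0
  have hα0 : α ≠ 0 := by
    intro h
    have := hα 0
    rw [h, norm_zero] at this
    exact absurd this (not_lt.mpr (norm_nonneg _))
  have h1 := const_of_exp (f := fun τ => L (τ, Real.pi) - L (τ, -Real.pi)) (by fun_prop)
    (fun τ => by rw [exp_sub, hLe, hLe, hper, div_self (h0 _)]) 0 1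
  have h2 := const_of_exp (f := fun θ => L (1, θ) - L (0, -θ)) (by fun_prop)
    (fun θ => by rw [exp_sub, hLe, hLe, hflip, div_self (h0 _)]) Real.pi (-Real.pi)
  have hne : ∀ θ : ℝ, α * exp (θ * I) ≠ 0 := fun θ => mul_ne_zero hα0 (exp_ne_zero _)
  have hslit : ∀ θ : ℝ, H (0, θ) / (α * exp (θ * I)) ∈ slitPlane := by
    intro θ
    have e : H (0, θ) / (α * exp (θ * I)) =
        1 + (H (0, θ) - α * exp (θ * I)) / (α * exp (θ * I)) := by
      field_simp [hne θ]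
      ring
    rw [e]
    apply mem_slitPlane_of_norm_lt_one
    have hn : ‖α * exp (θ * I)‖ = ‖α‖ := by rw [norm_mul, norm_exp_ofReal_mul_I, mul_one]
    rw [norm_div, hn, div_lt_one (norm_pos_iff.mpr hα0)]
    exact hα θ
  have hq : Continuous fun θ : ℝ => H (0, θ) / (α * exp (θ * I)) :=
    Continuous.div (by fun_prop) (by fun_prop) hne
  have h3 := const_of_exp (f := fun θ : ℝ => L (0, θ) - θ * I - Complex.log α -
      Complex.log (H (0, θ) / (α * exp (θ * I))))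
    (Continuous.sub (by fun_prop) (hq.clog hslit))
    (fun θ => by
      rw [exp_sub, exp_sub, exp_sub, hLe, exp_log hα0, exp_log (div_ne_zero (h0 _) (hne θ))]
      have := h0 (0, θ)
      have := exp_ne_zero ((θ : ℂ) * I)
      field_simp) Real.pi (-Real.pi)
  have he : exp (((-Real.pi : ℝ) : ℂ) * I) = exp ((Real.pi : ℂ) * I) := by
    rw [ofReal_neg, neg_mul, exp_neg, exp_pi_mul_I]
    norm_num
  simp only [neg_neg] at h1 h2 h3
  rw [he, ← hper 0] at h3
  have h4 : (Real.pi : ℂ) * I = 0 := by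
    push_cast at h3
    linear_combination (-1 / 2 : ℂ) * h3 + (1 / 4 : ℂ) * h1 + (1 / 4 : ℂ) * h2
  rcases mul_eq_zero.mp h4 with h | h
  · exact Real.pi_ne_zero (by exact_mod_cast h)
  · exact I_ne_zero h


/-- The winding number argument for a linear model with nonzero determinant. -/
theorem wind2 (H : ℝ × ℝ → ℂ) (hH : Continuous H) (h0 : ∀ p, H p ≠ 0)
    (hper : ∀ τ, H (τ, Real.pi) = H (τ, -Real.pi))
    (hflip : ∀ θ, H (1, θ) = H (0, -θ)) (P Q : ℂ)
    (hPQ : ∀ θ : ℝ, ‖H (0, θ) - (Real.cos θ * P + Real.sin θ * Q)‖ <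
      |‖(P - I * Q) / 2‖ - ‖(P + I * Q) / 2‖|) : False := by
  have key : ∀ θ : ℝ, (Real.cos θ * P + Real.sin θ * Q : ℂ) =
      (P - I * Q) / 2 * exp (θ * I) + (P + I * Q) / 2 * exp ((-θ : ℝ) * I) := by
    intro θ
    rw [exp_mul_I, exp_mul_I, ofReal_neg, cos_neg, sin_neg, ofReal_cos, ofReal_sin]
    linear_combination (Q * sin (θ : ℂ)) * I_mul_I
  set α := (P - I * Q) / 2
  set β := (P + I * Q) / 2
  rcases le_total ‖β‖ ‖α‖ with h | h
  · refine wind H hH h0 hper hflip α (fun θ => ?_)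
    have h1 := hPQ θ
    rw [key, abs_of_nonneg (sub_nonneg.mpr h)] at h1
    have h2 : H (0, θ) - α * exp (θ * I) =
        (H (0, θ) - (α * exp (θ * I) + β * exp ((-θ : ℝ) * I))) + β * exp ((-θ : ℝ) * I) := by
      ring
    have h3 : ‖β * exp ((-θ : ℝ) * I)‖ = ‖β‖ := by
      rw [norm_mul, norm_exp_ofReal_mul_I, mul_one]
    rw [h2]
    refine (norm_add_le _ _).trans_lt ?_
    rw [h3]
    linarith
  · refine wind (fun p => H (p.1, -p.2)) (by fun_prop) (fun p => h0 _)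
      (fun τ => by simp only [neg_neg]; exact (hper τ).symm)
      (fun θ => by simp only [hflip]) β (fun θ => ?_)
    have h1 := hPQ (-θ)
    rw [key, abs_of_nonpos (sub_nonpos.mpr h), neg_neg] at h1
    have h2 : H (0, -θ) - β * exp (θ * I) =
        (H (0, -θ) - (α * exp ((-θ : ℝ) * I) + β * exp (θ * I))) + α * exp ((-θ : ℝ) * I) := by
      ring
    have h3 : ‖α * exp ((-θ : ℝ) * I)‖ = ‖α‖ := by
      rw [norm_mul, norm_exp_ofReal_mul_I, mul_one]
    show ‖H (0, -θ) - β * exp (θ * I)‖ < ‖β‖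
    rw [h2]
    refine (norm_add_le _ _).trans_lt ?_
    rw [h3]
    linarith

theorem gap_pos (P Q : ℂ) (h : P.re * Q.im - P.im * Q.re ≠ 0) :
    0 < |‖(P - I * Q) / 2‖ - ‖(P + I * Q) / 2‖| := by
  rw [abs_pos, sub_ne_zero]
  intro he
  apply h
  have h2 : ‖P - I * Q‖ = ‖P + I * Q‖ := by
    rw [norm_div, norm_div] at he
    have : ‖(2 : ℂ)‖ ≠ 0 := by simp
    exact (div_left_inj' this).mp he
  have h3 : normSq (P - I * Q) = normSq (P + I * Q) := by
    rw [normSq_eq_norm_sq, normSq_eq_norm_sq, h2]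
  simp only [normSq_apply, sub_re, mul_re, I_re, I_im, sub_im, mul_im, add_re, add_im] at h3
  linarith

/-- The core contradiction. -/
theorem core {E : Type*} [NormedAddCommGroup E] [NormedSpace ℝ E] (G : E → ℂ)
    (hG : Continuous G) (x η : ℝ → E) (hx : Continuous x) (hη : Continuous η) (ξ : E)
    (hx1 : x 1 = x 0) (hη1 : η 1 = -η 0) (D : E →L[ℝ] ℂ) (hD : HasFDerivAt G D (x 0))
    (hG0 : G (x 0) = 0)
    (hdet : (D ξ).re * (D (η 0)).im - (D ξ).im * (D (η 0)).re ≠ 0)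
    (htube : ∀ᶠ ab : ℝ × ℝ in 𝓝 0, ∀ τ ∈ Icc (0 : ℝ) 1,
      G (x τ + ab.1 • ξ + ab.2 • η τ) = 0 → ab = 0) : False := by
  have hκ := gap_pos _ _ hdet
  set κ := |‖(D ξ - I * D (η 0)) / 2‖ - ‖(D ξ + I * D (η 0)) / 2‖| with hκdef
  set R := ‖ξ‖ + ‖η 0‖ + 1 with hR
  have hR0 : 0 < R := by positivity
  have hlo := hD.isLittleO.def (c := κ / (2 * R)) (by positivity)
  obtain ⟨r, hr, hr'⟩ := Metric.eventually_nhds_iff.mp hlo
  obtain ⟨s, hs, hs'⟩ := Metric.eventually_nhds_iff.mp htube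
  set e := min (r / (2 * R)) (s / 2) with he
  have he0 : 0 < e := by positivity
  have he1 : e * R < r := by
    have : e ≤ r / (2 * R) := min_le_left _ _
    rw [le_div_iff₀ (by positivity)] at this
    nlinarith
  have he2 : e < s := (min_le_right _ _).trans_lt (by linarith)
  let cl : ℝ → ℝ := fun τ => max 0 (min 1 τ)
  have hcl : Continuous cl := by fun_prop
  have hclm : ∀ τ, cl τ ∈ Icc (0 : ℝ) 1 := fun τ =>
    ⟨le_max_left _ _, max_le zero_le_one (min_le_left _ _)⟩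
  have hcl0 : cl 0 = 0 := by simp [cl]
  have hcl1 : cl 1 = 1 := by simp [cl]
  refine wind2 (fun p => G (x (cl p.1) + (e * Real.cos p.2) • ξ + (e * Real.sin p.2) • η (cl p.1)))
    (by fun_prop) (fun p hp => ?_) (fun τ => by simp) (fun θ => ?_) (e * D ξ) (e * D (η 0))
    (fun θ => ?_)
  · have hd : dist ((e * Real.cos p.2, e * Real.sin p.2) : ℝ × ℝ) 0 < s := by
      rw [dist_zero_right, Prod.norm_mk, Real.norm_eq_abs, Real.norm_eq_abs, abs_mul, abs_mul,
        abs_of_pos he0, max_lt_iff]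
      have h1 := Real.abs_cos_le_one p.2
      have h2 := Real.abs_sin_le_one p.2
      constructor <;> nlinarith
    have := hs' hd _ (hclm p.1) hp
    rw [Prod.ext_iff] at this
    simp only [Prod.fst_zero, Prod.snd_zero, mul_eq_zero, he0.ne', false_or] at this
    have h3 := Real.cos_sq_add_sin_sq p.2
    rw [this.1, this.2] at h3
    norm_num at h3
  · simp only [hcl0, hcl1, hx1, hη1, Real.cos_neg, Real.sin_neg, mul_neg, neg_smul, smul_neg]
  · simp only [hcl0]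
    have hv : ‖(e * Real.cos θ) • ξ + (e * Real.sin θ) • η 0‖ ≤ e * R := by
      refine (norm_add_le _ _).trans ?_
      rw [norm_smul, norm_smul, Real.norm_eq_abs, Real.norm_eq_abs, abs_mul, abs_mul,
        abs_of_pos he0, hR]
      have h1 := Real.abs_cos_le_one θ
      have h2 := Real.abs_sin_le_one θ
      have h3 := mul_le_mul_of_nonneg_right h1 (norm_nonneg ξ)
      have h4 := mul_le_mul_of_nonneg_right h2 (norm_nonneg (η 0))
      nlinarith
    have hd : dist (x 0 + ((e * Real.cos θ) • ξ + (e * Real.sin θ) • η 0)) (x 0) < r := by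
      rw [dist_eq_norm, add_sub_cancel_left]
      exact hv.trans_lt he1
    have h1 := hr' hd
    rw [add_sub_cancel_left, hG0, sub_zero, map_add, map_smul, map_smul, ← add_assoc] at h1
    have h2 : ((e : ℂ) * D ξ - I * (e * D (η 0))) / 2 = e * ((D ξ - I * D (η 0)) / 2) := by ring
    have h3 : ((e : ℂ) * D ξ + I * (e * D (η 0))) / 2 = e * ((D ξ + I * D (η 0)) / 2) := by ring
    have h4 : ‖(e : ℂ)‖ = e := by rw [norm_real, Real.norm_eq_abs, abs_of_pos he0]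
    rw [h2, h3, norm_mul, norm_mul, h4, ← mul_sub, abs_mul, abs_of_pos he0, ← hκdef]
    have h5 : ((Real.cos θ : ℂ) * (e * D ξ) + Real.sin θ * (e * D (η 0))) =
        (e * Real.cos θ) • D ξ + (e * Real.sin θ) • D (η 0) := by
      rw [real_smul, real_smul]
      push_cast
      ring
    rw [h5]
    refine h1.trans_lt ?_
    have h6 : κ / (2 * R) * (e * R) = e * κ / 2 := by field_simp
    have h7 := mul_le_mul_of_nonneg_left hv (show 0 ≤ κ / (2 * R) by positivity)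
    have h8 : 0 < e * κ := by positivity
    linarith


/-- The tube lemma. -/
theorem tube {E : Type*} [NormedAddCommGroup E] [NormedSpace ℝ E] (F : ℝ × ℝ → E)
    (hF : ContDiff ℝ 1 F) (z : ℝ → ℝ × ℝ) (hz : Continuous z) (η : ℝ → E) (hη : Continuous η)
    (ξ : E)
    (hinj : ∀ (τ : ℝ) (δ : ℝ × ℝ) (a b : ℝ),
      fderiv ℝ F (z τ) δ - a • ξ - b • η τ = 0 → δ = 0 ∧ a = 0 ∧ b = 0)
    (hprop : ∀ p : ℝ × ℝ, ∀ U ∈ 𝓝 p, ∀ᶠ y in 𝓝 (F p), y ∈ range F → y ∈ F '' U) :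
    ∀ᶠ ab : ℝ × ℝ in 𝓝 0, ∀ τ ∈ Icc (0 : ℝ) 1,
      F (z τ) + ab.1 • ξ + ab.2 • η τ ∈ range F → ab = 0 := by
  apply isCompact_Icc.eventually_forall_of_forall_eventually
    (P := fun (ab : ℝ × ℝ) τ => F (z τ) + ab.1 • ξ + ab.2 • η τ ∈ range F → ab = 0)
  intro τ₀ _
  let T := fderiv ℝ F (z τ₀)
  let Λ : ((ℝ × ℝ) × (ℝ × ℝ)) →ₗ[ℝ] E :=
    { toFun := fun w => T w.1 - w.2.1 • ξ - w.2.2 • η τ₀
      map_add' := by
        intro v w
        simp only [Prod.fst_add, Prod.snd_add, map_add, add_smul]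
        abel
      map_smul' := by
        intro r w
        simp only [Prod.smul_fst, Prod.smul_snd, map_smul, smul_eq_mul, RingHom.id_apply,
          smul_sub, mul_smul] }
  have hker : LinearMap.ker Λ = ⊥ := by
    rw [LinearMap.ker_eq_bot']
    intro w hw
    obtain ⟨h1, h2, h3⟩ := hinj τ₀ w.1 w.2.1 w.2.2 hw
    exact Prod.ext h1 (Prod.ext h2 h3)
  obtain ⟨K, hK0, hK⟩ := Λ.exists_antilipschitzWith hker
  have hK' : ∀ w, ‖w‖ ≤ K * ‖Λ w‖ := fun w => by
    have := hK.le_mul_dist w 0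
    simpa [dist_eq_norm] using this
  have hK1 : (0 : ℝ) < K := hK0
  set ε : ℝ := 1 / (4 * K) with hε
  have hε0 : 0 < ε := by positivity
  have hs : HasStrictFDerivAt F T (z τ₀) := hF.contDiffAt.hasStrictFDerivAt one_ne_zero
  have hlo := hs.isLittleO.def hε0
  rw [nhds_prod_eq] at hlo
  obtain ⟨U, hU, hU'⟩ := Filter.mem_prod_self_iff.mp hlo
  have hV := hprop (z τ₀) U hU
  have hFc : Continuous F := hF.continuous
  have t1 : Tendsto (fun w : (ℝ × ℝ) × ℝ => z w.2) (𝓝 (0, τ₀)) (𝓝 (z τ₀)) :=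
    (show Continuous fun w : (ℝ × ℝ) × ℝ => z w.2 by fun_prop).tendsto' _ _ rfl
  have t2 : Tendsto (fun w : (ℝ × ℝ) × ℝ => F (z w.2) + w.1.1 • ξ + w.1.2 • η w.2)
      (𝓝 (0, τ₀)) (𝓝 (F (z τ₀))) :=
    (show Continuous fun w : (ℝ × ℝ) × ℝ => F (z w.2) + w.1.1 • ξ + w.1.2 • η w.2 by
      fun_prop).tendsto' _ _ (by simp)
  have t3 : Tendsto (fun w : (ℝ × ℝ) × ℝ => ‖η w.2 - η τ₀‖) (𝓝 (0, τ₀)) (𝓝 0) :=
    (show Continuous fun w : (ℝ × ℝ) × ℝ => ‖η w.2 - η τ₀‖ by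
      fun_prop).tendsto' _ _ (by simp)
  filter_upwards [t1.eventually hU, t2.eventually hV, t3.eventually (gt_mem_nhds hε0)]
    with w h1 h2 h3 h4
  obtain ⟨p, hp, hp'⟩ := h2 h4
  have h5 : ‖F p - F (z w.2) - T (p - z w.2)‖ ≤ ε * ‖p - z w.2‖ :=
    hU' (show (p, z w.2) ∈ U ×ˢ U from ⟨hp, h1⟩)
  have h6 : Λ (p - z w.2, w.1) =
      w.1.2 • (η w.2 - η τ₀) - (F p - F (z w.2) - T (p - z w.2)) := by
    show T (p - z w.2) - w.1.1 • ξ - w.1.2 • η τ₀ = _
    rw [hp', smul_sub]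
    abel
  set v : (ℝ × ℝ) × (ℝ × ℝ) := (p - z w.2, w.1) with hv
  have n1 : ‖p - z w.2‖ ≤ ‖v‖ := norm_fst_le v
  have n2 : ‖w.1‖ ≤ ‖v‖ := norm_snd_le v
  have n3 : ‖w.1.2‖ ≤ ‖v‖ := (norm_snd_le w.1).trans n2
  have h7 : ‖Λ v‖ ≤ 2 * ε * ‖v‖ := by
    rw [h6]
    refine (norm_sub_le _ _).trans ?_
    rw [norm_smul]
    have a1 : ‖w.1.2‖ * ‖η w.2 - η τ₀‖ ≤ ‖v‖ * ε :=
      mul_le_mul n3 h3.le (norm_nonneg _) (norm_nonneg _)
    have a2 := mul_le_mul_of_nonneg_left n1 hε0.le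
    linarith
  have h8 := (hK' v).trans (mul_le_mul_of_nonneg_left h7 hK1.le)
  have h9 : (K : ℝ) * (2 * ε * ‖v‖) = ‖v‖ / 2 := by
    rw [hε]
    field_simp
    ring
  have h10 : ‖v‖ ≤ 0 := by linarith
  exact norm_le_zero_iff.mp (n2.trans h10)

theorem inv_snd {E : Type*} (d : ℝ) (F : ℝ × ℝ → E)
    (h : ∀ p : ℝ × ℝ, F (p.1, p.2 + d) = F p) (n : ℤ) (x y : ℝ) :
    F (x, y + (n : ℝ) * d) = F (x, y) := by
  have hp : Function.Periodic (fun t => F (x, t)) d := fun t => h (x, t)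
  exact hp.int_mul n y

theorem inv_fst {E : Type*} (c : ℝ) (F : ℝ × ℝ → E)
    (h : ∀ p : ℝ × ℝ, F (p.1 + c, -p.2) = F p) (m : ℤ) (x y : ℝ) :
    F (x + (m : ℝ) * c, (-1 : ℝ) ^ m * y) = F (x, y) := by
  induction m using Int.induction_on with
  | zero => simp
  | succ i ih =>
    rw [← ih, ← h (x + ((i : ℤ) : ℝ) * c, (-1 : ℝ) ^ (i : ℤ) * y), zpow_add_one₀ (by norm_num)]
    congr 1
    push_cast
    refine Prod.ext ?_ ?_ <;> simp only <;> ring
  | pred i ih =>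
    rw [← ih, ← h (x + ((-(i : ℤ) - 1 : ℤ) : ℝ) * c, (-1 : ℝ) ^ (-(i : ℤ) - 1) * y),
      zpow_sub_one₀ (by norm_num)]
    congr 1
    push_cast
    refine Prod.ext ?_ ?_ <;> simp only <;> ring

/-- Points of the image near `F p` come from parameters near `p`. -/
theorem proper {E : Type*} [NormedAddCommGroup E] (c d : ℝ) (hc : 0 < c) (hd : 0 < d)
    (F : ℝ × ℝ → E) (hF : Continuous F)
    (hper : ∀ p : ℝ × ℝ, F (p.1, p.2 + d) = F p ∧ F (p.1 + c, -p.2) = F p)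
    (hinj : ∀ p q : ℝ × ℝ, F p = F q →
      ∃ m n : ℤ, q.1 = p.1 + (m : ℝ) * c ∧ q.2 = (-1 : ℝ) ^ m * p.2 + (n : ℝ) * d)
    (p : ℝ × ℝ) (U : Set (ℝ × ℝ)) (hU : U ∈ 𝓝 p) :
    ∀ᶠ y in 𝓝 (F p), y ∈ range F → y ∈ F '' U := by
  have hinv : ∀ (m n : ℤ) (q : ℝ × ℝ),
      F (q.1 + (m : ℝ) * c, (-1 : ℝ) ^ m * q.2 + (n : ℝ) * d) = F q := fun m n q => by
    rw [inv_snd d F (fun p => (hper p).1), inv_fst c F (fun p => (hper p).2)]
  let W : Set (ℝ × ℝ) := ⋃ mn : ℤ × ℤ,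
    (fun q : ℝ × ℝ => ((q.1 + (mn.1 : ℝ) * c, (-1 : ℝ) ^ mn.1 * q.2 + (mn.2 : ℝ) * d) : ℝ × ℝ))
      ⁻¹' interior U
  have hW : IsOpen W := isOpen_iUnion fun mn => isOpen_interior.preimage (by fun_prop)
  have hB : IsCompact ((Icc 0 c ×ˢ Icc 0 d) \ W) := (isCompact_Icc.prod isCompact_Icc).diff hW
  have hC : IsClosed (F '' ((Icc 0 c ×ˢ Icc 0 d) \ W)) := (hB.image hF).isClosed
  have hp : F p ∉ F '' ((Icc 0 c ×ˢ Icc 0 d) \ W) := by
    rintro ⟨q, ⟨-, hq⟩, hq'⟩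
    obtain ⟨m, n, h1, h2⟩ := hinj q p hq'
    apply hq
    refine mem_iUnion.mpr ⟨(m, n), ?_⟩
    show ((q.1 + (m : ℝ) * c, (-1 : ℝ) ^ m * q.2 + (n : ℝ) * d) : ℝ × ℝ) ∈ interior U
    rw [← h1, ← h2]
    exact mem_interior_iff_mem_nhds.mpr hU
  filter_upwards [hC.isOpen_compl.mem_nhds hp] with y hy
  rintro ⟨q, rfl⟩
  obtain ⟨m, hm, -⟩ := existsUnique_add_zsmul_mem_Ico hc q.1 0
  obtain ⟨n, hn, -⟩ := existsUnique_add_zsmul_mem_Ico hd ((-1 : ℝ) ^ m * q.2) 0
  rw [zsmul_eq_mul, zero_add] at hm hn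
  set q' : ℝ × ℝ := (q.1 + (m : ℝ) * c, (-1 : ℝ) ^ m * q.2 + (n : ℝ) * d) with hq'
  have e1 : F q' = F q := hinv m n q
  by_cases hw : q' ∈ W
  · obtain ⟨mn, h⟩ := mem_iUnion.mp hw
    exact ⟨_, interior_subset h, (hinv mn.1 mn.2 q').trans e1⟩
  · exact absurd ⟨q', ⟨⟨Ico_subset_Icc_self hm, Ico_subset_Icc_self hn⟩, hw⟩, e1⟩ hy


/-- A three by three minor of the matrix with rows `u, v, w`. -/
def mi (u v w : Fin 4 → ℝ) (i j k : Fin 4) : ℝ :=
  u i * (v j * w k - v k * w j) - u j * (v i * w k - v k * w i) + u k * (v i * w j - v j * w i)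

/-- The cross product of three vectors in dimension four. -/
def cr (u v w : Fin 4 → ℝ) : Fin 4 → ℝ :=
  ![mi u v w 1 2 3, -mi u v w 0 2 3, mi u v w 0 1 3, -mi u v w 0 1 2]

theorem cr_neg (u v w : Fin 4 → ℝ) : cr u (-v) w = -cr u v w := by
  ext i
  fin_cases i <;> simp [cr, mi] <;> ring

theorem cr_cont {u v : ℝ → Fin 4 → ℝ} (hu : Continuous u) (hv : Continuous v) (w : Fin 4 → ℝ) :
    Continuous fun t => cr (u t) (v t) w := by
  refine continuous_pi fun i => ?_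
  fin_cases i <;> simp [cr, mi] <;> fun_prop

theorem mi_zero {u v w : Fin 4 → ℝ} (h : cr u v w = 0) (i j k : Fin 4) : mi u v w i j k = 0 := by
  have h0 := congrFun h 0
  have h1 := congrFun h 1
  have h2 := congrFun h 2
  have h3 := congrFun h 3
  simp only [cr, mi, Matrix.cons_val_zero, Matrix.cons_val_one, Matrix.cons_val, Pi.zero_apply]
    at h0 h1 h2 h3
  fin_cases i <;> fin_cases j <;> fin_cases k <;> simp only [mi, Fin.zero_eta, Fin.mk_one,
    Fin.reduceFinMk] <;> linarith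

theorem cr_indep {u v w : Fin 4 → ℝ} (huv : ∀ a b : ℝ, a • u + b • v = 0 → a = 0 ∧ b = 0)
    (hw : ∀ a b : ℝ, a • u + b • v ≠ w) (s t a b : ℝ)
    (h : s • u + t • v - a • w - b • cr u v w = 0) : s = 0 ∧ t = 0 ∧ a = 0 ∧ b = 0 := by
  have hne : cr u v w ≠ 0 := by
    intro h0
    have hm : ∃ i j, u i * v j - u j * v i ≠ 0 := by
      by_contra hcon
      push Not at hcon
      have hu : ∀ j, u j = 0 := fun j => by
        have := huv (v j) (-u j) (by
          ext i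
          simp only [Pi.add_apply, Pi.smul_apply, smul_eq_mul, Pi.zero_apply]
          linear_combination hcon i j)
        exact neg_eq_zero.mp this.2
      have := huv 1 0 (by
        ext i
        simp [hu i])
      exact one_ne_zero this.1
    obtain ⟨i, j, hij⟩ := hm
    apply hw ((w i * v j - w j * v i) / (u i * v j - u j * v i))
      ((u i * w j - u j * w i) / (u i * v j - u j * v i))
    ext k
    have := mi_zero h0 i j k
    simp only [mi] at this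
    simp only [Pi.add_apply, Pi.smul_apply, smul_eq_mul]
    rw [div_mul_eq_mul_div, div_mul_eq_mul_div, ← add_div, div_eq_iff hij]
    linear_combination (-1 : ℝ) * this
  have h0 := congrFun h 0
  have h1 := congrFun h 1
  have h2 := congrFun h 2
  have h3 := congrFun h 3
  simp only [Pi.add_apply, Pi.sub_apply, Pi.smul_apply, smul_eq_mul, Pi.zero_apply]
    at h0 h1 h2 h3
  have hb : b * (cr u v w 0 ^ 2 + cr u v w 1 ^ 2 + cr u v w 2 ^ 2 + cr u v w 3 ^ 2) = 0 := by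
    have e : ∀ y : Fin 4 → ℝ, y = u ∨ y = v ∨ y = w →
        y 0 * cr u v w 0 + y 1 * cr u v w 1 + y 2 * cr u v w 2 + y 3 * cr u v w 3 = 0 := by
      rintro y (rfl | rfl | rfl) <;>
        simp only [cr, mi, Matrix.cons_val_zero, Matrix.cons_val_one, Matrix.cons_val] <;> ring
    have eu := e u (Or.inl rfl)
    have ev := e v (Or.inr (Or.inl rfl))
    have ew := e w (Or.inr (Or.inr rfl))
    linear_combination s * eu + t * ev - a * ew - cr u v w 0 * h0 - cr u v w 1 * h1 -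
      cr u v w 2 * h2 - cr u v w 3 * h3
  have hb0 : b = 0 := by
    rcases mul_eq_zero.mp hb with hb | hb
    · exact hb
    · exfalso
      apply hne
      have s0 := sq_nonneg (cr u v w 0)
      have s1 := sq_nonneg (cr u v w 1)
      have s2 := sq_nonneg (cr u v w 2)
      have s3 := sq_nonneg (cr u v w 3)
      ext i
      fin_cases i
      · exact pow_eq_zero_iff (two_ne_zero) |>.mp (show cr u v w 0 ^ 2 = 0 by linarith)
      · exact pow_eq_zero_iff (two_ne_zero) |>.mp (show cr u v w 1 ^ 2 = 0 by linarith)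
      · exact pow_eq_zero_iff (two_ne_zero) |>.mp (show cr u v w 2 ^ 2 = 0 by linarith)
      · exact pow_eq_zero_iff (two_ne_zero) |>.mp (show cr u v w 3 ^ 2 = 0 by linarith)
  rw [hb0, zero_smul, sub_zero, sub_eq_zero] at h
  have ha0 : a = 0 := by
    by_contra ha
    apply hw (a⁻¹ * s) (a⁻¹ * t)
    rw [mul_smul, mul_smul, ← smul_add, h, smul_smul, inv_mul_cancel₀ ha, one_smul]
  rw [ha0, zero_smul] at h
  obtain ⟨hs, ht⟩ := huv s t h
  exact ⟨hs, ht, ha0, hb0⟩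

theorem det_ne (P Q : ℂ) (h : ∀ w : ℂ, ∃ a b : ℝ, a • P + b • Q = w) :
    P.re * Q.im - P.im * Q.re ≠ 0 := by
  intro h0
  obtain ⟨a, b, h1⟩ := h 1
  obtain ⟨a', b', h2⟩ := h I
  have r1 := congrArg re h1
  have i1 := congrArg im h1
  have r2 := congrArg re h2
  have i2 := congrArg im h2
  simp only [add_re, add_im, smul_re, smul_im, smul_eq_mul, one_re, one_im, I_re, I_im]
    at r1 i1 r2 i2
  have : (a * P.re + b * Q.re) * (a' * P.im + b' * Q.im) -
      (a * P.im + b * Q.im) * (a' * P.re + b' * Q.re) = 0 := by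
    linear_combination (a * b' - a' * b) * h0
  rw [r1, i1, r2, i2] at this
  norm_num at this

theorem lin_apply {E : Type*} [NormedAddCommGroup E] [NormedSpace ℝ E] (T : ℝ × ℝ →L[ℝ] E)
    (δ : ℝ × ℝ) : T δ = δ.1 • T (1, 0) + δ.2 • T (0, 1) := by
  rw [← map_smul, ← map_smul, ← map_add]
  congr 1
  ext <;> simp

end LD

open Complex Set Filter Topology LD in
/-- An embedded Klein bottle in `ℝ^4` is not the zero set of a `C^1` map to the plane
whose derivative is onto at one of its points. -/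
theorem no_regular_cut (c d : ℝ) (hc : 0 < c) (hd : 0 < d) (F : ℝ × ℝ → (Fin 4 → ℝ))
    (hF : ContDiff ℝ 2 F)
    (hper : ∀ p : ℝ × ℝ, F (p.1, p.2 + d) = F p ∧ F (p.1 + c, -p.2) = F p)
    (himm : ∀ p : ℝ × ℝ, Function.Injective (fderiv ℝ F p))
    (hinj : ∀ p q : ℝ × ℝ, F p = F q →
      ∃ m n : ℤ, q.1 = p.1 + (m : ℝ) * c ∧ q.2 = (-1 : ℝ) ^ m * p.2 + (n : ℝ) * d)
    (G : (Fin 4 → ℝ) → ℝ × ℝ) (hG : ContDiff ℝ 1 G)
    (hzero : ∀ x, G x = 0 ↔ x ∈ Set.range F)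
    (z₀ : ℝ × ℝ) (hsurj : Function.Surjective (fderiv ℝ G (F z₀))) : False := by
  have hF1 : ContDiff ℝ 1 F := hF.of_le (by norm_num)
  have hFd : Differentiable ℝ F := hF1.differentiable one_ne_zero
  have hDF : ContDiff ℝ 1 (fderiv ℝ F) := hF.fderiv_right (by norm_num)
  let z : ℝ → ℝ × ℝ := fun τ => (z₀.1 + τ * c, (1 - 2 * τ) * z₀.2)
  have hz : ContDiff ℝ 1 z := by
    refine ContDiff.prodMk ?_ ?_ <;> fun_prop
  have hz0 : z 0 = z₀ := by simp [z]
  have hz1 : z 1 = (z₀.1 + c, -z₀.2) := by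
    refine Prod.ext ?_ ?_ <;> simp only [z] <;> ring
  have hΦ : ContDiff ℝ 1 fun w : ℝ × (ℝ × ℝ) => fderiv ℝ F (z w.1) w.2 :=
    (hDF.comp (hz.comp contDiff_fst)).clm_apply contDiff_snd
  obtain ⟨ξ, hξ⟩ := (hΦ.dense_compl_range_of_finrank_lt_finrank (by simp)).nonempty
  let u : ℝ → Fin 4 → ℝ := fun τ => fderiv ℝ F (z τ) (1, 0)
  let v : ℝ → Fin 4 → ℝ := fun τ => fderiv ℝ F (z τ) (0, 1)
  have hu : Continuous u := (hDF.continuous.comp hz.continuous).clm_apply continuous_const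
  have hv : Continuous v := (hDF.continuous.comp hz.continuous).clm_apply continuous_const
  let η : ℝ → Fin 4 → ℝ := fun τ => cr (u τ) (v τ) ξ
  have hη : Continuous η := cr_cont hu hv ξ
  have hind : ∀ (τ : ℝ) (δ : ℝ × ℝ) (a b : ℝ),
      fderiv ℝ F (z τ) δ - a • ξ - b • η τ = 0 → δ = 0 ∧ a = 0 ∧ b = 0 := by
    intro τ δ a b h
    rw [lin_apply] at h
    obtain ⟨h1, h2, h3, h4⟩ := cr_indep (u := u τ) (v := v τ) (w := ξ)
      (fun a b hab => by
        have h5 : fderiv ℝ F (z τ) (a, b) = fderiv ℝ F (z τ) 0 := by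
          rw [lin_apply, map_zero]
          exact hab
        exact Prod.ext_iff.mp (himm _ h5))
      (fun a b hab => hξ ⟨(τ, (a, b)), by
        show fderiv ℝ F (z τ) (a, b) = ξ
        rw [lin_apply]
        exact hab⟩) δ.1 δ.2 a b h
    exact ⟨Prod.ext h1 h2, h3, h4⟩
  have htube := tube F hF1 z hz.continuous η hη ξ hind
    (proper c d hc hd F hF.continuous hper hinj)
  have hflip : ∀ δ : ℝ × ℝ, fderiv ℝ F (z 1) (δ.1, -δ.2) = fderiv ℝ F z₀ δ := by
    intro δ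
    let S : ℝ × ℝ →L[ℝ] ℝ × ℝ := (ContinuousLinearMap.fst ℝ ℝ ℝ).prod (-ContinuousLinearMap.snd ℝ ℝ ℝ)
    have hσ : HasFDerivAt (fun p : ℝ × ℝ => ((p.1 + c, -p.2) : ℝ × ℝ)) S z₀ :=
      (hasFDerivAt_fst.add_const c).prodMk hasFDerivAt_snd.neg
    have h1 := (hFd (z₀.1 + c, -z₀.2)).hasFDerivAt.comp z₀ hσ
    have h2 : F ∘ (fun p : ℝ × ℝ => ((p.1 + c, -p.2) : ℝ × ℝ)) = F := funext fun p => (hper p).2
    rw [h2] at h1
    rw [h1.fderiv, hz1]
    rfl
  have hu1 : u 1 = u 0 := by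
    have := hflip (1, 0)
    simp only [neg_zero] at this
    simp only [u, hz0, this]
  have hv1 : v 1 = -v 0 := by
    have := hflip (0, -1)
    simp only [neg_neg] at this
    simp only [v, hz0, this]
    rw [← map_neg]
    congr 1
    ext <;> simp
  have hη1 : η 1 = -η 0 := by
    simp only [η, hu1, hv1, cr_neg]
  let J : ℝ × ℝ →L[ℝ] ℂ := equivRealProdCLM.symm
  have hJ : ∀ w, J w = 0 ↔ w = 0 := fun w => equivRealProdCLM.symm.map_eq_zero_iff
  have hGd : HasFDerivAt G (fderiv ℝ G (F z₀)) (F z₀) :=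
    (hG.differentiable one_ne_zero _).hasFDerivAt
  have hkill : ∀ δ, fderiv ℝ G (F z₀) (fderiv ℝ F z₀ δ) = 0 := by
    intro δ
    have h1 := hGd.comp z₀ (hFd z₀).hasFDerivAt
    have h2 : G ∘ F = fun _ => 0 := funext fun p => (hzero _).mpr ⟨p, rfl⟩
    rw [h2] at h1
    have h3 := h1.unique (hasFDerivAt_const 0 z₀)
    exact congrArg (fun T : ℝ × ℝ →L[ℝ] ℝ × ℝ => T δ) h3
  let Λ : ((ℝ × ℝ) × (ℝ × ℝ)) →ₗ[ℝ] (Fin 4 → ℝ) :=
    { toFun := fun w => fderiv ℝ F (z 0) w.1 - w.2.1 • ξ - w.2.2 • η 0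
      map_add' := by
        intro v w
        simp only [Prod.fst_add, Prod.snd_add, map_add, add_smul]
        abel
      map_smul' := by
        intro r w
        simp only [Prod.smul_fst, Prod.smul_snd, map_smul, smul_eq_mul, RingHom.id_apply,
          smul_sub, mul_smul] }
  have hΛi : Function.Injective Λ := by
    rw [← LinearMap.ker_eq_bot, LinearMap.ker_eq_bot']
    intro w hw
    obtain ⟨h1, h2, h3⟩ := hind 0 w.1 w.2.1 w.2.2 hw
    exact Prod.ext h1 (Prod.ext h2 h3)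
  have hΛs : Function.Surjective Λ :=
    (LinearMap.injective_iff_surjective_of_finrank_eq_finrank (by simp)).mp hΛi
  refine core (fun x => J (G x)) (J.continuous.comp hG.continuous) (fun τ => F (z τ)) η
    (hF.continuous.comp hz.continuous) hη ξ ?_ hη1 (J.comp (fderiv ℝ G (F z₀))) ?_ ?_ ?_ ?_
  · simp only [hz0, hz1]
    exact (hper z₀).2
  · simp only [hz0]
    exact J.hasFDerivAt.comp _ hGd
  · rw [hJ, hzero]
    exact ⟨_, rfl⟩
  · apply det_ne
    intro w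
    obtain ⟨y, hy⟩ := hsurj (equivRealProdCLM w)
    obtain ⟨t, rfl⟩ := hΛs y
    refine ⟨-t.2.1, -t.2.2, ?_⟩
    have h1 : Λ t = fderiv ℝ F (z 0) t.1 - t.2.1 • ξ - t.2.2 • η 0 := rfl
    rw [h1, hz0, map_sub, map_sub, hkill, map_smul, map_smul] at hy
    have h2 : w = J (equivRealProdCLM w) := (equivRealProdCLM.symm_apply_apply w).symm
    rw [h2, ← hy]
    simp only [ContinuousLinearMap.comp_apply, map_sub, map_smul, map_zero, neg_smul]
    abel
  · filter_upwards [htube] with ab hab τ hτ h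
    rw [hJ, hzero] at h
    exact hab τ hτ h

end Pool.Agent.Lib.MP_886b5a_gt
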