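import Pool.Agent.Lib.MP_886b5a_gt.SetupMain
import Pool.Agent.Lib.MP_886b5a_gt.LocalDegree
import Pool.Agent.Lib.MP_886b5a_gt.BExists
import Pool.Agent.Lib.MP_886b5a_gt.CaseB0
import Pool.Agent.Lib.MP_886b5a_gt.CaseB1a
import Pool.Agent.Lib.MP_886b5a_gt.B1c
import Pool.Agent.Lib.MP_886b5a_gt.CaseB2
import Pool.Agent.Lib.MP_886b5a_gt.CaseD3

set_option autoImplicit false
set_option linter.unusedSectionVars false

namespace Pool.Agent.Lib.MP_886b5a_gt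

open MvPolynomial Module

section
variable {K : Type*} {L : Type*} [Field K] [Algebra A K] [IsFractionRing A K] [Field L]
  [Algebra A L] [Algebra K L] [IsScalarTower A K L]
variable {Z : Set Pt} {U V : L} {f₁ f₂ : R} {g₁ g₂ : Fin 4 → ℝ}

theorem no_model (hG : Geo Z f₁ f₂ g₁ g₂) (hM : Model K Z U V) : False := by
  let q : (Fin 3 → K) →ₗ[K] L ⧸ F1 K U V :=
    (F1 K U V).mkQ ∘ₗ Fintype.linearCombination K ![U ^ 2, U * V, V ^ 2]
  have hq : ∀ c, c ∈ LinearMap.ker q ↔ c 0 • U ^ 2 + c 1 • (U * V) + c 2 • V ^ 2 ∈ F1 K U V :=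
    fun c => by
      rw [LinearMap.mem_ker, ← Submodule.Quotient.mk_eq_zero]
      simp [q, Fintype.linearCombination_apply, Fin.sum_univ_three]
  have hr := q.finrank_range_add_finrank_ker
  rw [Module.finrank_fin_fun] at hr
  obtain h0 | h1 | h2 : finrank K (LinearMap.ker q) = 0 ∨ finrank K (LinearMap.ker q) = 1 ∨
      finrank K (LinearMap.range q) ≤ 1 := by omega
  · refine caseD hG hM fun c hc => ?_
    rw [Submodule.finrank_eq_zero] at h0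
    simpa [h0] using (hq c).2 hc
  · obtain ⟨⟨h, hh⟩, hne, hall⟩ := finrank_eq_one_iff'.1 h1
    refine caseC hG hM h (fun h0 => hne (Subtype.ext h0)) fun c => ⟨fun hc => ?_, ?_⟩
    · obtain ⟨t, ht⟩ := hall ⟨c, (hq c).2 hc⟩
      exact ⟨t, (congrArg Subtype.val ht).symm⟩
    · rintro ⟨t, rfl⟩
      exact (hq _).1 (Submodule.smul_mem _ t hh)
  · obtain ⟨⟨v, hv⟩, hall⟩ := finrank_le_one_iff.1 h2
    obtain ⟨e, rfl⟩ := (F1 K U V).mkQ_surjective v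
    choose S₀ hS₀ using fun l => hall ⟨q (Pi.single l 1), ⟨_, rfl⟩⟩
    obtain ⟨ρ, S, k, hB⟩ := exists_BData hG hM e S₀ fun l => by
      have h1 : S₀ l • (F1 K U V).mkQ e = q (Pi.single l 1) := congrArg Subtype.val (hS₀ l)
      rw [← Submodule.Quotient.eq]
      change _ = (F1 K U V).mkQ (S₀ l • e)
      rw [map_smul, h1]
      fin_cases l <;> simp [q, m2]
    obtain rfl | rfl | hk : k = 0 ∨ k = 1 ∨ 2 ≤ k := by omega
    · exact caseB0 hG hM hB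
    · obtain ⟨e, a₁, a₂, s, pu, pv, h₀, h₁, h₂, h₃, h₄, h₅, h₆, h₇, h₈⟩ := exists_B1 hG hM hB
      exact B1c.main hG hM hB e a₁ a₂ s pu pv h₀ h₁ h₂ h₃ h₄ h₅ h₆ h₇ h₈
    · exact caseB2 hG hM hB hk

end

/-- No smoothly embedded Klein bottle in four-space is cut out by cubics. -/
theorem no_cubic_klein (c d : ℝ) (hc : 0 < c) (hd : 0 < d) (F : ℝ × ℝ → (Fin 4 → ℝ))
    (hF : ContDiff ℝ ((⊤ : ℕ∞) : WithTop ℕ∞) F)
    (hper : ∀ p : ℝ × ℝ, F (p.1, p.2 + d) = F p ∧ F (p.1 + c, -p.2) = F p)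
    (himm : ∀ p : ℝ × ℝ, Function.Injective (fderiv ℝ F p))
    (hinj : ∀ p q : ℝ × ℝ, F p = F q →
      ∃ m n : ℤ, q.1 = p.1 + (m : ℝ) * c ∧ q.2 = (-1 : ℝ) ^ m * p.2 + (n : ℝ) * d)
    (S : Finset (MvPolynomial (Fin 4) ℝ)) (hS : ∀ P ∈ S, P.totalDegree ≤ 3) :
    Set.range F ≠ {x : Fin 4 → ℝ | ∀ P ∈ S, MvPolynomial.eval x P = 0} := fun hrange => by
  obtain ⟨Z, f₁, f₂, g₁, g₂, hG⟩ :=
    SU.exists_geo_of c d hc hd F hF hper himm hinj S hS hrange fun G hG hzero z₀ hs =>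
      no_regular_cut c d hc hd F (hF.of_le (WithTop.coe_le_coe.2 (le_top (a := (2 : ℕ∞))))) hper
        himm hinj G hG hzero z₀ hs
  exact exists_model' hG fun L _ _ _ _ U V hM => no_model hG hM

end Pool.Agent.Lib.MP_886b5a_gt
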