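import Pool.Agent.Lib.MP_886b5a_gt.Field

set_option autoImplicit false
set_option linter.unusedSectionVars false

namespace Pool.Agent.Lib.MP_886b5a_gt

open MvPolynomial Module

lemma exists_root_odd {p : Polynomial ℝ} (hm : p.Monic) (ho : Odd p.natDegree) :
    ∃ x, p.eval x = 0 := by
  have hpos : 0 < p.degree := Polynomial.natDegree_pos_iff_degree_pos.1 ho.pos
  have h1 := p.tendsto_atTop_of_leadingCoeff_nonneg hpos (by simp [hm.leadingCoeff])
  have h2 := (p.comp (-Polynomial.X)).tendsto_atBot_of_leadingCoeff_nonpos (by simp [hpos])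
    (by rw [Polynomial.leadingCoeff_comp (by simp), hm.leadingCoeff]; simp [ho.neg_one_pow])
  have h3 : Filter.Tendsto (fun x => p.eval x) Filter.atBot Filter.atBot := by
    have := h2.comp Filter.tendsto_neg_atBot_atTop
    simpa [Function.comp_def] using this
  exact p.continuous.surjective h1 h3 0

lemma exists_eval_ne_zero {a : A} (ha : a ≠ 0) (s : Fin 3 → Set ℝ) (hs : ∀ i, (s i).Infinite) :
    ∃ y, (∀ i, y i ∈ s i) ∧ eval y a ≠ 0 := by
  by_contra h
  push Not at h
  exact ha (funext_set s hs fun x hx => by simpa using h x fun i => hx i trivial)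

variable {K : Type*} {L : Type*} [Field K] [Algebra A K] [IsFractionRing A K] [Field L]
  [Algebra A L] [Algebra K L] [IsScalarTower A K L]
variable {Z : Set Pt} {U V : L} {f₁ f₂ : R} {g₁ g₂ : Fin 4 → ℝ}

lemma Geo.X1_notMem (hG : Geo Z f₁ f₂ g₁ g₂) : (X 1 : R) ∉ van Z := fun h => by
  obtain ⟨c, hc⟩ := hG.bdd
  have : C (X 0 : A) ∈ van Z := fun p hp => by
    have h1 : p.2 1 = 0 := by simpa using h p hp
    have h2 := hc p hp
    rw [h1, abs_zero, mul_zero] at h2
    have : p = 0 := norm_le_zero_iff.1 h2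
    simp [this]
  exact X_ne_zero _ (hG.dom _ this)

lemma Model.V_ne_zero (hG : Geo Z f₁ f₂ g₁ g₂) (hM : Model K Z U V) : V ≠ 0 := fun h =>
  hG.X1_notMem ((hM.ker _).1 (by simpa using h))

lemma exists_poly_repr (θ : L) (x : L) (hx : x ∈ Algebra.adjoin K {θ}) :
    ∃ D : A, D ≠ 0 ∧ ∃ W : Polynomial A, Polynomial.aeval θ W = algebraMap A L D * x := by
  rw [Algebra.adjoin_singleton_eq_range_aeval] at hx
  obtain ⟨p, rfl⟩ := hx
  obtain ⟨b, hb, e⟩ := IsLocalization.integerNormalization_spec (nonZeroDivisors A) p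
  refine ⟨b, nonZeroDivisors.ne_zero hb, IsLocalization.integerNormalization (nonZeroDivisors A) p,
    ?_⟩
  rw [← Polynomial.aeval_map_algebraMap K, e, ← IsScalarTower.algebraMap_smul K b p, map_smul,
    Algebra.smul_def, ← IsScalarTower.algebraMap_apply]
  rfl

lemma Model.even (hG : Geo Z f₁ f₂ g₁ g₂) (hM : Model K Z U V) : Even (finrank K L) := by
  have := hM.finite hG
  have : CharZero K := charZero_K
  have : FaithfulSMul A L := (faithfulSMul_iff_algebraMap_injective A L).2 (inj_AL K)
  by_contra hodd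
  rw [Nat.not_even_iff_odd] at hodd
  obtain ⟨θ₀, hθ₀⟩ := Field.exists_primitive_element K L
  have halg : IsAlgebraic A θ₀ := (IsFractionRing.isAlgebraic_iff A K L).2 (.of_finite K θ₀)
  obtain ⟨a, ha, hint⟩ := halg.exists_integral_multiple
  set θ := a • θ₀ with hθ
  have ha' : algebraMap A K a ≠ 0 := fun h =>
    ha ((injective_iff_map_eq_zero _).1 (IsFractionRing.injective A K) a h)
  have htop : IntermediateField.adjoin K {θ} = ⊤ := by
    rw [eq_top_iff, ← hθ₀, IntermediateField.adjoin_simple_le_iff]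
    have : θ₀ = (algebraMap A K a)⁻¹ • θ := by
      rw [hθ, ← IsScalarTower.algebraMap_smul K a θ₀, smul_smul, inv_mul_cancel₀ ha', one_smul]
    rw [this]
    exact IntermediateField.smul_mem _ (IntermediateField.mem_adjoin_simple_self K θ)
  have hall : ∀ x : L, x ∈ Algebra.adjoin K {θ} := fun x => by
    rw [← IntermediateField.adjoin_simple_toSubalgebra_of_isAlgebraic (.of_finite K θ), htop]
    trivial
  have hdeg : (minpoly A θ).natDegree = finrank K L := by
    rw [← (Field.primitive_element_iff_minpoly_natDegree_eq K θ).1 htop,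
      minpoly.isIntegrallyClosed_eq_field_fractions' K hint, (minpoly.monic hint).natDegree_map]
  obtain ⟨D₁, hD₁, W₁, hW₁⟩ := exists_poly_repr (K := K) θ U (hall U)
  obtain ⟨D₂, hD₂, W₂, hW₂⟩ := exists_poly_repr (K := K) θ V (hall V)
  set D := D₁ * D₂ with hD
  let pt : (Fin 3 → ℝ) → ℝ → Pt := fun y τ =>
    (y, ![(W₁.map (eval y)).eval τ / eval y D₁, (W₂.map (eval y)).eval τ / eval y D₂])
  have key : ∀ f : R, ∃ (n : ℕ) (W : Polynomial A),
      Polynomial.aeval θ W = algebraMap A L D ^ n * pi U V f ∧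
      ∀ y τ, eval y D ≠ 0 → (W.map (eval y)).eval τ = eval y D ^ n * ev (pt y τ) f := by
    intro f
    induction f using MvPolynomial.induction_on with
    | C a => exact ⟨0, Polynomial.C a, by simp, fun y τ _ => by simp [pt]⟩
    | add p q hp hq =>
      obtain ⟨n, W, h1, h2⟩ := hp
      obtain ⟨k, W', h1', h2'⟩ := hq
      refine ⟨n + k, Polynomial.C (D ^ k) * W + Polynomial.C (D ^ n) * W', ?_, fun y τ hy => ?_⟩
      · simp only [map_add, map_mul, Polynomial.aeval_C, map_pow, h1, h1']; ring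
      · simp only [Polynomial.map_add, Polynomial.map_mul, Polynomial.map_C, Polynomial.eval_add,
          Polynomial.eval_mul, Polynomial.eval_C, map_pow, h2 y τ hy, h2' y τ hy, map_add,
          Polynomial.map_pow, Polynomial.eval_pow]
        ring
    | mul_X p j hp =>
      obtain ⟨n, W, h1, h2⟩ := hp
      fin_cases j
      · refine ⟨n + 1, W * (Polynomial.C D₂ * W₁), ?_, fun y τ hy => ?_⟩
        · simp only [map_mul, Polynomial.aeval_C, h1, hW₁, hD, Fin.zero_eta, pi_X0]; ring
        · have hy1 : eval y D₁ ≠ 0 := fun h => hy (by simp [hD, h])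
          simp only [Polynomial.map_mul, Polynomial.map_C, Polynomial.eval_mul, Polynomial.eval_C,
            h2 y τ hy, map_mul, ev_X, pt, Fin.zero_eta, Matrix.cons_val_zero]
          rw [pow_succ, hD, map_mul]
          field_simp
      · refine ⟨n + 1, W * (Polynomial.C D₁ * W₂), ?_, fun y τ hy => ?_⟩
        · simp only [map_mul, Polynomial.aeval_C, h1, hW₂, hD, Fin.mk_one, pi_X1]; ring
        · have hy1 : eval y D₂ ≠ 0 := fun h => hy (by simp [hD, h])
          simp only [Polynomial.map_mul, Polynomial.map_C, Polynomial.eval_mul, Polynomial.eval_C,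
            h2 y τ hy, map_mul, ev_X, pt, Fin.mk_one, Matrix.cons_val_one, Matrix.cons_val_zero]
          rw [pow_succ, hD, map_mul]
          field_simp
  have hVint : IsIntegral A V := by simpa using hM.isIntegral hG (X 1)
  have hn0 : (minpoly A V).coeff 0 ≠ 0 := fun h => by
    have := minpoly.coeff_zero_ne_zero (A := K) (IsIntegral.of_finite K V) (hM.V_ne_zero hG)
    rw [minpoly.isIntegrallyClosed_eq_field_fractions' K hVint, Polynomial.coeff_map, h,
      map_zero] at this
    exact this rfl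
  have hVmem : Polynomial.aeval (X 1 : R) (minpoly A V) ∈ van Z := by
    rw [← hM.ker, ← Polynomial.aeval_algHom_apply, pi_X1, minpoly.aeval]
  obtain ⟨c, hc⟩ := hG.far
  obtain ⟨y, hy, hne⟩ := exists_eval_ne_zero (mul_ne_zero (mul_ne_zero hD₁ hD₂) hn0)
    ![Set.Ioo 0 1, Set.Ioi |c|, Set.univ] (by
      intro i; fin_cases i
      · exact Set.Ioo_infinite (by norm_num)
      · exact Set.Ioi_infinite _
      · exact Set.infinite_univ)
  rw [map_mul] at hne
  have hyD : eval y D ≠ 0 := left_ne_zero_of_mul hne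
  obtain ⟨τ, hτ⟩ := exists_root_odd ((minpoly.monic hint).map (eval y))
    (by rw [(minpoly.monic hint).natDegree_map, hdeg]; exact hodd)
  have hvan : ∀ f ∈ van Z, ev (pt y τ) f = 0 := fun f hf => by
    obtain ⟨n, W, h1, h2⟩ := key f
    rw [(hM.ker f).2 hf, mul_zero] at h1
    obtain ⟨W', rfl⟩ := minpoly.isIntegrallyClosed_dvd hint h1
    have := h2 y τ hyD
    rw [Polynomial.map_mul, Polynomial.eval_mul, hτ, zero_mul] at this
    exact (mul_eq_zero.1 this.symm).resolve_left (pow_ne_zero _ hyD)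
  have hv0 : (pt y τ).2 1 ≠ 0 := fun h => by
    have h1 := hvan _ hVmem
    rw [Polynomial.aeval_def, Polynomial.hom_eval₂, ev_X, h, Polynomial.eval₂_at_zero] at h1
    exact right_ne_zero_of_mul hne (by simpa [pt] using h1)
  have hZ := hc _ (hG.cut _ hv0 fun f hf _ => hvan f hf)
  have y0 : y 0 ∈ Set.Ioo (0 : ℝ) 1 := hy 0
  have y1 : y 1 ∈ Set.Ioi |c| := hy 1
  simp only [pt] at hZ
  rw [abs_of_pos y0.1, abs_of_pos (lt_of_le_of_lt (abs_nonneg c) y1)] at hZ
  have := le_abs_self c
  have := abs_nonneg c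
  have := Set.mem_Ioi.1 y1
  nlinarith [y0.1, y0.2]

end Pool.Agent.Lib.MP_886b5a_gt
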