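import Mathlib

set_option autoImplicit false

namespace Pool.Agent.Lib.MP_886b5a_gt

namespace PP

open Set

/-- Projection of a closed relation along a compact set is closed. -/
theorem closed_proj {X W : Type*} [TopologicalSpace X] [TopologicalSpace W] {K : Set W}
    (hK : IsCompact K) {R : Set (X × W)} (hR : IsClosed R) :
    IsClosed {x | ∃ w ∈ K, (x, w) ∈ R} := by
  have : CompactSpace K := isCompact_iff_compactSpace.mp hK
  have h1 : IsClosed ((fun q : X × K => (q.1, (q.2 : W))) ⁻¹' R) :=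
    hR.preimage (continuous_fst.prodMk (continuous_subtype_val.comp continuous_snd))
  have h2 := isClosedMap_fst_of_compactSpace _ h1
  convert h2 using 1
  ext x
  constructor
  · rintro ⟨w, hw, h⟩
    exact ⟨(x, ⟨w, hw⟩), h, rfl⟩
  · rintro ⟨⟨x', w⟩, h, rfl⟩
    exact ⟨w, w.2, h⟩

/-- A function read off from a closed relation with compact second factor is continuous. -/
theorem cont_of_rel {X W Z : Type*} [TopologicalSpace X] [TopologicalSpace W]
    [TopologicalSpace Z] {K : Set W} (hK : IsCompact K) {R : Set (X × W)} (hR : IsClosed R)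
    {g : W → Z} (hg : Continuous g) {f : X → Z} (hex : ∀ x, ∃ w ∈ K, (x, w) ∈ R)
    (hf : ∀ x, ∀ w ∈ K, (x, w) ∈ R → f x = g w) : Continuous f := by
  rw [continuous_iff_isClosed]
  intro C hC
  have h := closed_proj (hK.inter_right (hC.preimage hg)) hR
  convert h using 1
  ext x
  constructor
  · intro hx
    obtain ⟨w, hw, hr⟩ := hex x
    refine ⟨w, ⟨hw, ?_⟩, hr⟩
    show g w ∈ C
    rw [← hf x w hw hr]; exact hx
  · rintro ⟨w, ⟨hw, hw'⟩, hr⟩
    show f x ∈ C
    rw [hf x w hw hr]; exact hw'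

/-- Parametrisation of the closed upper half space by the plane. -/
noncomputable def Y (w : ℝ × ℝ) : Fin 3 → ℝ := ![w.1, w.2, max (1 - |w.1| - |w.2|) 0]

/-- The normalising factor. -/
noncomputable def sz (y : Fin 3 → ℝ) : ℝ := |y 0| + |y 1| + y 2

/-- Section of `Y` up to positive scalars. -/
noncomputable def sg (y : Fin 3 → ℝ) : ℝ × ℝ := (y 0 / sz y, y 1 / sz y)

/-- The punctured closed upper half space. -/
def H : Set (Fin 3 → ℝ) := {y | y ≠ 0 ∧ 0 ≤ y 2}

theorem Y_cont : Continuous Y := by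
  unfold Y
  refine continuous_pi fun i => ?_
  fin_cases i
  · simpa using continuous_fst
  · simpa using continuous_snd
  · simp only [Fin.reduceFinMk, Matrix.cons_val]
    fun_prop

theorem Y_ne (w : ℝ × ℝ) : Y w ≠ 0 := by
  intro h
  have h0 := congrFun h 0
  have h1 := congrFun h 1
  have h2 := congrFun h 2
  simp [Y] at h0 h1 h2
  rw [h0, h1] at h2
  norm_num at h2

theorem Y_mem (w : ℝ × ℝ) : Y w ∈ H := ⟨Y_ne w, by simp [Y]⟩

theorem sz_pos {y : Fin 3 → ℝ} (hy : y ∈ H) : 0 < sz y := by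
  obtain ⟨h1, h2⟩ := hy
  unfold sz
  by_contra hcon
  push Not at hcon
  have a0 := abs_nonneg (y 0)
  have a1 := abs_nonneg (y 1)
  have e0 : |y 0| = 0 := by linarith
  have e1 : |y 1| = 0 := by linarith
  have e2 : y 2 = 0 := by linarith
  apply h1
  funext i
  fin_cases i
  · simpa using e0
  · simpa using e1
  · simpa using e2

theorem sg_abs {y : Fin 3 → ℝ} (hy : y ∈ H) :
    1 - |(sg y).1| - |(sg y).2| = y 2 / sz y := by
  have hs := sz_pos hy
  simp only [sg, abs_div, abs_of_pos hs]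
  field_simp
  unfold sz
  ring

theorem Y_sg {y : Fin 3 → ℝ} (hy : y ∈ H) : Y (sg y) = (sz y)⁻¹ • y := by
  have hs := sz_pos hy
  funext i
  fin_cases i
  · simp [Y, sg, div_eq_inv_mul]
  · simp [Y, sg, div_eq_inv_mul]
  · have h := sg_abs hy
    have h2 : 0 ≤ y 2 / sz y := div_nonneg hy.2 hs.le
    simp only [Y, Fin.reduceFinMk, Matrix.cons_val, Pi.smul_apply, smul_eq_mul]
    rw [h, max_eq_left h2, div_eq_inv_mul]

theorem sg_contOn : ContinuousOn sg H := by
  have hsz : Continuous sz := by unfold sz; fun_prop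
  refine ContinuousOn.prodMk ?_ ?_
  · exact (continuous_apply 0).continuousOn.div hsz.continuousOn fun y hy => (sz_pos hy).ne'
  · exact (continuous_apply 1).continuousOn.div hsz.continuousOn fun y hy => (sz_pos hy).ne'

theorem sg_mem {y : Fin 3 → ℝ} (hy : y ∈ H) : sg y ∈ Icc (-1 : ℝ) 1 ×ˢ Icc (-1 : ℝ) 1 := by
  have h := sg_abs hy
  have h2 : 0 ≤ y 2 / sz y := div_nonneg hy.2 (sz_pos hy).le
  have a0 := abs_nonneg (sg y).1
  have a1 := abs_nonneg (sg y).2
  exact ⟨abs_le.mp (by linarith), abs_le.mp (by linarith)⟩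

/-- The topological core. -/
theorem core (c : ℝ) (hc : 0 < c) (A : (Fin 3 → ℝ) → ℝ × ℝ → Prop)
    (hcl : IsClosed {q : (Fin 3 → ℝ) × (ℝ × ℝ) | A q.1 q.2})
    {K : Set (ℝ × ℝ)} (hK : IsCompact K) (hex : ∀ y, y ≠ 0 → ∃ z ∈ K, A y z)
    (huniq : ∀ y z z', y ≠ 0 → A y z → A y z' → (z.1 : AddCircle c) = (z'.1 : AddCircle c))
    (hlin : ∀ y y' z (a b : ℝ), A y z → A y' z → A (a • y + b • y') z)
    (hsurj : ∀ s : ℝ, ∃ y, y ≠ 0 ∧ A y (s, 0))
    (hend : ∀ y, A y (c, 0) → A y (0, 0)) : False := by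
  classical
  have hsmul : ∀ y z (a : ℝ), A y z → A (a • y) z := by
    intro y z a h
    simpa using hlin y y z a 0 h h
  have cov := AddCircle.isCoveringMap_coe c
  choose! zz hzK hzA using hex
  let chi : ℝ × ℝ → AddCircle c := fun w => ((zz (Y w)).1 : AddCircle c)
  have hchi : ∀ w z, A (Y w) z → chi w = (z.1 : AddCircle c) := fun w z h =>
    huniq _ _ _ (Y_ne w) (hzA _ (Y_ne w)) h
  have hchic : Continuous chi := by
    refine cont_of_rel (R := {q : (ℝ × ℝ) × (ℝ × ℝ) | A (Y q.1) q.2}) hK ?_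
      (g := fun z : ℝ × ℝ => (z.1 : AddCircle c)) ?_ ?_ ?_
    · exact hcl.preimage ((Y_cont.comp continuous_fst).prodMk continuous_snd)
    · exact cov.continuous.comp continuous_fst
    · intro w
      exact ⟨zz (Y w), hzK _ (Y_ne w), hzA _ (Y_ne w)⟩
    · intro w z _ h
      exact hchi w z h
  obtain ⟨th, ⟨-, hth⟩, -⟩ := cov.existsUnique_continuousMap_lifts ⟨chi, hchic⟩ (0 : ℝ × ℝ)
    (zz (Y 0)).1 rfl
  have hth' : ∀ w, ((th w : ℝ) : AddCircle c) = chi w := fun w => congrFun hth w
  let T : (Fin 3 → ℝ) → ℝ := fun y => th (sg y)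
  have hTc : ContinuousOn T H := th.continuous.comp_continuousOn sg_contOn
  have hT : ∀ y ∈ H, ∀ z, A y z → ((T y : ℝ) : AddCircle c) = (z.1 : AddCircle c) := by
    intro y hy z h
    show ((th (sg y) : ℝ) : AddCircle c) = _
    rw [hth', hchi _ z]
    rw [Y_sg hy]
    exact hsmul _ _ _ h
  -- antipodal invariance on the equator
  have hanti : ∀ y ∈ H, y 2 = 0 → T (-y) = T y := by
    let e : ℝ × ℝ → (Fin 3 → ℝ) := fun w => ![w.1, w.2, 0]
    have hec : Continuous e := by
      refine continuous_pi fun i => ?_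
      fin_cases i
      · simpa [e] using continuous_fst
      · simpa [e] using continuous_snd
      · simpa [e] using continuous_const
    have heneg : ∀ w, e (-w) = - e w := by
      intro w
      funext i
      fin_cases i <;> simp [e]
    have heH : ∀ w, w ≠ 0 → e w ∈ H := by
      intro w hw
      refine ⟨?_, by simp [e]⟩
      intro h
      apply hw
      have h0 := congrFun h 0
      have h1 := congrFun h 1
      simp [e] at h0 h1
      exact Prod.ext h0 h1
    have hconn : IsPreconnected ({0}ᶜ : Set (ℝ × ℝ)) := by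
      refine (isConnected_compl_singleton_of_one_lt_rank ?_ _).isPreconnected
      rw [← Module.finrank_eq_rank]
      simp
    let g : ℝ × ℝ → ℝ := fun w => T (e (-w)) - T (e w)
    have hgc : ContinuousOn g {0}ᶜ := by
      refine ContinuousOn.sub ?_ ?_
      · refine hTc.comp (hec.comp continuous_neg).continuousOn ?_
        intro w hw
        exact heH _ (neg_ne_zero.mpr hw)
      · refine hTc.comp hec.continuousOn ?_
        intro w hw
        exact heH _ hw
    have hg0 : ∀ w ∈ ({0}ᶜ : Set (ℝ × ℝ)), ((g w : ℝ) : AddCircle c) = 0 := by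
      intro w hw
      have hw' : w ≠ 0 := hw
      have h1 := hzA _ (heH w hw').1
      have h2 : A (e (-w)) (zz (e w)) := by
        rw [heneg]
        simpa using hsmul _ _ (-1) h1
      show (((T (e (-w)) - T (e w) : ℝ)) : AddCircle c) = 0
      rw [AddCircle.coe_sub, hT _ (heH _ (neg_ne_zero.mpr hw')) _ h2, hT _ (heH _ hw') _ h1,
        sub_self]
    intro y hy hy2
    have hye : e (y 0, y 1) = y := by
      funext i
      fin_cases i
      · simp [e]
      · simp [e]
      · simp [e, hy2]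
    have hw : ((y 0, y 1) : ℝ × ℝ) ≠ 0 := by
      intro h
      apply hy.1
      rw [← hye, h]
      funext i
      fin_cases i <;> simp [e]
    have hgg : g (y 0, y 1) = g (-(y 0, y 1)) :=
      cov.constOn_of_comp hconn hgc (fun a ha a' ha' => by rw [hg0 a ha, hg0 a' ha']) hw
        (neg_ne_zero.mpr hw)
    simp only [g, neg_neg, heneg, hye] at hgg
    linarith
  -- constancy along fibres
  have hseg : ∀ y ∈ H, ∀ y' ∈ H, ∀ z, A y z → A y' z → (0 : Fin 3 → ℝ) ∉ segment ℝ y y' →
      T y = T y' := by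
    intro y hy y' hy' z h h' h0
    have hsub : ∀ u ∈ segment ℝ y y', u ∈ H ∧ A u z := by
      intro u hu
      refine ⟨⟨fun h => h0 (h ▸ hu), ?_⟩, ?_⟩
      · obtain ⟨a, b, ha, hb, -, rfl⟩ := hu
        have := hy.2
        have := hy'.2
        simp only [Pi.add_apply, Pi.smul_apply, smul_eq_mul]
        positivity
      · obtain ⟨a, b, -, -, -, rfl⟩ := hu
        exact hlin _ _ _ _ _ h h'
    refine cov.constOn_of_comp (convex_segment y y').isPreconnected
      (hTc.mono fun u hu => (hsub u hu).1) ?_ (left_mem_segment ℝ y y') (right_mem_segment ℝ y y')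
    intro u hu u' hu'
    rw [hT u (hsub u hu).1 z (hsub u hu).2, hT u' (hsub u' hu').1 z (hsub u' hu').2]
  have hfib : ∀ y ∈ H, ∀ y' ∈ H, ∀ z, A y z → A y' z → T y = T y' := by
    intro y hy y' hy' z h h'
    by_cases h0 : (0 : Fin 3 → ℝ) ∈ segment ℝ y y'
    · obtain ⟨a, b, ha, hb, hab, hs⟩ := h0
      have ha' : 0 < a := by
        rcases ha.lt_or_eq with h1 | h1
        · exact h1
        · exfalso
          subst h1
          have : b = 1 := by linarith
          subst this
          exact hy'.1 (by simpa using hs)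
      have hb' : 0 < b := by
        rcases hb.lt_or_eq with h1 | h1
        · exact h1
        · exfalso
          subst h1
          have : a = 1 := by linarith
          subst this
          exact hy.1 (by simpa using hs)
      have hs2 := congrFun hs 2
      simp only [Pi.add_apply, Pi.smul_apply, smul_eq_mul, Pi.zero_apply] at hs2
      have hy2 : y 2 = 0 := by
        have h1 := mul_nonneg ha hy.2
        have h2 := mul_nonneg hb hy'.2
        have h3 : a * y 2 = 0 := by linarith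
        exact (mul_eq_zero.mp h3).resolve_left ha'.ne'
      have hnH : -y ∈ H := ⟨neg_ne_zero.mpr hy.1, by simp [hy2]⟩
      rw [← hanti y hy hy2]
      refine hseg _ hnH _ hy' z (by simpa using hsmul _ _ (-1) h) h' ?_
      rintro ⟨a', b', ha2, hb2, hab2, hs'⟩
      apply hy.1
      funext i
      have e1 := congrFun hs i
      have e2 := congrFun hs' i
      simp only [Pi.add_apply, Pi.smul_apply, smul_eq_mul, Pi.zero_apply, Pi.neg_apply] at e1 e2
      have e3 : (a * b' + a' * b) * y i = 0 := by linear_combination b' * e1 - b * e2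
      have e4 : 0 < a * b' + a' * b := by
        rcases ha2.lt_or_eq with h1 | h1
        · have := mul_pos h1 hb'
          have := mul_nonneg ha hb2
          linarith
        · have : b' = 1 := by linarith
          rw [this, ← h1]
          simpa using ha'
      simpa using (mul_eq_zero.mp e3).resolve_left e4.ne'
    · exact hseg y hy y' hy' z h h' h0
  have hsurj' : ∀ s : ℝ, ∃ y ∈ H, A y (s, 0) := by
    intro s
    obtain ⟨y, hy, h⟩ := hsurj s
    rcases le_total 0 (y 2) with h2 | h2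
    · exact ⟨y, ⟨hy, h2⟩, h⟩
    · exact ⟨-y, ⟨neg_ne_zero.mpr hy, by simpa using h2⟩, by simpa using hsmul _ _ (-1) h⟩
  choose yy hyH hyA using hsurj'
  let phi : ℝ → ℝ := fun s => T (yy s)
  have hphic : Continuous phi := by
    refine cont_of_rel (K := Icc (-1 : ℝ) 1 ×ˢ Icc (-1 : ℝ) 1)
      (R := {q : ℝ × (ℝ × ℝ) | A (Y q.2) (q.1, 0) ∧ sg (Y q.2) = q.2})
      (isCompact_Icc.prod isCompact_Icc) ?_ (g := th) th.continuous ?_ ?_
    · refine IsClosed.inter ?_ ?_
      · exact hcl.preimage ((Y_cont.comp continuous_snd).prodMk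
          (continuous_fst.prodMk continuous_const))
      · refine isClosed_eq ?_ continuous_snd
        exact sg_contOn.comp_continuous (Y_cont.comp continuous_snd) fun q => Y_mem _
    · intro s
      refine ⟨sg (yy s), sg_mem (hyH s), ?_, ?_⟩
      · show A (Y (sg (yy s))) (s, 0)
        rw [Y_sg (hyH s)]
        exact hsmul _ _ _ (hyA s)
      · show sg (Y (sg (yy s))) = sg (yy s)
        have hs := sz_pos (hyH s)
        have h1 : sz (Y (sg (yy s))) = 1 := by
          rw [Y_sg (hyH s)]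
          simp only [sz, Pi.smul_apply, smul_eq_mul, abs_mul] at hs ⊢
          rw [abs_of_pos (inv_pos.mpr hs)]
          field_simp
        generalize sg (yy s) = w at h1 ⊢
        unfold sg
        rw [h1]
        simp [Y]
    · rintro s w - ⟨h1, h2⟩
      show T (yy s) = th w
      rw [hfib _ (hyH s) _ (Y_mem w) _ (hyA s) h1]
      show th (sg (Y w)) = th w
      rw [h2]
  have hconst : phi c - c = phi 0 - 0 := by
    refine cov.const_of_comp (g := fun s => phi s - s) (hphic.sub continuous_id) ?_ c 0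
    have : ∀ s : ℝ, ((phi s - s : ℝ) : AddCircle c) = 0 := by
      intro s
      rw [AddCircle.coe_sub, hT _ (hyH s) _ (hyA s), sub_self]
    intro a a'
    rw [this, this]
  have hpp : phi c = phi 0 := hfib _ (hyH c) _ (hyH 0) _ (hend _ (hyA c)) (hyA 0)
  linarith

theorem bil_cont {n : ℕ} (N : (Fin 3 → ℝ) →ₗ[ℝ] (ℝ × (Fin 4 → ℝ)) →ₗ[ℝ] (Fin n → ℝ)) :
    Continuous fun q : (Fin 3 → ℝ) × (ℝ × (Fin 4 → ℝ)) => N q.1 q.2 := by
  have h : ∀ q : (Fin 3 → ℝ) × (ℝ × (Fin 4 → ℝ)),
      N q.1 q.2 = ∑ i : Fin 3, q.1 i • N (Pi.single i 1) q.2 := by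
    intro q
    conv_lhs => rw [pi_eq_sum_univ' q.1]
    simp [map_sum, LinearMap.sum_apply]
  simp_rw [h]
  refine continuous_finsetSum _ fun i _ => ?_
  exact ((continuous_apply i).comp continuous_fst).smul
    ((N (Pi.single i 1)).continuous_of_finiteDimensional.comp continuous_snd)

end PP

open Set in
/-- An embedded Klein bottle in `ℝ^4` is not the affine degeneracy locus of a net of
linear maps all of whose members have a kernel. -/
theorem no_linear_net (c d : ℝ) (hc : 0 < c) (hd : 0 < d) (F : ℝ × ℝ → (Fin 4 → ℝ))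
    (hF : Continuous F)
    (hper : ∀ p : ℝ × ℝ, F (p.1, p.2 + d) = F p ∧ F (p.1 + c, -p.2) = F p)
    (hinj : ∀ p q : ℝ × ℝ, F p = F q →
      ∃ m n : ℤ, q.1 = p.1 + (m : ℝ) * c ∧ q.2 = (-1 : ℝ) ^ m * p.2 + (n : ℝ) * d)
    {n : ℕ} (N : (Fin 3 → ℝ) →ₗ[ℝ] (ℝ × (Fin 4 → ℝ)) →ₗ[ℝ] (Fin n → ℝ))
    (hker : ∀ y, ∃ p, p ≠ 0 ∧ N y p = 0)
    (hcut : ∀ x, (∃ y, y ≠ 0 ∧ N y (1, x) = 0) ↔ x ∈ Set.range F) : False := by
  have hN := PP.bil_cont N
  let K : Set (ℝ × ℝ) := Icc 0 (2 * c) ×ˢ Icc 0 d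
  have hK : IsCompact K := isCompact_Icc.prod isCompact_Icc
  have hred : ∀ z : ℝ × ℝ, ∃ z' ∈ K, F z' = F z := by
    rintro ⟨x, y⟩
    have p1 : Function.Periodic (fun t => F (t, y)) (2 * c) := by
      intro t
      have h1 := (hper (t, y)).2
      have h2 := (hper (t + c, -y)).2
      simp only [neg_neg] at h1 h2
      show F (t + 2 * c, y) = F (t, y)
      rw [← h1, ← h2]
      congr 2
      ring
    obtain ⟨x', hx', e1⟩ := p1.exists_mem_Ico₀ (by positivity) x
    have p2 : Function.Periodic (fun t => F (x', t)) d := fun t => (hper (x', t)).1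
    obtain ⟨y', hy', e2⟩ := p2.exists_mem_Ico₀ hd y
    exact ⟨(x', y'), ⟨Ico_subset_Icc_self hx', Ico_subset_Icc_self hy'⟩, (e1.trans e2).symm⟩
  obtain ⟨M, hM⟩ : ∃ M : ℝ, ∀ x ∈ range F, ‖x‖ ≤ M := by
    obtain ⟨M, hM⟩ := (hK.image hF).isBounded.exists_norm_le
    refine ⟨M, ?_⟩
    rintro x ⟨z, rfl⟩
    obtain ⟨z', hz', e⟩ := hred z
    exact hM _ ⟨z', hz', e⟩
  -- no kernel vector at infinity
  have hinf : ∀ y x v, y ≠ 0 → N y (1, x) = 0 → N y (0, v) = 0 → v = 0 := by
    intro y x v hy h1 h2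
    by_contra hv
    have hv' : 0 < ‖v‖ := norm_pos_iff.mpr hv
    have hmem : ∀ t : ℝ, ‖x + t • v‖ ≤ M := by
      intro t
      refine hM _ ((hcut _).mp ⟨y, hy, ?_⟩)
      have : ((1 : ℝ), x + t • v) = ((1 : ℝ), x) + t • ((0 : ℝ), v) := by simp
      rw [this, map_add, map_smul, h1, h2]
      simp
    have h0 : ‖x‖ ≤ M := by simpa using hmem 0
    have hM0 : 0 ≤ M := (norm_nonneg _).trans h0
    have h3 := hmem ((2 * M + 1) / ‖v‖)
    have h4 : ‖((2 * M + 1) / ‖v‖) • v‖ = 2 * M + 1 := by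
      rw [norm_smul, Real.norm_eq_abs, abs_of_pos (by positivity)]
      field_simp
    have h5 : ‖((2 * M + 1) / ‖v‖) • v‖ ≤ ‖x + ((2 * M + 1) / ‖v‖) • v‖ + ‖x‖ := by
      simpa using norm_sub_le (x + ((2 * M + 1) / ‖v‖) • v) x
    linarith
  have hAcl : IsClosed {q : (Fin 3 → ℝ) × (ℝ × ℝ) | N q.1 (1, F q.2) = 0} :=
    isClosed_eq (hN.comp (continuous_fst.prodMk
      (continuous_const.prodMk (hF.comp continuous_snd)))) continuous_const
  have hex : ∀ y : Fin 3 → ℝ, y ≠ 0 → ∃ z ∈ K, N y (1, F z) = 0 := by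
    have hconn : IsPreconnected ({0}ᶜ : Set (Fin 3 → ℝ)) := by
      refine (isConnected_compl_singleton_of_one_lt_rank ?_ _).isPreconnected
      rw [← Module.finrank_eq_rank]
      simp
    have hU := PP.closed_proj hK hAcl
    have hBcl : IsClosed {q : (Fin 3 → ℝ) × (Fin 4 → ℝ) | N q.1 (0, q.2) = 0} :=
      isClosed_eq (hN.comp (continuous_fst.prodMk
        (continuous_const.prodMk continuous_snd))) continuous_const
    have hU' := PP.closed_proj (isCompact_sphere (0 : Fin 4 → ℝ) 1) hBcl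
    have hdis : ∀ y : Fin 3 → ℝ, y ≠ 0 → (∃ z ∈ K, N y (1, F z) = 0) →
        (∃ v ∈ Metric.sphere (0 : Fin 4 → ℝ) 1, N y (0, v) = 0) → False := by
      rintro y hy ⟨z, -, hz⟩ ⟨v, hv, hv'⟩
      have := hinf y _ v hy hz hv'
      subst this
      simp at hv
    refine (isPreconnected_iff_subset_of_disjoint_closed.mp hconn _ _ hU hU' ?_ ?_).elim
      (fun h y hy => h hy) (fun h => ?_)
    rotate_right
    · exfalso
      obtain ⟨y, hy, h1⟩ := (hcut (F 0)).mpr ⟨0, rfl⟩
      obtain ⟨z', hz', e⟩ := hred 0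
      exact hdis y hy ⟨z', hz', by rw [e]; exact h1⟩ (h hy)
    · intro y hy
      obtain ⟨⟨a, v⟩, hp, h⟩ := hker y
      by_cases ha : a = 0
      · right
        subst ha
        have hv : v ≠ 0 := fun h => hp (by simp [h])
        refine ⟨‖v‖⁻¹ • v, ?_, ?_⟩
        · simp [norm_smul, hv]
        · show N y (0, ‖v‖⁻¹ • v) = 0
          have : ((0 : ℝ), ‖v‖⁻¹ • v) = ‖v‖⁻¹ • ((0 : ℝ), v) := by simp
          rw [this, map_smul, h, smul_zero]
      · left
        have h1 : N y (1, a⁻¹ • v) = 0 := by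
          have : ((1 : ℝ), a⁻¹ • v) = a⁻¹ • (a, v) := by simp [ha]
          rw [this, map_smul, h, smul_zero]
        obtain ⟨z, hz⟩ := (hcut _).mp ⟨y, hy, h1⟩
        obtain ⟨z', hz', e⟩ := hred z
        exact ⟨z', hz', by show N y (1, F z') = 0; rw [e, hz]; exact h1⟩
    · rw [eq_empty_iff_forall_notMem]
      rintro y ⟨hy, h1, h2⟩
      exact hdis y hy h1 h2
  refine PP.core c hc (fun y z => N y (1, F z) = 0) hAcl hK hex ?_ ?_ ?_ ?_
  · intro y z z' hy h h'
    have h1 : N y (0, F z - F z') = 0 := by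
      have : ((0 : ℝ), F z - F z') = ((1 : ℝ), F z) - ((1 : ℝ), F z') := by simp
      rw [this, map_sub, h, h', sub_zero]
    have h2 := sub_eq_zero.mp (hinf y _ _ hy h h1)
    obtain ⟨m, k, e, -⟩ := hinj _ _ h2
    rw [e, AddCircle.coe_add]
    have : (((m : ℝ) * c : ℝ) : AddCircle c) = 0 := by
      rw [AddCircle.coe_eq_zero_iff]
      exact ⟨m, by simp⟩
    rw [this, add_zero]
  · intro y y' z a b h h'
    simp only [map_add, map_smul, LinearMap.add_apply, LinearMap.smul_apply]
    rw [h, h']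
    simp
  · intro s
    exact (hcut _).mpr ⟨_, rfl⟩
  · intro y h
    have := (hper (0, 0)).2
    simp only [zero_add, neg_zero] at this
    rw [← this]
    exact h

end Pool.Agent.Lib.MP_886b5a_gt
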