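import Mathlib

set_option autoImplicit false

namespace Pool.Agent.Lib.MP_886b5a_gt

open Filter Topology

namespace QA

open Asymptotics Set

/-- A function that is `n` times differentiable at a limit of its zero intervals is flat there. -/
theorem flat (n : ℕ) : ∀ (k : ℝ → ℝ) (t : ℝ), ContDiffAt ℝ n k t →
    t ∈ closure (interior {s | k s = 0}) → k =o[𝓝 t] fun s => (s - t) ^ n := by
  induction n with
  | zero =>
    intro k t hk ht
    have hc : ContinuousAt k t := hk.continuousAt
    have h0 : k t = 0 := by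
      by_contra hne
      have h1 : ∀ᶠ s in 𝓝 t, k s ≠ 0 := hc.eventually_ne hne
      obtain ⟨s, hs1, hs2⟩ := mem_closure_iff_nhds.1 ht _ h1
      exact hs1 (interior_subset (s := {s | k s = 0}) hs2)
    simp only [pow_zero]
    rw [isLittleO_one_iff]
    have := hc.tendsto
    rwa [h0] at this
  | succ n ih =>
    intro k t hk ht
    have hc : ContinuousAt k t := hk.continuousAt
    have h0 : k t = 0 := by
      by_contra hne
      have h1 : ∀ᶠ s in 𝓝 t, k s ≠ 0 := hc.eventually_ne hne
      obtain ⟨s, hs1, hs2⟩ := mem_closure_iff_nhds.1 ht _ h1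
      exact hs1 (interior_subset (s := {s | k s = 0}) hs2)
    have hd : ContDiffAt ℝ n (deriv k) t := by
      have h1 : ContDiffAt ℝ n (fderiv ℝ k) t := hk.fderiv_right (by push_cast; exact le_rfl)
      have h2 : deriv k = fun s => fderiv ℝ k s 1 := by
        funext s
        rfl
      rw [h2]
      exact h1.clm_apply contDiffAt_const
    have hsub : interior {s | k s = 0} ⊆ interior {s | deriv k s = 0} := by
      apply interior_maximal _ isOpen_interior
      intro s hs
      have h1 : k =ᶠ[𝓝 s] fun _ => (0 : ℝ) := mem_interior_iff_mem_nhds.1 hs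
      show deriv k s = 0
      rw [h1.deriv_eq]
      simp
    have hih := ih (deriv k) t hd (closure_mono hsub ht)
    have hev : ∀ᶠ s in 𝓝 t, ContDiffAt ℝ ((n + 1 : ℕ) : WithTop ℕ∞) k s :=
      hk.eventually (by simp)
    obtain ⟨ε, hε, hball⟩ := Metric.eventually_nhds_iff_ball.1 hev
    have hnh : 𝓝[Metric.ball t ε] t = 𝓝 t :=
      nhdsWithin_eq_nhds.2 (Metric.ball_mem_nhds t hε)
    have := (convex_ball t ε).isLittleO_pow_succ_real (f := k) (f' := deriv k) (n := n)
      (Metric.mem_ball_self hε)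
      (fun s hs => ((hball s hs).differentiableAt (by simp)).hasDerivAt.hasDerivWithinAt)
      (by rw [hnh]; exact hih)
    rw [hnh] at this
    simpa [h0] using this

/-- One-dimensional unique continuation. -/
theorem one_dim (N : ℕ) (k E : ℝ → ℝ) (q : Polynomial ℝ) (hq : q ≠ 0) (hN : q.natDegree ≤ N)
    (hk : ∀ t ∈ Icc (0 : ℝ) 1, ContDiffAt ℝ N k t)
    (hE : ∀ t ∈ Icc (0 : ℝ) 1, ContinuousAt E t)
    (hrel : ∀ t ∈ Icc (0 : ℝ) 1, ∀ᶠ s in 𝓝 t, k s ≠ 0 → q.eval s + k s * E s = 0)
    (h0 : ∀ᶠ s in 𝓝 (0 : ℝ), k s = 0) : k 1 = 0 := by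
  have hsub : Icc (0 : ℝ) 1 ⊆ interior {s | k s = 0} := by
    apply isPreconnected_Icc.subset_of_closure_inter_subset isOpen_interior
    · exact ⟨0, ⟨le_rfl, zero_le_one⟩, mem_interior_iff_mem_nhds.2 h0⟩
    · rintro t ⟨ht, ht01⟩
      have hflat := flat N k t (hk t ht01) ht
      have hkt : k t = 0 := by
        by_contra hne
        have h1 : ∀ᶠ s in 𝓝 t, k s ≠ 0 := (hk t ht01).continuousAt.eventually_ne hne
        obtain ⟨s, hs1, hs2⟩ := mem_closure_iff_nhds.1 ht _ h1
        exact hs1 (interior_subset (s := {s | k s = 0}) hs2)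
      obtain ⟨b, hb, hnd⟩ := Polynomial.exists_eq_pow_rootMultiplicity_mul_and_not_dvd q hq t
      set r := q.rootMultiplicity t with hr
      have hrN : r ≤ N := by
        refine le_trans ?_ hN
        have h1 : (Polynomial.X - Polynomial.C t) ^ r ∣ q := ⟨b, hb⟩
        have h2 := Polynomial.natDegree_le_of_dvd h1 hq
        simpa using h2
      have hbt : b.eval t ≠ 0 := fun h => hnd (Polynomial.dvd_iff_isRoot.2 h)
      have hqe : ∀ s, q.eval s = (s - t) ^ r * b.eval s := by
        intro s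
        conv_lhs => rw [hb]
        simp
      have hbc : ContinuousAt (fun s => b.eval s) t := b.continuous.continuousAt
      have h1 : (fun s => (s - t) ^ N) =O[𝓝 t] fun s => q.eval s := by
        have h2 : (fun s => (s - t) ^ (N - r) * (b.eval s)⁻¹) =O[𝓝 t] fun _ => (1 : ℝ) := by
          exact ((by fun_prop : ContinuousAt (fun s : ℝ => (s - t) ^ (N - r)) t).mul
            (hbc.inv₀ hbt)).tendsto.isBigO_one ℝ
        have h3 := h2.mul (isBigO_refl (fun s => q.eval s) (𝓝 t))
        simp only [one_mul] at h3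
        refine h3.congr' ?_ EventuallyEq.rfl
        filter_upwards [hbc.eventually_ne hbt] with s hs
        rw [hqe s]
        have : (s - t) ^ N = (s - t) ^ (N - r) * (s - t) ^ r := by
          rw [← pow_add, Nat.sub_add_cancel hrN]
        rw [this]
        field_simp
      have h4 : (fun s => k s * E s) =o[𝓝 t] fun s => q.eval s := by
        have h5 := (hflat.trans_isBigO h1).mul_isBigO ((hE t ht01).tendsto.isBigO_one ℝ)
        simpa using h5
      have h6 := h4.def (by norm_num : (0 : ℝ) < 1 / 2)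
      rw [mem_interior_iff_mem_nhds]
      filter_upwards [h6, hrel t ht01, hbc.eventually_ne hbt] with s hs1 hs2 hs3
      show k s = 0
      by_contra hne
      have h7 := hs2 hne
      have h8 : k s * E s = - q.eval s := by linarith
      rw [h8, norm_neg] at hs1
      have h9 : ‖q.eval s‖ = 0 := by linarith [norm_nonneg (q.eval s)]
      rw [norm_eq_zero, hqe s] at h9
      rcases mul_eq_zero.1 h9 with h | h
      · have : s = t := by
          have h10 : s - t = 0 := eq_zero_of_pow_eq_zero h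
          linarith
        exact hne (this ▸ hkt)
      · exact hs3 h
  exact interior_subset (s := {s | k s = 0}) (hsub ⟨zero_le_one, le_rfl⟩)

/-- A polynomial vanishing near a point is zero. -/
theorem poly_eq_zero {n : ℕ} (a : MvPolynomial (Fin n) ℝ) (s : Fin n → ℝ)
    (h : ∀ᶠ y in 𝓝 s, MvPolynomial.eval y a = 0) : a = 0 := by
  obtain ⟨ε, hε, hball⟩ := Metric.eventually_nhds_iff_ball.1 h
  apply MvPolynomial.funext_set (fun i => Metric.ball (s i) ε)
  · intro i
    rw [Real.ball_eq_Ioo]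
    exact Set.Ioo_infinite (by linarith)
  · intro y hy
    rw [map_zero]
    apply hball
    rw [ball_pi _ hε]
    exact hy

/-- Unique continuation on a ball. -/
theorem on_ball (N : ℕ) (γ E : (Fin 3 → ℝ) → ℝ) (a : MvPolynomial (Fin 3) ℝ) (ha : a ≠ 0)
    (hN : a.totalDegree ≤ N) (B : Set (Fin 3 → ℝ)) (hBo : IsOpen B) (hBc : Convex ℝ B)
    (hγ : ∀ s ∈ B, ContDiffAt ℝ N γ s) (hE : ∀ s ∈ B, ContinuousAt E s)
    (hrel : ∀ s ∈ B, γ s ≠ 0 → MvPolynomial.eval s a + γ s * E s = 0)
    (s₀ : Fin 3 → ℝ) (hs₀ : s₀ ∈ B) (h0 : ∀ᶠ s in 𝓝 s₀, γ s = 0) : ∀ s ∈ B, γ s = 0 := by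
  have key : ∀ s ∈ B, MvPolynomial.eval s a ≠ 0 → γ s = 0 := by
    intro s hs hsa
    set L : ℝ → (Fin 3 → ℝ) := fun t => s₀ + t • (s - s₀) with hL
    have hLd : ContDiff ℝ N L := by
      rw [hL]
      fun_prop
    have hL0 : L 0 = s₀ := by simp [hL]
    have hL1 : L 1 = s := by simp [hL]
    have hLB : ∀ t ∈ Icc (0 : ℝ) 1, L t ∈ B := fun t ht => hBc.add_smul_sub_mem hs₀ hs ht
    set q : Polynomial ℝ := MvPolynomial.aeval
      (fun i => Polynomial.C (s₀ i) + Polynomial.C (s i - s₀ i) * Polynomial.X) a with hq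
    have hqe : ∀ t, q.eval t = MvPolynomial.eval (L t) a := by
      intro t
      have h1 : (Polynomial.evalRingHom t).comp (MvPolynomial.aeval
          (fun i => Polynomial.C (s₀ i) + Polynomial.C (s i - s₀ i) * Polynomial.X) :
            MvPolynomial (Fin 3) ℝ →ₐ[ℝ] Polynomial ℝ).toRingHom = MvPolynomial.eval (L t) := by
        apply MvPolynomial.ringHom_ext
        · intro r
          simp
        · intro i
          simp [hL]
          ring
      exact DFunLike.congr_fun h1 a
    have hq0 : q ≠ 0 := by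
      intro h
      apply hsa
      rw [← hL1, ← hqe, h, Polynomial.eval_zero]
    have hqd : q.natDegree ≤ N := by
      have h1 := MvPolynomial.aeval_natDegree_le a hN
        (fun i => Polynomial.C (s₀ i) + Polynomial.C (s i - s₀ i) * Polynomial.X) (n := 1)
        (fun i => by compute_degree)
      rw [mul_one] at h1
      exact h1
    have := one_dim N (fun t => γ (L t)) (fun t => E (L t)) q hq0 hqd
      (fun t ht => (hγ _ (hLB t ht)).comp t hLd.contDiffAt)
      (fun t ht => ContinuousAt.comp (f := L) (hE _ (hLB t ht)) hLd.continuous.continuousAt)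
      (fun t ht => by
        have h1 : ∀ᶠ u in 𝓝 t, L u ∈ B :=
          hLd.continuous.continuousAt.eventually (hBo.mem_nhds (hLB t ht))
        filter_upwards [h1] with u hu hne
        rw [hqe]
        exact hrel _ hu hne)
      (by
        have h1 : Tendsto L (𝓝 0) (𝓝 s₀) := hL0 ▸ hLd.continuous.continuousAt.tendsto
        exact h1.eventually h0)
    simpa [hL1] using this
  intro s hs
  by_contra hne
  apply ha
  apply poly_eq_zero a s
  filter_upwards [(hγ s hs).continuousAt.eventually_ne hne, hBo.mem_nhds hs] with y hy1 hy2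
  by_contra h
  exact hy1 (key y hy2 h)

/-- Splitting off the lowest coefficient in the first variable. -/
theorem split_poly (Ψ : MvPolynomial (Fin 4) ℝ) (hΨ : Ψ ≠ 0) :
    ∃ a : MvPolynomial (Fin 3) ℝ, a ≠ 0 ∧ ∃ Ψ₁ : MvPolynomial (Fin 4) ℝ,
      ∀ (y : ℝ) (s : Fin 3 → ℝ), y ≠ 0 →
        MvPolynomial.eval (Fin.cons y s : Fin 4 → ℝ) Ψ = 0 →
        MvPolynomial.eval s a + y * MvPolynomial.eval (Fin.cons y s : Fin 4 → ℝ) Ψ₁ = 0 := by
  set Q := MvPolynomial.finSuccEquiv ℝ 3 Ψ with hQ
  have hQ0 : Q ≠ 0 := by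
    rw [hQ]
    exact (map_ne_zero_iff _ (MvPolynomial.finSuccEquiv ℝ 3).injective).2 hΨ
  obtain ⟨R, hR, hnd⟩ := Polynomial.exists_eq_pow_rootMultiplicity_mul_and_not_dvd Q hQ0 0
  set j := Q.rootMultiplicity 0 with hj
  refine ⟨R.coeff 0, ?_, (MvPolynomial.finSuccEquiv ℝ 3).symm R.divX, ?_⟩
  · intro h
    apply hnd
    rw [map_zero, sub_zero, Polynomial.X_dvd_iff]
    exact h
  · intro y s hy h
    rw [MvPolynomial.eval_eq_eval_mv_eval', ← hQ, hR] at h
    rw [MvPolynomial.eval_eq_eval_mv_eval', AlgEquiv.apply_symm_apply]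
    conv_lhs at h => rw [← Polynomial.X_mul_divX_add R]
    simp only [map_zero, sub_zero, Polynomial.map_mul, Polynomial.map_pow, Polynomial.map_X,
      Polynomial.map_add, Polynomial.map_C, Polynomial.eval_mul, Polynomial.eval_pow,
      Polynomial.eval_X, Polynomial.eval_add, Polynomial.eval_C] at h
    rcases mul_eq_zero.1 h with h1 | h1
    · exact absurd (eq_zero_of_pow_eq_zero h1) hy
    · linarith

end QA

/-- Quasi-analyticity: a smooth function on an immersed `ℝ^3` that is algebraic over every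
triple of linear coordinates and vanishes near one point vanishes everywhere. -/
theorem quasi_analytic {P : Type*} [NormedAddCommGroup P] [NormedSpace ℝ P]
    [FiniteDimensional ℝ P]
    (G : (Fin 3 → ℝ) → P) (hG : ContDiff ℝ ((⊤ : ℕ∞) : WithTop ℕ∞) G)
    (himm : ∀ ζ, Function.Injective (fderiv ℝ G ζ))
    (g : P → ℝ) (hg : ContDiff ℝ ((⊤ : ℕ∞) : WithTop ℕ∞) g)
    (hrel : ∀ l : P →L[ℝ] (Fin 3 → ℝ), ∃ Ψ : MvPolynomial (Fin 4) ℝ, Ψ ≠ 0 ∧
      ∀ ζ, MvPolynomial.eval (Fin.cons (g (G ζ)) (l (G ζ)) : Fin 4 → ℝ) Ψ = 0)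
    (ζ₀ : Fin 3 → ℝ) (h0 : ∀ᶠ ζ in 𝓝 ζ₀, g (G ζ) = 0) : ∀ ζ, g (G ζ) = 0 := by
  have hsub : (Set.univ : Set (Fin 3 → ℝ)) ⊆ interior {ζ | g (G ζ) = 0} := by
    apply isPreconnected_univ.subset_of_closure_inter_subset isOpen_interior
    · exact ⟨ζ₀, Set.mem_univ _, mem_interior_iff_mem_nhds.2 h0⟩
    · rintro p ⟨hp, -⟩
      obtain ⟨l₀, hl₀⟩ := LinearMap.exists_leftInverse_of_injective
        (fderiv ℝ G p : (Fin 3 → ℝ) →ₗ[ℝ] P) (LinearMap.ker_eq_bot.2 (himm p))
      set l : P →L[ℝ] (Fin 3 → ℝ) := LinearMap.toContinuousLinearMap l₀ with hl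
      obtain ⟨Ψ, hΨ, hΨe⟩ := hrel l
      obtain ⟨a, ha, Ψ₁, hsplit⟩ := QA.split_poly Ψ hΨ
      set N := a.totalDegree + 1 with hN
      set f : (Fin 3 → ℝ) → (Fin 3 → ℝ) := fun ζ => l (G ζ) with hf
      have hGN : ContDiff ℝ N G := hG.of_le (by exact_mod_cast le_top)
      have hgN : ContDiff ℝ N g := hg.of_le (by exact_mod_cast le_top)
      have hfN : ContDiffAt ℝ N f p := (l.contDiff.comp hGN).contDiffAt
      have hN0 : (N : WithTop ℕ∞) ≠ 0 := by
        exact_mod_cast Nat.succ_ne_zero a.totalDegree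
      have hfd : HasFDerivAt f
          ((ContinuousLinearEquiv.refl ℝ (Fin 3 → ℝ) : (Fin 3 → ℝ) ≃L[ℝ] (Fin 3 → ℝ)) :
            (Fin 3 → ℝ) →L[ℝ] (Fin 3 → ℝ)) p := by
        have h1 : HasFDerivAt f (l.comp (fderiv ℝ G p)) p :=
          l.hasFDerivAt.comp p (hGN.differentiable hN0 p).hasFDerivAt
        convert h1 using 1
        ext1 v
        have h2 := LinearMap.congr_fun hl₀ v
        simpa [hl] using h2.symm
      set σ := hfN.localInverse hfd hN0 with hσ
      have hσN : ContDiffAt ℝ N σ (f p) := hfN.to_localInverse hfd hN0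
      have hσe : ∀ᶠ y in 𝓝 (f p), ContDiffAt ℝ N σ y := hσN.eventually (by simp)
      have hri : ∀ᶠ y in 𝓝 (f p), f (σ y) = y :=
        (hfN.hasStrictFDerivAt' hfd hN0).eventually_right_inverse
      have hle : ∀ᶠ x in 𝓝 p, σ (f x) = x :=
        (hfN.hasStrictFDerivAt' hfd hN0).eventually_left_inverse
      obtain ⟨ε, hε, hball⟩ := Metric.eventually_nhds_iff_ball.1 (hσe.and hri)
      have hfB : ∀ᶠ x in 𝓝 p, f x ∈ Metric.ball (f p) ε :=
        hfN.continuousAt.eventually (Metric.ball_mem_nhds _ hε)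
      obtain ⟨x, ⟨hx1, hx2⟩, hx3⟩ := mem_closure_iff_nhds.1 hp _ (hle.and hfB)
      have hγ : ∀ s ∈ Metric.ball (f p) ε, ContDiffAt ℝ N (fun y => g (G (σ y))) s :=
        fun s hs => (hgN.comp hGN).contDiffAt.comp s (hball s hs).1
      have hzero := QA.on_ball N (fun y => g (G (σ y)))
        (fun y => MvPolynomial.eval (Fin.cons (g (G (σ y))) y : Fin 4 → ℝ) Ψ₁) a ha
        (Nat.le_succ _) (Metric.ball (f p) ε) Metric.isOpen_ball (convex_ball _ _) hγ
        (fun s hs => by
          apply (MvPolynomial.continuous_eval Ψ₁).continuousAt.comp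
          rw [continuousAt_pi]
          intro i
          refine Fin.cases ?_ (fun j => ?_) i
          · simpa using (hγ s hs).continuousAt
          · simpa using continuousAt_apply j s)
        (fun s hs hne => by
          apply hsplit _ _ hne
          have h1 := hΨe (σ s)
          have h2 : l (G (σ s)) = s := (hball s hs).2
          rwa [h2] at h1)
        (f x) hx2
        (by
          have h1 : Tendsto σ (𝓝 (f x)) (𝓝 x) := by
            have := (hball _ hx2).1.continuousAt.tendsto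
            rwa [hx1] at this
          exact h1.eventually (mem_interior_iff_mem_nhds.1 hx3))
      rw [mem_interior_iff_mem_nhds]
      filter_upwards [hle, hfB] with z hz1 hz2
      have := hzero _ hz2
      simp only [hz1] at this
      exact this
  intro ζ
  exact interior_subset (s := {ζ | g (G ζ) = 0}) (hsub (Set.mem_univ ζ))

end Pool.Agent.Lib.MP_886b5a_gt
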