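import Pool.Agent.Lib.MP_886b5a_gt.Field

set_option autoImplicit false

namespace Pool.Agent.Lib.MP_886b5a_gt

open MvPolynomial

namespace SU

variable {f₁ f₂ : R} {g₁ g₂ : Fin 4 → ℝ}

lemma finite_quot (l₁ : Lead f₁ g₁) (l₂ : Lead f₂ g₂) (hc : Cop g₁ g₂) (J : Ideal R)
    (h₁ : f₁ ∈ J) (h₂ : f₂ ∈ J) : Module.Finite A (R ⧸ J) := by
  classical
  obtain ⟨m, hm⟩ := span11 l₁ l₂ hc
  refine ⟨⟨Finset.univ.image fun i => Ideal.Quotient.mk J (s11 m i), ?_⟩⟩
  rw [eq_top_iff]
  rintro x -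
  obtain ⟨f, rfl⟩ := Ideal.Quotient.mk_surjective x
  obtain ⟨a, ha⟩ := mem_spn_iff.1 (hm J h₁ h₂ f)
  rw [Ideal.Quotient.eq.2 ha, map_sum]
  refine Submodule.sum_mem _ fun i _ => ?_
  have e : Ideal.Quotient.mk J (C (a i) * s11 m i) = a i • Ideal.Quotient.mk J (s11 m i) := by
    rw [← smul_eq_C_mul]
    exact map_smul (Ideal.Quotient.mkₐ A J) (a i) (s11 m i)
  rw [e]
  exact Submodule.smul_mem _ _ (Submodule.subset_span (by simp))

lemma indep_bound {B : Type} [CommRing B] [IsDomain B] [Algebra A B] [Module.Finite A B]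
    (π : R →ₐ[A] B) {n : ℕ} (r : Fin n → R)
    (hr : ∀ Ψ : MvPolynomial (Fin n) ℝ, π (aeval r Ψ) = 0 → Ψ = 0) :
    n ≤ 3 ∧ (n = 3 → ∀ a : A, algebraMap A B a = 0 → a = 0) := by
  let _ : Algebra ℝ B := ((algebraMap A B).comp C).toAlgebra
  have hC : ∀ s : ℝ, algebraMap ℝ B s = algebraMap A B (C s) := fun _ => rfl
  let y : Fin 3 → B := fun i => algebraMap A B (X i)
  have hy : ∀ a : A, aeval y a = algebraMap A B a := fun a => by
    induction a using MvPolynomial.induction_on with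
    | C s => rw [aeval_C, hC]
    | add p q hp hq => rw [map_add, map_add, hp, hq]
    | mul_X p i hp => rw [map_mul, map_mul, hp, aeval_X]
  have halg : Algebra.IsAlgebraic (Algebra.adjoin ℝ (Set.range y)) B := by
    refine ⟨fun x => IsIntegral.isAlgebraic ?_⟩
    have hx : IsIntegral A x := Algebra.IsIntegral.isIntegral x
    let φ : A →+* Algebra.adjoin ℝ (Set.range y) :=
      (algebraMap A B).codRestrict (Algebra.adjoin ℝ (Set.range y))
        fun a => by rw [Algebra.adjoin_range_eq_range_aeval]; exact ⟨a, hy a⟩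
    exact hx.map_of_comp_eq φ (RingHom.id _) (RingHom.ext fun a => rfl)
  have hi : AlgebraicIndependent ℝ fun i => π (r i) := by
    rw [algebraicIndependent_iff]
    intro Ψ hΨ
    refine hr Ψ ?_
    rw [← hΨ]
    clear hΨ
    induction Ψ using MvPolynomial.induction_on with
    | C s => rw [aeval_C, aeval_C, hC, algebraMap_real, ← π.commutes]; rfl
    | add p q hp hq => rw [map_add, map_add, map_add, hp, hq]
    | mul_X p i hp => rw [map_mul, map_mul, map_mul, hp, aeval_X, aeval_X]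
  have h4 := hi.cardinalMk_le_trdeg
  constructor
  · have h3 := Algebra.IsAlgebraic.trdeg_le_cardinalMk ℝ (Set.range y)
    have h5 := (h4.trans h3).trans Cardinal.mk_range_le
    simp only [Cardinal.mk_fin] at h5
    exact_mod_cast h5
  · rintro rfl a ha
    have hb := Algebra.IsAlgebraic.isTranscendenceBasis_of_le_trdeg_of_finite ℝ y h4
    exact algebraicIndependent_iff.1 hb.1 a (by rw [hy, ha])

lemma dep4 (l₁ : Lead f₁ g₁) (l₂ : Lead f₂ g₂) (hc : Cop g₁ g₂) (J : Ideal R)
    (h₁ : f₁ ∈ J) (h₂ : f₂ ∈ J) (r : Fin 4 → R) :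
    ∃ Ψ : MvPolynomial (Fin 4) ℝ, Ψ ≠ 0 ∧ aeval r Ψ ∈ J := by
  by_contra h
  push Not at h
  let M : Submonoid R := (nonZeroDivisors (MvPolynomial (Fin 4) ℝ)).map
    (aeval r : MvPolynomial (Fin 4) ℝ →ₐ[ℝ] R)
  have hd : Disjoint (J : Set R) M := by
    rw [Set.disjoint_left]
    rintro x hx ⟨Ψ, hΨ, rfl⟩
    exact h Ψ (nonZeroDivisors.ne_zero hΨ) hx
  obtain ⟨Q, hQ, hJQ, hQM⟩ := J.exists_le_prime_disjoint M hd
  have := finite_quot l₁ l₂ hc Q (hJQ h₁) (hJQ h₂)
  have h4 := (indep_bound (B := R ⧸ Q) (Ideal.Quotient.mkₐ A Q) r fun Ψ hΨ => by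
    by_contra h0
    exact Set.disjoint_left.1 hQM (Ideal.Quotient.eq_zero_iff_mem.1 hΨ)
      ⟨Ψ, mem_nonZeroDivisors_of_ne_zero h0, rfl⟩).1
  omega

lemma dom_of_indep (l₁ : Lead f₁ g₁) (l₂ : Lead f₂ g₂) (hc : Cop g₁ g₂) (J : Ideal R)
    [J.IsPrime] (h₁ : f₁ ∈ J) (h₂ : f₂ ∈ J) (r : Fin 3 → R)
    (hr : ∀ Ψ : MvPolynomial (Fin 3) ℝ, aeval r Ψ ∈ J → Ψ = 0) (a : A) (ha : C a ∈ J) :
    a = 0 := by
  have := finite_quot l₁ l₂ hc J h₁ h₂
  exact (indep_bound (B := R ⧸ J) (Ideal.Quotient.mkₐ A J) r fun Ψ hΨ =>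
    hr Ψ (Ideal.Quotient.eq_zero_iff_mem.1 hΨ)).2 rfl a (Ideal.Quotient.eq_zero_iff_mem.2 ha)

lemma model_of {Z : Set Pt} {B : Type} [CommRing B] [IsDomain B] [Algebra A B] [Module.Finite A B]
    (π : R →ₐ[A] B) (hs : Function.Surjective π) (hk : ∀ f, π f = 0 ↔ f ∈ van Z)
    (hd : ∀ a : A, C a ∈ van Z → a = 0)
    (h : ∀ (L : Type) [Field L] [Algebra A L] [Algebra (FractionRing A) L]
      [IsScalarTower A (FractionRing A) L] (U V : L), ¬ Model (FractionRing A) Z U V) : False := by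
  have hinj : Function.Injective (algebraMap A (FractionRing B)) := by
    rw [IsScalarTower.algebraMap_eq A B (FractionRing B), RingHom.coe_comp]
    refine (IsFractionRing.injective B (FractionRing B)).comp ?_
    rw [injective_iff_map_eq_zero]
    intro a ha
    exact hd a ((hk _).1 ((π.commutes a).trans ha))
  have : FaithfulSMul A (FractionRing B) := (faithfulSMul_iff_algebraMap_injective A _).2 hinj
  let _ : Algebra (FractionRing A) (FractionRing B) := FractionRing.liftAlgebra A _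
  have := FractionRing.isScalarTower_liftAlgebra A (FractionRing B)
  let U : FractionRing B := algebraMap B _ (π (X 0))
  let V : FractionRing B := algebraMap B _ (π (X 1))
  have hpi : ∀ f : R, pi U V f = algebraMap B _ (π f) := fun f => by
    induction f using MvPolynomial.induction_on with
    | C a => rw [pi_C, IsScalarTower.algebraMap_apply A B, ← π.commutes]; rfl
    | add p q hp hq => rw [map_add, map_add, map_add, hp, hq]
    | mul_X p i hp =>
      rw [map_mul, map_mul, map_mul, hp]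
      fin_cases i
      · exact congrArg _ (pi_X0 U V)
      · exact congrArg _ (pi_X1 U V)
  refine h (FractionRing B) U V ⟨fun f => ?_, ?_⟩
  · rw [hpi, map_eq_zero_iff _ (IsFractionRing.injective B _), hk]
  · have hmem : ∀ f : R, pi U V f ∈ Algebra.adjoin (FractionRing A) {U, V} := fun f => by
      induction f using MvPolynomial.induction_on with
      | C a =>
        rw [pi_C, IsScalarTower.algebraMap_apply A (FractionRing A)]
        exact Subalgebra.algebraMap_mem _ _
      | add p q hp hq => rw [map_add]; exact Subalgebra.add_mem _ hp hq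
      | mul_X p i hp =>
        rw [map_mul]
        refine Subalgebra.mul_mem _ hp (Algebra.subset_adjoin ?_)
        fin_cases i
        · exact Or.inl (pi_X0 U V)
        · exact Or.inr (pi_X1 U V)
    rw [eq_top_iff]
    rintro x -
    obtain ⟨a, b, hb, rfl⟩ := IsFractionRing.div_surjective (A := B) x
    obtain ⟨a, rfl⟩ := hs a
    obtain ⟨b, rfl⟩ := hs b
    rw [div_eq_mul_inv, ← hpi, ← hpi]
    refine Subalgebra.mul_mem _ (hmem a) ?_
    have hint : IsIntegral A (pi U V b) := by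
      rw [hpi]
      exact (Algebra.IsIntegral.isIntegral (R := A) (π b)).algebraMap
    have halg : IsAlgebraic (FractionRing A) (pi U V b) :=
      (hint.tower_top (A := FractionRing A)).isAlgebraic
    exact Subalgebra.inv_mem_of_algebraic _ (x := ⟨_, hmem b⟩) halg

end SU

/-- The function field exists. -/
theorem exists_model' {Z : Set Pt} {f₁ f₂ : R} {g₁ g₂ : Fin 4 → ℝ} (hG : Geo Z f₁ f₂ g₁ g₂)
    (h : ∀ (L : Type) [Field L] [Algebra A L] [Algebra (FractionRing A) L]
      [IsScalarTower A (FractionRing A) L] (U V : L), ¬ Model (FractionRing A) Z U V) : False := by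
  have hp := hG.prime
  have hfin := SU.finite_quot hG.lead₁ hG.lead₂ hG.cop (van Z) hG.mem₁ hG.mem₂
  exact SU.model_of (B := R ⧸ van Z) (Ideal.Quotient.mkₐ A (van Z))
    (Ideal.Quotient.mkₐ_surjective A _)
    (fun f => Ideal.Quotient.eq_zero_iff_mem) hG.dom h

end Pool.Agent.Lib.MP_886b5a_gt
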