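import Pool.Agent.Lib.MP_886b5a_gt.SetupAlg
import Pool.Agent.Lib.MP_886b5a_gt.Quasi

set_option autoImplicit false

namespace Pool.Agent.Lib.MP_886b5a_gt

open MvPolynomial Filter Topology

namespace SU

/-- Homogeneous coordinates adapted to the line `a + t b`. -/
noncomputable def Tm (a b : Fin 4 → ℝ) : Pt →ₗ[ℝ] ℝ × (Fin 4 → ℝ) where
  toFun p := (p.2 1, ![p.2 0 * b 0 + p.2 1 * a 0, p.1 0 + p.2 0 * b 1 + p.2 1 * a 1,
    p.1 1 + p.2 0 * b 2 + p.2 1 * a 2, p.1 2 + p.2 0 * b 3 + p.2 1 * a 3])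
  map_add' p q := by
    refine Prod.ext rfl (funext fun i => ?_)
    fin_cases i <;> simp <;> ring
  map_smul' r p := by
    refine Prod.ext rfl (funext fun i => ?_)
    fin_cases i <;> simp <;> ring

/-- The inverse change of coordinates. -/
noncomputable def Ti (a b : Fin 4 → ℝ) : (ℝ × (Fin 4 → ℝ)) →ₗ[ℝ] Pt where
  toFun q := (![q.2 1 - q.1 * a 1 - (q.2 0 - q.1 * a 0) * (b 1 / b 0),
    q.2 2 - q.1 * a 2 - (q.2 0 - q.1 * a 0) * (b 2 / b 0),
    q.2 3 - q.1 * a 3 - (q.2 0 - q.1 * a 0) * (b 3 / b 0)], ![(q.2 0 - q.1 * a 0) / b 0, q.1])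
  map_add' p q := by
    refine Prod.ext (funext fun i => ?_) (funext fun i => ?_) <;> fin_cases i <;> simp <;> ring
  map_smul' r p := by
    refine Prod.ext (funext fun i => ?_) (funext fun i => ?_) <;> fin_cases i <;> simp <;> ring

variable {a b : Fin 4 → ℝ}

lemma Tm_fst (p : Pt) : (Tm a b p).1 = p.2 1 := rfl
lemma Ti_snd (q : ℝ × (Fin 4 → ℝ)) : (Ti a b q).2 1 = q.1 := rfl
lemma Ti_fst (x : Fin 4 → ℝ) :
    (Ti a b (1, x)).1 0 = x 1 - a 1 - (x 0 - a 0) * (b 1 / b 0) := by simp [Ti]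

lemma Tm_Ti (hb : b 0 ≠ 0) (q : ℝ × (Fin 4 → ℝ)) : Tm a b (Ti a b q) = q := by
  refine Prod.ext rfl (funext fun i => ?_)
  fin_cases i <;> simp [Tm, Ti] <;> field_simp <;> ring

lemma Ti_Tm (hb : b 0 ≠ 0) (p : Pt) : Ti a b (Tm a b p) = p := by
  refine Prod.ext (funext fun i => ?_) (funext fun i => ?_) <;> fin_cases i <;>
    simp [Tm, Ti] <;> field_simp <;> ring

lemma Ti_line (hb : b 0 ≠ 0) (t : ℝ) : Ti a b (1, a + t • b) = (0, ![t, 1]) := by
  refine Prod.ext (funext fun i => ?_) (funext fun i => ?_) <;> fin_cases i <;>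
    simp [Ti] <;> field_simp <;> ring

lemma eq_smul_Ti (hb : b 0 ≠ 0) (p : Pt) (hp : p.2 1 ≠ 0) :
    p = p.2 1 • Ti a b (1, (p.2 1)⁻¹ • (Tm a b p).2) := by
  rw [← map_smul, Prod.smul_mk, smul_smul, mul_inv_cancel₀ hp, one_smul, smul_eq_mul, mul_one]
  exact (Ti_Tm hb p).symm

lemma Ti_cancel (hb : b 0 ≠ 0) {s t : ℝ} (ht : t ≠ 0) {x y : Fin 4 → ℝ}
    (h : t • Ti a b (1, x) = s • Ti a b (1, y)) : x = y := by
  have h1 := congrArg (Tm a b) h
  rw [map_smul, map_smul, Tm_Ti hb, Tm_Ti hb] at h1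
  have h2 : t = s := by simpa using congrArg Prod.fst h1
  subst h2
  exact smul_right_injective _ ht (congrArg Prod.snd h1)

/-- The affine coordinates as linear forms. -/
noncomputable def xi (a b : Fin 4 → ℝ) : Fin 4 → R :=
  ![C (C (b 0)) * X 0 + C (C (a 0)) * X 1, C (X 0) + C (C (b 1)) * X 0 + C (C (a 1)) * X 1,
    C (X 1) + C (C (b 2)) * X 0 + C (C (a 2)) * X 1,
    C (X 2) + C (C (b 3)) * X 0 + C (C (a 3)) * X 1]

lemma ev_xi (p : Pt) (j : Fin 4) : ev p (xi a b j) = (Tm a b p).2 j := by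
  fin_cases j <;> simp [xi, Tm] <;> ring

lemma hr_xi (j : Fin 4) : HR 1 (xi a b j) := by
  fin_cases j
  · exact ((HR.X 0).CC_mul _).add ((HR.X 1).CC_mul _)
  · exact ((HR.C (HZ.X 0)).add ((HR.X 0).CC_mul _)).add ((HR.X 1).CC_mul _)
  · exact ((HR.C (HZ.X 1)).add ((HR.X 0).CC_mul _)).add ((HR.X 1).CC_mul _)
  · exact ((HR.C (HZ.X 2)).add ((HR.X 0).CC_mul _)).add ((HR.X 1).CC_mul _)

/-- Cubic homogenisation. -/
noncomputable def H (a b : Fin 4 → ℝ) (P : MvPolynomial (Fin 4) ℝ) : R :=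
  ∑ d ∈ P.support, C (C (coeff d P)) * (X 1 ^ (3 - ∑ j, d j) * ∏ j, xi a b j ^ d j)

lemma deg_le {P : MvPolynomial (Fin 4) ℝ} (hP : P.totalDegree ≤ 3) {d : Fin 4 →₀ ℕ}
    (hd : d ∈ P.support) : ∑ j, d j ≤ 3 := by
  have := (le_totalDegree hd).trans hP
  rwa [Finsupp.sum_fintype _ _ (by simp)] at this

lemma hr_H {P : MvPolynomial (Fin 4) ℝ} (hP : P.totalDegree ≤ 3) : HR 3 (H a b P) := by
  refine HR.sum _ _ fun d hd => HR.CC_mul _ ?_
  have h := deg_le hP hd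
  rw [Fin.sum_univ_four] at h
  rw [Fin.sum_univ_four, Fin.prod_univ_four]
  refine ((HR.X 1).pow _).mul' (((((hr_xi 0).pow _).mul ((hr_xi 1).pow _)).mul
    ((hr_xi 2).pow _)).mul ((hr_xi 3).pow _)) ?_
  omega

lemma ev_H (hb : b 0 ≠ 0) {P : MvPolynomial (Fin 4) ℝ} (hP : P.totalDegree ≤ 3) (t : ℝ)
    (x : Fin 4 → ℝ) : ev (t • Ti a b (1, x)) (H a b P) = t ^ 3 * eval x P := by
  rw [H, map_sum, eval_eq', Finset.mul_sum]
  refine Finset.sum_congr rfl fun d hd => ?_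
  have h := deg_le hP hd
  have h1 : (t • Ti a b (1, x)).2 1 = t := by simp [Ti_snd]
  simp only [map_mul, map_pow, map_prod, ev_C, eval_C, ev_X, ev_xi, h1, map_smul, Tm_Ti hb,
    Prod.smul_snd, Pi.smul_apply, smul_eq_mul, mul_pow, Finset.prod_mul_distrib,
    Finset.prod_pow_eq_pow_sum]
  have e : t ^ 3 = t ^ (3 - ∑ j, d j) * t ^ ∑ j, d j := by
    rw [← pow_add, Nat.sub_add_cancel h]
  rw [e]; ring

lemma lead_eval (hb : b 0 ≠ 0) {P : MvPolynomial (Fin 4) ℝ} (hP : P.totalDegree ≤ 3)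
    {g : Fin 4 → ℝ} (hg : Lead (H a b P) g) (t : ℝ) :
    eval (a + t • b) P = g 0 * t ^ 3 + g 1 * t ^ 2 + g 2 * t + g 3 := by
  obtain ⟨Q, l, e⟩ := hg
  have h := hr_H (a := a) (b := b) hP
  have h1 := ev_H (a := a) hb hP 1 (a + t • b)
  rw [one_smul, one_pow, one_mul, Ti_line hb] at h1
  rw [← h1, e]
  rw [e, cubR] at h
  obtain ⟨-, hQ, l0, l1, l2⟩ := h.coeffs
  simp [cubR, cub, quad, lin, (hQ 0).constantCoeff (by norm_num),
    (hQ 1).constantCoeff (by norm_num), (hQ 2).constantCoeff (by norm_num),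
    l0.constantCoeff (by norm_num), l1.constantCoeff (by norm_num),
    l2.constantCoeff (by norm_num)]

lemma ray_poly (p : Pt) (f : R) : ∃ q : Polynomial ℝ, ∀ t : ℝ, q.eval t = ev (t • p) f := by
  induction f using MvPolynomial.induction_on with
  | C u =>
    induction u using MvPolynomial.induction_on with
    | C r => exact ⟨Polynomial.C r, fun t => by simp⟩
    | add u v hu hv =>
      obtain ⟨q, hq⟩ := hu
      obtain ⟨q', hq'⟩ := hv
      exact ⟨q + q', fun t => by rw [map_add, map_add, Polynomial.eval_add, hq, hq']⟩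
    | mul_X u i hu =>
      obtain ⟨q, hq⟩ := hu
      refine ⟨q * (Polynomial.C (p.1 i) * Polynomial.X), fun t => ?_⟩
      rw [map_mul, map_mul, Polynomial.eval_mul, hq, Polynomial.eval_mul, Polynomial.eval_C,
        Polynomial.eval_X, mul_comm (p.1 i)]
      simp
  | add u v hu hv =>
    obtain ⟨q, hq⟩ := hu
    obtain ⟨q', hq'⟩ := hv
    exact ⟨q + q', fun t => by rw [map_add, Polynomial.eval_add, hq, hq']⟩
  | mul_X u i hu =>
    obtain ⟨q, hq⟩ := hu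
    refine ⟨q * (Polynomial.C (p.2 i) * Polynomial.X), fun t => ?_⟩
    rw [map_mul, Polynomial.eval_mul, hq, Polynomial.eval_mul, Polynomial.eval_C,
      Polynomial.eval_X, mul_comm (p.2 i)]
    simp

lemma ray_zero {p : Pt} {f : R} (h : ∀ s : ℝ, ev (Real.exp s • p) f = 0) (t : ℝ) :
    ev (t • p) f = 0 := by
  obtain ⟨q, hq⟩ := ray_poly p f
  have h0 : q = 0 := by
    refine Polynomial.eq_zero_of_infinite_isRoot q ((Set.Ioi_infinite (0 : ℝ)).mono ?_)
    intro s hs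
    have := h (Real.log s)
    rwa [Real.exp_log hs, ← hq] at this
  rw [← hq, h0, Polynomial.eval_zero]

lemma contDiff_ev (n : WithTop ℕ∞) (f : R) : ContDiff ℝ n fun p : Pt => ev p f := by
  induction f using MvPolynomial.induction_on with
  | C u =>
    induction u using MvPolynomial.induction_on with
    | C r => simpa using contDiff_const
    | add u v hu hv => simpa using hu.add hv
    | mul_X u i hu =>
      have h : ContDiff ℝ n fun p : Pt => p.1 i := by fun_prop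
      simpa using hu.mul h
  | add u v hu hv => simpa using hu.add hv
  | mul_X u i hu =>
    have h : ContDiff ℝ n fun p : Pt => p.2 i := by fun_prop
    simpa using hu.mul h

lemma hasDerivAt_fibre (p : Pt) (w : Fin 2 → ℝ) (f : R) :
    HasDerivAt (fun s : ℝ => ev (p + s • ((0 : Fin 3 → ℝ), w)) f)
      (w 0 * ev p (pderiv 0 f) + w 1 * ev p (pderiv 1 f)) 0 := by
  induction f using MvPolynomial.induction_on with
  | C u => simpa using hasDerivAt_const (0 : ℝ) (eval p.1 u)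
  | add u v hu hv =>
    simp only [map_add]
    exact (hu.fun_add hv).congr_deriv (by ring)
  | mul_X u i hu =>
    have h : HasDerivAt (fun s : ℝ => p.2 i + s * w i) (w i) 0 := by
      simpa using ((hasDerivAt_id (0 : ℝ)).mul_const (w i)).const_add (p.2 i)
    simp only [map_mul, ev_X, Prod.snd_add, Prod.smul_snd, Pi.add_apply, Pi.smul_apply,
      smul_eq_mul]
    refine (hu.fun_mul h).congr_deriv ?_
    fin_cases i <;> simp [pderiv_X] <;> ring

lemma fderiv_dir {f : R} {p v : Pt} {r : ℝ}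
    (h : HasDerivAt (fun s : ℝ => ev (p + s • v) f) r 0) :
    fderiv ℝ (fun p : Pt => ev p f) p v = r := by
  have h1 : HasDerivAt (fun s : ℝ => p + s • v) v 0 := by
    simpa using ((hasDerivAt_id (0 : ℝ)).smul_const v).const_add p
  have h2 : HasFDerivAt (fun p : Pt => ev p f) (fderiv ℝ (fun p : Pt => ev p f) p)
      (p + (0 : ℝ) • v) := by
    rw [zero_smul, add_zero]
    exact ((contDiff_ev 1 f).differentiable one_ne_zero p).hasFDerivAt
  have h3 := h2.comp_hasDerivAt (0 : ℝ) h1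
  exact h3.unique h

lemma exists_lin (φ : Pt →ₗ[ℝ] ℝ) : ∃ r : R, ∀ p, ev p r = φ p := by
  refine ⟨C (C (φ (![1, 0, 0], 0)) * X 0 + C (φ (![0, 1, 0], 0)) * X 1
    + C (φ (![0, 0, 1], 0)) * X 2) + C (C (φ (0, ![1, 0]))) * X 0
    + C (C (φ (0, ![0, 1]))) * X 1, fun p => ?_⟩
  have e : p = p.1 0 • ((![1, 0, 0], 0) : Pt) + p.1 1 • ((![0, 1, 0], 0) : Pt)
      + p.1 2 • ((![0, 0, 1], 0) : Pt) + p.2 0 • ((0, ![1, 0]) : Pt)
      + p.2 1 • ((0, ![0, 1]) : Pt) := by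
    refine Prod.ext (funext fun i => ?_) (funext fun i => ?_) <;> fin_cases i <;> simp
  conv_rhs => rw [e]
  simp only [map_add, map_smul, map_mul, ev_C, ev_X, eval_C, eval_X, smul_eq_mul]
  ring

lemma ev_aeval {n : ℕ} (p : Pt) (r : Fin n → R) (Ψ : MvPolynomial (Fin n) ℝ) :
    ev p (aeval r Ψ) = eval (fun i => ev p (r i)) Ψ := by
  induction Ψ using MvPolynomial.induction_on with
  | C u => simp
  | add u v hu hv => simp [hu, hv]
  | mul_X u i hu => simp [hu]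

section
variable {F : ℝ × ℝ → (Fin 4 → ℝ)}

/-- The cone over the surface. -/
def cone (a b : Fin 4 → ℝ) (F : ℝ × ℝ → (Fin 4 → ℝ)) : Set Pt :=
  {p | ∃ (t : ℝ) (z : ℝ × ℝ), p = t • Ti a b (1, F z)}

/-- Parametrisation of the positive half of the cone. -/
noncomputable def par (a b : Fin 4 → ℝ) (F : ℝ × ℝ → (Fin 4 → ℝ)) (ζ : Fin 3 → ℝ) : Pt :=
  Real.exp (ζ 0) • Ti a b (1, F (ζ 1, ζ 2))

lemma mem_van_cone {f : R} : f ∈ van (cone a b F) ↔ ∀ ζ, ev (par a b F ζ) f = 0 := by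
  constructor
  · intro h ζ
    exact h _ ⟨_, _, rfl⟩
  · rintro h _ ⟨t, z, rfl⟩
    exact ray_zero (fun s => by simpa [par] using h ![s, z.1, z.2]) t

lemma H_mem (hb : b 0 ≠ 0) {P : MvPolynomial (Fin 4) ℝ} (hP : P.totalDegree ≤ 3)
    (h : ∀ z, eval (F z) P = 0) : H a b P ∈ van (cone a b F) := by
  rintro _ ⟨t, z, rfl⟩
  rw [ev_H hb hP, h, mul_zero]

lemma contDiff_par {n : WithTop ℕ∞} (hF : ContDiff ℝ n F) : ContDiff ℝ n (par a b F) := by
  have h1 : ContDiff ℝ n fun ζ : Fin 3 → ℝ => F (ζ 1, ζ 2) := hF.comp (by fun_prop)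
  have h2 : ContDiff ℝ n fun ζ : Fin 3 → ℝ => Ti a b (1, F (ζ 1, ζ 2)) :=
    (LinearMap.toContinuousLinearMap (Ti a b)).contDiff.comp (contDiff_const.prodMk h1)
  have h3 : ContDiff ℝ n fun ζ : Fin 3 → ℝ => Real.exp (ζ 0) := by fun_prop
  exact h3.smul h2

lemma imm_par (hb : b 0 ≠ 0) (hF : Differentiable ℝ F)
    (himm : ∀ p : ℝ × ℝ, Function.Injective (fderiv ℝ F p)) (ζ : Fin 3 → ℝ) :
    Function.Injective (fderiv ℝ (par a b F) ζ) := by
  let π : (Fin 3 → ℝ) →L[ℝ] ℝ × ℝ :=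
    (ContinuousLinearMap.proj 1).prod (ContinuousLinearMap.proj 2)
  let π₀ : (Fin 3 → ℝ) →L[ℝ] ℝ := ContinuousLinearMap.proj 0
  have h1 : HasFDerivAt (fun ζ : Fin 3 → ℝ => F (ζ 1, ζ 2))
      ((fderiv ℝ F (ζ 1, ζ 2)).comp π) ζ := (hF (π ζ)).hasFDerivAt.comp ζ π.hasFDerivAt
  have h2 := (LinearMap.toContinuousLinearMap (Ti a b)).hasFDerivAt.comp ζ
    ((hasFDerivAt_const (1 : ℝ) ζ).prodMk h1)
  have h3 : HasFDerivAt (fun ζ : Fin 3 → ℝ => Real.exp (ζ 0)) (Real.exp (ζ 0) • π₀) ζ :=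
    π₀.hasFDerivAt.exp
  have h4 : HasFDerivAt (par a b F) _ ζ := h3.smul h2
  rw [h4.fderiv, injective_iff_map_eq_zero]
  intro v hv
  have h5 := congrArg (Tm a b) hv
  simp only [add_apply, smul_apply,
    ContinuousLinearMap.comp_apply, ContinuousLinearMap.prod_apply,
    ContinuousLinearMap.smulRight_apply, zero_apply,
    LinearMap.coe_toContinuousLinearMap', map_add, map_smul, Tm_Ti hb, map_zero] at h5
  have he := (Real.exp_pos (ζ 0)).ne'
  have h6 : v 0 = 0 := by simpa [he, π₀] using congrArg Prod.fst h5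
  have h7 : fderiv ℝ F (ζ 1, ζ 2) (π v) = 0 := by simpa [he, π₀, h6] using congrArg Prod.snd h5
  have h8 : π v = 0 := himm _ (h7.trans (map_zero _).symm)
  funext i
  fin_cases i
  · exact h6
  · exact congrArg Prod.fst h8
  · exact congrArg Prod.snd h8

variable {f₁ f₂ : R} {g₁ g₂ : Fin 4 → ℝ}

lemma prime_cone (hb : b 0 ≠ 0) (hF : ContDiff ℝ ((⊤ : ℕ∞) : WithTop ℕ∞) F)
    (himm : ∀ p : ℝ × ℝ, Function.Injective (fderiv ℝ F p))
    (l₁ : Lead f₁ g₁) (l₂ : Lead f₂ g₂) (hc : Cop g₁ g₂) (h₁ : f₁ ∈ van (cone a b F))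
    (h₂ : f₂ ∈ van (cone a b F)) : (van (cone a b F)).IsPrime := by
  refine ⟨fun h => ?_, fun {f g} hfg => ?_⟩
  · have h1 : (1 : R) ∈ van (cone a b F) := by rw [h]; trivial
    simpa using mem_van_cone.1 h1 0
  · rw [or_iff_not_imp_left]
    intro hf
    rw [mem_van_cone] at hf hfg ⊢
    push Not at hf
    obtain ⟨ζ₀, h0⟩ := hf
    refine quasi_analytic (par a b F) (contDiff_par hF)
      (imm_par hb (hF.differentiable (by simp)) himm) (fun p => ev p g) (contDiff_ev _ g)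
      (fun l => ?_) ζ₀ ?_
    · choose r hr using fun i : Fin 3 => exists_lin ((LinearMap.proj i).comp l.toLinearMap)
      obtain ⟨Ψ, hΨ, hm⟩ := dep4 l₁ l₂ hc _ h₁ h₂ (Fin.cons g r)
      refine ⟨Ψ, hΨ, fun ζ => ?_⟩
      have := mem_van_cone.1 hm ζ
      rw [ev_aeval] at this
      convert this using 3
      funext i
      refine Fin.cases rfl (fun j => ?_) i
      simp [hr]
    · have hcont : Continuous fun ζ => ev (par a b F ζ) f :=
        (contDiff_ev 0 f).continuous.comp (contDiff_par hF).continuous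
      filter_upwards [hcont.continuousAt.eventually_ne h0] with ζ hζ
      have := hfg ζ
      rw [map_mul] at this
      exact (mul_eq_zero.1 this).resolve_left hζ

lemma dom_cone (hb : b 0 ≠ 0) (hF : ContDiff ℝ ((⊤ : ℕ∞) : WithTop ℕ∞) F)
    (himm : ∀ p : ℝ × ℝ, Function.Injective (fderiv ℝ F p))
    (l₁ : Lead f₁ g₁) (l₂ : Lead f₂ g₂) (hc : Cop g₁ g₂) (h₁ : f₁ ∈ van (cone a b F))
    (h₂ : f₂ ∈ van (cone a b F)) (u : A) (hu : C u ∈ van (cone a b F)) : u = 0 := by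
  have := prime_cone hb hF himm l₁ l₂ hc h₁ h₂
  have hG : ContDiff ℝ 1 (par a b F) := contDiff_par (hF.of_le (by exact_mod_cast le_top))
  obtain ⟨l₀, hl₀⟩ := LinearMap.exists_leftInverse_of_injective
    (fderiv ℝ (par a b F) 0 : (Fin 3 → ℝ) →ₗ[ℝ] Pt)
    (LinearMap.ker_eq_bot.2 (imm_par hb (hF.differentiable (by simp)) himm 0))
  let l : Pt →L[ℝ] (Fin 3 → ℝ) := LinearMap.toContinuousLinearMap l₀
  have hfd : HasStrictFDerivAt (fun ζ => l (par a b F ζ))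
      ((ContinuousLinearEquiv.refl ℝ (Fin 3 → ℝ) : (Fin 3 → ℝ) ≃L[ℝ] (Fin 3 → ℝ)) :
        (Fin 3 → ℝ) →L[ℝ] (Fin 3 → ℝ)) 0 := by
    have h1 : HasStrictFDerivAt (fun ζ => l (par a b F ζ)) (l.comp (fderiv ℝ (par a b F) 0)) 0 :=
      l.hasStrictFDerivAt.comp 0 (hG.contDiffAt.hasStrictFDerivAt one_ne_zero)
    convert h1 using 1
    ext1 v
    have h2 := LinearMap.congr_fun hl₀ v
    simpa [l] using h2.symm
  choose r hr using fun i : Fin 3 => exists_lin ((LinearMap.proj i).comp l₀)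
  refine dom_of_indep l₁ l₂ hc _ h₁ h₂ r (fun Ψ hΨ => ?_) u hu
  refine QA.poly_eq_zero Ψ (l (par a b F 0)) ?_
  rw [← hfd.map_nhds_eq_of_equiv, eventually_map]
  refine Eventually.of_forall fun ζ => ?_
  have := mem_van_cone.1 hΨ ζ
  rw [ev_aeval] at this
  convert this using 3
  funext i
  simp [hr, l]

lemma mem_cone_iff (hb : b 0 ≠ 0) {t : ℝ} (ht : t ≠ 0) {x : Fin 4 → ℝ} :
    t • Ti a b (1, x) ∈ cone a b F ↔ x ∈ Set.range F :=
  ⟨fun ⟨_, z, h⟩ => ⟨z, (Ti_cancel hb ht h).symm⟩, fun ⟨z, h⟩ => ⟨t, z, by rw [h]⟩⟩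

lemma surj_fderiv (hb : b 0 ≠ 0) {h₁ h₂ : R} (m₁ : h₁ ∈ van (cone a b F))
    (m₂ : h₂ ∈ van (cone a b F)) {t : ℝ} (ht : t ≠ 0) (z : ℝ × ℝ)
    (hJ : ev (t • Ti a b (1, F z)) (Jac h₁ h₂) ≠ 0) :
    Function.Surjective (fderiv ℝ (fun x : Fin 4 → ℝ =>
      (ev (t • Ti a b (1, x)) h₁, ev (t • Ti a b (1, x)) h₂)) (F z)) := by
  set p := t • Ti a b (1, F z) with hp
  let L : (Fin 4 → ℝ) →L[ℝ] Pt := t • (LinearMap.toContinuousLinearMap (Ti a b)).comp
    (ContinuousLinearMap.inr ℝ ℝ (Fin 4 → ℝ))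
  have hL : HasFDerivAt (fun x : Fin 4 → ℝ => t • Ti a b (1, x)) L (F z) :=
    ((LinearMap.toContinuousLinearMap (Ti a b)).hasFDerivAt.comp (F z)
      (hasFDerivAt_prodMk_right (1 : ℝ) (F z))).const_smul t
  have hd : ∀ f : R, HasFDerivAt (fun x : Fin 4 → ℝ => ev (t • Ti a b (1, x)) f)
      ((fderiv ℝ (fun p : Pt => ev p f) p).comp L) (F z) := fun f => by
    have h := ((contDiff_ev 1 f).differentiable one_ne_zero p).hasFDerivAt
    exact HasFDerivAt.comp (f := fun x : Fin 4 → ℝ => t • Ti a b (1, x)) (F z) h hL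
  rw [((hd h₁).prodMk (hd h₂)).fderiv]
  have rad : ∀ f ∈ van (cone a b F), fderiv ℝ (fun p : Pt => ev p f) p p = 0 := fun f hf => by
    refine fderiv_dir ?_
    have e : (fun s : ℝ => ev (p + s • p) f) = fun _ => 0 := by
      funext s
      refine hf _ ⟨(1 + s) * t, z, ?_⟩
      rw [mul_smul, add_smul, one_smul]
    rw [e]
    exact hasDerivAt_const _ _
  have key : ∀ w : Fin 2 → ℝ, ∃ v, ∀ f ∈ van (cone a b F),
      fderiv ℝ (fun p : Pt => ev p f) p (L v) =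
        w 0 * ev p (pderiv 0 f) + w 1 * ev p (pderiv 1 f) := fun w => by
    let q : Pt := ((0 : Fin 3 → ℝ), w) - (w 1 / t) • p
    have hq : q.2 1 = 0 := by
      simp [q, hp, Ti_snd, ht]
    refine ⟨t⁻¹ • (Tm a b q).2, fun f hf => ?_⟩
    have e : L (t⁻¹ • (Tm a b q).2) = q := by
      have e1 : ((0 : ℝ), (Tm a b q).2) = Tm a b q := Prod.ext hq.symm rfl
      simp only [L, smul_apply, ContinuousLinearMap.comp_apply, map_smul,
        ContinuousLinearMap.inr_apply, LinearMap.coe_toContinuousLinearMap', e1, Ti_Tm hb,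
        smul_smul, inv_mul_cancel₀ ht, one_smul]
    rw [e, map_sub, map_smul, rad f hf, smul_zero, sub_zero]
    exact fderiv_dir (hasDerivAt_fibre p w f)
  rintro ⟨u, v⟩
  simp only [Jac, map_sub, map_mul] at hJ
  obtain ⟨x, hx⟩ := key
    ![(u * ev p (pderiv 1 h₂) - v * ev p (pderiv 1 h₁)) /
        (ev p (pderiv 0 h₁) * ev p (pderiv 1 h₂) - ev p (pderiv 1 h₁) * ev p (pderiv 0 h₂)),
      (v * ev p (pderiv 0 h₁) - u * ev p (pderiv 0 h₂)) /
        (ev p (pderiv 0 h₁) * ev p (pderiv 1 h₂) - ev p (pderiv 1 h₁) * ev p (pderiv 0 h₂))]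
  refine ⟨x, Prod.ext ?_ ?_⟩
  · change fderiv ℝ (fun p : Pt => ev p h₁) p (L x) = u
    rw [hx h₁ m₁]
    simp only [Matrix.cons_val_zero, Matrix.cons_val_one]
    rw [div_mul_eq_mul_div, div_mul_eq_mul_div, ← add_div, div_eq_iff hJ]
    ring
  · change fderiv ℝ (fun p : Pt => ev p h₂) p (L x) = v
    rw [hx h₂ m₂]
    simp only [Matrix.cons_val_zero, Matrix.cons_val_one]
    rw [div_mul_eq_mul_div, div_mul_eq_mul_div, ← add_div, div_eq_iff hJ]
    ring

lemma bounded_range {c d : ℝ} (hc : 0 < c) (hd : 0 < d) (hF : Continuous F)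
    (hper : ∀ p : ℝ × ℝ, F (p.1, p.2 + d) = F p ∧ F (p.1 + c, -p.2) = F p) :
    ∃ M : ℝ, ∀ z, ‖Ti a b (1, F z)‖ ≤ M := by
  have hK : IsCompact (Set.Icc 0 (2 * c) ×ˢ Set.Icc 0 d) := isCompact_Icc.prod isCompact_Icc
  have hcont : Continuous fun z => Ti a b (1, F z) :=
    (Ti a b).continuous_of_finiteDimensional.comp (continuous_const.prodMk hF)
  obtain ⟨M, hM⟩ := (hK.image hcont).isBounded.exists_norm_le
  refine ⟨M, ?_⟩
  rintro ⟨x, y⟩
  have p1 : Function.Periodic (fun t => F (t, y)) (2 * c) := by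
    intro t
    have h1 := (hper (t, y)).2
    have h2 := (hper (t + c, -y)).2
    simp only [neg_neg] at h1 h2
    show F (t + 2 * c, y) = F (t, y)
    rw [← h1, ← h2]
    congr 2
    ring
  obtain ⟨x', hx', e1⟩ := p1.exists_mem_Ico₀ (by positivity) x
  have p2 : Function.Periodic (fun t => F (x', t)) d := fun t => (hper (x', t)).1
  obtain ⟨y', hy', e2⟩ := p2.exists_mem_Ico₀ hd y
  refine hM _ ⟨(x', y'), ⟨Set.Ico_subset_Icc_self hx', Set.Ico_subset_Icc_self hy'⟩, ?_⟩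
  exact congrArg (fun x => Ti a b (1, x)) (e1.trans e2).symm

end

end SU

end Pool.Agent.Lib.MP_886b5a_gt
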