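import Pool.Agent.Lib.MP_886b5a_gt.SetupGeo
import Pool.Agent.Lib.MP_886b5a_gt.ProjPlane
import Pool.Agent.Lib.MP_886b5a_gt.GoodLine

set_option autoImplicit false

namespace Pool.Agent.Lib.MP_886b5a_gt

open MvPolynomial

namespace SU

/-- The geometric input, with the orientation lemma as a hypothesis. -/
theorem exists_geo_of (c d : ℝ) (hc : 0 < c) (hd : 0 < d) (F : ℝ × ℝ → (Fin 4 → ℝ))
    (hF : ContDiff ℝ ((⊤ : ℕ∞) : WithTop ℕ∞) F)
    (hper : ∀ p : ℝ × ℝ, F (p.1, p.2 + d) = F p ∧ F (p.1 + c, -p.2) = F p)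
    (himm : ∀ p : ℝ × ℝ, Function.Injective (fderiv ℝ F p))
    (hinj : ∀ p q : ℝ × ℝ, F p = F q →
      ∃ m n : ℤ, q.1 = p.1 + (m : ℝ) * c ∧ q.2 = (-1 : ℝ) ^ m * p.2 + (n : ℝ) * d)
    (S : Finset (MvPolynomial (Fin 4) ℝ)) (hS : ∀ P ∈ S, P.totalDegree ≤ 3)
    (hrange : Set.range F = {x : Fin 4 → ℝ | ∀ P ∈ S, MvPolynomial.eval x P = 0})
    (hreg : ∀ G : (Fin 4 → ℝ) → ℝ × ℝ, ContDiff ℝ 1 G → (∀ x, G x = 0 ↔ x ∈ Set.range F) →
      ∀ z₀ : ℝ × ℝ, Function.Surjective (fderiv ℝ G (F z₀)) → False) :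
    ∃ (Z : Set Pt) (f₁ f₂ : R) (g₁ g₂ : Fin 4 → ℝ), Geo Z f₁ f₂ g₁ g₂ := by
  obtain ⟨P₁, P₂, d₁, d₂, z₁, z₂, a, b, hb, hfar, γ₁, γ₂, e₁, e₂, hcop⟩ :=
    exists_good_line c d hc hd F (hF.of_le (by exact_mod_cast le_top)) hper hinj S hS hrange
  obtain ⟨g₁, l₁⟩ := (hr_H (a := a) (b := b) d₁).lead
  obtain ⟨g₂, l₂⟩ := (hr_H (a := a) (b := b) d₂).lead
  have cop : Cop g₁ g₂ := fun α β h => by
    refine hcop α β fun t => ?_
    rw [← e₁, ← e₂, lead_eval hb d₁ l₁, lead_eval hb d₂ l₂]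
    have h0 := congrFun h 0
    have h1 := congrFun h 1
    have h2 := congrFun h 2
    have h3 := congrFun h 3
    have h4 := congrFun h 4
    have h5 := congrFun h 5
    simp [conv] at h0 h1 h2 h3 h4 h5
    linear_combination t ^ 5 * h0 + t ^ 4 * h1 + t ^ 3 * h2 + t ^ 2 * h3 + t * h4 + h5
  have m₁ := H_mem (a := a) hb d₁ z₁
  have m₂ := H_mem (a := a) hb d₂ z₂
  obtain ⟨M, hM⟩ := bounded_range (a := a) (b := b) hc hd hF.continuous hper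
  have snd : ∀ (t : ℝ) (x : Fin 4 → ℝ), (t • Ti a b (1, x)).2 1 = t := fun t x => by
    simp [Ti_snd]
  refine ⟨cone a b F, H a b P₁, H a b P₂, g₁, g₂, ?_, prime_cone hb hF himm l₁ l₂ cop m₁ m₂,
    dom_cone hb hF himm l₁ l₂ cop m₁ m₂, ?_, ⟨M, ?_⟩, ⟨M, ?_⟩, m₁, m₂, hr_H d₁, hr_H d₂, l₁, l₂,
    cop, ?_, ?_⟩
  · rintro _ ⟨t, z, rfl⟩
    exact ⟨2 * t, z, by rw [mul_smul]⟩
  · intro p hp h
    rw [eq_smul_Ti (a := a) hb p hp, mem_cone_iff hb hp, hrange]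
    intro P hP
    have hz : ∀ z, eval (F z) P = 0 := fun z => by
      have : F z ∈ Set.range F := ⟨z, rfl⟩
      rw [hrange] at this
      exact this P hP
    have h1 := h _ (H_mem hb (hS P hP) hz) (hr_H (hS P hP))
    have h2 := ev_H (a := a) hb (hS P hP) (p.2 1) ((p.2 1)⁻¹ • (Tm a b p).2)
    rw [← eq_smul_Ti hb p hp, h1] at h2
    exact (mul_eq_zero.1 h2.symm).resolve_left (pow_ne_zero 3 hp)
  · rintro _ ⟨t, z, rfl⟩
    rw [snd, norm_smul, Real.norm_eq_abs, mul_comm]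
    exact mul_le_mul_of_nonneg_right (hM z) (abs_nonneg t)
  · rintro _ ⟨t, z, rfl⟩
    have h1 : |(Ti a b (1, F z)).1 1| ≤ M :=
      ((norm_le_pi_norm (Ti a b (1, F z)).1 1).trans (norm_fst_le _)).trans (hM z)
    have h2 : 1 ≤ |(Ti a b (1, F z)).1 0| := by rw [Ti_fst]; exact hfar z
    simp only [Prod.smul_fst, Pi.smul_apply, smul_eq_mul, abs_mul]
    have h3 : 0 ≤ M := (abs_nonneg _).trans h1
    calc |t| * |(Ti a b (1, F z)).1 1| ≤ |t| * (M * 1) :=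
          mul_le_mul_of_nonneg_left (by rw [mul_one]; exact h1) (abs_nonneg t)
      _ ≤ |t| * (M * |(Ti a b (1, F z)).1 0|) :=
          mul_le_mul_of_nonneg_left (mul_le_mul_of_nonneg_left h2 h3) (abs_nonneg t)
      _ = M * (|t| * |(Ti a b (1, F z)).1 0|) := by ring
  · intro h₁ n₁ h₂ n₂ hcut
    rw [mem_van_cone]
    intro ζ
    by_contra hJ
    have ht := (Real.exp_pos (ζ 0)).ne'
    refine hreg _ ?_ (fun x => ?_) _ (surj_fderiv hb n₁ n₂ ht (ζ 1, ζ 2) hJ)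
    · have h : ContDiff ℝ 1 fun x : Fin 4 → ℝ => Real.exp (ζ 0) • Ti a b (1, x) :=
        ((LinearMap.toContinuousLinearMap (Ti a b)).contDiff.comp
          (contDiff_const.prodMk contDiff_id)).const_smul _
      exact ((contDiff_ev 1 h₁).comp h).prodMk ((contDiff_ev 1 h₂).comp h)
    · rw [← mem_cone_iff (a := a) hb ht, Prod.mk_eq_zero]
      exact ⟨fun h => hcut _ (by rw [snd]; exact ht) h.1 h.2, fun h => ⟨n₁ _ h, n₂ _ h⟩⟩
  · intro n N hker hcut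
    refine no_linear_net c d hc hd F hF.continuous hper hinj
      (N.compl₂ (Ti a b)) (fun y => ?_) fun x => ?_
    · obtain ⟨p, hp, h⟩ := hker y
      refine ⟨Tm a b p, fun h0 => hp ?_, by rw [LinearMap.compl₂_apply, Ti_Tm hb, h]⟩
      rw [← Ti_Tm (a := a) hb p, h0, map_zero]
    · rw [← mem_cone_iff (a := a) hb one_ne_zero, one_smul]
      exact hcut (Ti a b (1, x)) rfl

end SU

end Pool.Agent.Lib.MP_886b5a_gt
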