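import Pool.Agent.Lib.MP_886b5a_gt.Binary

set_option autoImplicit false

namespace Pool.Agent.Lib.MP_886b5a_gt

open MvPolynomial

lemma C_mul_mem {W : Submodule A R} (a : A) {x : R} (hx : x ∈ W) : C a * x ∈ W := by
  rw [← smul_eq_C_mul]; exact W.smul_mem a hx

/-- The span of a family together with an ideal. -/
noncomputable def spn {n : ℕ} (s : Fin n → R) (J : Ideal R) : Submodule A R :=
  Submodule.span A (Set.range s) ⊔ J.restrictScalars A

lemma mem_spn_gen {n : ℕ} (s : Fin n → R) (J : Ideal R) (i : Fin n) : s i ∈ spn s J :=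
  Submodule.mem_sup_left (Submodule.subset_span ⟨i, rfl⟩)

lemma mem_spn_ideal {n : ℕ} (s : Fin n → R) {J : Ideal R} {x : R} (hx : x ∈ J) : x ∈ spn s J :=
  Submodule.mem_sup_right hx

lemma mul_mem_spn {n : ℕ} {s : Fin n → R} {J : Ideal R} {t : R} (h : ∀ i, t * s i ∈ spn s J)
    {x : R} (hx : x ∈ spn s J) : t * x ∈ spn s J := by
  obtain ⟨y, hy, z, hz, rfl⟩ := Submodule.mem_sup.1 hx
  rw [mul_add]
  refine Submodule.add_mem _ ?_ (mem_spn_ideal s (J.mul_mem_left t hz))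
  refine Submodule.span_induction (p := fun y _ => t * y ∈ spn s J) ?_ ?_ ?_ ?_ hy
  · rintro _ ⟨i, rfl⟩; exact h i
  · simp
  · intro a b _ _ ha hb; rw [mul_add]; exact Submodule.add_mem _ ha hb
  · intro a b _ hb; rw [mul_smul_comm]; exact Submodule.smul_mem _ a hb

lemma mem_spn_iff {n : ℕ} {s : Fin n → R} {J : Ideal R} {x : R} :
    x ∈ spn s J ↔ ∃ a : Fin n → A, x - ∑ i, C (a i) * s i ∈ J := by
  constructor
  · intro hx
    obtain ⟨y, hy, z, hz, rfl⟩ := Submodule.mem_sup.1 hx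
    obtain ⟨a, rfl⟩ := (Submodule.mem_span_range_iff_exists_fun A).1 hy
    exact ⟨a, by simpa [smul_eq_C_mul] using hz⟩
  · rintro ⟨a, ha⟩
    have : x = ∑ i, C (a i) * s i + (x - ∑ i, C (a i) * s i) := by ring
    rw [this]
    exact Submodule.add_mem _ (Submodule.sum_mem _ fun i _ => C_mul_mem _ (mem_spn_gen s J i))
      (mem_spn_ideal s ha)

lemma all_mem_spn {n : ℕ} {s : Fin n → R} {J : Ideal R} (h1 : (1 : R) ∈ spn s J)
    (h : ∀ (j : Fin 2) i, X j * s i ∈ spn s J) (f : R) : f ∈ spn s J := by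
  induction f using MvPolynomial.induction_on with
  | C a => simpa using C_mul_mem a h1
  | add p q hp hq => exact Submodule.add_mem _ hp hq
  | mul_X p j hp => rw [mul_comm]; exact mul_mem_spn (h j) hp

lemma algebraMap_real (r : ℝ) : algebraMap ℝ R r = C (C r) := rfl

lemma cubR_eq (g : Fin 4 → ℝ) : cubR g = cubE g (X 0 : R) (X 1) := by
  simp [cubR, cub, cubE]

/-- Real quartic form. -/
noncomputable def quarR (m : Fin 5 → ℝ) : R :=
  C (C (m 0)) * X 0 ^ 4 + C (C (m 1)) * (X 0 ^ 3 * X 1) + C (C (m 2)) * (X 0 ^ 2 * X 1 ^ 2)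
    + C (C (m 3)) * (X 0 * X 1 ^ 3) + C (C (m 4)) * X 1 ^ 4

/-- Eleven generators. -/
noncomputable def s11 (m : Fin 5 → ℝ) : Fin 11 → R :=
  ![1, X 0, X 1, X 0 ^ 2, X 0 * X 1, X 1 ^ 2, X 0 ^ 3, X 0 ^ 2 * X 1, X 0 * X 1 ^ 2, X 1 ^ 3,
    quarR m]

lemma span11 {f₁ f₂ : R} {g₁ g₂ : Fin 4 → ℝ} (l₁ : Lead f₁ g₁) (l₂ : Lead f₂ g₂)
    (hc : Cop g₁ g₂) : ∃ m, ∀ J : Ideal R, f₁ ∈ J → f₂ ∈ J → ∀ f, f ∈ spn (s11 m) J := by
  obtain ⟨m, hm⟩ := hc.surj4
  refine ⟨m, fun J h₁ h₂ => ?_⟩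
  obtain ⟨Q₁, b₁, e₁⟩ := l₁
  obtain ⟨Q₂, b₂, e₂⟩ := l₂
  have G := mem_spn_gen (s11 m) J
  have low : ∀ g Q b, cub g + quad Q + lin b ∈ spn (s11 m) J := fun g Q b => by
    have := (spn (s11 m) J).add_mem ((spn (s11 m) J).add_mem ((spn (s11 m) J).add_mem
      ((spn (s11 m) J).add_mem ((spn (s11 m) J).add_mem ((spn (s11 m) J).add_mem
      ((spn (s11 m) J).add_mem ((spn (s11 m) J).add_mem ((spn (s11 m) J).add_mem
      (C_mul_mem (b 0) (G 0)) (C_mul_mem (b 1) (G 1))) (C_mul_mem (b 2) (G 2)))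
      (C_mul_mem (Q 0) (G 3))) (C_mul_mem (Q 1) (G 4))) (C_mul_mem (Q 2) (G 5)))
      (C_mul_mem (g 0) (G 6))) (C_mul_mem (g 1) (G 7))) (C_mul_mem (g 2) (G 8)))
      (C_mul_mem (g 3) (G 9))
    have e : cub g + quad Q + lin b = C (b 0) * s11 m 0 + C (b 1) * s11 m 1 + C (b 2) * s11 m 2
        + C (Q 0) * s11 m 3 + C (Q 1) * s11 m 4 + C (Q 2) * s11 m 5 + C (g 0) * s11 m 6
        + C (g 1) * s11 m 7 + C (g 2) * s11 m 8 + C (g 3) * s11 m 9 := by
      simp [s11, cub, quad, lin]; ring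
    rw [e]; exact this
  have lowU : ∀ Q b, X 0 * (quad Q + lin b) ∈ spn (s11 m) J := fun Q b => by
    have := low ![Q 0, Q 1, Q 2, 0] ![b 1, b 2, 0] ![0, b 0, 0]
    have e : X 0 * (quad Q + lin b) = cub ![Q 0, Q 1, Q 2, 0] + quad ![b 1, b 2, 0]
        + lin ![0, b 0, 0] := by simp [cub, quad, lin]; ring
    rw [e]; exact this
  have lowV : ∀ Q b, X 1 * (quad Q + lin b) ∈ spn (s11 m) J := fun Q b => by
    have := low ![0, Q 0, Q 1, Q 2] ![0, b 1, b 2] ![0, 0, b 0]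
    have e : X 1 * (quad Q + lin b) = cub ![0, Q 0, Q 1, Q 2] + quad ![0, b 1, b 2]
        + lin ![0, 0, b 0] := by simp [cub, quad, lin]; ring
    rw [e]; exact this
  have quar : ∀ w, quarR w ∈ spn (s11 m) J := fun w => by
    obtain ⟨a, b, κ, rfl⟩ := hm w
    have e : quarR (conv4 a g₁ + conv4 b g₂ + κ • m) =
        ((C (C (a 0)) * X 0 + C (C (a 1)) * X 1) * f₁ + (C (C (b 0)) * X 0 + C (C (b 1)) * X 1) * f₂)
        + C (C κ) * s11 m 10 - C (C (a 0)) * (X 0 * (quad Q₁ + lin b₁))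
        - C (C (a 1)) * (X 1 * (quad Q₁ + lin b₁)) - C (C (b 0)) * (X 0 * (quad Q₂ + lin b₂))
        - C (C (b 1)) * (X 1 * (quad Q₂ + lin b₂)) := by
      rw [e₁, e₂]; simp [quarR, conv4, s11, cubR, cub]; ring
    rw [e]
    exact Submodule.sub_mem _ (Submodule.sub_mem _ (Submodule.sub_mem _ (Submodule.sub_mem _
      (Submodule.add_mem _ (mem_spn_ideal _ (J.add_mem (J.mul_mem_left _ h₁) (J.mul_mem_left _ h₂)))
      (C_mul_mem _ (G 10))) (C_mul_mem _ (lowU _ _))) (C_mul_mem _ (lowV _ _)))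
      (C_mul_mem _ (lowU _ _))) (C_mul_mem _ (lowV _ _))
  have q0 : (X 0 : R) ^ 4 ∈ spn (s11 m) J := by simpa [quarR] using quar ![1, 0, 0, 0, 0]
  have q1 : (X 0 : R) ^ 3 * X 1 ∈ spn (s11 m) J := by simpa [quarR] using quar ![0, 1, 0, 0, 0]
  have q2 : (X 0 : R) ^ 2 * X 1 ^ 2 ∈ spn (s11 m) J := by simpa [quarR] using quar ![0, 0, 1, 0, 0]
  have q3 : (X 0 : R) * X 1 ^ 3 ∈ spn (s11 m) J := by simpa [quarR] using quar ![0, 0, 0, 1, 0]
  have q4 : (X 1 : R) ^ 4 ∈ spn (s11 m) J := by simpa [quarR] using quar ![0, 0, 0, 0, 1]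
  have lowq : ∀ (a : Fin 3 → ℝ) Q b, (C (C (a 0)) * X 0 ^ 2 + C (C (a 1)) * (X 0 * X 1)
      + C (C (a 2)) * X 1 ^ 2) * (quad Q + lin b) ∈ spn (s11 m) J := fun a Q b => by
    have e : (C (C (a 0)) * X 0 ^ 2 + C (C (a 1)) * (X 0 * X 1) + C (C (a 2)) * X 1 ^ 2)
        * (quad Q + lin b) = C (C (a 0) * Q 0) * X 0 ^ 4
        + C (C (a 0) * Q 1 + C (a 1) * Q 0) * (X 0 ^ 3 * X 1)
        + C (C (a 0) * Q 2 + C (a 1) * Q 1 + C (a 2) * Q 0) * (X 0 ^ 2 * X 1 ^ 2)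
        + C (C (a 1) * Q 2 + C (a 2) * Q 1) * (X 0 * X 1 ^ 3) + C (C (a 2) * Q 2) * X 1 ^ 4
        + (cub ![C (a 0) * b 1, C (a 0) * b 2 + C (a 1) * b 1, C (a 1) * b 2 + C (a 2) * b 1,
            C (a 2) * b 2] + quad ![C (a 0) * b 0, C (a 1) * b 0, C (a 2) * b 0] + lin 0) := by
      simp [cub, quad, lin]; ring
    rw [e]
    exact Submodule.add_mem _ (Submodule.add_mem _ (Submodule.add_mem _ (Submodule.add_mem _
      (Submodule.add_mem _ (C_mul_mem _ q0) (C_mul_mem _ q1)) (C_mul_mem _ q2)) (C_mul_mem _ q3))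
      (C_mul_mem _ q4)) (low _ _ _)
  have quin : ∀ w : Fin 6 → ℝ, C (C (w 0)) * X 0 ^ 5 + C (C (w 1)) * (X 0 ^ 4 * X 1)
      + C (C (w 2)) * (X 0 ^ 3 * X 1 ^ 2) + C (C (w 3)) * (X 0 ^ 2 * X 1 ^ 3)
      + C (C (w 4)) * (X 0 * X 1 ^ 4) + C (C (w 5)) * X 1 ^ 5 ∈ spn (s11 m) J := fun w => by
    obtain ⟨a, b, hab⟩ := hc.quintic (E := R) w
    have := hab (X 0) (X 1)
    simp only [algebraMap_real, ← cubR_eq] at this
    rw [this]
    have c₁ : cubR g₁ = f₁ - (quad Q₁ + lin b₁) := by rw [e₁]; ring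
    have c₂ : cubR g₂ = f₂ - (quad Q₂ + lin b₂) := by rw [e₂]; ring
    rw [c₁, c₂, mul_sub, mul_sub]
    exact Submodule.add_mem _ (Submodule.sub_mem _ (mem_spn_ideal _ (J.mul_mem_left _ h₁))
      (lowq a _ _)) (Submodule.sub_mem _ (mem_spn_ideal _ (J.mul_mem_left _ h₂)) (lowq b _ _))
  refine all_mem_spn (G 0) fun j i => ?_
  fin_cases j <;> fin_cases i
  · simpa [s11] using G 1
  · simpa [s11, sq] using G 3
  · simpa [s11] using G 4
  · simpa [s11, pow_succ'] using G 6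
  · simpa [s11, sq, mul_assoc] using G 7
  · simpa [s11] using G 8
  · simpa [s11, pow_succ'] using q0
  · simpa [s11, pow_succ', mul_assoc] using q1
  · simpa [s11, sq, mul_assoc] using q2
  · simpa [s11] using q3
  · have := quin ![m 0, m 1, m 2, m 3, m 4, 0]
    convert this using 1
    simp [s11, quarR]; ring
  · simpa [s11] using G 2
  · simpa [s11, mul_comm] using G 4
  · simpa [s11, sq] using G 5
  · simpa [s11, mul_comm] using G 7
  · have := G 8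
    convert this using 1
    simp [s11]; ring
  · simpa [s11, pow_succ'] using G 9
  · simpa [s11, mul_comm] using q1
  · convert q2 using 1
    simp [s11]; ring
  · convert q3 using 1
    simp [s11]; ring
  · simpa [s11, pow_succ'] using q4
  · have := quin ![0, m 0, m 1, m 2, m 3, m 4]
    convert this using 1
    simp [s11, quarR]; ring

/-- Six generators. -/
noncomputable def s6 : Fin 6 → R := ![1, X 0, X 1, X 0 ^ 2, X 0 * X 1, X 1 ^ 2]

lemma low_mem_s6 (J : Ideal R) (Q b : Fin 3 → A) : quad Q + lin b ∈ spn s6 J := by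
  rw [mem_spn_iff]
  refine ⟨![b 0, b 1, b 2, Q 0, Q 1, Q 2], ?_⟩
  have : quad Q + lin b - ∑ i, C (![b 0, b 1, b 2, Q 0, Q 1, Q 2] i) * s6 i = 0 := by
    simp [Fin.sum_univ_succ, s6, quad, lin]; ring
  rw [this]; exact J.zero_mem

lemma span6 {J : Ideal R} (h0 : (X 0 : R) ^ 3 ∈ spn s6 J) (h1 : (X 0 : R) ^ 2 * X 1 ∈ spn s6 J)
    (h2 : (X 0 : R) * X 1 ^ 2 ∈ spn s6 J) (h3 : (X 1 : R) ^ 3 ∈ spn s6 J) (f : R) :
    f ∈ spn s6 J := by
  have G := mem_spn_gen s6 J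
  refine all_mem_spn (G 0) (fun j i => ?_) f
  fin_cases j <;> fin_cases i
  · simpa [s6] using G 1
  · simpa [s6, sq] using G 3
  · simpa [s6] using G 4
  · simpa [s6, pow_succ'] using h0
  · simpa [s6, sq, mul_assoc] using h1
  · simpa [s6] using h2
  · simpa [s6] using G 2
  · simpa [s6, mul_comm] using G 4
  · simpa [s6, sq] using G 5
  · simpa [s6, mul_comm] using h1
  · convert h2 using 1
    simp [s6]; ring
  · simpa [s6, pow_succ'] using h3

end Pool.Agent.Lib.MP_886b5a_gt
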