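import Mathlib
import Pool.Agent.Lib.MP_886b5a_gt.Arc

/-!
The one-parameter family of cubic flat Klein bottles.
-/

open Real

namespace Pool.Agent.Lib.MP_886b5a_gt

/-- the point with half angle `f` and curve parameter `t`. -/
noncomputable def pt (k m f t : ℝ) : Fin 4 → ℝ :=
  ![k * (cos f ^ 2 - sin f ^ 2) - m * cos t * (2 * sin f * cos f),
    k * (2 * sin f * cos f) + m * cos t * (cos f ^ 2 - sin f ^ 2),
    2 * m * sin t * cos f, 2 * m * sin t * sin f]

theorem pt_shift (k m f t : ℝ) : pt k m (f + π) (-t) = pt k m f t := by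
  ext i
  fin_cases i <;> simp [pt, cos_add_pi, sin_add_pi]

theorem pt_period (k m f t : ℝ) (n : ℕ) : pt k m f (t + n * (2 * π)) = pt k m f t := by
  simp [pt, cos_add_nat_mul_two_pi, sin_add_nat_mul_two_pi]

theorem pt_deriv {k m : ℝ} (hkm : k ^ 2 + m ^ 2 = 1) {f t : ℝ × ℝ → ℝ} {f' t' : ℝ × ℝ →L[ℝ] ℝ}
    {p : ℝ × ℝ} (hf : HasFDerivAt f f' p) (ht : HasFDerivAt t t' p) (a : ℝ) (w : ℝ × ℝ) :
    ∑ i : Fin 4, (fderiv ℝ (fun q => a • pt k m (f q) (t q)) p w i) ^ 2 =
      a ^ 2 * ((2 * f' w - k * m * sin (t p) * t' w) ^ 2 +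
        m ^ 2 * (4 * cos (t p) ^ 2 + m ^ 2 * sin (t p) ^ 2) * t' w ^ 2) := by
  have c := hf.cos
  have s := hf.sin
  have h0 := (((c.pow 2).sub (s.pow 2)).const_mul k).sub
    ((ht.cos.const_mul m).mul ((s.const_mul 2).mul c))
  have h1 := (((s.const_mul 2).mul c).const_mul k).add
    ((ht.cos.const_mul m).mul ((c.pow 2).sub (s.pow 2)))
  have h2 := (ht.sin.const_mul (2 * m)).mul c
  have h3 := (ht.sin.const_mul (2 * m)).mul s
  have hd : DifferentiableAt ℝ (fun q => a • pt k m (f q) (t q)) p := by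
    refine DifferentiableAt.const_smul (differentiableAt_pi.2 fun i => ?_) a
    fin_cases i
    exacts [h0.differentiableAt, h1.differentiableAt, h2.differentiableAt, h3.differentiableAt]
  have key : ∀ (i : Fin 4) (L : ℝ × ℝ →L[ℝ] ℝ),
      HasFDerivAt (fun q => pt k m (f q) (t q) i) L p →
      fderiv ℝ (fun q => a • pt k m (f q) (t q)) p w i = a * L w := by
    intro i L hL
    have e1 := (hasFDerivAt_pi'.1 hd.hasFDerivAt) i
    have e2 : HasFDerivAt (fun q => (a • pt k m (f q) (t q)) i) (a • L) p := hL.const_smul a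
    have := congrArg (fun M : ℝ × ℝ →L[ℝ] ℝ => M w) (e1.unique e2)
    simpa using this
  rw [Fin.sum_univ_four, key 0 _ h0, key 1 _ h1, key 2 _ h2, key 3 _ h3]
  simp only [sub_apply, add_apply, smul_apply, smul_eq_mul, Pi.mul_apply, Pi.sub_apply,
    Nat.cast_ofNat, nsmul_eq_mul, Nat.add_one_sub_one, pow_one]
  have e1 := sin_sq_add_cos_sq (f p)
  have e2 := sin_sq_add_cos_sq (t p)
  generalize sin (f p) = S at *
  generalize cos (f p) = C at *
  generalize sin (t p) = σ at *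
  generalize cos (t p) = γ at *
  generalize f' w = x
  generalize t' w = y
  grind

theorem pt_eq1 {k m : ℝ} (hkm : k ^ 2 + m ^ 2 = 1) (f t : ℝ) :
    4 * (pt k m f t 0 ^ 2 + pt k m f t 1 ^ 2) + pt k m f t 2 ^ 2 + pt k m f t 3 ^ 2 = 4 := by
  simp only [pt, Matrix.cons_val_zero, Matrix.cons_val_one, Matrix.cons_val]
  have e1 := sin_sq_add_cos_sq f
  have e2 := sin_sq_add_cos_sq t
  grind

theorem pt_eq2 (k m f t : ℝ) :
    pt k m f t 0 * (pt k m f t 2 ^ 2 - pt k m f t 3 ^ 2) +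
      2 * pt k m f t 1 * pt k m f t 2 * pt k m f t 3 =
      k * (pt k m f t 2 ^ 2 + pt k m f t 3 ^ 2) := by
  simp only [pt, Matrix.cons_val_zero, Matrix.cons_val_one, Matrix.cons_val]
  have e1 := sin_sq_add_cos_sq f
  grind

theorem exists_angle {a b : ℝ} (h : a ^ 2 + b ^ 2 = 1) : ∃ t, cos t = a ∧ sin t = b := by
  have hn : ‖(⟨a, b⟩ : ℂ)‖ = 1 := by
    rw [Complex.norm_eq_sqrt_sq_add_sq]; simp [h]
  have h0 : (⟨a, b⟩ : ℂ) ≠ 0 := by
    intro h0; rw [h0] at hn; simp at hn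
  exact ⟨Complex.arg ⟨a, b⟩, by rw [Complex.cos_arg h0, hn]; simp,
    by rw [Complex.sin_arg, hn]; simp⟩

theorem pt_surj {k m : ℝ} (hkm : k ^ 2 + m ^ 2 = 1) (hm : 0 < m) (x : Fin 4 → ℝ)
    (h1 : 4 * (x 0 ^ 2 + x 1 ^ 2) + x 2 ^ 2 + x 3 ^ 2 = 4)
    (h2 : x 0 * (x 2 ^ 2 - x 3 ^ 2) + 2 * x 1 * x 2 * x 3 = k * (x 2 ^ 2 + x 3 ^ 2)) :
    ∃ f t, pt k m f t = x := by
  by_cases hw : x 2 ^ 2 + x 3 ^ 2 = 0
  · have a2 : x 2 = 0 := by nlinarith [sq_nonneg (x 2), sq_nonneg (x 3)]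
    have a3 : x 3 = 0 := by nlinarith [sq_nonneg (x 2), sq_nonneg (x 3)]
    obtain ⟨g, hg1, hg2⟩ := exists_angle (a := k * x 0 + m * x 1) (b := k * x 1 - m * x 0)
      (by rw [a2, a3] at h1; grind)
    have c : cos (g / 2) ^ 2 - sin (g / 2) ^ 2 = k * x 0 + m * x 1 := by
      rw [← cos_two_mul', ← hg1]; congr 1; ring
    have s : 2 * sin (g / 2) * cos (g / 2) = k * x 1 - m * x 0 := by
      rw [← sin_two_mul, ← hg2]; congr 1; ring
    refine ⟨g / 2, 0, ?_⟩
    ext i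
    fin_cases i
    · simp only [pt, c, s, cos_zero, Fin.zero_eta, Matrix.cons_val_zero]; grind
    · simp only [pt, c, s, cos_zero, Fin.mk_one, Matrix.cons_val_one, Matrix.cons_val_zero]; grind
    · simp [pt, a2]
    · simp [pt, a3]
  · have hr : 0 < x 2 ^ 2 + x 3 ^ 2 := lt_of_le_of_ne (by positivity) (Ne.symm hw)
    set r := √(x 2 ^ 2 + x 3 ^ 2) with hrdef
    have r0 : 0 < r := sqrt_pos.2 hr
    have r2 : r ^ 2 = x 2 ^ 2 + x 3 ^ 2 := sq_sqrt hr.le
    obtain ⟨f, hf1, hf2⟩ := exists_angle (a := x 2 / r) (b := x 3 / r)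
      (by field_simp; linarith)
    have x2 : x 2 = r * cos f := by rw [hf1]; field_simp
    have x3 : x 3 = r * sin f := by rw [hf2]; field_simp
    have e1 := sin_sq_add_cos_sq f
    have hk : x 0 * (cos f ^ 2 - sin f ^ 2) + x 1 * (2 * sin f * cos f) = k := by
      rw [← r2, x2, x3] at h2
      refine mul_left_cancel₀ (pow_pos r0 2).ne' ?_
      linarith
    set η := x 1 * (cos f ^ 2 - sin f ^ 2) - x 0 * (2 * sin f * cos f) with hη
    have hsum : η ^ 2 + r ^ 2 / 4 = m ^ 2 := by grind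
    obtain ⟨t, ht1, ht2⟩ := exists_angle (a := η / m) (b := r / (2 * m))
      (by field_simp; linarith)
    have c : m * cos t = η := by rw [ht1]; field_simp
    have s : 2 * m * sin t = r := by rw [ht2]; field_simp
    refine ⟨f, t, ?_⟩
    ext i
    fin_cases i
    · simp only [pt, c, Fin.zero_eta, Matrix.cons_val_zero]; grind
    · simp only [pt, c, Fin.mk_one, Matrix.cons_val_one, Matrix.cons_val_zero]; grind
    · simp [pt, s, x2]
    · simp [pt, s, x3]

theorem angle_eq {a b : ℝ} (h1 : cos a = cos b) (h2 : sin a = sin b) :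
    ∃ n : ℤ, a = b + n * (2 * π) := by
  have : cos (a - b) = 1 := by
    rw [cos_sub, h1, h2]; nlinarith [sin_sq_add_cos_sq b]
  obtain ⟨n, hn⟩ := (cos_eq_one_iff _).1 this
  exact ⟨n, by linarith⟩

theorem pt_inj {k m : ℝ} (hm : 0 < m) {f t g s : ℝ} (h : pt k m f t = pt k m g s)
    (ht : sin t ≠ 0) : ∃ a n : ℤ, g = f + a * π ∧ s = (-1) ^ a * t + n * (2 * π) := by
  have h0 := congrFun h 0
  have h1 := congrFun h 1
  have h2 := congrFun h 2
  have h3 := congrFun h 3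
  simp only [pt, Matrix.cons_val_zero, Matrix.cons_val_one, Matrix.cons_val] at h0 h1 h2 h3
  have a2 : sin t * cos f = sin s * cos g := mul_left_cancel₀ (by positivity : 2 * m ≠ 0)
    (by linarith)
  have a3 : sin t * sin f = sin s * sin g := mul_left_cancel₀ (by positivity : 2 * m ≠ 0)
    (by linarith)
  have e1 := sin_sq_add_cos_sq f
  have e2 := sin_sq_add_cos_sq g
  have hz : sin (g - f) = 0 := by
    rw [sin_sub]
    refine mul_left_cancel₀ ht ?_
    grind
  obtain ⟨a, ha⟩ := sin_eq_zero_iff.1 hz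
  have hg : g = f + a * π := by linarith
  have hsq : ((-1 : ℝ) ^ a) ^ 2 = 1 := by
    rcases Int.even_or_odd a with h | h <;> simp [h.neg_one_zpow]
  have cg : cos g = (-1) ^ a * cos f := by rw [hg, cos_add_int_mul_pi]
  have sg : sin g = (-1) ^ a * sin f := by rw [hg, sin_add_int_mul_pi]
  have hc : cos s = cos t := by
    refine mul_left_cancel₀ hm.ne' ?_
    rw [cg, sg] at h0 h1
    grind
  have hs : sin s = (-1) ^ a * sin t := by
    rw [cg] at a2
    rw [sg] at a3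
    grind
  have hc' : cos ((-1) ^ a * t) = cos t := by
    rcases Int.even_or_odd a with h | h <;> simp [h.neg_one_zpow]
  have hs' : sin ((-1) ^ a * t) = (-1) ^ a * sin t := by
    rcases Int.even_or_odd a with h | h <;> simp [h.neg_one_zpow]
  obtain ⟨n, hn⟩ := angle_eq (hc.trans hc'.symm) (hs.trans hs'.symm)
  exact ⟨a, n, hg, hn⟩

end Pool.Agent.Lib.MP_886b5a_gt
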