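import Pool.Agent.Lib.MP_886b5a_gt.BDefs

set_option autoImplicit false
set_option linter.unusedSectionVars false

namespace Pool.Agent.Lib.MP_886b5a_gt

open MvPolynomial Module

variable {K : Type*} {L : Type*} [Field K] [Algebra A K] [IsFractionRing A K] [Field L]
  [Algebra A L] [Algebra K L] [IsScalarTower A K L]
variable {Z : Set Pt} {U V : L} {f₁ f₂ : R} {g₁ g₂ : Fin 4 → ℝ}

lemma Geo.noLine (hG : Geo Z f₁ f₂ g₁ g₂) {p q : Pt} (hq : q ≠ 0) (hq1 : q.2 1 = 0)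
    (h : ∀ M : ℝ, ∃ τ, M ≤ τ ∧ p + τ • q ∈ Z) : False := by
  obtain ⟨c, hc⟩ := hG.bdd
  have hq' : 0 < ‖q‖ := norm_pos_iff.2 hq
  obtain ⟨τ, hτ, hZ⟩ := h ((‖p‖ + c * |p.2 1| + 1) / ‖q‖)
  have h1 := hc _ hZ
  have h2 : (p + τ • q).2 1 = p.2 1 := by simp [hq1]
  rw [h2] at h1
  rw [div_le_iff₀ hq'] at hτ
  have h3 : ‖τ • q‖ ≤ ‖p + τ • q‖ + ‖p‖ := by
    simpa using norm_sub_le (p + τ • q) p
  rw [norm_smul, Real.norm_eq_abs] at h3
  nlinarith [le_abs_self τ]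

lemma real_ne_zero (K : Type*) {L : Type*} [Field K] [Algebra A K] [IsFractionRing A K] [Field L]
    [Algebra A L] [Algebra K L] [IsScalarTower A K L] {r : ℝ} (hr : r ≠ 0) :
    algebraMap A L (C r) ≠ 0 := fun h =>
  hr (by simpa using inj_AL K (L := L) (h.trans (map_zero _).symm))

lemma trip_core (hG : Geo Z f₁ f₂ g₁ g₂) (hM : Model K Z U V) {h0 h1 h2 l0 l1 l2 : R}
    {c0 c1 c2 : ℝ} (hc : c0 ≠ 0) (m0 : h0 ∈ van Z) (m1 : h1 ∈ van Z) (m2 : h2 ∈ van Z)
    (hsyz : l0 * h0 + l1 * h1 + l2 * h2 = 0)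
    (hs : ∀ p : Pt, p.2 1 ≠ 0 → ev p (C (C c0) * l0 + C (C c1) * l1 + C (C c2) * l2) ≠ 0)
    (hcut : ∀ p : Pt, p.2 1 ≠ 0 → ev p h0 = 0 → ev p h1 = 0 → ev p h2 = 0 → p ∈ Z) :
    ∃ b c : L, (b ≠ 0 ∨ c ≠ 0) ∧ h0 ∈ tker U V b c ∧ h1 ∈ tker U V b c ∧ h2 ∈ tker U V b c := by
  obtain ⟨b, c, hbc, t1, t2⟩ := hG.tangent hM
    (h₁ := C (C c0) * h1 - C (C c1) * h0) (h₂ := C (C c0) * h2 - C (C c2) * h0)
    ((van Z).sub_mem ((van Z).mul_mem_left _ m1) ((van Z).mul_mem_left _ m0))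
    ((van Z).sub_mem ((van Z).mul_mem_left _ m2) ((van Z).mul_mem_left _ m0))
    fun p hp e1 e2 => by
      have e0 := congrArg (ev p) hsyz
      have hs' := hs p hp
      simp only [map_add, map_sub, map_mul, ev_C, eval_C, map_zero] at e0 e1 e2 hs'
      have z0 : ev p h0 = 0 := by
        apply mul_left_cancel₀ hs'
        linear_combination c0 * e0 - ev p l1 * e1 - ev p l2 * e2
      rw [z0] at e1 e2
      exact hcut p hp z0 (by simpa [hc] using e1) (by simpa [hc] using e2)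
  have p0 := (hM.ker _).2 m0
  have p1 := (hM.ker _).2 m1
  have p2 := (hM.ker _).2 m2
  have d1 := (mem_tker'.1 t1).2
  have d2 := (mem_tker'.1 t2).2
  have d0 := congrArg (dv U V b c) hsyz
  have hs' : pi U V (C (C c0) * l0 + C (C c1) * l1 + C (C c2) * l2) ≠ 0 := fun h => by
    have h' := (hM.ker _).1 h
    by_cases hp : ∃ p ∈ Z, p.2 1 ≠ 0
    · obtain ⟨p, hp, hp1⟩ := hp
      exact hs p hp1 (h' p hp)
    · push Not at hp
      exact hG.X1_notMem fun p hpZ => by simpa using hp p hpZ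
  simp only [dv_add, dv_sub, dv_mul, dv_C, dv_zero, pi_C, p0, p1, p2, map_add, map_mul,
    zero_mul, add_zero] at d0 d1 d2 hs'
  have hc' := real_ne_zero K (L := L) hc
  have z0 : dv U V b c h0 = 0 := by
    apply mul_left_cancel₀ hs'
    linear_combination algebraMap A L (C c0) * d0 - pi U V l1 * d1 - pi U V l2 * d2
  rw [z0] at d1 d2
  exact ⟨b, c, hbc, mem_tker'.2 ⟨p0, z0⟩, mem_tker'.2 ⟨p1, by simpa [hc'] using d1⟩,
    mem_tker'.2 ⟨p2, by simpa [hc'] using d2⟩⟩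

lemma trip (hG : Geo Z f₁ f₂ g₁ g₂) (hM : Model K Z U V) {h0 h1 h2 l0 l1 l2 : R}
    {c0 c1 c2 : ℝ} (hc : c0 ≠ 0 ∨ c1 ≠ 0 ∨ c2 ≠ 0) (m0 : h0 ∈ van Z) (m1 : h1 ∈ van Z)
    (m2 : h2 ∈ van Z) (hsyz : l0 * h0 + l1 * h1 + l2 * h2 = 0)
    (hs : ∀ p : Pt, p.2 1 ≠ 0 → ev p (C (C c0) * l0 + C (C c1) * l1 + C (C c2) * l2) ≠ 0)
    (hcut : ∀ p : Pt, p.2 1 ≠ 0 → ev p h0 = 0 → ev p h1 = 0 → ev p h2 = 0 → p ∈ Z) :
    ∃ b c : L, (b ≠ 0 ∨ c ≠ 0) ∧ h0 ∈ tker U V b c ∧ h1 ∈ tker U V b c ∧ h2 ∈ tker U V b c := by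
  rcases hc with hc | hc | hc
  · exact trip_core hG hM hc m0 m1 m2 hsyz hs hcut
  · obtain ⟨b, c, h, t1, t0, t2⟩ := trip_core hG hM (l0 := l1) (l1 := l0) (l2 := l2) (c1 := c0)
      (c2 := c2) hc m1 m0 m2 (by rw [← hsyz]; ring)
      (fun p hp => by convert hs p hp using 2; ring) fun p hp a b c => hcut p hp b a c
    exact ⟨b, c, h, t0, t1, t2⟩
  · obtain ⟨b, c, h, t2, t1, t0⟩ := trip_core hG hM (l0 := l2) (l1 := l1) (l2 := l0) (c1 := c1)
      (c2 := c0) hc m2 m1 m0 (by rw [← hsyz]; ring)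
      (fun p hp => by convert hs p hp using 2; ring) fun p hp a b c => hcut p hp c b a
    exact ⟨b, c, h, t0, t1, t2⟩

/-- Determinant of three column vectors. -/
def det3 {E : Type*} [CommRing E] (a b c : Fin 3 → E) : E :=
  a 0 * (b 1 * c 2 - b 2 * c 1) - a 1 * (b 0 * c 2 - b 2 * c 0) + a 2 * (b 0 * c 1 - b 1 * c 0)

lemma map_det3 {E E' : Type*} [CommRing E] [CommRing E'] {Φ : Type*} [FunLike Φ E E']
    [RingHomClass Φ E E'] (φ : Φ) (a b c : Fin 3 → E) :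
    φ (det3 a b c) = det3 (fun i => φ (a i)) (fun i => φ (b i)) (fun i => φ (c i)) := by
  simp [det3]

lemma hr_det3 {a b c : Fin 3 → R} (ha : ∀ i, HR 1 (a i)) (hb : ∀ i, HR 1 (b i))
    (hc : ∀ i, HR 1 (c i)) : HR 3 (det3 a b c) := by
  have h : ∀ i j k l m, HR 3 (a i * (b j * c k - b l * c m)) := fun i j k l m =>
    (ha i).mul' (((hb j).mul (hc k)).sub ((hb l).mul (hc m))) (by norm_num)
  exact ((h _ _ _ _ _).sub (h _ _ _ _ _)).add (h _ _ _ _ _)

lemma vec3_ne_zero {E : Type*} [Zero E] {y : Fin 3 → E} :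
    y ≠ 0 ↔ y 0 ≠ 0 ∨ y 1 ≠ 0 ∨ y 2 ≠ 0 := by
  constructor
  · intro h
    by_contra hh
    push Not at hh
    exact h (by funext i; fin_cases i <;> simp [hh.1, hh.2.1, hh.2.2])
  · rintro h rfl; simp at h

lemma dep_iff {E : Type*} [Field E] {ι : Type*} (col : ι → Fin 3 → E) :
    (∃ y : Fin 3 → E, y ≠ 0 ∧ ∀ j, y 0 * col j 0 + y 1 * col j 1 + y 2 * col j 2 = 0) ↔
      ∀ i j k, det3 (col i) (col j) (col k) = 0 := by
  constructor
  · rintro ⟨y, hy, h⟩ i j k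
    have a := h i; have b := h j; have c := h k
    unfold det3
    rcases vec3_ne_zero.1 hy with h0 | h0 | h0 <;> apply mul_left_cancel₀ h0
    · linear_combination (col j 1 * col k 2 - col j 2 * col k 1) * a
        + (col k 1 * col i 2 - col k 2 * col i 1) * b + (col i 1 * col j 2 - col i 2 * col j 1) * c
    · linear_combination (col j 2 * col k 0 - col j 0 * col k 2) * a
        + (col k 2 * col i 0 - col k 0 * col i 2) * b + (col i 2 * col j 0 - col i 0 * col j 2) * c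
    · linear_combination (col j 0 * col k 1 - col j 1 * col k 0) * a
        + (col k 0 * col i 1 - col k 1 * col i 0) * b + (col i 0 * col j 1 - col i 1 * col j 0) * c
  · intro h
    by_cases h1 : ∃ i j, (![col i 1 * col j 2 - col i 2 * col j 1,
        col i 2 * col j 0 - col i 0 * col j 2, col i 0 * col j 1 - col i 1 * col j 0] :
        Fin 3 → E) ≠ 0
    · obtain ⟨i, j, hij⟩ := h1
      refine ⟨_, hij, fun k => ?_⟩
      have := h k i j
      simp only [det3, Matrix.cons_val_zero, Matrix.cons_val_one, Matrix.cons_val] at this ⊢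
      linear_combination this
    push Not at h1
    have e0 := fun i j => congrFun (h1 i j) 0
    have e1 := fun i j => congrFun (h1 i j) 1
    have e2 := fun i j => congrFun (h1 i j) 2
    simp only [Matrix.cons_val_zero, Matrix.cons_val_one, Matrix.cons_val, Pi.zero_apply]
      at e0 e1 e2
    by_cases h2 : ∃ i, col i 0 ≠ 0 ∨ col i 1 ≠ 0
    · obtain ⟨i, hi⟩ := h2
      refine ⟨![col i 1, -col i 0, 0], vec3_ne_zero.2 (by simp; tauto), fun k => ?_⟩
      simp only [Matrix.cons_val_zero, Matrix.cons_val_one, Matrix.cons_val]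
      linear_combination -e2 i k
    · push Not at h2
      exact ⟨![1, 0, 0], vec3_ne_zero.2 (by simp), fun k => by simp [(h2 k).1]⟩

lemma dep_of_kernel {E : Type*} [Field E] {n m : ℕ} (col : Fin n → Fin 3 → E)
    (w : Fin m → Fin n → E) (hw : LinearIndependent E w)
    (hk : ∀ k i, ∑ j, w k j * col j i = 0) (hnm : n ≤ m + 2) :
    ∀ i j k, det3 (col i) (col j) (col k) = 0 := by
  rw [← dep_iff]
  let φ : (Fin n → E) →ₗ[E] (Fin 3 → E) := Fintype.linearCombination E col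
  have h1 : m ≤ finrank E (LinearMap.ker φ) := by
    have hmem : ∀ k, w k ∈ LinearMap.ker φ := fun k => by
      rw [LinearMap.mem_ker]; funext i
      simpa [φ, Fintype.linearCombination_apply, Finset.sum_apply] using hk k i
    have := (LinearIndependent.of_comp (LinearMap.ker φ).subtype
      (v := fun k => (⟨w k, hmem k⟩ : LinearMap.ker φ)) hw).fintype_card_le_finrank
    simpa using this
  have h2 := φ.finrank_range_add_finrank_ker
  have h3 : LinearMap.range φ < ⊤ := by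
    rw [lt_top_iff_ne_top]
    intro ht
    rw [ht] at h2
    simp at h2
    omega
  obtain ⟨ψ, hψ, hle⟩ := Submodule.exists_le_ker_of_lt_top _ h3
  refine ⟨fun i => ψ (Pi.single i 1), fun h0 => hψ ?_, fun j => ?_⟩
  · refine LinearMap.pi_ext' fun i => LinearMap.ext_ring ?_
    simpa using congrFun h0 i
  · have : ψ (col j) = 0 := hle ⟨Pi.single j 1, by simp [φ]⟩
    have e : col j = col j 0 • Pi.single 0 1 + col j 1 • Pi.single 1 1 + col j 2 • Pi.single 2 1 := by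
      funext i; fin_cases i <;> simp
    rw [e] at this
    simp only [map_add, map_smul, smul_eq_mul] at this
    linear_combination this

lemma exists_net {n : ℕ} (col : Fin n → Fin 3 → R) (h : ∀ j i, HR 1 (col j i)) :
    ∃ N : (Fin 3 → ℝ) →ₗ[ℝ] Pt →ₗ[ℝ] (Fin n → ℝ), ∀ y p j,
      N y p j = y 0 * ev p (col j 0) + y 1 * ev p (col j 1) + y 2 * ev p (col j 2) := by
  choose l hl using fun j i => (h j i).exists_linearMap
  refine ⟨LinearMap.mk₂ ℝ (fun y p j => y 0 * l j 0 p + y 1 * l j 1 p + y 2 * l j 2 p)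
    ?_ ?_ ?_ ?_, fun y p j => by simp [hl]⟩
  · intro a b p; funext j; simp; ring
  · intro r a p; funext j; simp; ring
  · intro a p q; funext j; simp; ring
  · intro r a p; funext j; simp; ring

lemma net_iff {n : ℕ} {col : Fin n → Fin 3 → R} {N : (Fin 3 → ℝ) →ₗ[ℝ] Pt →ₗ[ℝ] (Fin n → ℝ)}
    (hN : ∀ y p j, N y p j =
      y 0 * ev p (col j 0) + y 1 * ev p (col j 1) + y 2 * ev p (col j 2)) (p : Pt) :
    (∃ y, y ≠ 0 ∧ N y p = 0) ↔ ∀ i j k, ev p (det3 (col i) (col j) (col k)) = 0 := by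
  simp only [map_det3]
  rw [← dep_iff (fun j i => ev p (col j i))]
  simp only [funext_iff (f := N _ p), hN, Pi.zero_apply]

/-- Polynomials of degree at most two in the fibre variables. -/
def Low (f : R) : Prop := ∃ Q b, f = quad Q + lin b

namespace Low
variable {f g : R}
lemma add (hf : Low f) (hg : Low g) : Low (f + g) := by
  obtain ⟨Q, b, rfl⟩ := hf
  obtain ⟨Q', b', rfl⟩ := hg
  exact ⟨Q + Q', b + b', by simp [quad, lin]; ring⟩
lemma C_mul (a : A) (hf : Low f) : Low (C a * f) := by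
  obtain ⟨Q, b, rfl⟩ := hf
  exact ⟨fun i => a * Q i, fun i => a * b i, by simp [quad, lin]; ring⟩
lemma neg (hf : Low f) : Low (-f) := by
  have e : -f = C (-1) * f := by rw [map_neg, map_one]; ring
  rw [e]; exact hf.C_mul (-1)
lemma sub (hf : Low f) (hg : Low g) : Low (f - g) := by
  rw [sub_eq_add_neg]; exact hf.add hg.neg
lemma mk (Q b : Fin 3 → A) : Low (quad Q + lin b) := ⟨Q, b, rfl⟩
lemma zero : Low 0 := ⟨0, 0, by simp⟩
lemma lin (b : Fin 3 → A) : Low (lin b) := ⟨0, b, by simp⟩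
lemma quad (b : Fin 3 → A) : Low (quad b) := ⟨b, 0, by simp⟩
lemma X0_lin (b : Fin 3 → A) : Low (X 0 * MP_886b5a_gt.lin b) :=
  ⟨![b 1, b 2, 0], ![0, b 0, 0], by simp [MP_886b5a_gt.quad, MP_886b5a_gt.lin]; ring⟩
lemma X1_lin (b : Fin 3 → A) : Low (X 1 * MP_886b5a_gt.lin b) :=
  ⟨![0, b 1, b 2], ![0, 0, b 0], by simp [MP_886b5a_gt.quad, MP_886b5a_gt.lin]; ring⟩
lemma sum {ι : Type*} (s : Finset ι) (f : ι → R) (h : ∀ i ∈ s, Low (f i)) :
    Low (∑ i ∈ s, f i) :=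
  Finset.sum_induction f Low (fun _ _ => Low.add) Low.zero h
lemma mem_s6 (hf : Low f) (J : Ideal R) : f ∈ spn s6 J := by
  obtain ⟨Q, b, rfl⟩ := hf; exact low_mem_s6 J Q b
end Low

lemma lead_iff {f : R} {g : Fin 4 → ℝ} : Lead f g ↔ Low (f - cubR g) := by
  constructor
  · rintro ⟨Q, b, rfl⟩; exact ⟨Q, b, by ring⟩
  · rintro ⟨Q, b, h⟩; exact ⟨Q, b, by rw [add_assoc, ← h]; ring⟩

lemma cubR_add (g g' : Fin 4 → ℝ) : cubR (g + g') = cubR g + cubR g' := by
  simp [cubR, cub]; ring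
lemma cubR_smul (r : ℝ) (g : Fin 4 → ℝ) : cubR (r • g) = C (C r) * cubR g := by
  simp [cubR, cub]; ring
@[simp] lemma cubR_zero : cubR 0 = 0 := by simp [cubR, cub]

lemma Lead.add {f f' : R} {g g' : Fin 4 → ℝ} (h : Lead f g) (h' : Lead f' g') :
    Lead (f + f') (g + g') := by
  rw [lead_iff] at *
  convert h.add h' using 1
  rw [cubR_add]; ring

lemma Lead.smul {f : R} {g : Fin 4 → ℝ} (r : ℝ) (h : Lead f g) : Lead (C (C r) * f) (r • g) := by
  rw [lead_iff] at *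
  convert h.C_mul (C r) using 1
  rw [cubR_smul]; ring

lemma Lead.low_sub {f f' : R} {g : Fin 4 → ℝ} (h : Lead f g) (h' : Lead f' g) : Low (f - f') := by
  rw [lead_iff] at *
  convert h.sub h' using 1
  ring

lemma HZ.eval_zero {m : ℤ} {a : A} (ha : HZ m a) (hm : m ≠ 0) : eval 0 a = 0 := by
  rw [MvPolynomial.eval_zero]; exact ha.constantCoeff hm

lemma low_of_ev {f : R} (hf : HR 3 f) (h : ∀ w : Fin 2 → ℝ, ev (0, w) f = 0) : Low f := by
  obtain ⟨g, Q, b, rfl⟩ := hf.lead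
  obtain ⟨-, hQ, b0, b1, b2⟩ := HR.coeffs hf
  have hQ' := fun i => (hQ i).eval_zero (by norm_num)
  have b0' := b0.eval_zero (by norm_num)
  have b1' := b1.eval_zero (by norm_num)
  have b2' := b2.eval_zero (by norm_num)
  have e0 := h ![1, 0]; have e1 := h ![0, 1]; have e2 := h ![1, 1]; have e3 := h ![1, -1]
  simp only [cubR, cub, quad, lin, map_add, map_mul, map_pow, ev_C, ev_X, eval_C, hQ', b0', b1',
    b2', Matrix.cons_val_zero, Matrix.cons_val_one] at e0 e1 e2 e3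
  have hg : g = 0 := by
    funext i; fin_cases i <;> simp <;> linarith
  exact ⟨Q, b, by simp [hg]⟩

end Pool.Agent.Lib.MP_886b5a_gt
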